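import Mathlib
import Pool.Agent.H585R2.DiffC

set_option autoImplicit false

/-! Basic definitions for the undecidability of the existential theory of `k(t)`, `char k = p`. -/

open Polynomial

namespace Pool.Agent.H367R2.H10

/-- `x` is of the form `y ^ p - y`; `f ~ g` means `AS p (f - g)`. -/
def AS (p : ℕ) {K : Type*} [Field K] (x : K) : Prop := ∃ y : K, y ^ p - y = x

/-- order at least `n` for a `ℤ`-valued valuation -/
def GE {K : Type*} [Field K] (V : Valuation K (WithZero (Multiplicative ℤ))) (n : ℤ) (f : K) :
    Prop := V f ≤ WithZero.exp (-n)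

/-- order exactly `n` -/
def EQ {K : Type*} [Field K] (V : Valuation K (WithZero (Multiplicative ℤ))) (n : ℤ) (f : K) :
    Prop := V f = WithZero.exp (-n)

/-- the height (degree) of a rational function -/
noncomputable def ht {k : Type*} [Field k] (f : RatFunc k) : ℕ :=
  max f.num.natDegree f.denom.natDegree

/-- the derivation `d/dt` -/
noncomputable abbrev DD {k : Type*} [Field k] : Derivation k (RatFunc k) (RatFunc k) :=
  Pool.Agent.H585R2.DiffC.ddt

/-- the valuation of an irreducible polynomial -/
noncomputable def plv {k : Type*} [Field k] (π : k[X]) (hπ : Irreducible π) :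
    Valuation (RatFunc k) (WithZero (Multiplicative ℤ)) :=
  IsDedekindDomain.HeightOneSpectrum.valuation (RatFunc k)
    ⟨Ideal.span {π}, (Ideal.span_singleton_prime hπ.ne_zero).2 hπ.prime, by
      rw [Ne, Ideal.span_singleton_eq_bot]; exact hπ.ne_zero⟩

end Pool.Agent.H367R2.H10
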