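import Mathlib
import Pool.Agent.H367R2.H10.Defs

set_option autoImplicit false

/-! Orders with respect to a valuation, and the equation `y ^ p - y = f`. -/

namespace Pool.Agent.H367R2.H10

section val

variable {K : Type*} [Field K] {V : Valuation K (WithZero (Multiplicative ℤ))}

theorem exp_le {a b : ℤ} : (WithZero.exp a : WithZero (Multiplicative ℤ)) ≤ WithZero.exp b ↔ a ≤ b :=
  WithZero.exp_le_exp

theorem GE.mono {m n : ℤ} {f : K} (hf : GE V n f) (h : m ≤ n) : GE V m f :=
  le_trans hf (exp_le.2 (by omega))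

theorem GE.zero (n : ℤ) : GE V n (0 : K) := by
  unfold GE; rw [map_zero]; exact zero_le

theorem GE.add {n : ℤ} {f g : K} (hf : GE V n f) (hg : GE V n g) : GE V n (f + g) :=
  (V.map_add f g).trans (max_le hf hg)

theorem GE.neg {n : ℤ} {f : K} (hf : GE V n f) : GE V n (-f) := by
  unfold GE; rw [Valuation.map_neg]; exact hf

theorem GE.sub {n : ℤ} {f g : K} (hf : GE V n f) (hg : GE V n g) : GE V n (f - g) := by
  rw [sub_eq_add_neg]; exact hf.add hg.neg

theorem GE.mul {m n : ℤ} {f g : K} (hf : GE V m f) (hg : GE V n g) : GE V (m + n) (f * g) := by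
  unfold GE
  rw [map_mul, neg_add, WithZero.exp_add]
  exact mul_le_mul' hf hg

theorem GE.one : GE V 0 (1 : K) := by
  unfold GE; rw [map_one, neg_zero, WithZero.exp_zero]

theorem GE.pow {n : ℤ} {f : K} (hf : GE V n f) (k : ℕ) : GE V (k * n) (f ^ k) := by
  induction k with
  | zero => simpa using GE.one
  | succ k ih =>
    rw [pow_succ]
    have := ih.mul hf
    refine this.mono (le_of_eq ?_)
    push_cast; ring

theorem GE.sum {ι : Type*} (s : Finset ι) {n : ℤ} {f : ι → K} (h : ∀ i ∈ s, GE V n (f i)) :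
    GE V n (∑ i ∈ s, f i) := by
  classical
  induction s using Finset.induction_on with
  | empty => simpa using GE.zero n
  | insert a s ha ih =>
    rw [Finset.sum_insert ha]
    exact (h a (Finset.mem_insert_self a s)).add
      (ih fun i hi => h i (Finset.mem_insert_of_mem hi))

theorem EQ.ge {n : ℤ} {f : K} (hf : EQ V n f) : GE V n f := le_of_eq hf

theorem EQ.ne_zero {n : ℤ} {f : K} (hf : EQ V n f) : f ≠ 0 := by
  rintro rfl
  unfold EQ at hf
  rw [map_zero] at hf
  exact WithZero.exp_ne_zero hf.symm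

theorem EQ.unique {m n : ℤ} {f : K} (hf : EQ V m f) (hg : EQ V n f) : m = n := by
  unfold EQ at hf hg
  rw [hf] at hg
  have := WithZero.exp_injective hg
  omega

theorem EQ.le_of_ge {m n : ℤ} {f : K} (hf : EQ V n f) (hg : GE V m f) : m ≤ n := by
  unfold EQ at hf
  unfold GE at hg
  rw [hf] at hg
  have := exp_le.1 hg
  omega

theorem exists_EQ {f : K} (hf : f ≠ 0) : ∃ n, EQ V n f := by
  have h : V f ≠ 0 := by rwa [Ne, map_eq_zero]
  refine ⟨-WithZero.log (V f), ?_⟩
  unfold EQ
  rw [neg_neg, WithZero.exp_log h]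

theorem EQ.mul {m n : ℤ} {f g : K} (hf : EQ V m f) (hg : EQ V n g) : EQ V (m + n) (f * g) := by
  unfold EQ at *
  rw [map_mul, neg_add, WithZero.exp_add, hf, hg]

theorem EQ.one : EQ V 0 (1 : K) := by
  unfold EQ; rw [map_one, neg_zero, WithZero.exp_zero]

theorem EQ.inv {n : ℤ} {f : K} (hf : EQ V n f) : EQ V (-n) f⁻¹ := by
  unfold EQ at *
  rw [map_inv₀, hf, WithZero.exp_neg, inv_inv, neg_neg]

theorem EQ.neg {n : ℤ} {f : K} (hf : EQ V n f) : EQ V n (-f) := by
  unfold EQ; rw [Valuation.map_neg]; exact hf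

theorem EQ.pow {n : ℤ} {f : K} (hf : EQ V n f) (k : ℕ) : EQ V (k * n) (f ^ k) := by
  induction k with
  | zero => simpa using EQ.one
  | succ k ih =>
    rw [pow_succ]
    have := ih.mul hf
    convert this using 1
    push_cast; ring

theorem EQ.add_ge {m n : ℤ} {f g : K} (hf : EQ V n f) (hg : GE V m g) (h : n < m) :
    EQ V n (f + g) := by
  unfold EQ at *
  rw [V.map_add_eq_of_lt_left, hf]
  rw [hf]
  exact lt_of_le_of_lt hg (by
    have : ¬ (WithZero.exp (-n) : WithZero (Multiplicative ℤ)) ≤ WithZero.exp (-m) := by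
      rw [exp_le]; omega
    exact not_le.1 this)

theorem EQ.sub_ge {m n : ℤ} {f g : K} (hf : EQ V n f) (hg : GE V m g) (h : n < m) :
    EQ V n (f - g) := by
  rw [sub_eq_add_neg]; exact hf.add_ge hg.neg h

theorem GE.div_EQ {m n : ℤ} {f g : K} (hf : GE V m f) (hg : EQ V n g) : GE V (m - n) (f / g) := by
  rw [div_eq_mul_inv, sub_eq_add_neg]; exact hf.mul hg.inv.ge

/-- if `f` does not have order at least `n + 1` and has order at least `n`, its order is `n` -/
theorem GE.lt_or {n : ℤ} {f : K} (hf : ¬ GE V n f) : ∃ m, m < n ∧ EQ V m f := by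
  have h0 : f ≠ 0 := by
    rintro rfl; exact hf (GE.zero n)
  obtain ⟨m, hm⟩ := exists_EQ (V := V) h0
  refine ⟨m, ?_, hm⟩
  by_contra h
  exact hf (hm.ge.mono (by omega))

/-- the order of a `p`-th power -/
theorem EQ.of_pow {n : ℤ} {f : K} {k : ℕ} (hk : k ≠ 0) (hf : EQ V n (f ^ k)) :
    ∃ m : ℤ, n = k * m ∧ EQ V m f := by
  have h0 : f ≠ 0 := by
    rintro rfl
    exact hf.ne_zero (zero_pow hk)
  obtain ⟨m, hm⟩ := exists_EQ (V := V) h0
  exact ⟨m, hf.unique (hm.pow k), hm⟩

theorem GE.of_pow {n : ℤ} {f : K} {k : ℕ} (hk : 0 < k) (hf : GE V (k * n) (f ^ k)) :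
    GE V n f := by
  by_contra h
  obtain ⟨m, hm, hE⟩ := GE.lt_or h
  have := (hE.pow k).le_of_ge hf
  have h2 : (0 : ℤ) < k := by exact_mod_cast hk
  nlinarith

variable {p : ℕ} [hp : Fact p.Prime]

theorem ptwo : (2 : ℤ) ≤ (p : ℤ) := by exact_mod_cast hp.out.two_le

/-- pole orders of `y ^ p - y` -/
theorem AS_EQ {y : K} {m : ℤ} (hy : EQ V m y) (hm : m < 0) : EQ V (p * m) (y ^ p - y) := by
  refine (hy.pow p).sub_ge hy.ge ?_
  have := ptwo (p := p)
  nlinarith

theorem AS_regular {y : K} (hy : GE V 0 y) : GE V 0 (y ^ p - y) := by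
  have := hy.pow p
  exact (this.mono (by simp)).sub hy

/-- the order of `y ^ p - y` is nonnegative or divisible by `p` -/
theorem AS_order {y f : K} (h : y ^ p - y = f) {n : ℤ} (hf : EQ V n f) (hn : n < 0) :
    (p : ℤ) ∣ n := by
  subst h
  by_cases hy : GE V 0 y
  · have := hf.le_of_ge (AS_regular (p := p) hy)
    omega
  · obtain ⟨m, hm, hE⟩ := GE.lt_or hy
    exact ⟨m, hf.unique (AS_EQ hE hm)⟩

/-- pole bound -/
theorem AS_bound {y : K} {n c : ℤ} (hc : 0 ≤ c) (h : n < p * (c + 1))
    (hf : GE V (-n) (y ^ p - y)) : GE V (-c) y := by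
  by_contra hy
  obtain ⟨m, hm, hE⟩ := GE.lt_or hy
  have h1 := (AS_EQ (p := p) hE (by omega)).le_of_ge hf
  have h2 := ptwo (p := p)
  nlinarith

end val

section AS

variable {K : Type*} [Field K] {p : ℕ} [hp : Fact p.Prime]

theorem AS.zero : AS p (0 : K) := ⟨0, by simp [hp.out.ne_zero]⟩

variable [CharP K p]

theorem AS.add {x y : K} (hx : AS p x) (hy : AS p y) : AS p (x + y) := by
  obtain ⟨u, rfl⟩ := hx
  obtain ⟨v, rfl⟩ := hy
  refine ⟨u + v, ?_⟩
  rw [add_pow_char]
  ring

theorem AS.neg {x : K} (hx : AS p x) : AS p (-x) := by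
  obtain ⟨u, rfl⟩ := hx
  refine ⟨-u, ?_⟩
  have h := sub_pow_char (p := p) (0 : K) u
  rw [zero_sub, zero_pow hp.out.ne_zero, zero_sub] at h
  rw [h]
  ring

theorem AS.sub {x y : K} (hx : AS p x) (hy : AS p y) : AS p (x - y) := by
  rw [sub_eq_add_neg]; exact hx.add hy.neg

theorem AS.sum {ι : Type*} (s : Finset ι) (f : ι → K) (h : ∀ i ∈ s, AS p (f i)) :
    AS p (∑ i ∈ s, f i) := by
  classical
  induction s using Finset.induction_on with
  | empty => simpa using AS.zero
  | insert a s ha ih =>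
    rw [Finset.sum_insert ha]
    exact (h a (Finset.mem_insert_self a s)).add
      (ih fun i hi => h i (Finset.mem_insert_of_mem hi))

omit hp [CharP K p] in
theorem AS.frob (x : K) : AS p (x ^ p - x) := ⟨x, rfl⟩

theorem AS.frob_iter (x : K) (n : ℕ) : AS p (x ^ p ^ n - x) := by
  induction n with
  | zero => simpa using AS.zero
  | succ n ih =>
    have : x ^ p ^ (n + 1) - x = ((x ^ p ^ n) ^ p - x ^ p ^ n) + (x ^ p ^ n - x) := by
      rw [pow_succ, pow_mul]; ring
    rw [this]
    exact (AS.frob _).add ih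

/-- `f ^ p ^ n ~ g` iff `f ~ g` -/
theorem AS.of_frob {f g : K} {n : ℕ} (h : AS p (f ^ p ^ n - g)) : AS p (f - g) := by
  have := h.sub (AS.frob_iter f n)
  rwa [show f ^ p ^ n - g - (f ^ p ^ n - f) = f - g by ring] at this

theorem AS.to_frob {f g : K} (n : ℕ) (h : AS p (f - g)) : AS p (f ^ p ^ n - g) := by
  have := h.add (AS.frob_iter f n)
  rwa [show f - g + (f ^ p ^ n - f) = f ^ p ^ n - g by ring] at this

theorem AS.symm {f g : K} (h : AS p (f - g)) : AS p (g - f) := by
  rw [← neg_sub]; exact h.neg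

theorem AS.trans {f g h : K} (h1 : AS p (f - g)) (h2 : AS p (g - h)) : AS p (f - h) := by
  have := h1.add h2
  rwa [sub_add_sub_cancel] at this

theorem AS.smul (c : ZMod p) {x : K} (hx : AS p x) : AS p (ZMod.castHom (dvd_refl p) K c * x) := by
  obtain ⟨u, rfl⟩ := hx
  refine ⟨ZMod.castHom (dvd_refl p) K c * u, ?_⟩
  rw [mul_pow, ← map_pow, ZMod.pow_card]
  ring

/-- elements fixed by the Frobenius -/
theorem exists_zmod_of_pow_eq {x : K} (h : x ^ p = x) :
    ∃ c : ZMod p, ZMod.castHom (dvd_refl p) K c = x := by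
  classical
  have hinj : Function.Injective (ZMod.castHom (dvd_refl p) K) :=
    RingHom.injective _
  by_contra hne
  push Not at hne
  let P : Polynomial K := Polynomial.X ^ p - Polynomial.X
  have hP : P ≠ 0 := by
    intro h0
    have h1 : P.coeff p = 1 := by
      simp [P, Polynomial.coeff_X, hp.out.one_lt.ne]
    rw [h0] at h1
    simp at h1
  let S : Finset K := insert x (Finset.univ.image (ZMod.castHom (dvd_refl p) K))
  have hS : S.card = p + 1 := by
    rw [Finset.card_insert_of_notMem, Finset.card_image_of_injective _ hinj, Finset.card_univ,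
      ZMod.card]
    intro hx
    rw [Finset.mem_image] at hx
    obtain ⟨c, -, hc⟩ := hx
    exact hne c hc
  have hsub : S ⊆ P.roots.toFinset := by
    intro y hy
    rw [Multiset.mem_toFinset, Polynomial.mem_roots hP, Polynomial.IsRoot]
    simp only [P, Polynomial.eval_sub, Polynomial.eval_pow, Polynomial.eval_X]
    rw [Finset.mem_insert, Finset.mem_image] at hy
    rcases hy with rfl | ⟨c, -, rfl⟩
    · rw [h, sub_self]
    · rw [← map_pow, ZMod.pow_card, sub_self]
  have h1 := Finset.card_le_card hsub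
  have h2 := Multiset.toFinset_card_le P.roots
  have h3 := Polynomial.card_roots' P
  have h4 : P.natDegree ≤ p := by
    refine (Polynomial.natDegree_sub_le _ _).trans ?_
    simp [Polynomial.natDegree_X_pow, hp.out.one_lt.le]
  omega

end AS

end Pool.Agent.H367R2.H10
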