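import Mathlib
import Pool.Agent.H367R2.H10.Core1

set_option autoImplicit false

/-! Additive polynomials, the predicates for Frobenius powers, good places. -/

open Polynomial Finset

namespace Pool.Agent.H367R2.H10

universe u

section gen

variable {K : Type u} [Field K]

/-- the embedding of the prime field -/
abbrev cc (p : ℕ) (K : Type u) [Field K] [CharP K p] : ZMod p →+* K :=
  ZMod.castHom (dvd_refl p) K

/-- the value at `v` of the additive polynomial `A(F)` -/
noncomputable def ev (p : ℕ) [CharP K p] (A : (ZMod p)[X]) (v : K) : K :=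
  A.sum fun i a => cc p K a * v ^ p ^ i

/-- `v F ^ |j| v` -/
def br (p : ℕ) (v : K) (j : ℤ) : K := v * v ^ p ^ j.natAbs

/-- `b = F ^ n x`, `n` an integer, `F` the Frobenius map -/
def Fz (p : ℕ) (n : ℤ) (x b : K) : Prop := x ^ p ^ n.toNat = b ^ p ^ (-n).toNat

/-- the basic relation between `x` and `b`, forcing `b = F ^ n x` -/
def PP (p : ℕ) (x b : K) : Prop :=
  x ^ p ^ 4 ≠ x ∧ b ^ p ^ 4 ≠ b ∧ AS p ((b ^ p ^ 4 - b)⁻¹ - (x ^ p ^ 4 - x)⁻¹) ∧
    AS p (b * (b ^ p ^ 4 - b)⁻¹ - x * (x ^ p ^ 4 - x)⁻¹)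

/-- forces `b = F ^ n x` and `Y = F ^ n y` with the same `n` -/
def Fr (p : ℕ) (x b y Y : K) : Prop :=
  PP p x b ∧ PP p y Y ∧ PP p (x * y) (b * Y) ∧ PP p ((x + 1) * y) ((b + 1) * Y)

section ev

variable {p : ℕ} [hp : Fact p.Prime] [CharP K p]

theorem ev_range (A : (ZMod p)[X]) (v : K) {n : ℕ} (hn : A.natDegree < n) :
    ev p A v = ∑ i ∈ range n, cc p K (A.coeff i) * v ^ p ^ i := by
  unfold ev
  rw [Polynomial.sum_over_range' A _ n hn]
  intro i; simp

theorem ev_zero (v : K) : ev p (0 : (ZMod p)[X]) v = 0 := by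
  simp [ev]

theorem ev_add (A B : (ZMod p)[X]) (v : K) : ev p (A + B) v = ev p A v + ev p B v := by
  unfold ev
  rw [Polynomial.sum_add_index]
  · intro i; simp
  · intro i a b; rw [map_add]; ring

omit hp in
theorem ev_monomial (n : ℕ) (a : ZMod p) (v : K) :
    ev p (monomial n a) v = cc p K a * v ^ p ^ n := by
  unfold ev
  rw [Polynomial.sum_monomial_index]
  simp

theorem ev_X_pow (n : ℕ) (v : K) : ev p ((X : (ZMod p)[X]) ^ n) v = v ^ p ^ n := by
  rw [← monomial_one_right_eq_X_pow, ev_monomial, map_one, one_mul]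

theorem cc_pow (c : ZMod p) (n : ℕ) : (cc p K c) ^ p ^ n = cc p K c := by
  rw [← map_pow, ZMod.pow_card_pow]

theorem ev_pow (A : (ZMod p)[X]) (v : K) (m : ℕ) {n : ℕ} (hn : A.natDegree < n) :
    ev p A v ^ p ^ m = ∑ i ∈ range n, cc p K (A.coeff i) * v ^ p ^ (i + m) := by
  rw [ev_range A v hn, sum_pow_char_pow]
  refine Finset.sum_congr rfl fun i _ => ?_
  rw [mul_pow, cc_pow, ← pow_mul, ← pow_add]

/-- nonzero elements of the prime field have order zero -/
theorem cc_EQ {V : Valuation K (WithZero (Multiplicative ℤ))} {c : ZMod p} (h0 : c ≠ 0) :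
    EQ V 0 (cc p K c) := by
  obtain ⟨n, hn⟩ := exists_EQ (V := V) (f := cc p K c) (by rw [Ne, map_eq_zero]; exact h0)
  have h3 := hn.pow p
  have h8 := cc_pow (K := K) c 1
  rw [pow_one] at h8
  rw [h8] at h3
  have h4 := h3.unique hn
  have h5 := ptwo (p := p)
  have h6 : n = 0 := by
    have h7 : ((p : ℤ) - 1) * n = 0 := by linear_combination h4
    rcases mul_eq_zero.1 h7 with h | h
    · omega
    · exact h
  rwa [h6] at hn

theorem cc_GE {V : Valuation K (WithZero (Multiplicative ℤ))} (c : ZMod p) :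
    GE V 0 (cc p K c) := by
  by_cases h0 : c = 0
  · rw [h0, map_zero]; exact GE.zero 0
  · exact (cc_EQ h0).ge

/-- local bound -/
theorem ev_GE {V : Valuation K (WithZero (Multiplicative ℤ))} (A : (ZMod p)[X]) {v : K} {e : ℤ}
    (he : 0 ≤ e) (hv : GE V (-e) v) {d : ℕ} (hd : A.natDegree ≤ d) :
    GE V (-(e * p ^ d)) (ev p A v) := by
  rw [ev_range A v (Nat.lt_succ_of_le hd)]
  refine GE.sum _ fun i hi => ?_
  have hi' : i ≤ d := by
    have := Finset.mem_range.1 hi
    omega
  have h1 : GE V 0 (cc p K (A.coeff i)) := cc_GE _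
  have h2 := h1.mul (hv.pow (p ^ i))
  refine h2.mono ?_
  push_cast
  have h3 : (p : ℤ) ^ i ≤ (p : ℤ) ^ d := pow_le_pow_right₀ (by have := ptwo (p := p); omega) hi'
  nlinarith

end ev

end gen

section places

variable {k : Type u} [Field k]

/-- a place of `k(t)` at which `v` has a simple pole, compatible with the derivation -/
structure Good (v : RatFunc k) (V : Valuation (RatFunc k) (WithZero (Multiplicative ℤ))) :
    Prop where
  pole : EQ V (-1) v
  dpole : EQ V (-2) (DD v)
  der : ∀ (n : ℤ) (f : RatFunc k), GE V n f → GE V (n - 1) (DD f)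

/-- there are many good places -/
structure Nice (v : RatFunc k) : Prop where
  dv : DD v ≠ 0
  hpos : 0 < ht v
  count : ∀ (Φ : RatFunc k) (σ : ℕ), Φ ≠ 0 →
    (∀ V : Valuation (RatFunc k) (WithZero (Multiplicative ℤ)), Good v V → GE V σ Φ) →
      11 * σ * ht v ≤ 16 * ht Φ

end places

end Pool.Agent.H367R2.H10
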