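import Mathlib
import Pool.Agent.H367R2.H10.Defs

set_option autoImplicit false

/-! Task T1: heights of rational functions. -/

open Polynomial

namespace Pool.Agent.H367R2.H10

universe u
variable {k : Type u} [Field k]

theorem ht_div_le (a b : k[X]) (hb : b ≠ 0) :
    ht (algebraMap k[X] (RatFunc k) a / algebraMap k[X] (RatFunc k) b) ≤
      max a.natDegree b.natDegree := by
  unfold ht
  apply max_le_max
  · by_cases ha : a = 0
    · rw [ha, map_zero, zero_div, RatFunc.num_zero]
    · exact natDegree_le_of_dvd (RatFunc.num_div_dvd a hb) ha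
  · exact natDegree_le_of_dvd (RatFunc.denom_div_dvd a b) hb

namespace T1

lemma am_ne {b : k[X]} (hb : b ≠ 0) : (algebraMap k[X] (RatFunc k) b) ≠ 0 :=
  RatFunc.algebraMap_ne_zero hb

lemma ht_coprime (a b : k[X]) (hb : b ≠ 0) (h : IsCoprime a b) :
    ht (algebraMap k[X] (RatFunc k) a / algebraMap k[X] (RatFunc k) b) =
      max a.natDegree b.natDegree := by
  apply le_antisymm (ht_div_le a b hb)
  set f := algebraMap k[X] (RatFunc k) a / algebraMap k[X] (RatFunc k) b with hf
  have key : f.num * b = a * f.denom := (RatFunc.num_mul_eq_mul_denom_iff hb).2 hf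
  unfold ht
  apply max_le_max
  · by_cases hn : f.num = 0
    · rw [hn, zero_mul] at key
      have ha : a = 0 := by
        rcases mul_eq_zero.1 key.symm with h1 | h1
        · exact h1
        · exact absurd h1 (RatFunc.denom_ne_zero f)
      rw [ha, natDegree_zero]
      exact Nat.zero_le _
    · apply natDegree_le_of_dvd _ hn
      apply h.dvd_of_dvd_mul_right
      rw [key]
      exact dvd_mul_right a _
  · apply natDegree_le_of_dvd _ (RatFunc.denom_ne_zero f)
    apply h.symm.dvd_of_dvd_mul_left
    rw [← key]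
    exact dvd_mul_left b _

lemma num_le (f : RatFunc k) : f.num.natDegree ≤ ht f := le_max_left _ _
lemma denom_le (f : RatFunc k) : f.denom.natDegree ≤ ht f := le_max_right _ _

lemma mul_le' {a b : k[X]} {m n : ℕ} (ha : a.natDegree ≤ m) (hb : b.natDegree ≤ n) :
    (a * b).natDegree ≤ m + n := natDegree_mul_le.trans (add_le_add ha hb)

lemma pow_le' {a : k[X]} {m : ℕ} (n : ℕ) (ha : a.natDegree ≤ m) :
    (a ^ n).natDegree ≤ n * m := natDegree_pow_le.trans (Nat.mul_le_mul_left n ha)

end T1

open T1

theorem ht_add_le (f g : RatFunc k) : ht (f + g) ≤ ht f + ht g := by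
  have h1 := am_ne f.denom_ne_zero
  have h2 := am_ne g.denom_ne_zero
  have e : f + g = algebraMap k[X] (RatFunc k) (f.num * g.denom + f.denom * g.num) /
      algebraMap k[X] (RatFunc k) (f.denom * g.denom) := by
    conv_lhs => rw [← RatFunc.num_div_denom f, ← RatFunc.num_div_denom g]
    rw [div_add_div _ _ h1 h2, map_add, map_mul, map_mul, map_mul]
  rw [e]
  refine (ht_div_le _ _ (mul_ne_zero f.denom_ne_zero g.denom_ne_zero)).trans (max_le ?_ ?_)
  · exact natDegree_add_le_of_degree_le (mul_le' (num_le f) (denom_le g))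
      (mul_le' (denom_le f) (num_le g))
  · exact mul_le' (denom_le f) (denom_le g)

theorem ht_neg (f : RatFunc k) : ht (-f) = ht f := by
  have e : -f = algebraMap k[X] (RatFunc k) (-f.num) / algebraMap k[X] (RatFunc k) f.denom := by
    conv_lhs => rw [← RatFunc.num_div_denom f]
    rw [map_neg, neg_div]
  rw [e, ht_coprime _ _ f.denom_ne_zero f.isCoprime_num_denom.neg_left, natDegree_neg]
  rfl

theorem ht_mul_le (f g : RatFunc k) : ht (f * g) ≤ ht f + ht g := by
  have e : f * g = algebraMap k[X] (RatFunc k) (f.num * g.num) /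
      algebraMap k[X] (RatFunc k) (f.denom * g.denom) := by
    conv_lhs => rw [← RatFunc.num_div_denom f, ← RatFunc.num_div_denom g]
    rw [div_mul_div_comm, map_mul, map_mul]
  rw [e]
  exact (ht_div_le _ _ (mul_ne_zero f.denom_ne_zero g.denom_ne_zero)).trans
    (max_le (mul_le' (num_le f) (num_le g)) (mul_le' (denom_le f) (denom_le g)))

theorem ht_inv (f : RatFunc k) : ht f⁻¹ = ht f := by
  by_cases hf : f = 0
  · rw [hf, inv_zero]
  · have e : f⁻¹ = algebraMap k[X] (RatFunc k) f.denom / algebraMap k[X] (RatFunc k) f.num := by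
      conv_lhs => rw [← RatFunc.num_div_denom f]
      rw [inv_div]
    rw [e, ht_coprime _ _ (RatFunc.num_ne_zero hf) f.isCoprime_num_denom.symm, max_comm]
    rfl

theorem ht_pow (f : RatFunc k) (n : ℕ) : ht (f ^ n) = n * ht f := by
  have e : f ^ n = algebraMap k[X] (RatFunc k) (f.num ^ n) /
      algebraMap k[X] (RatFunc k) (f.denom ^ n) := by
    conv_lhs => rw [← RatFunc.num_div_denom f]
    rw [div_pow, map_pow, map_pow]
  rw [e, ht_coprime _ _ (pow_ne_zero n f.denom_ne_zero) f.isCoprime_num_denom.pow,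
    natDegree_pow, natDegree_pow]
  unfold ht
  exact (Nat.mul_max_mul_left n _ _)

theorem ht_deriv_le (f : RatFunc k) : ht (DD f) ≤ 2 * ht f := by
  have e : DD f = algebraMap k[X] (RatFunc k)
      (derivative f.num * f.denom - f.num * derivative f.denom) /
      algebraMap k[X] (RatFunc k) (f.denom ^ 2) := rfl
  have d1 : (derivative f.num).natDegree ≤ ht f := (natDegree_derivative_le _).trans
    ((Nat.sub_le _ _).trans (num_le f))
  have d2 : (derivative f.denom).natDegree ≤ ht f := (natDegree_derivative_le _).trans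
    ((Nat.sub_le _ _).trans (denom_le f))
  rw [e]
  refine (ht_div_le _ _ (pow_ne_zero 2 f.denom_ne_zero)).trans (max_le ?_ (pow_le' 2 (denom_le f)))
  rw [two_mul]
  exact (natDegree_sub_le _ _).trans (max_le (mul_le' d1 (denom_le f)) (mul_le' (num_le f) d2))

theorem ht_const_mul_le (c : k) (f : RatFunc k) : ht (RatFunc.C c * f) ≤ ht f := by
  have e : RatFunc.C c * f = algebraMap k[X] (RatFunc k) (C c * f.num) /
      algebraMap k[X] (RatFunc k) f.denom := by
    conv_lhs => rw [← RatFunc.num_div_denom f]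
    rw [map_mul, RatFunc.algebraMap_C, mul_div_assoc]
  rw [e]
  exact (ht_div_le _ _ f.denom_ne_zero).trans (max_le_max (natDegree_C_mul_le _ _) le_rfl)

theorem ht_eq_zero (f : RatFunc k) (h : ht f = 0) : ∃ c : k, f = RatFunc.C c := by
  have h1 : f.num.natDegree = 0 := Nat.le_zero.1 ((num_le f).trans h.le)
  have h2 : f.denom.natDegree = 0 := Nat.le_zero.1 ((denom_le f).trans h.le)
  have h3 : f.denom = 1 := (Polynomial.Monic.natDegree_eq_zero (RatFunc.monic_denom f)).1 h2
  refine ⟨f.num.coeff 0, ?_⟩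
  have h4 := eq_C_of_natDegree_eq_zero h1
  have h5 := RatFunc.num_div_denom f
  rw [h3, map_one, div_one, h4, RatFunc.algebraMap_C] at h5
  rw [← h5, h4]
  rw [coeff_C_zero]
  conv_lhs => rw [← h5]

/-- `Θ ^ p - Θ` has height at most `p` times the height of `Θ`. -/
theorem ht_AS_le (p : ℕ) (hp : 2 ≤ p) (f : RatFunc k) : ht (f ^ p - f) ≤ p * ht f := by
  have hb := am_ne f.denom_ne_zero
  obtain ⟨q, rfl⟩ : ∃ q, p = q + 1 := ⟨p - 1, by omega⟩
  have e : f ^ (q + 1) - f = algebraMap k[X] (RatFunc k)
      (f.num ^ (q + 1) - f.num * f.denom ^ q) /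
      algebraMap k[X] (RatFunc k) (f.denom ^ (q + 1)) := by
    rw [eq_div_iff (am_ne (pow_ne_zero _ f.denom_ne_zero)), map_sub, map_mul, map_pow, map_pow,
      map_pow]
    have h : f * algebraMap k[X] (RatFunc k) f.denom = algebraMap k[X] (RatFunc k) f.num := by
      have h0 := RatFunc.num_div_denom f
      rw [div_eq_iff hb] at h0
      exact h0.symm
    rw [← h]
    ring
  rw [e]
  refine (ht_div_le _ _ (pow_ne_zero _ f.denom_ne_zero)).trans (max_le ?_ (pow_le' _ (denom_le f)))
  refine (natDegree_sub_le _ _).trans (max_le (pow_le' _ (num_le f)) ?_)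
  refine (mul_le' (num_le f) (pow_le' q (denom_le f))).trans (le_of_eq ?_)
  ring

end Pool.Agent.H367R2.H10
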