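import Mathlib
import Pool.Agent.H367R2.H10.Defs

set_option autoImplicit false

/-! Divisibility of polynomials through primes, and the kernel of the derivation (task T2). -/

open Polynomial

namespace Pool.Agent.H367R2.H10

universe u
variable {k : Type u} [Field k]

theorem dvd_of_prime_pow {a b : k[X]} (ha : a ≠ 0) (hb : b ≠ 0)
    (h : ∀ (π : k[X]) (_ : Irreducible π) (j : ℕ), π ^ j ∣ a → π ^ j ∣ b) : a ∣ b := by
  induction a using UniqueFactorizationMonoid.induction_on_prime generalizing b with
  | h₁ => exact absurd rfl ha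
  | h₂ a hu => exact hu.dvd
  | h₃ a q ha0 hq ih =>
    have hqb : q ∣ b := by
      have h1 := h q hq.irreducible 1 (by rw [pow_one]; exact dvd_mul_right _ _)
      rwa [pow_one] at h1
    obtain ⟨b', rfl⟩ := hqb
    have hb' : b' ≠ 0 := right_ne_zero_of_mul hb
    apply mul_dvd_mul_left
    apply ih ha0 hb'
    intro π hπ j hj
    by_cases hass : Associated π q
    · have h1 : π ^ (j + 1) ∣ q * a := by
        rw [pow_succ']
        exact mul_dvd_mul hass.dvd hj
      have h2 := h π hπ (j + 1) h1
      obtain ⟨v, hv⟩ := hass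
      rw [← hv, pow_succ', mul_assoc] at h2
      have h3 := (mul_dvd_mul_iff_left hπ.ne_zero).mp h2
      exact (v.isUnit.dvd_mul_left).mp h3
    · have h2 := h π hπ j (hj.mul_left q)
      have hco : IsCoprime π q := by
        rw [hπ.coprime_iff_not_dvd]
        intro hdvd
        exact hass (hπ.associated_of_dvd hq.irreducible hdvd)
      exact (hco.pow_left).dvd_of_dvd_mul_left h2

/-- a polynomial with derivative zero is a `p`-th power -/
theorem t2_exists_pow_poly (p : ℕ) [Fact p.Prime] [CharP k p] [PerfectField k]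
    (f : k[X]) (h : derivative f = 0) : ∃ g : k[X], g ^ p = f := by
  have hp0 : p ≠ 0 := (Fact.out : p.Prime).ne_zero
  have : ExpChar k p := ExpChar.prime Fact.out
  have : PerfectRing k p := PerfectField.toPerfectRing p
  set g := contract p f with hg
  have hfg : expand k p g = f := expand_contract p h hp0
  refine ⟨g.map ((frobeniusEquiv k p).symm : k →+* k), ?_⟩
  rw [← map_frobenius_expand, map_expand, Polynomial.map_map]
  have h1 : (frobenius k p).comp ((frobeniusEquiv k p).symm : k →+* k) = RingHom.id k := by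
    ext x
    simp
  rw [← hfg]
  conv_rhs => rw [← Polynomial.map_id (p := g)]
  rw [← h1]

theorem t2_main (p : ℕ) [Fact p.Prime] [CharP k p] [PerfectField k]
    (f : RatFunc k) (h : DD f = 0) : ∃ g : RatFunc k, g ^ p = f ∧
      p * (g.num.natDegree + g.denom.natDegree) ≤ f.num.natDegree + f.denom.natDegree := by
  have hq : f.denom ≠ 0 := RatFunc.denom_ne_zero f
  have hcop : IsCoprime f.num f.denom := RatFunc.isCoprime_num_denom f
  have h1 := Pool.Agent.H585R2.DiffC.D_div DD Pool.Agent.H585R2.DiffC.ddt_X f.num hq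
  rw [RatFunc.num_div_denom, h, zero_mul] at h1
  have h2 : derivative f.num * f.denom - f.num * derivative f.denom = 0 :=
    RatFunc.algebraMap_injective k (by rw [← h1, map_zero])
  have hw : wronskian f.num f.denom = 0 := by
    unfold wronskian
    linear_combination -h2
  obtain ⟨hn, hd⟩ := hcop.wronskian_eq_zero_iff.mp hw
  obtain ⟨u, hu⟩ := t2_exists_pow_poly p _ hn
  obtain ⟨v, hv⟩ := t2_exists_pow_poly p _ hd
  have hp0 : p ≠ 0 := (Fact.out : p.Prime).ne_zero
  have hv0 : v ≠ 0 := by
    rintro rfl
    rw [zero_pow hp0] at hv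
    exact hq hv.symm
  refine ⟨algebraMap _ _ u / algebraMap _ _ v, ?_, ?_⟩
  · rw [div_pow, ← map_pow, ← map_pow, hu, hv, RatFunc.num_div_denom]
  · have e1 : p * u.natDegree = f.num.natDegree := by rw [← hu, natDegree_pow]
    have e2 : p * v.natDegree = f.denom.natDegree := by rw [← hv, natDegree_pow]
    rw [← e1, ← e2, ← mul_add]
    apply Nat.mul_le_mul_left
    apply add_le_add
    · by_cases hu0 : u = 0
      · rw [hu0]
        simp
      · exact natDegree_le_of_dvd (RatFunc.num_div_dvd u hv0) hu0
    · exact natDegree_le_of_dvd (RatFunc.denom_div_dvd u v) hv0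

/-- in a perfect field of characteristic `p` the kernel of the derivation consists of the
`p`-th powers -/
theorem exists_pow_of_deriv_eq_zero (p : ℕ) [Fact p.Prime] [CharP k p] [PerfectField k]
    (f : RatFunc k) (h : DD f = 0) : ∃ g : RatFunc k, g ^ p = f := by
  obtain ⟨g, hg, _⟩ := t2_main p f h
  exact ⟨g, hg⟩

theorem deriv_pow_char (p : ℕ) [Fact p.Prime] [CharP k p] (f : RatFunc k) : DD (f ^ p) = 0 := by
  have : CharP (RatFunc k) p :=
    charP_of_injective_algebraMap (algebraMap k (RatFunc k)).injective p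
  rw [Derivation.leibniz_pow, nsmul_eq_mul, CharP.cast_eq_zero, zero_mul]

/-- every nonconstant rational function is a `p ^ n`-th power of one with nonzero derivative -/
theorem exists_root_deriv_ne_zero (p : ℕ) [Fact p.Prime] [CharP k p] [PerfectField k]
    (f : RatFunc k) (h : ∀ c : k, f ≠ RatFunc.C c) :
    ∃ (g : RatFunc k) (n : ℕ), g ^ p ^ n = f ∧ DD g ≠ 0 := by
  have hp1 : 1 < p := (Fact.out : p.Prime).one_lt
  induction hN : f.num.natDegree + f.denom.natDegree using Nat.strong_induction_on
    generalizing f with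
  | _ N ih =>
  by_cases hD : DD f = 0
  · obtain ⟨g, hg, hle⟩ := t2_main p f hD
    have hgc : ∀ c : k, g ≠ RatFunc.C c := by
      intro c hc
      apply h (c ^ p)
      rw [← hg, hc, map_pow]
    have hpos : 0 < g.num.natDegree + g.denom.natDegree := by
      rw [Nat.pos_iff_ne_zero]
      intro h0
      have hn0 : g.num.natDegree = 0 := by omega
      have hd0 : g.denom.natDegree = 0 := by omega
      obtain ⟨x, hx⟩ := natDegree_eq_zero.mp hn0
      obtain ⟨y, hy⟩ := natDegree_eq_zero.mp hd0
      apply hgc (x / y)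
      rw [← RatFunc.num_div_denom g, ← hx, ← hy, map_div₀, RatFunc.algebraMap_C,
        RatFunc.algebraMap_C]
    have hlt : g.num.natDegree + g.denom.natDegree < N := by
      rw [← hN]
      nlinarith
    obtain ⟨g', n, hg', hDg'⟩ := ih _ hlt g hgc rfl
    refine ⟨g', n + 1, ?_, hDg'⟩
    rw [pow_succ, pow_mul, hg', hg]
  · exact ⟨f, 0, by rw [pow_zero, pow_one], hD⟩

end Pool.Agent.H367R2.H10
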