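import Mathlib
import Pool.Agent.H367R2.H10.Defs

set_option autoImplicit false

/-! T3: places of `k(t)` -/

open Polynomial

namespace Pool.Agent.H367R2.H10

universe u
variable {k : Type u} [Field k]

namespace T3

theorem plv_am {π : k[X]} (hπ : Irreducible π) (a : k[X]) (n : ℕ) :
    plv π hπ (algebraMap k[X] (RatFunc k) a) ≤ WithZero.exp (-(n : ℤ)) ↔ π ^ n ∣ a := by
  rw [plv, IsDedekindDomain.HeightOneSpectrum.valuation_of_algebraMap,
    IsDedekindDomain.HeightOneSpectrum.intValuation_le_pow_iff_mem]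
  rw [Ideal.span_singleton_pow, Ideal.mem_span_singleton]

theorem plv_le_one {π : k[X]} (hπ : Irreducible π) (a : k[X]) :
    plv π hπ (algebraMap k[X] (RatFunc k) a) ≤ 1 := by
  have := (plv_am hπ a 0).2 (by simp)
  simpa using this

theorem plv_unit {π : k[X]} (hπ : Irreducible π) (b : k[X]) (hb : ¬ π ∣ b) :
    plv π hπ (algebraMap k[X] (RatFunc k) b) = 1 := by
  rw [plv, IsDedekindDomain.HeightOneSpectrum.valuation_eq_one_iff_notMem]
  rwa [Ideal.mem_span_singleton]

theorem plv_self {π : k[X]} (hπ : Irreducible π) :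
    plv π hπ (algebraMap k[X] (RatFunc k) π) = WithZero.exp (-1 : ℤ) := by
  rw [plv, IsDedekindDomain.HeightOneSpectrum.valuation_of_algebraMap]
  exact IsDedekindDomain.HeightOneSpectrum.intValuation_singleton _ hπ.ne_zero rfl

theorem plv_pow {π : k[X]} (hπ : Irreducible π) (n : ℕ) (b : k[X]) (hb : ¬ π ∣ b) :
    plv π hπ (algebraMap k[X] (RatFunc k) (π ^ n * b)) = WithZero.exp (-(n : ℤ)) := by
  rw [map_mul, map_mul, map_pow, map_pow, plv_self, plv_unit hπ b hb, mul_one,
    ← WithZero.exp_nsmul]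
  congr 1
  simp

theorem decomp {π : k[X]} (hπ : Irreducible π) (a : k[X]) (ha : a ≠ 0) :
    ∃ (n : ℕ) (b : k[X]), ¬ π ∣ b ∧ a = π ^ n * b := by
  have hf : FiniteMultiplicity π a :=
    FiniteMultiplicity.of_not_isUnit hπ.not_isUnit ha
  obtain ⟨b, hb, hn⟩ := hf.exists_eq_pow_mul_and_not_dvd
  exact ⟨_, b, hn, hb⟩

theorem DD_eq (a b : k[X]) (hb : b ≠ 0) :
    DD (algebraMap k[X] (RatFunc k) a / algebraMap k[X] (RatFunc k) b) =
      algebraMap k[X] (RatFunc k) (derivative a * b - a * derivative b) /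
        algebraMap k[X] (RatFunc k) (b ^ 2) := by
  change Pool.Agent.H585R2.DiffC.dd _ = _
  rw [Pool.Agent.H585R2.DiffC.dd_div a hb]
  rfl

theorem pi_mul_deriv (π a : k[X]) (i : ℕ) :
    π * derivative (π ^ i * a) = π ^ i * ((i : k[X]) * derivative π * a + π * derivative a) := by
  rcases i with _ | i
  · simp
  · rw [derivative_mul, derivative_pow_succ]
    push_cast
    simp only [map_add, map_natCast, map_one]
    ring

/-- the key formula -/
theorem deriv_key {π : k[X]} (hπ : Irreducible π) (f : RatFunc k) (hf : f ≠ 0) :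
    ∃ (N : ℤ) (a b c : k[X]), ¬ π ∣ a ∧ ¬ π ∣ b ∧ plv π hπ f = WithZero.exp (-N) ∧
      plv π hπ (DD f) = WithZero.exp (-(N - 1)) *
        plv π hπ (algebraMap k[X] (RatFunc k) ((N : k[X]) * derivative π * a * b + π * c)) := by
  have hnum : f.num ≠ 0 := RatFunc.num_ne_zero hf
  have hden : f.denom ≠ 0 := RatFunc.denom_ne_zero f
  obtain ⟨i, a, ha, hia⟩ := decomp hπ f.num hnum
  obtain ⟨j, b, hb, hjb⟩ := decomp hπ f.denom hden
  have hfe : f = algebraMap k[X] (RatFunc k) f.num / algebraMap k[X] (RatFunc k) f.denom :=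
    (RatFunc.num_div_denom f).symm
  refine ⟨(i : ℤ) - j, a, b, derivative a * b - a * derivative b, ha, hb, ?_, ?_⟩
  · rw [hfe, map_div₀, hia, hjb, plv_pow hπ i a ha, plv_pow hπ j b hb, ← WithZero.exp_sub]
    congr 1
    ring
  · have hb0 : b ≠ 0 := fun h => hb (h ▸ dvd_zero π)
    have hpj : π ^ j * b ≠ 0 := mul_ne_zero (pow_ne_zero j hπ.ne_zero) hb0
    have e1 : π * (derivative f.num * f.denom - f.num * derivative f.denom) =
        π ^ (i + j) * ((((i : ℤ) - j : ℤ) : k[X]) * derivative π * a * b +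
          π * (derivative a * b - a * derivative b)) := by
      rw [hia, hjb]
      have h1 := pi_mul_deriv π a i
      have h2 := pi_mul_deriv π b j
      push_cast
      linear_combination (π ^ j * b) * h1 - (π ^ i * a) * h2
    have e2 : plv π hπ (DD f) = plv π hπ (algebraMap k[X] (RatFunc k)
        (derivative f.num * f.denom - f.num * derivative f.denom)) *
        WithZero.exp (2 * (j : ℤ)) := by
      conv_lhs => rw [hfe]
      rw [DD_eq _ _ hden, map_div₀]
      have : plv π hπ (algebraMap k[X] (RatFunc k) (f.denom ^ 2)) =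
          WithZero.exp (-(2 * (j : ℤ))) := by
        rw [map_pow, map_pow, hjb, plv_pow hπ j b hb, ← WithZero.exp_nsmul]
        congr 1
        simp
      rw [this, WithZero.exp_neg, div_inv_eq_mul]
    have e3 := congrArg (fun q => plv π hπ (algebraMap k[X] (RatFunc k) q)) e1
    beta_reduce at e3
    rw [map_mul, map_mul, plv_self, map_mul, map_mul, map_pow, map_pow, plv_self,
      ← WithZero.exp_nsmul] at e3
    rw [e2]
    have e4 : plv π hπ (algebraMap k[X] (RatFunc k)
        (derivative f.num * f.denom - f.num * derivative f.denom)) =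
        WithZero.exp (1 : ℤ) * (WithZero.exp ((i + j) • (-1 : ℤ)) *
          plv π hπ (algebraMap k[X] (RatFunc k) ((((i : ℤ) - j : ℤ) : k[X]) * derivative π * a * b +
          π * (derivative a * b - a * derivative b)))) := by
      rw [← e3, ← mul_assoc, ← WithZero.exp_add]
      simp
    rw [e4]
    have e5 : (WithZero.exp (-((i : ℤ) - j - 1)) : WithZero (Multiplicative ℤ)) =
        WithZero.exp (1 : ℤ) * WithZero.exp ((i + j) • (-1 : ℤ)) * WithZero.exp (2 * (j : ℤ)) := by
      rw [← WithZero.exp_add, ← WithZero.exp_add]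
      congr 1
      simp
      ring
    rw [e5]
    ac_rfl

end T3

/-- valuation of a quotient of polynomials -/
theorem plv_le_one_of_denom {π : k[X]} (hπ : Irreducible π) (a b : k[X]) (hb : ¬ π ∣ b) :
    plv π hπ (algebraMap k[X] (RatFunc k) a / algebraMap k[X] (RatFunc k) b) ≤ 1 := by
  rw [map_div₀, T3.plv_unit hπ b hb, div_one]
  exact T3.plv_le_one hπ a

theorem plv_poly_GE {π : k[X]} (hπ : Irreducible π) (a : k[X]) (n : ℕ) :
    GE (plv π hπ) n (algebraMap k[X] (RatFunc k) a) ↔ π ^ n ∣ a := T3.plv_am hπ a n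

/-- order at least `n ≥ 1` means that `π ^ n` divides the numerator -/
theorem plv_num_dvd {π : k[X]} (hπ : Irreducible π) (f : RatFunc k) (n : ℕ)
    (h : GE (plv π hπ) n f) : π ^ n ∣ f.num := by
  rw [← T3.plv_am hπ]
  have hden : f.denom ≠ 0 := RatFunc.denom_ne_zero f
  have h1 : algebraMap k[X] (RatFunc k) f.num = f * algebraMap k[X] (RatFunc k) f.denom := by
    have hfe : f = algebraMap k[X] (RatFunc k) f.num / algebraMap k[X] (RatFunc k) f.denom :=
      (RatFunc.num_div_denom f).symm
    exact (div_eq_iff (RatFunc.algebraMap_ne_zero hden)).mp hfe.symm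
  rw [h1, map_mul]
  calc plv π hπ f * plv π hπ (algebraMap k[X] (RatFunc k) f.denom)
      ≤ WithZero.exp (-(n : ℤ)) * 1 := mul_le_mul' h (T3.plv_le_one hπ _)
    _ = _ := mul_one _

/-- if `π ^ n` divides the denominator exactly, `n ≥ 1`, the order is `-n` -/
theorem plv_denom_EQ {π : k[X]} (hπ : Irreducible π) (f : RatFunc k) (n : ℕ) (hn : 0 < n)
    (h1 : π ^ n ∣ f.denom) (h2 : ¬ π ^ (n + 1) ∣ f.denom) :
    EQ (plv π hπ) (-n) f := by
  have hden : f.denom ≠ 0 := RatFunc.denom_ne_zero f
  obtain ⟨b, hb⟩ := h1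
  have hb' : ¬ π ∣ b := by
    rintro ⟨c, rfl⟩
    exact h2 ⟨c, by rw [hb]; ring⟩
  have hπd : π ∣ f.denom := by
    rw [hb]
    exact (dvd_pow_self π hn.ne').mul_right b
  have hnum : ¬ π ∣ f.num := by
    intro h
    have hc := RatFunc.isCoprime_num_denom f
    exact hπ.not_isUnit (hc.isUnit_of_dvd' h hπd)
  rw [EQ]
  conv_lhs => rw [← RatFunc.num_div_denom f]
  rw [map_div₀, T3.plv_unit hπ _ hnum, hb, T3.plv_pow hπ n b hb', one_div, ← WithZero.exp_neg]

/-- the derivation lowers the order at most by one -/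
theorem plv_deriv {π : k[X]} (hπ : Irreducible π) (n : ℤ) (f : RatFunc k)
    (h : GE (plv π hπ) n f) : GE (plv π hπ) (n - 1) (DD f) := by
  by_cases hf : f = 0
  · rw [hf, map_zero, GE, map_zero]
    exact zero_le
  obtain ⟨N, a, b, c, ha, hb, h1, h2⟩ := T3.deriv_key hπ f hf
  rw [GE, h1, WithZero.exp_le_exp] at h
  rw [GE, h2]
  calc WithZero.exp (-(N - 1)) * plv π hπ (algebraMap k[X] (RatFunc k)
        ((N : k[X]) * derivative π * a * b + π * c))
      ≤ WithZero.exp (-(n - 1)) * 1 := by
        refine mul_le_mul' ?_ (T3.plv_le_one hπ _)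
        rw [WithZero.exp_le_exp]
        linarith
    _ = _ := mul_one _

/-- ... and the order of the derivative of a uniformizer is zero -/
theorem plv_deriv_unif [PerfectField k] {π : k[X]} (hπ : Irreducible π) (f : RatFunc k)
    (h : EQ (plv π hπ) 1 f) : EQ (plv π hπ) 0 (DD f) := by
  by_cases hf : f = 0
  · rw [hf, EQ, map_zero] at h
    exact absurd h.symm WithZero.exp_ne_zero
  obtain ⟨N, a, b, c, ha, hb, h1, h2⟩ := T3.deriv_key hπ f hf
  rw [EQ, h1, WithZero.exp_inj] at h
  have hN : N = 1 := by linarith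
  subst hN
  rw [EQ, h2, T3.plv_unit hπ, mul_one]
  · simp
  · intro hd
    have hsep : π.Separable := PerfectField.separable_of_irreducible hπ
    have h3 : π ∣ derivative π * a * b := by
      have := (dvd_add_left (dvd_mul_right π c)).mp hd
      simpa using this
    rcases hπ.prime.dvd_or_dvd h3 with h4 | h4
    · rcases hπ.prime.dvd_or_dvd h4 with h5 | h5
      · exact hπ.not_isUnit (hsep.isUnit_of_dvd' dvd_rfl h5)
      · exact ha h5
    · exact hb h4

/-- a place at infinity: `V f = exp (deg num - deg denom)` for `f ≠ 0` -/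
theorem exists_infty : ∃ V : Valuation (RatFunc k) (WithZero (Multiplicative ℤ)),
    (∀ f : RatFunc k, f ≠ 0 → EQ V ((f.denom.natDegree : ℤ) - f.num.natDegree) f) ∧
    (∀ (n : ℤ) (f : RatFunc k), GE V n f → GE V (n - 1) (DD f)) := by
  classical
  have hE : ∀ f : RatFunc k, f ≠ 0 → RatFunc.inftyValuation k f =
      WithZero.exp (-((f.denom.natDegree : ℤ) - f.num.natDegree)) := by
    intro f hf
    rw [RatFunc.inftyValuation_apply, RatFunc.inftyValuation_of_nonzero k hf, RatFunc.intDegree]
    congr 1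
    ring
  refine ⟨RatFunc.inftyValuation k, hE, ?_⟩
  intro n f hf
  by_cases h0 : f = 0
  · rw [h0, map_zero, GE, map_zero]
    exact zero_le
  have hden : f.denom ≠ 0 := RatFunc.denom_ne_zero f
  have hfe : f = algebraMap k[X] (RatFunc k) f.num / algebraMap k[X] (RatFunc k) f.denom :=
    (RatFunc.num_div_denom f).symm
  rw [GE, hE f h0, WithZero.exp_le_exp] at hf
  rw [GE]
  conv_lhs => rw [hfe]
  rw [T3.DD_eq _ _ hden, map_div₀]
  by_cases h1 : derivative f.num * f.denom - f.num * derivative f.denom = 0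
  · rw [h1, map_zero, map_zero, zero_div]
    exact zero_le
  rw [RatFunc.inftyValuation_apply, RatFunc.inftyValuation_apply,
    RatFunc.inftyValuation.polynomial k h1,
    RatFunc.inftyValuation.polynomial k (pow_ne_zero 2 hden), ← WithZero.exp_sub,
    WithZero.exp_le_exp, natDegree_pow]
  have h2 : (derivative f.num * f.denom - f.num * derivative f.denom).natDegree ≤
      f.num.natDegree + f.denom.natDegree := by
    refine (natDegree_sub_le _ _).trans (max_le ?_ ?_)
    · refine natDegree_mul_le.trans ?_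
      have := natDegree_derivative_le f.num
      omega
    · refine natDegree_mul_le.trans ?_
      have := natDegree_derivative_le f.denom
      omega
  push_cast
  have h3 : ((derivative f.num * f.denom - f.num * derivative f.denom).natDegree : ℤ) ≤
      f.num.natDegree + f.denom.natDegree := by exact_mod_cast h2
  linarith

end Pool.Agent.H367R2.H10
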