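import Mathlib
import Pool.Agent.H367R2.H10.Defs2
import Pool.Agent.H367R2.H10.T1
import Pool.Agent.H367R2.H10.T2
import Pool.Agent.H367R2.H10.T3

set_option autoImplicit false

/-! B1: many good places. -/

open Polynomial Finset

namespace Pool.Agent.H367R2.H10

universe u
variable {k : Type u} [Field k]

namespace B1

/-- the Wronskian of numerator and denominator -/
noncomputable def Wr (x : RatFunc k) : k[X] :=
  derivative x.num * x.denom - x.num * derivative x.denom

/-- the polynomial `f ^ q - f * g ^ (q - 1)` -/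
noncomputable def FF (q : ℕ) (f g : k[X]) : k[X] := f ^ q - f * g ^ (q - 1)

theorem am_num_denom (x : RatFunc k) :
    algebraMap k[X] (RatFunc k) x.num / algebraMap k[X] (RatFunc k) x.denom = x :=
  RatFunc.num_div_denom x

theorem DD_eq_Wr (x : RatFunc k) :
    DD x = algebraMap k[X] (RatFunc k) (Wr x) / algebraMap k[X] (RatFunc k) (x.denom ^ 2) := by
  conv_lhs => rw [← am_num_denom x]
  rw [T3.DD_eq _ _ (RatFunc.denom_ne_zero x)]
  rfl

theorem Wr_ne {x : RatFunc k} (hx : DD x ≠ 0) : Wr x ≠ 0 := by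
  intro h
  apply hx
  rw [DD_eq_Wr, h, map_zero, zero_div]

theorem ht_pos {x : RatFunc k} (hx : DD x ≠ 0) : 0 < ht x := by
  rw [Nat.pos_iff_ne_zero]
  intro h
  obtain ⟨c, rfl⟩ := ht_eq_zero x h
  apply hx
  have : (RatFunc.C c : RatFunc k) = algebraMap k (RatFunc k) c := rfl
  rw [this]
  exact DD.map_algebraMap c

theorem Wr_deg {x : RatFunc k} (h : 0 < ht x) : (Wr x).natDegree + 1 ≤ 2 * ht x := by
  have h1 := T1.num_le x
  have h2 := T1.denom_le x
  have h3 : (derivative x.num * x.denom).natDegree ≤ 2 * ht x - 1 := by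
    by_cases h0 : x.num.natDegree = 0
    · rw [derivative_of_natDegree_zero h0, zero_mul, natDegree_zero]
      exact Nat.zero_le _
    · have := natDegree_derivative_lt h0
      refine natDegree_mul_le.trans ?_
      omega
  have h4 : (x.num * derivative x.denom).natDegree ≤ 2 * ht x - 1 := by
    by_cases h0 : x.denom.natDegree = 0
    · rw [derivative_of_natDegree_zero h0, mul_zero, natDegree_zero]
      exact Nat.zero_le _
    · have := natDegree_derivative_lt h0
      refine natDegree_mul_le.trans ?_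
      omega
  have h5 : (Wr x).natDegree ≤ 2 * ht x - 1 := by
    refine (natDegree_sub_le _ _).trans ?_
    exact max_le h3 h4
  omega

theorem FF_coprime {q : ℕ} (hq : 2 ≤ q) {f g : k[X]} (h : IsCoprime f g) :
    IsCoprime (FF q f g) g := by
  have h1 : FF q f g = f ^ q + g * (-(f * g ^ (q - 2))) := by
    unfold FF
    have : g ^ (q - 1) = g * g ^ (q - 2) := by
      rw [← pow_succ']
      congr 1
      omega
    rw [this]
    ring
  rw [h1]
  exact (h.pow_left).add_mul_left_left _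

/-- the case of unequal degrees -/
theorem FF_deg_lt {q : ℕ} (hq : 2 ≤ q) {h g : k[X]} (hh : h ≠ 0)
    (hlt : h.natDegree < g.natDegree) : (q - 1) * g.natDegree ≤ (FF q h g).natDegree := by
  have hg : g ≠ 0 := by
    rintro rfl
    simp at hlt
  have h1 : (h * g ^ (q - 1)).natDegree = h.natDegree + (q - 1) * g.natDegree := by
    rw [natDegree_mul hh (pow_ne_zero _ hg), natDegree_pow]
  have h2 : (h ^ q).natDegree < (h * g ^ (q - 1)).natDegree := by
    rw [h1, natDegree_pow]
    obtain ⟨r, rfl⟩ : ∃ r, q = r + 2 := ⟨q - 2, by omega⟩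
    have : r + 2 - 1 = r + 1 := by omega
    rw [this]
    nlinarith
  have h3 : (FF q h g).natDegree = (h * g ^ (q - 1)).natDegree := by
    unfold FF
    exact natDegree_sub_eq_right_of_natDegree_lt h2
  rw [h3, h1]
  omega

theorem FF_deg (p : ℕ) [Fact p.Prime] [CharP k p] {f g : k[X]} (hg : g ≠ 0)
    (hF : FF (p ^ 4) f g ≠ 0) :
    (p ^ 4 - 1) * max f.natDegree g.natDegree ≤ (FF (p ^ 4) f g).natDegree := by
  have hp2 := (Fact.out : p.Prime).two_le
  have hq : 2 ≤ p ^ 4 := by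
    calc 2 ≤ p := hp2
      _ = p ^ 1 := (pow_one p).symm
      _ ≤ p ^ 4 := Nat.pow_le_pow_right (by omega) (by norm_num)
  have hf : f ≠ 0 := by
    rintro rfl
    apply hF
    unfold FF
    rw [zero_pow (by omega), zero_mul, sub_zero]
  rcases lt_trichotomy f.natDegree g.natDegree with hlt | heq | hgt
  · rw [max_eq_right hlt.le]
    exact FF_deg_lt hq hf hlt
  · rw [max_eq_right heq.le]
    by_cases hlead : f.leadingCoeff ^ p ^ 4 = f.leadingCoeff * g.leadingCoeff ^ (p ^ 4 - 1)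
    · -- f = c g + h
      set α := f.leadingCoeff with hα
      set β := g.leadingCoeff with hβ
      have hα0 : α ≠ 0 := leadingCoeff_ne_zero.2 hf
      have hβ0 : β ≠ 0 := leadingCoeff_ne_zero.2 hg
      set c := α / β with hc
      have hc0 : c ≠ 0 := div_ne_zero hα0 hβ0
      have hcq : c ^ p ^ 4 = c := by
        have h1 : β ^ p ^ 4 = β ^ (p ^ 4 - 1) * β := by
          rw [← pow_succ]
          congr 1
          omega
        rw [hc, div_pow, hlead, h1]
        field_simp
      set h := f - C c * g with hh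
      have hfe : f = C c * g + h := by rw [hh]; ring
      have hFh : FF (p ^ 4) f g = FF (p ^ 4) h g := by
        unfold FF
        rw [hfe, add_pow_char_pow, mul_pow, ← C_pow, hcq]
        have h1 : g ^ p ^ 4 = g * g ^ (p ^ 4 - 1) := by
          rw [← pow_succ']
          congr 1
          omega
        rw [h1]
        ring
      rw [hFh]
      have hh0 : h ≠ 0 := by
        intro h0
        apply hF
        rw [hFh, h0]
        unfold FF
        rw [zero_pow (by omega), zero_mul, sub_zero]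
      have hdeg : h.degree < g.degree := by
        have h1 : (C c * g).degree = g.degree := degree_C_mul hc0
        have h2 : f.degree = (C c * g).degree := by
          rw [h1, degree_eq_natDegree hf, degree_eq_natDegree hg, heq]
        have h3 : f.leadingCoeff = (C c * g).leadingCoeff := by
          rw [leadingCoeff_mul, leadingCoeff_C, ← hα, ← hβ, hc]
          field_simp
        have h4 := degree_sub_lt h2 hf h3
        rw [degree_eq_natDegree hf, heq, ← degree_eq_natDegree hg] at h4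
        exact h4
      exact FF_deg_lt hq hh0 (natDegree_lt_natDegree hh0 hdeg)
    · have hcoef : (FF (p ^ 4) f g).coeff (p ^ 4 * g.natDegree) ≠ 0 := by
        have h1 : (f ^ p ^ 4).coeff (p ^ 4 * g.natDegree) = f.leadingCoeff ^ p ^ 4 := by
          rw [← heq, ← natDegree_pow, ← leadingCoeff_pow]
          rfl
        have h2 : (f * g ^ (p ^ 4 - 1)).coeff (p ^ 4 * g.natDegree) =
            f.leadingCoeff * g.leadingCoeff ^ (p ^ 4 - 1) := by
          have h3 : p ^ 4 * g.natDegree = (f * g ^ (p ^ 4 - 1)).natDegree := by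
            rw [natDegree_mul hf (pow_ne_zero _ hg), natDegree_pow, heq]
            have : p ^ 4 = (p ^ 4 - 1) + 1 := by omega
            nth_rewrite 1 [this]
            ring
          rw [h3, coeff_natDegree, leadingCoeff_mul, leadingCoeff_pow]
        unfold FF
        rw [coeff_sub, h1, h2]
        exact sub_ne_zero.2 hlead
      refine le_trans ?_ (le_natDegree_of_ne_zero hcoef)
      exact Nat.mul_le_mul_right _ (Nat.sub_le _ _)
  · rw [max_eq_left hgt.le]
    have h1 : (f * g ^ (p ^ 4 - 1)).natDegree = f.natDegree + (p ^ 4 - 1) * g.natDegree := by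
      rw [natDegree_mul hf (pow_ne_zero _ hg), natDegree_pow]
    have h2 : (f * g ^ (p ^ 4 - 1)).natDegree < (f ^ p ^ 4).natDegree := by
      rw [h1, natDegree_pow]
      have : p ^ 4 = (p ^ 4 - 1) + 1 := by omega
      have h3 : 0 < p ^ 4 - 1 := by omega
      calc f.natDegree + (p ^ 4 - 1) * g.natDegree
          < f.natDegree + (p ^ 4 - 1) * f.natDegree := by
            exact Nat.add_lt_add_left (Nat.mul_lt_mul_of_pos_left hgt h3) _
        _ = ((p ^ 4 - 1) + 1) * f.natDegree := by ring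
        _ = p ^ 4 * f.natDegree := by rw [← this]
    have h3 : (FF (p ^ 4) f g).natDegree = (f ^ p ^ 4).natDegree := by
      unfold FF
      exact natDegree_sub_eq_left_of_natDegree_lt h2
    rw [h3, natDegree_pow]
    exact Nat.mul_le_mul_right _ (Nat.sub_le _ _)

theorem FF_deriv (p : ℕ) [Fact p.Prime] [CharP k p] (f g : k[X]) :
    derivative (FF (p ^ 4) f g) =
      -(g ^ (p ^ 4 - 2) * (derivative f * g - f * derivative g)) := by
  have hp2 := (Fact.out : p.Prime).two_le
  have hq : 2 ≤ p ^ 4 := by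
    calc 2 ≤ p := hp2
      _ = p ^ 1 := (pow_one p).symm
      _ ≤ p ^ 4 := Nat.pow_le_pow_right (by omega) (by norm_num)
  have hq0 : ((p ^ 4 : ℕ) : k[X]) = 0 := by
    have : ((p ^ 4 : ℕ) : k) = 0 := by
      rw [Nat.cast_pow, CharP.cast_eq_zero, zero_pow (by norm_num)]
    rw [← C_eq_natCast, this, C_0]
  have hq1 : ((p ^ 4 - 1 : ℕ) : k[X]) = -1 := by
    have h8 : p ^ 4 - 1 + 1 = p ^ 4 := by omega
    have h9 : (((p ^ 4 - 1 + 1 : ℕ)) : k[X]) = ((p ^ 4 : ℕ) : k[X]) := by rw [h8]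
    rw [Nat.cast_add, Nat.cast_one, hq0] at h9
    linear_combination h9
  have h1 : g ^ (p ^ 4 - 1) = g * g ^ (p ^ 4 - 2) := by
    rw [← pow_succ']
    congr 1
    omega
  unfold FF
  rw [derivative_sub, derivative_mul, derivative_pow, derivative_pow, C_eq_natCast,
    C_eq_natCast, hq0, hq1, h1]
  have : p ^ 4 - 1 - 1 = p ^ 4 - 2 := by omega
  rw [this]
  ring

theorem FF_ne (p : ℕ) [Fact p.Prime] [CharP k p] {x : RatFunc k} (hx : DD x ≠ 0) :
    FF (p ^ 4) x.num x.denom ≠ 0 := by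
  intro h
  have h1 := FF_deriv p x.num x.denom
  rw [h, derivative_zero] at h1
  have h2 : x.denom ^ (p ^ 4 - 2) * Wr x = 0 := by
    have := neg_eq_zero.1 h1.symm
    exact this
  rcases mul_eq_zero.1 h2 with h3 | h3
  · exact RatFunc.denom_ne_zero x (eq_zero_of_pow_eq_zero h3)
  · exact Wr_ne hx h3

theorem v_eq (p : ℕ) [Fact p.Prime] (x : RatFunc k) :
    (x ^ p ^ 4 - x)⁻¹ = algebraMap k[X] (RatFunc k) (x.denom ^ p ^ 4) /
      algebraMap k[X] (RatFunc k) (FF (p ^ 4) x.num x.denom) := by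
  have hp2 := (Fact.out : p.Prime).two_le
  have hq : 2 ≤ p ^ 4 := by
    calc 2 ≤ p := hp2
      _ = p ^ 1 := (pow_one p).symm
      _ ≤ p ^ 4 := Nat.pow_le_pow_right (by omega) (by norm_num)
  have hg : algebraMap k[X] (RatFunc k) x.denom ≠ 0 := T1.am_ne (RatFunc.denom_ne_zero x)
  have h1 : x ^ p ^ 4 - x = algebraMap k[X] (RatFunc k) (FF (p ^ 4) x.num x.denom) /
      algebraMap k[X] (RatFunc k) (x.denom ^ p ^ 4) := by
    conv_lhs => rw [← am_num_denom x]
    rw [eq_div_iff (by rw [map_pow]; exact pow_ne_zero _ hg)]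
    unfold FF
    rw [map_sub, map_pow, map_mul, map_pow, map_pow, sub_mul, div_pow,
      div_mul_cancel₀ _ (pow_ne_zero _ hg)]
    congr 1
    have h2 : (algebraMap k[X] (RatFunc k) x.denom) ^ p ^ 4 =
        algebraMap k[X] (RatFunc k) x.denom *
          (algebraMap k[X] (RatFunc k) x.denom) ^ (p ^ 4 - 1) := by
      rw [← pow_succ']
      congr 1
      omega
    rw [h2]
    field_simp
  rw [h1, inv_div]

theorem good_of_simple (p : ℕ) [Fact p.Prime] [CharP k p] [PerfectField k] {x : RatFunc k}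
    {π : k[X]} (hπ : Irreducible π) (h1 : π ∣ FF (p ^ 4) x.num x.denom)
    (h2 : ¬ π ^ 2 ∣ FF (p ^ 4) x.num x.denom) :
    Good ((x ^ p ^ 4 - x)⁻¹) (plv π hπ) := by
  have hp2 := (Fact.out : p.Prime).two_le
  have hq : 2 ≤ p ^ 4 := by
    calc 2 ≤ p := hp2
      _ = p ^ 1 := (pow_one p).symm
      _ ≤ p ^ 4 := Nat.pow_le_pow_right (by omega) (by norm_num)
  have hco := FF_coprime hq (RatFunc.isCoprime_num_denom x)
  have hg : ¬ π ∣ x.denom := fun h => hπ.not_isUnit (hco.isUnit_of_dvd' h1 h)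
  have hgq : ¬ π ∣ x.denom ^ p ^ 4 := fun h => hg (hπ.prime.dvd_of_dvd_pow h)
  obtain ⟨b, hb⟩ := h1
  have hb' : ¬ π ∣ b := by
    rintro ⟨c, rfl⟩
    exact h2 ⟨c, by rw [hb]; ring⟩
  have hF : plv π hπ (algebraMap k[X] (RatFunc k) (FF (p ^ 4) x.num x.denom)) =
      WithZero.exp (-(1 : ℤ)) := by
    have := T3.plv_pow hπ 1 b hb'
    rw [pow_one] at this
    rw [hb, this]
    rfl
  have hpole : EQ (plv π hπ) (-1) ((x ^ p ^ 4 - x)⁻¹) := by
    unfold EQ
    rw [v_eq, map_div₀, T3.plv_unit hπ _ hgq, hF, one_div, ← WithZero.exp_neg]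
  have h3 : EQ (plv π hπ) 1 (x ^ p ^ 4 - x) := by
    have := hpole.inv
    rw [inv_inv, neg_neg] at this
    exact this
  have h4 : DD (x ^ p ^ 4 - x) = - DD x := by
    rw [map_sub]
    have : x ^ p ^ 4 = (x ^ p ^ 3) ^ p := by rw [← pow_mul, ← pow_succ]
    rw [this, deriv_pow_char, zero_sub]
  have h5 : DD ((x ^ p ^ 4 - x)⁻¹) = (x ^ p ^ 4 - x)⁻¹ ^ 2 * DD x := by
    rw [Derivation.leibniz_inv, h4, smul_eq_mul]
    ring
  refine ⟨hpole, ?_, fun n f hf => plv_deriv hπ n f hf⟩
  have h6 := plv_deriv_unif hπ _ h3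
  rw [h4] at h6
  have h7 := h6.neg
  rw [neg_neg] at h7
  rw [h5]
  have h8 := (hpole.pow 2).mul h7
  convert h8 using 1
  norm_num

theorem key_dvd (p : ℕ) [Fact p.Prime] [CharP k p] [PerfectField k] {x : RatFunc k}
    (hx : DD x ≠ 0) (Φ : RatFunc k) (σ : ℕ) (hΦ : Φ ≠ 0)
    (h : ∀ V : Valuation (RatFunc k) (WithZero (Multiplicative ℤ)),
      Good ((x ^ p ^ 4 - x)⁻¹) V → GE V σ Φ) :
    FF (p ^ 4) x.num x.denom ^ σ ∣ Wr x ^ (2 * σ) * Φ.num := by
  have hp2 := (Fact.out : p.Prime).two_le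
  have hq : 2 ≤ p ^ 4 := by
    calc 2 ≤ p := hp2
      _ = p ^ 1 := (pow_one p).symm
      _ ≤ p ^ 4 := Nat.pow_le_pow_right (by omega) (by norm_num)
  have hF := FF_ne p hx
  have hW := Wr_ne hx
  have hnum : Φ.num ≠ 0 := RatFunc.num_ne_zero hΦ
  have hco := FF_coprime hq (RatFunc.isCoprime_num_denom x)
  apply dvd_of_prime_pow (pow_ne_zero _ hF) (mul_ne_zero (pow_ne_zero _ hW) hnum)
  intro π hπ j hj
  obtain ⟨e, b, hb, hFe⟩ := T3.decomp hπ _ hF
  have hje : j ≤ e * σ := by
    rw [hFe, mul_pow, ← pow_mul] at hj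
    have hco2 : IsCoprime (π ^ j) (b ^ σ) := by
      apply IsCoprime.pow
      rw [hπ.coprime_iff_not_dvd]
      exact hb
    have h1 : π ^ j ∣ π ^ (e * σ) := hco2.dvd_of_dvd_mul_right hj
    exact (pow_dvd_pow_iff hπ.ne_zero hπ.not_isUnit).1 h1
  rcases Nat.lt_or_ge e 2 with he | he
  · interval_cases e
    · have : j = 0 := by omega
      rw [this, pow_zero]
      exact one_dvd _
    · have h1 : π ∣ FF (p ^ 4) x.num x.denom := by
        rw [hFe, pow_one]
        exact dvd_mul_right _ _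
      have h2 : ¬ π ^ 2 ∣ FF (p ^ 4) x.num x.denom := by
        rw [hFe, pow_one, pow_two]
        intro h2
        exact hb ((mul_dvd_mul_iff_left hπ.ne_zero).1 h2)
      have h3 := h _ (good_of_simple p hπ h1 h2)
      have h4 := plv_num_dvd hπ Φ σ h3
      rw [one_mul] at hje
      exact ((pow_dvd_pow π hje).trans h4).mul_left _
  · have h1 : π ^ (e - 1) ∣ derivative (FF (p ^ 4) x.num x.denom) := by
      have h2 : π ^ e ∣ FF (p ^ 4) x.num x.denom := ⟨b, hFe⟩
      exact pow_sub_one_dvd_derivative_of_pow_dvd h2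
    have hdF : π ∣ FF (p ^ 4) x.num x.denom := by
      rw [hFe]
      exact (dvd_pow_self π (by omega)).mul_right b
    have hg : ¬ π ∣ x.denom := fun h => hπ.not_isUnit (hco.isUnit_of_dvd' hdF h)
    rw [FF_deriv] at h1
    have h2 : π ^ (e - 1) ∣ x.denom ^ (p ^ 4 - 2) * Wr x := (dvd_neg.1 h1)
    have hco2 : IsCoprime (π ^ (e - 1)) (x.denom ^ (p ^ 4 - 2)) := by
      apply IsCoprime.pow
      rw [hπ.coprime_iff_not_dvd]
      exact hg
    have h3 : π ^ (e - 1) ∣ Wr x := hco2.dvd_of_dvd_mul_left h2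
    have h4 : π ^ ((e - 1) * (2 * σ)) ∣ Wr x ^ (2 * σ) := by
      rw [pow_mul]
      exact pow_dvd_pow_of_dvd h3 _
    have h5 : j ≤ (e - 1) * (2 * σ) := by
      refine hje.trans ?_
      have h6 : e ≤ (e - 1) * 2 := by omega
      calc e * σ ≤ ((e - 1) * 2) * σ := Nat.mul_le_mul_right _ h6
        _ = (e - 1) * (2 * σ) := by ring
    exact ((pow_dvd_pow π h5).trans h4).mul_right _

end B1

theorem nice_of (p : ℕ) [Fact p.Prime] [CharP k p] [PerfectField k] (x : RatFunc k)
    (hx : DD x ≠ 0) : Nice ((x ^ p ^ 4 - x)⁻¹) := by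
  have hp2 := (Fact.out : p.Prime).two_le
  have hq16 : 16 ≤ p ^ 4 := by
    have : 2 ^ 4 ≤ p ^ 4 := Nat.pow_le_pow_left hp2 4
    omega
  have hF := B1.FF_ne p hx
  have hn := B1.ht_pos hx
  have hco := B1.FF_coprime (q := p ^ 4) (by omega) (RatFunc.isCoprime_num_denom x)
  have hFdeg := B1.FF_deg p (RatFunc.denom_ne_zero x) hF
  have hht : ht ((x ^ p ^ 4 - x)⁻¹) =
      max (x.denom ^ p ^ 4).natDegree (B1.FF (p ^ 4) x.num x.denom).natDegree := by
    rw [B1.v_eq, T1.ht_coprime _ _ hF hco.symm.pow_left]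
  have hFle : (B1.FF (p ^ 4) x.num x.denom).natDegree ≤ p ^ 4 * ht x := by
    have h1 := T1.num_le x
    have h2 := T1.denom_le x
    unfold B1.FF
    refine (natDegree_sub_le _ _).trans (max_le ?_ ?_)
    · rw [natDegree_pow]
      exact Nat.mul_le_mul_left _ h1
    · refine natDegree_mul_le.trans ?_
      rw [natDegree_pow]
      have : p ^ 4 = (p ^ 4 - 1) + 1 := by omega
      calc x.num.natDegree + (p ^ 4 - 1) * x.denom.natDegree
          ≤ ht x + (p ^ 4 - 1) * ht x := add_le_add h1 (Nat.mul_le_mul_left _ h2)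
        _ = ((p ^ 4 - 1) + 1) * ht x := by ring
        _ = p ^ 4 * ht x := by rw [← this]
  have hle : ht ((x ^ p ^ 4 - x)⁻¹) ≤ p ^ 4 * ht x := by
    rw [hht]
    refine max_le ?_ hFle
    rw [natDegree_pow]
    exact Nat.mul_le_mul_left _ (T1.denom_le x)
  have hge : (p ^ 4 - 1) * ht x ≤ ht ((x ^ p ^ 4 - x)⁻¹) := by
    rw [hht]
    exact hFdeg.trans (le_max_right _ _)
  refine ⟨?_, ?_, ?_⟩
  · have h4 : DD (x ^ p ^ 4 - x) = - DD x := by
      rw [map_sub]
      have : x ^ p ^ 4 = (x ^ p ^ 3) ^ p := by rw [← pow_mul, ← pow_succ]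
      rw [this, deriv_pow_char, zero_sub]
    have h5 : DD ((x ^ p ^ 4 - x)⁻¹) = (x ^ p ^ 4 - x)⁻¹ ^ 2 * DD x := by
      rw [Derivation.leibniz_inv, h4, smul_eq_mul]
      ring
    have h6 : (x ^ p ^ 4 - x)⁻¹ ≠ 0 := by
      rw [B1.v_eq]
      exact div_ne_zero (T1.am_ne (pow_ne_zero _ (RatFunc.denom_ne_zero x))) (T1.am_ne hF)
    rw [h5]
    exact mul_ne_zero (pow_ne_zero _ h6) hx
  · refine lt_of_lt_of_le ?_ hge
    exact Nat.mul_pos (by omega) hn
  · intro Φ σ hΦ h
    have h1 := B1.key_dvd p hx Φ σ hΦ h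
    have h2 := natDegree_le_of_dvd h1
      (mul_ne_zero (pow_ne_zero _ (B1.Wr_ne hx)) (RatFunc.num_ne_zero hΦ))
    have h3 : (B1.Wr x ^ (2 * σ) * Φ.num).natDegree ≤ (2 * σ) * (2 * ht x) + ht Φ := by
      refine natDegree_mul_le.trans (add_le_add ?_ (T1.num_le Φ))
      rw [natDegree_pow]
      refine Nat.mul_le_mul_left _ ?_
      have := B1.Wr_deg hn
      omega
    rw [natDegree_pow] at h2
    have h4 : σ * ((p ^ 4 - 1) * ht x) ≤ (2 * σ) * (2 * ht x) + ht Φ := by
      refine le_trans ?_ (h2.trans h3)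
      exact Nat.mul_le_mul_left _ hFdeg
    have h5 : 11 * σ * ht ((x ^ p ^ 4 - x)⁻¹) ≤ 11 * σ * (p ^ 4 * ht x) :=
      Nat.mul_le_mul_left _ hle
    refine h5.trans ?_
    obtain ⟨r, hr⟩ : ∃ r, p ^ 4 = r + 16 := ⟨p ^ 4 - 16, by omega⟩
    rw [hr] at h4 ⊢
    have h6 : r + 16 - 1 = r + 15 := by omega
    rw [h6] at h4
    nlinarith [Nat.zero_le (σ * ht x), Nat.zero_le (σ * ht x * r)]

theorem Nice.exists_good {v : RatFunc k} (hv : Nice v) :
    ∃ V : Valuation (RatFunc k) (WithZero (Multiplicative ℤ)), Good v V := by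
  by_contra hne
  push Not at hne
  have h1 := hv.count 1 1 one_ne_zero (fun V hV => absurd hV (hne V))
  have h2 : ht (1 : RatFunc k) = 0 := by
    unfold ht
    rw [RatFunc.num_one, RatFunc.denom_one, natDegree_one, max_self]
  rw [h2] at h1
  have := hv.hpos
  omega

end Pool.Agent.H367R2.H10
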