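import Mathlib
import Pool.Agent.H367R2.H10.Defs2
import Pool.Agent.H367R2.H10.T1
import Pool.Agent.H367R2.H10.T2
import Pool.Agent.H367R2.H10.T3

set_option autoImplicit false

/-! Task B2: the basic relation `PP`. -/

open Polynomial Finset

namespace Pool.Agent.H367R2.H10

universe u
variable {k : Type u} [Field k]

namespace B2

/-- numerator of `x ^ q - x` for `x = f / g` -/
noncomputable def FF (q : ℕ) (f g : k[X]) : k[X] := f ^ q - f * g ^ (q - 1)

/-- numerator of the derivative of `f / g` -/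
noncomputable def WW (f g : k[X]) : k[X] := derivative f * g - f * derivative g

theorem max_le_sub {a b : k[X]} (h : a.natDegree ≠ b.natDegree) :
    max a.natDegree b.natDegree ≤ (a - b).natDegree := by
  rcases lt_or_gt_of_ne h with h | h
  · rw [natDegree_sub_eq_right_of_natDegree_lt h]; exact max_le h.le le_rfl
  · rw [natDegree_sub_eq_left_of_natDegree_lt h]; exact max_le le_rfl h.le

theorem deg_case1 {q : ℕ} (hq : 2 ≤ q) {f g : k[X]} (hf : f ≠ 0) (hg : g ≠ 0)
    (h : f.natDegree ≠ g.natDegree) :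
    (q - 1) * max f.natDegree g.natDegree ≤ (FF q f g).natDegree := by
  obtain ⟨r, rfl⟩ : ∃ r, q = r + 1 := ⟨q - 1, by omega⟩
  have hr : 0 < r := by omega
  have h1 : (f ^ (r + 1)).natDegree = (r + 1) * f.natDegree := natDegree_pow _ _
  have h2 : (f * g ^ r).natDegree = f.natDegree + r * g.natDegree := by
    rw [natDegree_mul hf (pow_ne_zero _ hg), natDegree_pow]
  have h3 : (f ^ (r + 1)).natDegree ≠ (f * g ^ r).natDegree := by
    rw [h1, h2]
    intro h4
    apply h
    have h5 : r * f.natDegree = r * g.natDegree := by linarith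
    exact Nat.eq_of_mul_eq_mul_left hr h5
  have h4 := max_le_sub h3
  rw [h1, h2] at h4
  unfold FF
  simp only [Nat.add_sub_cancel] at h4 ⊢
  refine le_trans ?_ h4
  rw [← Nat.mul_max_mul_left]
  apply max_le_max <;> nlinarith

theorem deg_FF (p : ℕ) [hp : Fact p.Prime] [CharP k p] {f g : k[X]} (hf : f ≠ 0) (hg : g ≠ 0)
    (hW : WW f g ≠ 0) :
    (p ^ 4 - 1) * max f.natDegree g.natDegree ≤ (FF (p ^ 4) f g).natDegree := by
  have hp2 := hp.out.two_le
  have hq : 2 ≤ p ^ 4 := by
    calc 2 ≤ 2 ^ 4 := by norm_num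
      _ ≤ p ^ 4 := Nat.pow_le_pow_left hp2 4
  by_cases h : f.natDegree = g.natDegree
  · obtain ⟨r, hr⟩ : ∃ r, p ^ 4 = r + 1 := ⟨p ^ 4 - 1, by omega⟩
    have hβ : g.leadingCoeff ≠ 0 := leadingCoeff_ne_zero.2 hg
    by_cases hc : (f.leadingCoeff / g.leadingCoeff) ^ p ^ 4 = f.leadingCoeff / g.leadingCoeff
    · set c := f.leadingCoeff / g.leadingCoeff with hcd
      set h0 := f - C c * g with hh0
      have hne : h0 ≠ 0 := by
        intro h1
        apply hW
        have h2 : f = C c * g := sub_eq_zero.1 h1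
        rw [h2]
        unfold WW
        rw [derivative_mul, derivative_C]
        ring
      have hlt : h0.natDegree < g.natDegree := by
        have hg1 : C c * g ≠ 0 := by
          apply mul_ne_zero _ hg
          rw [Ne, C_eq_zero, hcd, div_eq_zero_iff, not_or]
          exact ⟨leadingCoeff_ne_zero.2 hf, hβ⟩
        have hdeg : f.degree = (C c * g).degree := by
          have hc0 : c ≠ 0 := by
            intro h; apply hg1; rw [h, C_0, zero_mul]
          rw [degree_C_mul hc0, degree_eq_natDegree hf, degree_eq_natDegree hg, h]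
        have hlc : f.leadingCoeff = (C c * g).leadingCoeff := by
          rw [leadingCoeff_mul, leadingCoeff_C, hcd, div_mul_cancel₀ _ hβ]
        have h3 := degree_sub_lt_left hdeg hf hlc
        rw [degree_eq_natDegree hf, h, ← hh0, degree_eq_natDegree hne] at h3
        exact_mod_cast h3
      have hFF : FF (p ^ 4) f g = FF (p ^ 4) h0 g := by
        have hf1 : f = h0 + C c * g := by rw [hh0]; ring
        have h4 : f ^ p ^ 4 = h0 ^ p ^ 4 + C c * g ^ p ^ 4 := by
          conv_lhs => rw [hf1]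
          rw [add_pow_char_pow, mul_pow, ← C_pow, hc]
        unfold FF
        rw [h4]
        conv_lhs => rw [hf1]
        rw [hr, Nat.add_sub_cancel]
        ring
      have h5 := deg_case1 hq hne hg hlt.ne
      rw [hFF]
      rw [max_eq_right hlt.le] at h5
      rw [h, max_self]
      exact h5
    · have hcoeff : (FF (p ^ 4) f g).coeff (p ^ 4 * f.natDegree) ≠ 0 := by
        have h1 : (f ^ p ^ 4).coeff (p ^ 4 * f.natDegree) = f.leadingCoeff ^ p ^ 4 :=
          coeff_pow_mul_natDegree f (p ^ 4)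
        have h2 : (f * g ^ (p ^ 4 - 1)).coeff (p ^ 4 * f.natDegree) =
            f.leadingCoeff * g.leadingCoeff ^ (p ^ 4 - 1) := by
          have h3 : p ^ 4 * f.natDegree = f.natDegree + (g ^ (p ^ 4 - 1)).natDegree := by
            rw [natDegree_pow, hr, Nat.add_sub_cancel, ← h]; ring
          rw [h3, coeff_mul_degree_add_degree, leadingCoeff_pow]
        unfold FF
        rw [coeff_sub, h1, h2]
        intro h4
        apply hc
        rw [div_pow, div_eq_div_iff (pow_ne_zero _ hβ) hβ, sub_eq_zero.1 h4]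
        rw [hr, Nat.add_sub_cancel]
        ring
      have h5 := le_natDegree_of_ne_zero hcoeff
      rw [h, max_self, ← h]
      refine le_trans ?_ h5
      exact Nat.mul_le_mul_right _ (Nat.sub_le _ _)
  · exact deg_case1 hq hf hg h

theorem deriv_FF (p : ℕ) [hp : Fact p.Prime] [CharP k p] (f g : k[X]) :
    derivative (FF (p ^ 4) f g) = -(g ^ (p ^ 4 - 2) * WW f g) := by
  have hp2 := hp.out.two_le
  have hq : 2 ≤ p ^ 4 := by
    calc 2 ≤ 2 ^ 4 := by norm_num
      _ ≤ p ^ 4 := Nat.pow_le_pow_left hp2 4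
  have h0 : ((p ^ 4 : ℕ) : k) = 0 := by
    rw [Nat.cast_pow, CharP.cast_eq_zero, zero_pow (by norm_num)]
  obtain ⟨r, hr⟩ : ∃ r, p ^ 4 = r + 2 := ⟨p ^ 4 - 2, by omega⟩
  rw [hr] at h0 ⊢
  have h1 : ((r : k) + 1) = -1 := by
    push_cast at h0
    linear_combination h0
  unfold FF WW
  rw [show r + 2 - 1 = r + 1 by omega, Nat.add_sub_cancel, derivative_sub, derivative_mul,
    derivative_pow, derivative_pow]
  rw [h0]
  push_cast
  rw [h1]
  simp only [map_zero, map_neg, map_one]
  ring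

theorem not_dvd_den {q : ℕ} (hq : 2 ≤ q) {f g π : k[X]} (h : IsCoprime f g) (hπ : Irreducible π)
    (h1 : π ∣ FF q f g) : ¬ π ∣ g := by
  intro h2
  have h3 : π ∣ f * g ^ (q - 1) := (h2.trans (dvd_pow_self g (by omega))).mul_left f
  have h4 : π ∣ f ^ q := by
    have := dvd_add h1 h3
    unfold FF at this
    rwa [sub_add_cancel] at this
  exact hπ.not_isUnit (h.isUnit_of_dvd' (hπ.prime.dvd_of_dvd_pow h4) h2)

theorem deg_WW (f g : k[X]) {n : ℕ} (hf : f.natDegree ≤ n) (hg : g.natDegree ≤ n) :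
    (WW f g).natDegree ≤ 2 * n := by
  unfold WW
  have h1 := natDegree_derivative_le f
  have h2 := natDegree_derivative_le g
  refine (natDegree_sub_le _ _).trans (max_le ?_ ?_)
  · refine natDegree_mul_le.trans ?_
    omega
  · refine natDegree_mul_le.trans ?_
    omega

theorem WW_ne {x : RatFunc k} (hx : DD x ≠ 0) : WW x.num x.denom ≠ 0 := by
  intro h
  apply hx
  have h1 := T3.DD_eq x.num x.denom x.denom_ne_zero
  rw [RatFunc.num_div_denom] at h1
  rw [h1]
  unfold WW at h
  rw [h, map_zero, zero_div]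

theorem num_ne {x : RatFunc k} (hx : DD x ≠ 0) : x.num ≠ 0 := by
  intro h
  apply hx
  rw [RatFunc.num_eq_zero_iff.1 h, map_zero]

theorem FF_ne (p : ℕ) [hp : Fact p.Prime] [CharP k p] {x : RatFunc k} (hx : DD x ≠ 0) :
    FF (p ^ 4) x.num x.denom ≠ 0 := by
  intro h
  have h1 := deriv_FF p x.num x.denom
  rw [h, derivative_zero] at h1
  have h2 : x.denom ^ (p ^ 4 - 2) * WW x.num x.denom = 0 := by
    rw [← neg_eq_zero]; exact h1.symm
  rcases mul_eq_zero.1 h2 with h3 | h3
  · exact pow_ne_zero _ x.denom_ne_zero h3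
  · exact WW_ne hx h3

theorem v_eq {q : ℕ} (hq : 1 ≤ q) (x : RatFunc k) :
    (x ^ q - x)⁻¹ = algebraMap k[X] (RatFunc k) (x.denom ^ q) /
      algebraMap k[X] (RatFunc k) (FF q x.num x.denom) := by
  obtain ⟨r, rfl⟩ : ∃ r, q = r + 1 := ⟨q - 1, by omega⟩
  have h0 : algebraMap k[X] (RatFunc k) x.denom ≠ 0 := RatFunc.algebraMap_ne_zero x.denom_ne_zero
  have h1 : x * algebraMap k[X] (RatFunc k) x.denom = algebraMap k[X] (RatFunc k) x.num := by
    have h2 := RatFunc.num_div_denom x
    rw [div_eq_iff h0] at h2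
    exact h2.symm
  have h3 : x ^ (r + 1) - x = algebraMap k[X] (RatFunc k) (FF (r + 1) x.num x.denom) /
      algebraMap k[X] (RatFunc k) (x.denom ^ (r + 1)) := by
    rw [eq_div_iff (by rw [map_pow]; exact pow_ne_zero _ h0)]
    unfold FF
    rw [Nat.add_sub_cancel, map_sub, map_mul, map_pow, map_pow, map_pow, ← h1]
    ring
  rw [h3, inv_div]

theorem v_EQ {q : ℕ} (hq : 1 ≤ q) (x : RatFunc k) {π : k[X]} (hπ : Irreducible π)
    (hd : ¬ π ∣ x.denom) {e : ℕ} {c : k[X]} (hc : ¬ π ∣ c)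
    (he : FF q x.num x.denom = π ^ e * c) : EQ (plv π hπ) (-(e : ℤ)) (x ^ q - x)⁻¹ := by
  rw [EQ, v_eq hq, map_div₀, he, T3.plv_pow hπ e c hc, map_pow, map_pow, T3.plv_unit hπ _ hd,
    one_pow, one_div, ← WithZero.exp_neg]

theorem v_GE {q : ℕ} (hq : 1 ≤ q) (x : RatFunc k) {π : k[X]} (hπ : Irreducible π)
    (h : ¬ π ∣ FF q x.num x.denom) : GE (plv π hπ) 0 (x ^ q - x)⁻¹ := by
  rw [GE, v_eq hq, neg_zero, WithZero.exp_zero]
  exact plv_le_one_of_denom hπ _ _ h

theorem x_GE (x : RatFunc k) {π : k[X]} (hπ : Irreducible π) (h : ¬ π ∣ x.denom) :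
    GE (plv π hπ) 0 x := by
  rw [GE, neg_zero, WithZero.exp_zero]
  conv_lhs => rw [← RatFunc.num_div_denom x]
  exact plv_le_one_of_denom hπ _ _ h

theorem dvd_WW (p : ℕ) [hp : Fact p.Prime] [CharP k p] (x : RatFunc k) {π : k[X]}
    (hπ : Irreducible π) {e : ℕ} (he : 2 ≤ e) (h : π ^ e ∣ FF (p ^ 4) x.num x.denom) :
    π ^ (e - 1) ∣ WW x.num x.denom := by
  have hp2 := hp.out.two_le
  have hq : 2 ≤ p ^ 4 := by
    calc 2 ≤ 2 ^ 4 := by norm_num
      _ ≤ p ^ 4 := Nat.pow_le_pow_left hp2 4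
  have h1 : π ∣ FF (p ^ 4) x.num x.denom := (dvd_pow_self π (by omega)).trans h
  have h2 := not_dvd_den hq x.isCoprime_num_denom hπ h1
  have h3 := pow_sub_one_dvd_derivative_of_pow_dvd h
  rw [deriv_FF, dvd_neg] at h3
  have h4 : IsCoprime π x.denom := by
    rw [hπ.coprime_iff_not_dvd]; exact h2
  exact (IsCoprime.pow h4).dvd_of_dvd_mul_left h3

theorem core (p : ℕ) [hp : Fact p.Prime] [CharP k p] (x : RatFunc k)
    (hx : DD x ≠ 0) (G : k[X]) (hG : G ≠ 0)
    (H : ∀ (π : k[X]) (hπ : Irreducible π), ¬ π ∣ x.denom →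
      EQ (plv π hπ) (-1) (x ^ p ^ 4 - x)⁻¹ → π ∣ G) :
    (p ^ 4 - 1) * ht x ≤ 4 * ht x + G.natDegree := by
  have hp2 := hp.out.two_le
  have hq : 2 ≤ p ^ 4 := by
    calc 2 ≤ 2 ^ 4 := by norm_num
      _ ≤ p ^ 4 := Nat.pow_le_pow_left hp2 4
  have hF0 := FF_ne p hx
  have hW0 := WW_ne hx
  have hdvd : FF (p ^ 4) x.num x.denom ∣ WW x.num x.denom ^ 2 * G := by
    apply dvd_of_prime_pow hF0 (mul_ne_zero (pow_ne_zero 2 hW0) hG)
    intro π hπ j hj
    obtain ⟨e, c, hc, hFe⟩ := T3.decomp hπ _ hF0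
    have hje : j ≤ e := by
      by_contra hlt
      have h1 : π ^ (e + 1) ∣ π ^ e * c := (pow_dvd_pow π (by omega)).trans (hFe ▸ hj)
      rw [pow_succ] at h1
      exact hc ((mul_dvd_mul_iff_left (pow_ne_zero e hπ.ne_zero)).1 h1)
    rcases Nat.lt_or_ge e 2 with he | he
    · rcases Nat.eq_zero_or_pos e with he0 | he0
      · have : j = 0 := by omega
        rw [this, pow_zero]
        exact one_dvd _
      · have he1 : e = 1 := by omega
        subst he1
        have hd : π ∣ FF (p ^ 4) x.num x.denom := by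
          rw [hFe, pow_one]; exact dvd_mul_right _ _
        have hnd := not_dvd_den hq x.isCoprime_num_denom hπ hd
        have h1 : π ∣ G := H π hπ hnd (by
          have := v_EQ (by omega) x hπ hnd hc hFe
          simpa using this)
        have h2 : π ^ j ∣ π ^ 1 := pow_dvd_pow π hje
        rw [pow_one] at h2
        exact (h2.trans h1).mul_left _
    · have h1 := dvd_WW p x hπ he (hFe ▸ dvd_mul_right _ _)
      have h2 : π ^ j ∣ (π ^ (e - 1)) ^ 2 := by
        rw [← pow_mul]
        exact pow_dvd_pow π (by omega)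
      exact (h2.trans (pow_dvd_pow_of_dvd h1 2)).mul_right _
  have h1 := natDegree_le_of_dvd hdvd (mul_ne_zero (pow_ne_zero 2 hW0) hG)
  have h2 := deg_FF p (num_ne hx) x.denom_ne_zero hW0
  have h3 : (WW x.num x.denom ^ 2 * G).natDegree ≤ 4 * ht x + G.natDegree := by
    refine natDegree_mul_le.trans ?_
    have h4 := deg_WW x.num x.denom (le_max_left x.num.natDegree x.denom.natDegree)
      (le_max_right x.num.natDegree x.denom.natDegree)
    rw [natDegree_pow]
    unfold ht
    omega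
  exact h2.trans (h1.trans h3)

theorem no_simple {K : Type*} [Field K] {V : Valuation K (WithZero (Multiplicative ℤ))} {p : ℕ}
    [hp : Fact p.Prime] {y f : K} (h : y ^ p - y = f) (hf : GE V (-1) f) : GE V 0 f := by
  by_contra h0
  obtain ⟨m, hm, hE⟩ := GE.lt_or h0
  have h1 := hE.le_of_ge hf
  have h2 : m = -1 := by omega
  have h3 := AS_order h hE hm
  rw [h2, dvd_neg] at h3
  have h4 := Int.le_of_dvd one_pos h3
  have h5 := ptwo (p := p)
  omega

theorem no_minus_one {K : Type*} [Field K] {V : Valuation K (WithZero (Multiplicative ℤ))} {p : ℕ}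
    [hp : Fact p.Prime] {y f : K} (h : y ^ p - y = f) (hf : EQ V (-1) f) : False := by
  have h1 := hf.le_of_ge (no_simple h hf.ge)
  omega

theorem half (p : ℕ) [hp : Fact p.Prime] [CharP k p] (x b : RatFunc k)
    (hx : DD x ≠ 0) (hb : DD b ≠ 0) (h : PP p x b) (hne : b ≠ x) :
    (p ^ 4 - 1) * ht x ≤ 5 * ht x + 3 * ht b := by
  have hp2 := hp.out.two_le
  have hq : 2 ≤ p ^ 4 := by
    calc 2 ≤ 2 ^ 4 := by norm_num
      _ ≤ p ^ 4 := Nat.pow_le_pow_left hp2 4
  obtain ⟨-, -, ⟨y1, hy1⟩, ⟨y2, hy2⟩⟩ := h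
  have hg0 : algebraMap k[X] (RatFunc k) x.denom ≠ 0 :=
    RatFunc.algebraMap_ne_zero x.denom_ne_zero
  have hs0 : algebraMap k[X] (RatFunc k) b.denom ≠ 0 :=
    RatFunc.algebraMap_ne_zero b.denom_ne_zero
  have hxe : algebraMap k[X] (RatFunc k) x.num = x * algebraMap k[X] (RatFunc k) x.denom := by
    have h2 := RatFunc.num_div_denom x
    rwa [div_eq_iff hg0] at h2
  have hbe : algebraMap k[X] (RatFunc k) b.num = b * algebraMap k[X] (RatFunc k) b.denom := by
    have h2 := RatFunc.num_div_denom b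
    rwa [div_eq_iff hs0] at h2
  set D : k[X] := x.num * b.denom - b.num * x.denom with hD
  have hDe : algebraMap k[X] (RatFunc k) D =
      -(b - x) * algebraMap k[X] (RatFunc k) (x.denom * b.denom) := by
    rw [hD, map_sub, map_mul, map_mul, map_mul, hxe, hbe]
    ring
  have hD0 : D ≠ 0 := by
    intro h0
    rw [h0, map_zero, map_mul] at hDe
    rcases mul_eq_zero.1 hDe.symm with h1 | h1
    · exact hne (sub_eq_zero.1 (neg_eq_zero.1 h1))
    · rcases mul_eq_zero.1 h1 with h2 | h2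
      · exact hg0 h2
      · exact hs0 h2
  have hW0 := WW_ne hb
  have hFb0 := FF_ne p hb
  have hmain := core p x hx (WW b.num b.denom * D) (mul_ne_zero hW0 hD0) (by
    intro π hπ hnd hvx
    obtain ⟨e, c, hc, hFe⟩ := T3.decomp hπ _ hFb0
    rcases Nat.lt_or_ge e 2 with he | he
    · rcases Nat.eq_zero_or_pos e with he0 | he0
      · exfalso
        subst he0
        rw [pow_zero, one_mul] at hFe
        have hvb : GE (plv π hπ) 0 (b ^ p ^ 4 - b)⁻¹ := v_GE (by omega) b hπ (hFe ▸ hc)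
        have h1 : EQ (plv π hπ) (-1) ((b ^ p ^ 4 - b)⁻¹ - (x ^ p ^ 4 - x)⁻¹) := by
          have := (hvx.sub_ge hvb (by norm_num)).neg
          rwa [neg_sub] at this
        exact no_minus_one hy1 h1
      · have he1 : e = 1 := by omega
        subst he1
        have hd : π ∣ FF (p ^ 4) b.num b.denom := by
          rw [hFe, pow_one]; exact dvd_mul_right _ _
        have hndb := not_dvd_den hq b.isCoprime_num_denom hπ hd
        have hvb : EQ (plv π hπ) (-1) (b ^ p ^ 4 - b)⁻¹ := by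
          have := v_EQ (by omega) b hπ hndb hc hFe
          simpa using this
        have hb0 := x_GE b hπ hndb
        have hx0 := x_GE x hπ hnd
        have h4 := no_simple hy1 (hvb.ge.sub hvx.ge)
        have h5 := no_simple hy2 (((hb0.mul hvb.ge).mono (by norm_num)).sub
          ((hx0.mul hvx.ge).mono (by norm_num)))
        have h6 : GE (plv π hπ) 0 ((b - x) * (x ^ p ^ 4 - x)⁻¹) := by
          have h7 := h5.sub ((hb0.mul h4).mono (by norm_num))
          have h8 : b * (b ^ p ^ 4 - b)⁻¹ - x * (x ^ p ^ 4 - x)⁻¹ -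
              b * ((b ^ p ^ 4 - b)⁻¹ - (x ^ p ^ 4 - x)⁻¹) = (b - x) * (x ^ p ^ 4 - x)⁻¹ := by
            ring
          rwa [h8] at h7
        have h7 : GE (plv π hπ) 1 (b - x) := by
          have h8 := h6.div_EQ hvx
          rw [mul_div_assoc, div_self hvx.ne_zero, mul_one] at h8
          exact h8.mono (by norm_num)
        have h8 : GE (plv π hπ) 0 (algebraMap k[X] (RatFunc k) (x.denom * b.denom)) := by
          have := (plv_poly_GE hπ (x.denom * b.denom) 0).2 (by simp)
          simpa using this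
        have h9 : GE (plv π hπ) 1 (algebraMap k[X] (RatFunc k) D) := by
          rw [hDe]
          exact (h7.neg.mul h8).mono (by norm_num)
        have h10 : π ^ 1 ∣ D := (plv_poly_GE hπ D 1).1 (by exact_mod_cast h9)
        rw [pow_one] at h10
        exact h10.mul_left _
    · have h1 := dvd_WW p b hπ he (hFe ▸ dvd_mul_right _ _)
      exact ((dvd_pow_self π (by omega)).trans h1).mul_right _)
  have h1 : (WW b.num b.denom * D).natDegree ≤ 2 * ht b + (ht x + ht b) := by
    refine natDegree_mul_le.trans (add_le_add (deg_WW _ _ (le_max_left _ _) (le_max_right _ _)) ?_)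
    rw [hD]
    have e1 : x.num.natDegree ≤ ht x := le_max_left _ _
    have e2 : x.denom.natDegree ≤ ht x := le_max_right _ _
    have e3 : b.num.natDegree ≤ ht b := le_max_left _ _
    have e4 : b.denom.natDegree ≤ ht b := le_max_right _ _
    refine (natDegree_sub_le _ _).trans (max_le ?_ ?_)
    · refine natDegree_mul_le.trans ?_
      omega
    · refine natDegree_mul_le.trans ?_
      omega
  omega

theorem ht_pos {x : RatFunc k} (hx : DD x ≠ 0) : 0 < ht x := by
  rw [Nat.pos_iff_ne_zero]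
  intro h
  obtain ⟨c, hc⟩ := ht_eq_zero x h
  apply hx
  rw [hc, ← RatFunc.algebraMap_eq_C]
  exact Derivation.map_algebraMap _ c

theorem q16 (p : ℕ) [hp : Fact p.Prime] : 15 ≤ p ^ 4 - 1 := by
  have : 2 ^ 4 ≤ p ^ 4 := Nat.pow_le_pow_left hp.out.two_le 4
  omega

theorem PP_symm {K : Type*} [Field K] {p : ℕ} [Fact p.Prime] [CharP K p] {x b : K}
    (h : PP p x b) : PP p b x :=
  ⟨h.2.1, h.1, h.2.2.1.symm, h.2.2.2.symm⟩

theorem inv_frob {K : Type*} [Field K] {p : ℕ} [Fact p.Prime] [CharP K p] (x : K) (n : ℕ) :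
    ((x ^ p ^ n) ^ p ^ 4 - x ^ p ^ n)⁻¹ = ((x ^ p ^ 4 - x)⁻¹) ^ p ^ n := by
  rw [inv_pow, sub_pow_char_pow, ← pow_mul, ← pow_mul, mul_comm (p ^ n)]

theorem exists_simple (p : ℕ) [hp : Fact p.Prime] [CharP k p] (x : RatFunc k) (hx : DD x ≠ 0) :
    ∃ (π : k[X]) (hπ : Irreducible π), EQ (plv π hπ) (-1) (x ^ p ^ 4 - x)⁻¹ := by
  by_contra hne
  push Not at hne
  have h1 := core p x hx 1 one_ne_zero (fun π hπ _ h => absurd h (hne π hπ))
  rw [natDegree_one] at h1
  have h2 := ht_pos hx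
  have h3 := q16 p
  nlinarith

end B2

open B2

theorem PP.eq_of_deriv (p : ℕ) [Fact p.Prime] [CharP k p] [PerfectField k] (x b : RatFunc k)
    (hx : DD x ≠ 0) (hb : DD b ≠ 0) (h : PP p x b) : b = x := by
  have : CharP (RatFunc k) p :=
    charP_of_injective_algebraMap (algebraMap k (RatFunc k)).injective p
  by_contra hne
  have h1 := half p x b hx hb h hne
  have h2 := half p b x hb hx (PP_symm h) (Ne.symm hne)
  have h3 := ht_pos hx
  have h4 := q16 p
  nlinarith

theorem PP.const (p : ℕ) [Fact p.Prime] [CharP k p] [PerfectField k] (x b : RatFunc k)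
    (hx : ∃ c : k, x = RatFunc.C c) (h : PP p x b) : ∃ c : k, b = RatFunc.C c := by
  have : CharP (RatFunc k) p :=
    charP_of_injective_algebraMap (algebraMap k (RatFunc k)).injective p
  by_contra hne
  push Not at hne
  obtain ⟨b1, j, rfl, hb1⟩ := exists_root_deriv_ne_zero p b hne
  obtain ⟨π, hπ, hv⟩ := exists_simple p b1 hb1
  obtain ⟨c, rfl⟩ := hx
  have h1 := h.2.2.1
  rw [inv_frob] at h1
  obtain ⟨y, hy⟩ := h1.of_frob
  have h2 : GE (plv π hπ) 0 ((RatFunc.C c ^ p ^ 4 - RatFunc.C c)⁻¹ : RatFunc k) := by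
    rw [← map_pow, ← map_sub, ← map_inv₀, ← RatFunc.algebraMap_C]
    have := (plv_poly_GE hπ (C ((c ^ p ^ 4 - c)⁻¹)) 0).2 (by simp)
    simpa using this
  exact no_minus_one hy (hv.sub_ge h2 (by norm_num))

theorem PP.sound (p : ℕ) [Fact p.Prime] [CharP k p] [PerfectField k] (x b : RatFunc k)
    (hx : ∀ c : k, x ≠ RatFunc.C c) (h : PP p x b) : ∃ n : ℤ, Fz p n x b := by
  have : CharP (RatFunc k) p :=
    charP_of_injective_algebraMap (algebraMap k (RatFunc k)).injective p
  have hb : ∀ c : k, b ≠ RatFunc.C c := by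
    intro c hc
    obtain ⟨c', hc'⟩ := PP.const p b x ⟨c, hc⟩ (PP_symm h)
    exact hx c' hc'
  obtain ⟨x1, i, rfl, hx1⟩ := exists_root_deriv_ne_zero p x hx
  obtain ⟨b1, j, rfl, hb1⟩ := exists_root_deriv_ne_zero p b hb
  obtain ⟨h1, h2, h3, h4⟩ := h
  have hPP : PP p x1 b1 := by
    refine ⟨?_, ?_, ?_, ?_⟩
    · intro h5
      apply h1
      rw [← pow_mul, mul_comm, pow_mul, h5]
    · intro h5
      apply h2
      rw [← pow_mul, mul_comm, pow_mul, h5]
    · rw [inv_frob, inv_frob] at h3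
      exact h3.of_frob.symm.of_frob.symm
    · rw [inv_frob, inv_frob, ← mul_pow, ← mul_pow] at h4
      exact h4.of_frob.symm.of_frob.symm
  have he := PP.eq_of_deriv p x1 b1 hx1 hb1 hPP
  subst he
  refine ⟨(j : ℤ) - i, ?_⟩
  unfold Fz
  rw [← pow_mul, ← pow_mul, ← pow_add, ← pow_add]
  congr 2
  omega

end Pool.Agent.H367R2.H10
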