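import Mathlib
import Pool.Agent.H367R2.H10.Defs2
import Pool.Agent.H367R2.H10.T1
import Pool.Agent.H367R2.H10.T3

set_option autoImplicit false

/-! B3: the relations `Fz` and `Fr`. -/

open Polynomial Finset

namespace Pool.Agent.H367R2.H10

universe u

/-! ### API for `Fz` in a field of characteristic `p` -/

section gen
variable {K : Type u} [Field K]

theorem pow_pn_inj (p : ℕ) [Fact p.Prime] [CharP K p] (n : ℕ) {x y : K}
    (h : x ^ p ^ n = y ^ p ^ n) : x = y := by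
  have h1 : (x - y) ^ p ^ n = 0 := by
    rw [sub_pow_char_pow, h, sub_self]
  exact sub_eq_zero.1 (pow_eq_zero_iff (pow_ne_zero n (Fact.out : p.Prime).ne_zero) |>.1 h1)

theorem Fz_iff (p : ℕ) [Fact p.Prime] [CharP K p] {n : ℤ} {a c : ℕ} (h : (a : ℤ) - c = n)
    (x b : K) : Fz p n x b ↔ x ^ p ^ a = b ^ p ^ c := by
  unfold Fz
  obtain ⟨d, hd⟩ : ∃ d : ℕ, a = n.toNat + d := ⟨a - n.toNat, by omega⟩
  have hc : c = (-n).toNat + d := by omega
  rw [hd, hc, pow_add, pow_mul, pow_add, pow_mul]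
  exact ⟨fun h => by rw [h], fun h => pow_pn_inj p d h⟩

theorem Fz.mul (p : ℕ) {n : ℤ} {x b y Y : K} (h1 : Fz p n x b) (h2 : Fz p n y Y) :
    Fz p n (x * y) (b * Y) := by
  unfold Fz at *
  rw [mul_pow, mul_pow, h1, h2]

theorem Fz.div (p : ℕ) {n : ℤ} {x b y Y : K} (h1 : Fz p n x b) (h2 : Fz p n y Y) :
    Fz p n (x / y) (b / Y) := by
  unfold Fz at *
  rw [div_pow, div_pow, h1, h2]

theorem Fz.inv (p : ℕ) {n : ℤ} {x b : K} (h1 : Fz p n x b) :
    Fz p n x⁻¹ b⁻¹ := by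
  unfold Fz at *
  rw [inv_pow, inv_pow, h1]

theorem Fz.add (p : ℕ) [Fact p.Prime] [CharP K p] {n : ℤ} {x b y Y : K} (h1 : Fz p n x b)
    (h2 : Fz p n y Y) : Fz p n (x + y) (b + Y) := by
  unfold Fz at *
  rw [add_pow_char_pow, add_pow_char_pow, h1, h2]

theorem Fz.sub (p : ℕ) [Fact p.Prime] [CharP K p] {n : ℤ} {x b y Y : K} (h1 : Fz p n x b)
    (h2 : Fz p n y Y) : Fz p n (x - y) (b - Y) := by
  unfold Fz at *
  rw [sub_pow_char_pow, sub_pow_char_pow, h1, h2]

theorem Fz.pow (p : ℕ) {n : ℤ} {x b : K} (h1 : Fz p n x b) (j : ℕ) :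
    Fz p n (x ^ j) (b ^ j) := by
  unfold Fz at *
  rw [← pow_mul, ← pow_mul, mul_comm j, mul_comm j, pow_mul, pow_mul, h1]

theorem Fz.one (p : ℕ) (n : ℤ) : Fz p n (1 : K) 1 := by
  unfold Fz
  rw [one_pow, one_pow]

theorem Fz.zero (p : ℕ) [Fact p.Prime] (n : ℤ) : Fz p n (0 : K) 0 := by
  unfold Fz
  rw [zero_pow (pow_ne_zero _ (Fact.out : p.Prime).ne_zero),
    zero_pow (pow_ne_zero _ (Fact.out : p.Prime).ne_zero)]

theorem Fz.neg (p : ℕ) [Fact p.Prime] [CharP K p] {n : ℤ} {x b : K} (h1 : Fz p n x b) :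
    Fz p n (-x) (-b) := by
  have := (Fz.zero (K := K) p n).sub p h1
  rwa [zero_sub, zero_sub] at this

theorem Fz.symm (p : ℕ) {n : ℤ} {x b : K} (h1 : Fz p n x b) : Fz p (-n) b x := by
  unfold Fz at *
  rw [neg_neg, h1]

theorem Fz.trans (p : ℕ) [Fact p.Prime] [CharP K p] {n m : ℤ} {x b c : K} (h1 : Fz p n x b)
    (h2 : Fz p m b c) : Fz p (n + m) x c := by
  rw [Fz_iff p (a := n.toNat + m.toNat) (c := (-n).toNat + (-m).toNat) (by push_cast; omega)]
  unfold Fz at h1 h2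
  rw [pow_add, pow_mul, h1, ← pow_mul, mul_comm, pow_mul, h2, ← pow_mul, ← pow_add, add_comm]

theorem Fz.zero_iff (p : ℕ) {x b : K} : Fz p 0 x b ↔ x = b := by
  unfold Fz
  simp

theorem Fz.nat_iff (p : ℕ) {x b : K} (n : ℕ) : Fz p (n : ℤ) x b ↔ b = x ^ p ^ n := by
  unfold Fz
  simp [eq_comm]

theorem Fz.eq_zero_iff (p : ℕ) [Fact p.Prime] {n : ℤ} {x b : K} (h : Fz p n x b) :
    x = 0 ↔ b = 0 := by
  unfold Fz at h
  have hp := (Fact.out : p.Prime).ne_zero
  constructor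
  · rintro rfl
    rw [zero_pow (pow_ne_zero _ hp)] at h
    exact pow_eq_zero_iff (pow_ne_zero _ hp) |>.1 h.symm
  · rintro rfl
    rw [zero_pow (pow_ne_zero _ hp)] at h
    exact pow_eq_zero_iff (pow_ne_zero _ hp) |>.1 h

/-- `b` is determined by `x` and `n` -/
theorem Fz.fun_right (p : ℕ) [Fact p.Prime] [CharP K p] {n : ℤ} {x b c : K} (h1 : Fz p n x b)
    (h2 : Fz p n x c) : b = c := by
  unfold Fz at *
  exact pow_pn_inj p _ (h1.symm.trans h2)

theorem Fz.fun_left (p : ℕ) [Fact p.Prime] [CharP K p] {n : ℤ} {x y b : K} (h1 : Fz p n x b)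
    (h2 : Fz p n y b) : x = y := by
  unfold Fz at *
  exact pow_pn_inj p _ (h1.trans h2.symm)

/-- orders and `Fz` -/
theorem Fz.ord (p : ℕ) [hp : Fact p.Prime] {V : Valuation K (WithZero (Multiplicative ℤ))}
    {n : ℤ} {x b : K} (h : Fz p n x b) {a β : ℤ} (ha : EQ V a x) (hβ : EQ V β b) :
    (β : ℚ) = (p : ℚ) ^ n * a := by
  have h1 := ha.pow (p ^ n.toNat)
  have h2 := hβ.pow (p ^ (-n).toNat)
  rw [h] at h1
  have h3 := h1.unique h2
  have hp0 : (p : ℚ) ≠ 0 := by exact_mod_cast hp.out.ne_zero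
  have h4 : (p : ℚ) ^ n.toNat * a = (p : ℚ) ^ (-n).toNat * β := by exact_mod_cast h3
  have h5 : (p : ℚ) ^ n * (p : ℚ) ^ (-n).toNat = (p : ℚ) ^ n.toNat := by
    rw [← zpow_natCast, ← zpow_natCast, ← zpow_add₀ hp0]
    congr 1
    omega
  have h6 : (p : ℚ) ^ (-n).toNat ≠ 0 := pow_ne_zero _ hp0
  apply mul_left_cancel₀ h6
  rw [← h4, ← h5]
  ring

theorem PP.pow (p : ℕ) [Fact p.Prime] [CharP K p] (x : K) (n : ℕ) (hx : x ^ p ^ 4 ≠ x) :
    PP p x (x ^ p ^ n) := by
  have h1 : (x ^ p ^ n) ^ p ^ 4 - x ^ p ^ n = (x ^ p ^ 4 - x) ^ p ^ n := by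
    rw [sub_pow_char_pow, ← pow_mul, ← pow_mul, mul_comm]
  refine ⟨hx, ?_, ?_, ?_⟩
  · intro h
    rw [← sub_eq_zero, h1] at h
    exact hx (sub_eq_zero.1 ((pow_eq_zero_iff
      (pow_ne_zero n (Fact.out : p.Prime).ne_zero)).1 h))
  · rw [h1, ← inv_pow]
    exact AS.frob_iter _ n
  · rw [h1, ← inv_pow, ← mul_pow]
    exact AS.frob_iter _ n

theorem Fr.pow (p : ℕ) [Fact p.Prime] [CharP K p] (x y : K) (n : ℕ) (h1 : x ^ p ^ 4 ≠ x)
    (h2 : y ^ p ^ 4 ≠ y) (h3 : (x * y) ^ p ^ 4 ≠ x * y)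
    (h4 : ((x + 1) * y) ^ p ^ 4 ≠ (x + 1) * y) : Fr p x (x ^ p ^ n) y (y ^ p ^ n) := by
  refine ⟨PP.pow p x n h1, PP.pow p y n h2, ?_, ?_⟩
  · rw [← mul_pow]
    exact PP.pow p _ n h3
  · have : (x ^ p ^ n + 1) * y ^ p ^ n = ((x + 1) * y) ^ p ^ n := by
      rw [mul_pow, add_pow_char_pow, one_pow]
    rw [this]
    exact PP.pow p _ n h4

end gen

/-! ### rational functions -/

variable {k : Type u} [Field k]

theorem ht_C (c : k) : ht (RatFunc.C c) = 0 := by
  unfold ht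
  rw [RatFunc.num_C, RatFunc.denom_C, natDegree_C, natDegree_one]
  rfl

theorem ht_eq_zero_iff (f : RatFunc k) : ht f = 0 ↔ ∃ c : k, f = RatFunc.C c :=
  ⟨ht_eq_zero f, fun ⟨c, hc⟩ => by rw [hc, ht_C]⟩

theorem ht_pos_iff (f : RatFunc k) : 0 < ht f ↔ ∀ c : k, f ≠ RatFunc.C c := by
  rw [Nat.pos_iff_ne_zero, Ne, ht_eq_zero_iff]
  push Not
  rfl

theorem ht_C_add (c : k) (f : RatFunc k) : ht (RatFunc.C c + f) = ht f := by
  apply le_antisymm
  · have := ht_add_le (RatFunc.C c) f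
    rwa [ht_C, zero_add] at this
  · have := ht_add_le (-(RatFunc.C c)) (RatFunc.C c + f)
    rwa [ht_neg, ht_C, zero_add, neg_add_cancel_left] at this

theorem ht_C_mul (c : k) (hc : c ≠ 0) (f : RatFunc k) : ht (RatFunc.C c * f) = ht f := by
  apply le_antisymm (ht_const_mul_le c f)
  have := ht_const_mul_le c⁻¹ (RatFunc.C c * f)
  rwa [← mul_assoc, ← map_mul, inv_mul_cancel₀ hc, map_one, one_mul] at this

theorem Fz.ht (p : ℕ) {n : ℤ} {x b : RatFunc k} (h : Fz p n x b) :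
    p ^ n.toNat * ht x = p ^ (-n).toNat * ht b := by
  unfold Fz at h
  rw [← ht_pow, ← ht_pow, h]

theorem exp_unique (p : ℕ) [hp : Fact p.Prime] {n m : ℤ} {h h' : ℕ} (h0 : 0 < h)
    (h1 : p ^ n.toNat * h = p ^ (-n).toNat * h') (h2 : p ^ m.toNat * h = p ^ (-m).toNat * h') :
    n = m := by
  have hp1 : 1 < p := hp.out.one_lt
  have hp0 : 0 < p := hp.out.pos
  have h3 : 0 < h' := by
    rcases Nat.eq_zero_or_pos h' with h4 | h4
    · rw [h4, mul_zero] at h1
      have : 0 < p ^ n.toNat * h := Nat.mul_pos (pow_pos hp0 _) h0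
      omega
    · exact h4
  have h5 : p ^ (n.toNat + (-m).toNat) * (h * h') = p ^ (m.toNat + (-n).toNat) * (h * h') := by
    calc p ^ (n.toNat + (-m).toNat) * (h * h')
        = (p ^ n.toNat * h) * (p ^ (-m).toNat * h') := by rw [pow_add]; ring
      _ = (p ^ (-n).toNat * h') * (p ^ m.toNat * h) := by rw [h1, h2]
      _ = _ := by rw [pow_add]; ring
  have h6 := Nat.eq_of_mul_eq_mul_right (Nat.mul_pos h0 h3) h5
  have h7 := Nat.pow_right_injective hp1 h6
  omega

/-- the exponent is unique for nonconstant functions -/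
theorem Fz.unique (p : ℕ) [Fact p.Prime] {n m : ℤ} {x b : RatFunc k}
    (hx : ∀ c : k, x ≠ RatFunc.C c) (h1 : Fz p n x b) (h2 : Fz p m x b) : n = m :=
  exp_unique p ((ht_pos_iff x).2 hx) h1.ht h2.ht

theorem Fz.unique' (p : ℕ) [Fact p.Prime] {n m : ℤ} {x b y Y : RatFunc k}
    (hx : ∀ c : k, x ≠ RatFunc.C c) (h1 : Fz p n x b) (h2 : Fz p m y Y)
    (hxy : H10.ht x = H10.ht y) (hbY : H10.ht b = H10.ht Y) : n = m := by
  have := h2.ht
  rw [← hxy, ← hbY] at this
  exact exp_unique p ((ht_pos_iff x).2 hx) h1.ht this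

theorem Fz.nonconst (p : ℕ) [hp : Fact p.Prime] {n : ℤ} {x b : RatFunc k}
    (hx : ∀ c : k, x ≠ RatFunc.C c) (h1 : Fz p n x b) : ∀ c : k, b ≠ RatFunc.C c := by
  rw [← ht_pos_iff] at hx ⊢
  have h2 := h1.ht
  rcases Nat.eq_zero_or_pos (H10.ht b) with h | h
  · rw [h, mul_zero] at h2
    have := Nat.mul_pos (pow_pos hp.out.pos n.toNat) hx
    omega
  · exact h

/-! ### finite places -/

theorem plv_pos_of_dvd_num {π : k[X]} (hπ : Irreducible π) (f : RatFunc k) (h : π ∣ f.num) :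
    GE (plv π hπ) 1 f := by
  have hden : ¬ π ∣ f.denom := by
    intro h1
    exact hπ.not_isUnit ((RatFunc.isCoprime_num_denom f).isUnit_of_dvd' h h1)
  unfold GE
  conv_lhs => rw [← RatFunc.num_div_denom f]
  rw [map_div₀, T3.plv_unit hπ _ hden, div_one]
  have := (T3.plv_am hπ f.num 1).2 (by rwa [pow_one])
  exact_mod_cast this

theorem plv_neg_of_dvd_denom {π : k[X]} (hπ : Irreducible π) (f : RatFunc k) (h : π ∣ f.denom) :
    GE (plv π hπ) 1 f⁻¹ := by
  have hnum : ¬ π ∣ f.num := by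
    intro h1
    exact hπ.not_isUnit ((RatFunc.isCoprime_num_denom f).isUnit_of_dvd' h1 h)
  unfold GE
  conv_lhs => rw [← RatFunc.num_div_denom f]
  rw [inv_div, map_div₀, T3.plv_unit hπ _ hnum, div_one]
  have := (T3.plv_am hπ f.denom 1).2 (by rwa [pow_one])
  exact_mod_cast this

/-- a nonconstant polynomial has an irreducible factor -/
theorem exists_irr {f : k[X]} (h : f.natDegree ≠ 0) : ∃ π : k[X], Irreducible π ∧ π ∣ f := by
  have h0 : f ≠ 0 := by
    rintro rfl; exact h natDegree_zero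
  have h1 : ¬ IsUnit f := by
    intro hu
    exact h (natDegree_eq_zero_of_isUnit hu)
  obtain ⟨π, hπ, hd⟩ := WfDvdMonoid.exists_irreducible_factor h1 h0
  exact ⟨π, hπ, hd⟩

/-- a nonconstant function has a zero or pole at a finite place -/
theorem exists_place {f : RatFunc k} (hf : ∀ c : k, f ≠ RatFunc.C c) :
    ∃ (V : Valuation (RatFunc k) (WithZero (Multiplicative ℤ))), ∀ a : ℤ, EQ V a f → a ≠ 0 := by
  have hpos := (ht_pos_iff f).2 hf
  have hf0 : f ≠ 0 := by
    intro h; exact hf 0 (by rw [h, map_zero])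
  by_cases h : f.num.natDegree = 0
  · have h2 : f.denom.natDegree ≠ 0 := by
      intro h2
      unfold ht at hpos
      rw [h, h2] at hpos
      simp at hpos
    obtain ⟨π, hπ, hd⟩ := exists_irr h2
    refine ⟨plv π hπ, fun a ha h0 => ?_⟩
    have h3 := ha.inv.le_of_ge (plv_neg_of_dvd_denom hπ f hd)
    omega
  · obtain ⟨π, hπ, hd⟩ := exists_irr h
    refine ⟨plv π hπ, fun a ha h0 => ?_⟩
    have h3 := ha.le_of_ge (plv_pos_of_dvd_num hπ f hd)
    omega

/-- `x` or `x + 1` has a finite zero -/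
theorem exists_zero {x : RatFunc k} (hx : ∀ c : k, x ≠ RatFunc.C c) :
    ∃ (V : Valuation (RatFunc k) (WithZero (Multiplicative ℤ))), GE V 1 x ∨ GE V 1 (x + 1) := by
  by_cases h : x.num.natDegree = 0
  · by_cases h' : (x + 1).num.natDegree = 0
    · exfalso
      -- `num (x + 1) * denom x = (num x + denom x) * denom (x + 1)`
      have hpos := (ht_pos_iff x).2 hx
      have hd : x.denom.natDegree ≠ 0 := by
        intro h2
        unfold ht at hpos
        rw [h, h2] at hpos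
        simp at hpos
      have e : x + 1 = algebraMap k[X] (RatFunc k) (x.num + x.denom) /
          algebraMap k[X] (RatFunc k) x.denom := by
        have h3 := T1.am_ne x.denom_ne_zero
        rw [map_add, add_div, div_self h3, RatFunc.num_div_denom]
      have hco : IsCoprime (x.num + x.denom) x.denom := by
        have h5 := RatFunc.isCoprime_num_denom x
        have h6 := h5.add_mul_right_left 1
        rwa [one_mul] at h6
      have key : (x + 1).num * x.denom = (x.num + x.denom) * (x + 1).denom :=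
        (RatFunc.num_mul_eq_mul_denom_iff x.denom_ne_zero).2 e
      have hdvd : x.num + x.denom ∣ (x + 1).num := by
        apply hco.dvd_of_dvd_mul_right
        rw [key]
        exact dvd_mul_right _ _
      have hne : (x + 1).num ≠ 0 := by
        intro h7
        rw [RatFunc.num_eq_zero_iff] at h7
        exact hx (-1) (by rw [map_neg, map_one]; exact eq_neg_of_add_eq_zero_left h7)
      have h8 := natDegree_le_of_dvd hdvd hne
      have h9 : x.denom.natDegree ≤ 0 := by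
        have e2 : x.denom = (x.num + x.denom) - x.num := by ring
        rw [e2]
        refine (natDegree_sub_le _ _).trans (max_le (h8.trans h'.le) h.le)
      omega
    · obtain ⟨π, hπ, hd⟩ := exists_irr h'
      exact ⟨plv π hπ, Or.inr (plv_pos_of_dvd_num hπ _ hd)⟩
  · obtain ⟨π, hπ, hd⟩ := exists_irr h
    exact ⟨plv π hπ, Or.inl (plv_pos_of_dvd_num hπ _ hd)⟩

/-- exponent rigidity, case (4) of the proof of `Fr.sound` -/
theorem Fr.rigid (p : ℕ) [hp : Fact p.Prime] [CharP k p] {x b y Y : RatFunc k}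
    (hx : ∀ c : k, x ≠ RatFunc.C c) (hy : ∀ c : k, y ≠ RatFunc.C c) {n m l l' : ℤ}
    (h1 : Fz p n x b) (h2 : Fz p m y Y) (h3 : Fz p l (x * y) (b * Y))
    (h4 : Fz p l' ((x + 1) * y) ((b + 1) * Y)) : n = m := by
  have hb := h1.nonconst p hx
  have hY := h2.nonconst p hy
  have ne0 : ∀ {f : RatFunc k}, (∀ c : k, f ≠ RatFunc.C c) → f ≠ 0 := fun hf h =>
    hf 0 (by rw [h, map_zero])
  have ne1 : ∀ {f : RatFunc k}, (∀ c : k, f ≠ RatFunc.C c) → f + 1 ≠ 0 := fun hf h =>
    hf (-1) (by rw [map_neg, map_one]; exact eq_neg_of_add_eq_zero_left h)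
  have hp1 : (1 : ℚ) < p := by exact_mod_cast hp.out.one_lt
  have hinj : ∀ {i j : ℤ}, (p : ℚ) ^ i = (p : ℚ) ^ j → i = j := fun h =>
    zpow_right_injective₀ (by linarith) (by linarith [hp1] |> fun h : (p : ℚ) > 1 => h.ne') h
  by_contra hnm
  have hsub : (p : ℚ) ^ n - (p : ℚ) ^ m ≠ 0 := fun h => hnm (hinj (sub_eq_zero.1 h))
  -- the basic identities
  have key : ∀ (V : Valuation (RatFunc k) (WithZero (Multiplicative ℤ))) (a c : ℤ),
      EQ V a x → EQ V c y → ((p : ℚ) ^ n - (p : ℚ) ^ l) * a = ((p : ℚ) ^ l - (p : ℚ) ^ m) * c := by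
    intro V a c ha hc
    obtain ⟨β, hβ⟩ := exists_EQ (V := V) (ne0 hb)
    obtain ⟨γ, hγ⟩ := exists_EQ (V := V) (ne0 hY)
    have e1 := h1.ord p ha hβ
    have e2 := h2.ord p hc hγ
    have e3 := h3.ord p (ha.mul hc) (hβ.mul hγ)
    push_cast at e3
    rw [e1, e2] at e3
    linear_combination e3
  have h1' : Fz p n (x + 1) (b + 1) := h1.add p (Fz.one p n)
  have key' : ∀ (V : Valuation (RatFunc k) (WithZero (Multiplicative ℤ))) (a c : ℤ),
      EQ V a (x + 1) → EQ V c y →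
      ((p : ℚ) ^ n - (p : ℚ) ^ l') * a = ((p : ℚ) ^ l' - (p : ℚ) ^ m) * c := by
    intro V a c ha hc
    obtain ⟨β, hβ⟩ := exists_EQ (V := V) (ne1 hb)
    obtain ⟨γ, hγ⟩ := exists_EQ (V := V) (ne0 hY)
    have e1 := h1'.ord p ha hβ
    have e2 := h2.ord p hc hγ
    have e3 := h4.ord p (ha.mul hc) (hβ.mul hγ)
    push_cast at e3
    rw [e1, e2] at e3
    linear_combination e3
  have hx1 : ∀ c : k, x + 1 ≠ RatFunc.C c := fun c h =>
    hx (c - 1) (by rw [map_sub, map_one, ← h]; ring)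
  -- `l`, `l'` are different from `n` and `m`
  have hln : (p : ℚ) ^ l - (p : ℚ) ^ m ≠ 0 := by
    intro h0
    have hlm : l = m := hinj (sub_eq_zero.1 h0)
    obtain ⟨V, hV⟩ := exists_place hx
    obtain ⟨a, ha⟩ := exists_EQ (V := V) (ne0 hx)
    obtain ⟨c, hc⟩ := exists_EQ (V := V) (ne0 hy)
    have := key V a c ha hc
    rw [h0, zero_mul, hlm] at this
    rcases mul_eq_zero.1 this with h | h
    · exact hsub h
    · exact hV a ha (by exact_mod_cast h)
  have hln' : (p : ℚ) ^ l' - (p : ℚ) ^ m ≠ 0 := by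
    intro h0
    have hlm : l' = m := hinj (sub_eq_zero.1 h0)
    obtain ⟨V, hV⟩ := exists_place hx1
    obtain ⟨a, ha⟩ := exists_EQ (V := V) (ne1 hx)
    obtain ⟨c, hc⟩ := exists_EQ (V := V) (ne0 hy)
    have := key' V a c ha hc
    rw [h0, zero_mul, hlm] at this
    rcases mul_eq_zero.1 this with h | h
    · exact hsub h
    · exact hV a ha (by exact_mod_cast h)
  have hll : (p : ℚ) ^ n - (p : ℚ) ^ l ≠ 0 := by
    intro h0
    obtain ⟨V, hV⟩ := exists_place hy
    obtain ⟨a, ha⟩ := exists_EQ (V := V) (ne0 hx)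
    obtain ⟨c, hc⟩ := exists_EQ (V := V) (ne0 hy)
    have := key V a c ha hc
    rw [h0, zero_mul] at this
    rcases mul_eq_zero.1 this.symm with h | h
    · exact hln h
    · exact hV c hc (by exact_mod_cast h)
  have hll' : (p : ℚ) ^ n - (p : ℚ) ^ l' ≠ 0 := by
    intro h0
    obtain ⟨V, hV⟩ := exists_place hy
    obtain ⟨a, ha⟩ := exists_EQ (V := V) (ne1 hx)
    obtain ⟨c, hc⟩ := exists_EQ (V := V) (ne0 hy)
    have := key' V a c ha hc
    rw [h0, zero_mul] at this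
    rcases mul_eq_zero.1 this.symm with h | h
    · exact hln' h
    · exact hV c hc (by exact_mod_cast h)
  -- `ord x = 0` iff `ord y = 0` iff `ord (x + 1) = 0`
  obtain ⟨V, hV⟩ := exists_zero hx
  obtain ⟨a, ha⟩ := exists_EQ (V := V) (ne0 hx)
  obtain ⟨a', ha'⟩ := exists_EQ (V := V) (ne1 hx)
  obtain ⟨c, hc⟩ := exists_EQ (V := V) (ne0 hy)
  have k1 := key V a c ha hc
  have k2 := key' V a' c ha' hc
  have i1 : a = 0 ↔ c = 0 := by
    constructor
    · rintro rfl
      rw [Int.cast_zero, mul_zero] at k1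
      rcases mul_eq_zero.1 k1.symm with h | h
      · exact absurd h hln
      · exact_mod_cast h
    · rintro rfl
      rw [Int.cast_zero, mul_zero] at k1
      rcases mul_eq_zero.1 k1 with h | h
      · exact absurd h hll
      · exact_mod_cast h
  have i2 : a' = 0 ↔ c = 0 := by
    constructor
    · rintro rfl
      rw [Int.cast_zero, mul_zero] at k2
      rcases mul_eq_zero.1 k2.symm with h | h
      · exact absurd h hln'
      · exact_mod_cast h
    · rintro rfl
      rw [Int.cast_zero, mul_zero] at k2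
      rcases mul_eq_zero.1 k2 with h | h
      · exact absurd h hll'
      · exact_mod_cast h
  rcases hV with hV | hV
  · have h5 : 1 ≤ a := ha.le_of_ge hV
    have h6 : EQ V 0 (1 + x) := (EQ.one (V := V)).add_ge hV (by norm_num)
    rw [add_comm] at h6
    have h7 : a' = 0 := ha'.unique h6
    have h8 := i1.2 (i2.1 h7)
    omega
  · have h5 : 1 ≤ a' := ha'.le_of_ge hV
    have h6 : EQ V 0 (-1 + (x + 1)) := (EQ.one (V := V)).neg.add_ge hV (by norm_num)
    have e : -1 + (x + 1) = x := by ring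
    rw [e] at h6
    have h7 : a = 0 := ha.unique h6
    have h8 := i2.2 (i1.1 h7)
    omega

/-- `Fr.sound`, given the two facts `PP.const`, `PP.sound` of task B2 -/
theorem Fr.sound_aux (p : ℕ) [hp : Fact p.Prime] [CharP k p]
    (Pconst : ∀ x b : RatFunc k, (∃ c : k, x = RatFunc.C c) → PP p x b →
      ∃ c : k, b = RatFunc.C c)
    (Psound : ∀ x b : RatFunc k, (∀ c : k, x ≠ RatFunc.C c) → PP p x b → ∃ n : ℤ, Fz p n x b)
    (x b y Y : RatFunc k) (hx : ∀ c : k, x ≠ RatFunc.C c) (h : Fr p x b y Y) :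
    ∃ n : ℤ, Fz p n x b ∧ Fz p n y Y := by
  obtain ⟨H1, H2, H3, H4⟩ := h
  have nz : ∀ {u w : RatFunc k}, PP p u w → u ≠ 0 ∧ w ≠ 0 := by
    intro u w h
    have h0 : p ^ 4 ≠ 0 := pow_ne_zero 4 hp.out.ne_zero
    constructor
    · rintro rfl; exact h.1 (zero_pow h0)
    · rintro rfl; exact h.2.1 (zero_pow h0)
  obtain ⟨hx0, hb0⟩ := nz H1
  obtain ⟨hy0, hY0⟩ := nz H2
  obtain ⟨n, h1⟩ := Psound x b hx H1
  by_cases cy : ∃ c : k, y = RatFunc.C c
  · -- `y` constant
    obtain ⟨d, hd⟩ := Pconst y Y cy H2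
    obtain ⟨c, hc⟩ := cy
    have hc0 : c ≠ 0 := by
      rintro rfl; exact hy0 (by rw [hc, map_zero])
    have hd0 : d ≠ 0 := by
      rintro rfl; exact hY0 (by rw [hd, map_zero])
    have e1 : H10.ht (x * y) = H10.ht x := by rw [hc, mul_comm, ht_C_mul c hc0]
    have e2 : H10.ht (b * Y) = H10.ht b := by rw [hd, mul_comm, ht_C_mul d hd0]
    have hxy : ∀ c : k, x * y ≠ RatFunc.C c := by
      rw [← ht_pos_iff, e1, ht_pos_iff]; exact hx
    obtain ⟨l, h3⟩ := Psound _ _ hxy H3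
    have hl : n = l := h1.unique' p hx h3 e1.symm e2.symm
    subst hl
    refine ⟨n, h1, ?_⟩
    have h5 := h3.div p h1
    rwa [mul_div_cancel_left₀ _ hx0, mul_div_cancel_left₀ _ hb0] at h5
  · push Not at cy
    obtain ⟨m, h2⟩ := Psound y Y cy H2
    by_cases cxy : ∃ c : k, x * y = RatFunc.C c
    · -- `x y` constant
      obtain ⟨d, hd⟩ := Pconst _ _ cxy H3
      obtain ⟨c, hc⟩ := cxy
      have e1 : H10.ht ((x + 1) * y) = H10.ht y := by
        rw [add_mul, one_mul, hc, ht_C_add]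
      have e2 : H10.ht ((b + 1) * Y) = H10.ht Y := by
        rw [add_mul, one_mul, hd, ht_C_add]
      have hxy : ∀ c : k, (x + 1) * y ≠ RatFunc.C c := by
        rw [← ht_pos_iff, e1, ht_pos_iff]; exact cy
      obtain ⟨l, h3⟩ := Psound _ _ hxy H4
      have hl : m = l := h2.unique' p cy h3 e1.symm e2.symm
      subst hl
      have h5 := h3.div p h2
      rw [mul_div_cancel_right₀ _ hy0, mul_div_cancel_right₀ _ hY0] at h5
      have h6 := h5.sub p (Fz.one p m)
      rw [add_sub_cancel_right, add_sub_cancel_right] at h6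
      have hn : n = m := h1.unique p hx h6
      subst hn
      exact ⟨n, h1, h2⟩
    · push Not at cxy
      obtain ⟨l, h3⟩ := Psound _ _ cxy H3
      by_cases cz : ∃ c : k, (x + 1) * y = RatFunc.C c
      · -- `(x + 1) y` constant
        obtain ⟨d, hd⟩ := Pconst _ _ cz H4
        obtain ⟨c, hc⟩ := cz
        have e1 : H10.ht (x * y) = H10.ht y := by
          have : x * y = RatFunc.C c + (-y) := by rw [← hc]; ring
          rw [this, ht_C_add, ht_neg]
        have e2 : H10.ht (b * Y) = H10.ht Y := by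
          have : b * Y = RatFunc.C d + (-Y) := by rw [← hd]; ring
          rw [this, ht_C_add, ht_neg]
        have hl : m = l := h2.unique' p cy h3 e1.symm e2.symm
        subst hl
        have h5 := h3.div p h2
        rw [mul_div_cancel_right₀ _ hy0, mul_div_cancel_right₀ _ hY0] at h5
        have hn : n = m := h1.unique p hx h5
        subst hn
        exact ⟨n, h1, h2⟩
      · push Not at cz
        obtain ⟨l', h4⟩ := Psound _ _ cz H4
        have hn : n = m := Fr.rigid p hx cy h1 h2 h3 h4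
        subst hn
        exact ⟨n, h1, h2⟩

end Pool.Agent.H367R2.H10
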