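import Mathlib
import Pool.Agent.H367R2.H10.B2
import Pool.Agent.H367R2.H10.B3

set_option autoImplicit false

/-! B3, last step: `Fr.sound` from B2. -/

namespace Pool.Agent.H367R2.H10

universe u
variable {k : Type u} [Field k]

theorem Fr.sound (p : ℕ) [Fact p.Prime] [CharP k p] [PerfectField k] (x b y Y : RatFunc k)
    (hx : ∀ c : k, x ≠ RatFunc.C c) (h : Fr p x b y Y) :
    ∃ n : ℤ, Fz p n x b ∧ Fz p n y Y :=
  Fr.sound_aux p (fun x b hx h => PP.const p x b hx h) (fun x b hx h => PP.sound p x b hx h)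
    x b y Y hx h

end Pool.Agent.H367R2.H10
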