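import Mathlib
import Pool.Agent.H367R2.H10.Defs2
import Pool.Agent.H367R2.H10.T1
import Pool.Agent.H367R2.H10.T2
import Pool.Agent.H367R2.H10.T3

set_option autoImplicit false

/-! Task B5: the height bound. -/

open Polynomial Finset

namespace Pool.Agent.H367R2.H10

universe u
variable {k : Type u} [Field k]

namespace B5

lemma deriv_ppow (p : ℕ) [Fact p.Prime] [CharP k p] (f : RatFunc k) {n : ℕ} (hn : 0 < n) :
    DD (f ^ p ^ n) = 0 := by
  obtain ⟨m, rfl⟩ : ∃ m, n = m + 1 := ⟨n - 1, by omega⟩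
  rw [pow_succ, pow_mul]
  exact deriv_pow_char p _

lemma deriv_mul_ppow (p : ℕ) [Fact p.Prime] [CharP k p] (f g : RatFunc k) {n : ℕ} (hn : 0 < n) :
    DD (f * g ^ p ^ n) = g ^ p ^ n * DD f := by
  rw [Derivation.leibniz, deriv_ppow p g hn, smul_zero, zero_add, smul_eq_mul]

lemma num (p R M c : ℤ) (hp : 2 ≤ p) (hR : 128 ≤ R) (hM : 1 ≤ M)
    (h : p * c ≤ (p ^ 2 * R + 1) * M) : c + 1 ≤ p ^ 2 * R * M - R * M := by
  obtain ⟨X, hX⟩ : ∃ X : ℤ, X = R * M := ⟨_, rfl⟩
  have hX1 : 128 * M ≤ X := by rw [hX]; nlinarith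
  have h1 : p ^ 2 * R * M - R * M = (p ^ 2 - 1) * X := by rw [hX]; ring
  have h2 : (p ^ 2 * R + 1) * M = p ^ 2 * X + M := by rw [hX]; ring
  rw [h2] at h
  rw [h1]
  have h3 : (1 : ℤ) ≤ p ^ 2 - p - 1 := by nlinarith
  have h4 : p * X ≤ p * (p ^ 2 - p - 1) * X := by
    have : 0 ≤ p * X := by nlinarith
    nlinarith
  have h5 : M + p ≤ p * X := by nlinarith
  have h6 : p * (c + 1) ≤ p * ((p ^ 2 - 1) * X) := by
    have : p * ((p ^ 2 - 1) * X) = p * (p ^ 2 - p - 1) * X + p ^ 2 * X := by ring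
    rw [this]
    linarith
  exact le_of_mul_le_mul_left h6 (by omega)

end B5

theorem loc_lemma (p : ℕ) [Fact p.Prime] [CharP k p]
    {V : Valuation (RatFunc k) (WithZero (Multiplicative ℤ))}
    (hder : ∀ (n : ℤ) (f : RatFunc k), GE V n f → GE V (n - 1) (DD f))
    (v z1 z2 : RatFunc k) (D κ : ℕ) (hκ : 2 * D + 9 ≤ κ) (e M : ℤ) (he : 0 ≤ e)
    (hv : GE V (-e) v) (h1 : GE V (-M) z1) (h2 : EQ V (-M) z2) (hM : 1 ≤ M)
    (hM' : 4 * e * p ^ D ≤ M) (u : (ZMod p)[X]) (hu : u.natDegree ≤ 2 * D)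
    (H12 : AS p (z1 * z2 ^ p ^ κ - v * ev p u v ^ p ^ (κ - D))) :
    GE V (p ^ (κ - 2) * M) (DD z1) ∨ GE V (p ^ (κ - 2) * M) z1 := by
  by_cases hA : GE V (p ^ (κ - 2) * M) z1
  · exact Or.inr hA
  left
  obtain ⟨n1, hn1, hE1⟩ := GE.lt_or hA
  have hn1' : -M ≤ n1 := hE1.le_of_ge h1
  obtain ⟨y, hy⟩ := H12
  have hp2 : (2 : ℤ) ≤ (p : ℤ) := ptwo
  set T : RatFunc k := ev p u v ^ p ^ (κ - D) with hT
  -- numeric facts
  set R : ℤ := (p : ℤ) ^ (κ - 2) with hR
  have hQR : (p : ℤ) ^ κ = p ^ 2 * R := by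
    rw [hR, ← pow_add]; congr 1; omega
  have hR7 : (128 : ℤ) ≤ R := by
    have h3 : (2 : ℤ) ^ 7 ≤ (p : ℤ) ^ 7 := pow_le_pow_left₀ (by norm_num) hp2 7
    have h4 : (p : ℤ) ^ 7 ≤ (p : ℤ) ^ (κ - 2) := pow_le_pow_right₀ (by omega) (by omega)
    calc (128 : ℤ) = 2 ^ 7 := by norm_num
      _ ≤ _ := h3.trans h4
  have hRM : 128 ≤ R * M := by nlinarith
  have heD : e * (p : ℤ) ^ (κ + D) = (e * p ^ D) * (p ^ 2 * R) := by
    rw [pow_add, hQR]; ring
  have heD0 : 0 ≤ e * (p : ℤ) ^ D := by positivity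
  have hee : e ≤ e * (p : ℤ) ^ D := by
    have : (1 : ℤ) ≤ (p : ℤ) ^ D := one_le_pow₀ (by omega)
    nlinarith
  have hp2R : (4 : ℤ) * R ≤ p ^ 2 * R := by
    have h4 : (4 : ℤ) ≤ p ^ 2 := by nlinarith
    nlinarith
  -- e + e p^(κ+D) ≤ p^2 R M / 2
  have hbig : 2 * (e * (p : ℤ) ^ (κ + D) + e) ≤ p ^ 2 * R * M := by
    rw [heD]
    have h5 : e * (p : ℤ) ^ D ≤ (e * p ^ D) * (p ^ 2 * R) := by nlinarith
    have h6 : 4 * ((e * (p : ℤ) ^ D) * (p ^ 2 * R)) ≤ M * (p ^ 2 * R) := by nlinarith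
    nlinarith
  -- orders
  have hTge : GE V (-(e * (p : ℤ) ^ (κ + D))) T := by
    have h3 := (ev_GE u he hv hu).pow (p ^ (κ - D))
    refine h3.mono (le_of_eq ?_)
    push_cast
    have : (p : ℤ) ^ (κ + D) = p ^ (κ - D) * p ^ (2 * D) := by
      rw [← pow_add]; congr 1; omega
    rw [this]; ring
  have hz2 : EQ V (-(p ^ 2 * R * M)) (z2 ^ p ^ κ) := by
    have h3 := h2.pow (p ^ κ)
    have h4 : (((p ^ κ : ℕ) : ℤ) * -M) = -(p ^ 2 * R * M) := by
      push_cast; rw [hQR]; ring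
    rwa [h4] at h3
  have hprod : EQ V (n1 + -(p ^ 2 * R * M)) (z1 * z2 ^ p ^ κ) := hE1.mul hz2
  set P : ℤ := p ^ 2 * R * M - n1 with hP
  have hP1 : p ^ 2 * R * M ≤ 2 * P := by nlinarith
  have hP0 : 0 ≤ P := by nlinarith
  have hRHS : GE V (-P) (y ^ p - y) := by
    rw [hy]
    refine (hprod.ge.mono (by omega)).sub ((hv.mul hTge).mono ?_)
    have : e + e * (p : ℤ) ^ (κ + D) ≤ P := by nlinarith
    linarith
  have hPp : p * (P / p) ≤ P := Int.mul_ediv_self_le (by omega)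
  have hc0 : 0 ≤ P / p := Int.ediv_nonneg hP0 (by omega)
  have hyc : GE V (-(P / p)) y := by
    refine AS_bound hc0 ?_ hRHS
    have := Int.lt_mul_ediv_self_add (x := P) (k := (p : ℤ)) (by omega)
    linarith
  have hDy := hder _ _ hyc
  -- derivative of the equation
  have hDeq : z2 ^ p ^ κ * DD z1 = T * DD v - DD y := by
    have h3 := congrArg (fun f => DD f) hy
    simp only [map_sub] at h3
    rw [deriv_pow_char p y, hT, B5.deriv_mul_ppow p z1 z2 (by omega),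
      B5.deriv_mul_ppow p v _ (by omega)] at h3
    rw [hT]
    linear_combination -h3
  have hz2ne : z2 ^ p ^ κ ≠ 0 := hz2.ne_zero
  have hDz1 : DD z1 = (T * DD v - DD y) / z2 ^ p ^ κ := by
    rw [← hDeq, mul_div_cancel_left₀ _ hz2ne]
  have hDv := hder _ _ hv
  set B : ℤ := p ^ 2 * R * M - R * M with hB
  have hB1 : e * (p : ℤ) ^ (κ + D) + e + 1 ≤ B := by nlinarith
  have hB2 : P / p + 1 ≤ B := by
    have h7 : p * (P / p) ≤ (p ^ 2 * R + 1) * M := by nlinarith
    exact B5.num p R M (P / p) hp2 hR7 hM h7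
  have hnum : GE V (-B) (T * DD v - DD y) := by
    refine ((hTge.mul hDv).mono ?_).sub (hDy.mono ?_)
    · linarith
    · linarith
  rw [hDz1]
  refine (hnum.div_EQ hz2).mono ?_
  rw [hB]; linarith

namespace B5

/-- local form: at every place the pole order of `z1` or `z2` is bounded -/
lemma local_bound (p : ℕ) [Fact p.Prime] [CharP k p]
    {V : Valuation (RatFunc k) (WithZero (Multiplicative ℤ))}
    (hder : ∀ (n : ℤ) (f : RatFunc k), GE V n f → GE V (n - 1) (DD f)) (v : RatFunc k)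
    (D κ ν : ℕ) (hκ : 2 * D + 9 ≤ κ) (z1 z2 : RatFunc k) (hz : z2 = z1 + v ^ p ^ ν)
    (hd : DD z1 ≠ 0 ∨ DD z2 ≠ 0) (u : (ZMod p)[X]) (hu : u.natDegree ≤ 2 * D)
    (H12 : AS p (z1 * z2 ^ p ^ κ - v * ev p u v ^ p ^ (κ - D)))
    (H21 : AS p (z2 * z1 ^ p ^ κ - v * ev p u v ^ p ^ (κ - D)))
    (M e : ℤ) (hM : 1 ≤ M) (he : 0 ≤ e) (hv : GE V (-e) v)
    (h1 : GE V (-M) z1) (h2 : GE V (-M) z2) (h12 : EQ V (-M) z1 ∨ EQ V (-M) z2)
    (hMe : 4 * e * p ^ D ≤ M) :
    ∃ g ∈ [z1, z2, DD z1, DD z2], g ≠ 0 ∧ GE V (p ^ (κ - 2) * M) g := by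
  have key1 : DD z1 ≠ 0 → EQ V (-M) z2 →
      ∃ g ∈ [z1, z2, DD z1, DD z2], g ≠ 0 ∧ GE V (p ^ (κ - 2) * M) g := by
    intro hne hE
    rcases loc_lemma p hder v z1 z2 D κ hκ e M he hv h1 hE hM hMe u hu H12 with h | h
    · exact ⟨DD z1, by simp, hne, h⟩
    · refine ⟨z1, by simp, ?_, h⟩
      rintro rfl
      exact hne (map_zero _)
  have key2 : DD z2 ≠ 0 → EQ V (-M) z1 →
      ∃ g ∈ [z1, z2, DD z1, DD z2], g ≠ 0 ∧ GE V (p ^ (κ - 2) * M) g := by
    intro hne hE
    rcases loc_lemma p hder v z2 z1 D κ hκ e M he hv h2 hE hM hMe u hu H21 with h | h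
    · exact ⟨DD z2, by simp, hne, h⟩
    · refine ⟨z2, by simp, ?_, h⟩
      rintro rfl
      exact hne (map_zero _)
  by_cases hb : DD z1 ≠ 0 ∧ DD z2 ≠ 0
  · rcases h12 with h | h
    · exact key2 hb.2 h
    · exact key1 hb.1 h
  have hν : ν = 0 := by
    by_contra hν
    have h3 : DD z2 = DD z1 := by
      rw [hz, map_add, deriv_ppow p v (by omega), add_zero]
    rcases hd with h | h
    · exact hb ⟨h, by rwa [h3]⟩
    · exact hb ⟨by rwa [h3] at h, h⟩
  subst hν
  rw [pow_zero, pow_one] at hz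
  have hMe' : -M < -e := by
    have : (1 : ℤ) ≤ (p : ℤ) ^ D := one_le_pow₀ (by have := ptwo (p := p); omega)
    by_cases he0 : e = 0
    · omega
    · have : e ≤ e * (p : ℤ) ^ D := by nlinarith
      nlinarith
  have hboth : EQ V (-M) z1 ∧ EQ V (-M) z2 := by
    rcases h12 with h | h
    · exact ⟨h, by rw [hz]; exact h.add_ge hv hMe'⟩
    · refine ⟨?_, h⟩
      have h3 : z1 = z2 - v := by rw [hz]; ring
      rw [h3]
      exact h.sub_ge hv hMe'
  rcases hd with h | h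
  · exact key1 h hboth.2
  · exact key2 h hboth.1

lemma local_bound' (p : ℕ) [Fact p.Prime] [CharP k p]
    {V : Valuation (RatFunc k) (WithZero (Multiplicative ℤ))}
    (hder : ∀ (n : ℤ) (f : RatFunc k), GE V n f → GE V (n - 1) (DD f)) (v : RatFunc k)
    (D κ ν : ℕ) (hκ : 2 * D + 9 ≤ κ) (z1 z2 : RatFunc k) (hz : z2 = z1 + v ^ p ^ ν)
    (hd : DD z1 ≠ 0 ∨ DD z2 ≠ 0) (u : (ZMod p)[X]) (hu : u.natDegree ≤ 2 * D)
    (H12 : AS p (z1 * z2 ^ p ^ κ - v * ev p u v ^ p ^ (κ - D)))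
    (H21 : AS p (z2 * z1 ^ p ^ κ - v * ev p u v ^ p ^ (κ - D)))
    (m e : ℤ) (hm : 1 ≤ m) (he : 0 ≤ e) (hv : GE V (-e) v)
    (h12 : EQ V (-m) z1 ∨ EQ V (-m) z2) :
    m ≤ 4 * e * p ^ D ∨ ∃ g ∈ [z1, z2, DD z1, DD z2], g ≠ 0 ∧ GE V (p ^ (κ - 2) * m) g := by
  by_cases hme : m ≤ 4 * e * p ^ D
  · exact Or.inl hme
  right
  push Not at hme
  obtain ⟨M, hmM, h1, h2, h3⟩ : ∃ M : ℤ, m ≤ M ∧ GE V (-M) z1 ∧ GE V (-M) z2 ∧
      (EQ V (-M) z1 ∨ EQ V (-M) z2) := by
    rcases h12 with h | h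
    · by_cases h4 : GE V (-m) z2
      · exact ⟨m, le_refl _, h.ge, h4, Or.inl h⟩
      · obtain ⟨n, hn, hE⟩ := GE.lt_or h4
        refine ⟨-n, by omega, ?_, ?_, Or.inr ?_⟩
        · exact h.ge.mono (by omega)
        · rw [neg_neg]; exact hE.ge
        · rwa [neg_neg]
    · by_cases h4 : GE V (-m) z1
      · exact ⟨m, le_refl _, h4, h.ge, Or.inr h⟩
      · obtain ⟨n, hn, hE⟩ := GE.lt_or h4
        refine ⟨-n, by omega, ?_, ?_, Or.inl ?_⟩
        · rw [neg_neg]; exact hE.ge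
        · exact h.ge.mono (by omega)
        · rwa [neg_neg]
  obtain ⟨g, hg, hg0, hgE⟩ := local_bound p hder v D κ ν hκ z1 z2 hz hd u hu H12 H21 M e
    (by omega) he hv h1 h2 h3 (by omega)
  refine ⟨g, hg, hg0, hgE.mono ?_⟩
  have : (0 : ℤ) ≤ (p : ℤ) ^ (κ - 2) := by positivity
  nlinarith

/-- the numerator, or `1` for the zero function -/
noncomputable def nn (g : RatFunc k) : k[X] := by
  classical exact if g = 0 then 1 else g.num

lemma nn_ne (g : RatFunc k) : nn g ≠ 0 := by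
  unfold nn
  split_ifs with h
  · exact one_ne_zero
  · exact RatFunc.num_ne_zero h

lemma nn_of_ne {g : RatFunc k} (h : g ≠ 0) : nn g = g.num := by
  unfold nn; rw [if_neg h]

lemma nn_natDegree (g : RatFunc k) : (nn g).natDegree ≤ g.num.natDegree := by
  unfold nn
  split_ifs with h
  · simp
  · exact le_refl _

/-- zero order at infinity -/
noncomputable def zi (g : RatFunc k) : ℕ := g.denom.natDegree - g.num.natDegree

lemma deg_add (g : RatFunc k) : g.num.natDegree + zi g = ht g := by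
  unfold zi ht; omega

end B5

theorem height_bound (p : ℕ) [Fact p.Prime] [CharP k p] (v : RatFunc k)
    (D κ ν : ℕ) (hκ : 2 * D + 9 ≤ κ) (z1 z2 : RatFunc k) (hz : z2 = z1 + v ^ p ^ ν)
    (hd : DD z1 ≠ 0 ∨ DD z2 ≠ 0) (u : (ZMod p)[X]) (hu : u.natDegree ≤ 2 * D)
    (H12 : AS p (z1 * z2 ^ p ^ κ - v * ev p u v ^ p ^ (κ - D)))
    (H21 : AS p (z2 * z1 ^ p ^ κ - v * ev p u v ^ p ^ (κ - D))) :
    ht z1 + ht z2 ≤ 16 * p ^ D * ht v := by
  classical
  set s : ℕ := p ^ (κ - 2) with hs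
  have hs128 : 128 ≤ s := by
    have h2 : 2 ≤ p := (Fact.out : p.Prime).two_le
    have h3 : 2 ^ 7 ≤ p ^ 7 := Nat.pow_le_pow_left h2 7
    have h4 : p ^ 7 ≤ p ^ (κ - 2) := Nat.pow_le_pow_right (by omega) (by omega)
    calc 128 = 2 ^ 7 := by norm_num
      _ ≤ _ := h3.trans h4
  -- finite part
  have hfin : ∀ z : RatFunc k, (z = z1 ∨ z = z2) →
      z.denom ^ s ∣ (B5.nn z1 * B5.nn z2 * B5.nn (DD z1) * B5.nn (DD z2)) *
        v.denom ^ (4 * s * p ^ D) := by
    intro z hzz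
    refine dvd_of_prime_pow (pow_ne_zero _ z.denom_ne_zero) ?_ ?_
    · exact mul_ne_zero (mul_ne_zero (mul_ne_zero (mul_ne_zero (B5.nn_ne _) (B5.nn_ne _))
        (B5.nn_ne _)) (B5.nn_ne _)) (pow_ne_zero _ v.denom_ne_zero)
    intro π hπ j hj
    -- multiplicities
    obtain ⟨m, hm1, hm2⟩ : ∃ m : ℕ, π ^ m ∣ z.denom ∧ ¬ π ^ (m + 1) ∣ z.denom := by
      have hfm : FiniteMultiplicity π z.denom :=
        FiniteMultiplicity.of_not_isUnit hπ.not_isUnit z.denom_ne_zero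
      exact ⟨multiplicity π z.denom, pow_multiplicity_dvd _ _,
        hfm.not_pow_dvd_of_multiplicity_lt (Nat.lt_succ_self _)⟩
    obtain ⟨e, he1, he2⟩ : ∃ e : ℕ, π ^ e ∣ v.denom ∧ ¬ π ^ (e + 1) ∣ v.denom := by
      have hfm : FiniteMultiplicity π v.denom :=
        FiniteMultiplicity.of_not_isUnit hπ.not_isUnit v.denom_ne_zero
      exact ⟨multiplicity π v.denom, pow_multiplicity_dvd _ _,
        hfm.not_pow_dvd_of_multiplicity_lt (Nat.lt_succ_self _)⟩
    have hjm : j ≤ s * m := by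
      obtain ⟨r, hr⟩ := hm1
      have hpr : Prime π := hπ.prime
      have hnr : ¬ π ∣ r := by
        rintro ⟨r', rfl⟩
        apply hm2
        rw [hr]
        exact ⟨r', by ring⟩
      have h3 : z.denom ^ s = π ^ (s * m) * r ^ s := by
        rw [hr, mul_pow, ← pow_mul, mul_comm m s]
      rw [h3] at hj
      by_contra hlt
      push Not at hlt
      have h4 : π ^ (s * m + 1) ∣ π ^ (s * m) * r ^ s :=
        (pow_dvd_pow π hlt).trans hj
      rw [pow_succ] at h4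
      have h5 : π ∣ r ^ s := (mul_dvd_mul_iff_left (pow_ne_zero _ hπ.ne_zero)).1 h4
      exact hnr (hpr.dvd_of_dvd_pow h5)
    by_cases hm0 : m = 0
    · subst hm0
      have : j = 0 := by omega
      subst this
      simp
    have hzE : EQ (plv π hπ) (-(m : ℤ)) z := plv_denom_EQ hπ z m (by omega) hm1 hm2
    have hvE : GE (plv π hπ) (-(e : ℤ)) v := by
      by_cases he0 : e = 0
      · subst he0
        rw [zero_add, pow_one] at he2
        have h4 := plv_le_one_of_denom hπ v.num v.denom he2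
        rw [RatFunc.num_div_denom] at h4
        unfold GE
        simpa using h4
      · exact (plv_denom_EQ hπ v e (by omega) he1 he2).ge
    have h12 : EQ (plv π hπ) (-(m : ℤ)) z1 ∨ EQ (plv π hπ) (-(m : ℤ)) z2 := by
      rcases hzz with h | h
      · left; rwa [h] at hzE
      · right; rwa [h] at hzE
    have hloc := B5.local_bound' p (V := plv π hπ) (fun n f => plv_deriv hπ n f) v D κ ν hκ z1 z2
      hz hd u hu H12 H21 m e (by omega) (by omega) hvE h12
    refine (pow_dvd_pow π hjm).trans ?_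
    rcases hloc with h | ⟨g, hg, hg0, hgE⟩
    · have h5 : m ≤ 4 * e * p ^ D := by exact_mod_cast h
      have h6 : s * m ≤ e * (4 * s * p ^ D) := by
        calc s * m ≤ s * (4 * e * p ^ D) := Nat.mul_le_mul_left _ h5
          _ = e * (4 * s * p ^ D) := by ring
      refine Dvd.dvd.mul_left ?_ _
      refine (pow_dvd_pow π h6).trans ?_
      rw [pow_mul]
      exact pow_dvd_pow_of_dvd he1 _
    · have h7 : GE (plv π hπ) ((s * m : ℕ) : ℤ) g := by
        rw [hs]; push_cast; exact hgE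
      have h8 := plv_num_dvd hπ g (s * m) h7
      rw [← B5.nn_of_ne hg0] at h8
      refine Dvd.dvd.mul_right ?_ _
      simp only [List.mem_cons, List.not_mem_nil, or_false] at hg
      rcases hg with rfl | rfl | rfl | rfl
      · exact (((h8.mul_right _).mul_right _).mul_right _)
      · exact (((h8.mul_left _).mul_right _).mul_right _)
      · exact ((h8.mul_left _).mul_right _)
      · exact (h8.mul_left _)
  -- infinite place
  obtain ⟨V, hVE, hVder⟩ := exists_infty (k := k)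
  have hinf : ∀ z : RatFunc k, (z = z1 ∨ z = z2) →
      s * (z.num.natDegree - z.denom.natDegree) ≤
        B5.zi z1 + B5.zi z2 + B5.zi (DD z1) + B5.zi (DD z2) +
          4 * s * p ^ D * (v.num.natDegree - v.denom.natDegree) := by
    intro z hzz
    by_cases hm0 : z.num.natDegree ≤ z.denom.natDegree
    · rw [Nat.sub_eq_zero_of_le hm0, mul_zero]; exact Nat.zero_le _
    push Not at hm0
    have hz0 : z ≠ 0 := by
      rintro rfl
      simp at hm0
    have hzE := hVE z hz0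
    set m : ℕ := z.num.natDegree - z.denom.natDegree with hm
    set e : ℕ := v.num.natDegree - v.denom.natDegree with he
    have hzE' : EQ V (-(m : ℤ)) z := by
      have : (z.denom.natDegree : ℤ) - z.num.natDegree = -(m : ℤ) := by
        rw [hm]; omega
      rwa [this] at hzE
    have hvE : GE V (-(e : ℤ)) v := by
      by_cases hv0 : v = 0
      · rw [hv0]; exact GE.zero _
      · exact (hVE v hv0).ge.mono (by rw [he]; omega)
    have h12 : EQ V (-(m : ℤ)) z1 ∨ EQ V (-(m : ℤ)) z2 := by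
      rcases hzz with h | h
      · left; rwa [h] at hzE'
      · right; rwa [h] at hzE'
    have hloc := B5.local_bound' p (V := V) hVder v D κ ν hκ z1 z2
      hz hd u hu H12 H21 m e (by omega) (by omega) hvE h12
    rcases hloc with h | ⟨g, hg, hg0, hgE⟩
    · have h5 : m ≤ 4 * e * p ^ D := by exact_mod_cast h
      have h6 : s * m ≤ 4 * s * p ^ D * e := by
        calc s * m ≤ s * (4 * e * p ^ D) := Nat.mul_le_mul_left _ h5
          _ = 4 * s * p ^ D * e := by ring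
      omega
    · have h7 : GE V ((s * m : ℕ) : ℤ) g := by
        rw [hs]; push_cast; exact hgE
      have h8 := (hVE g hg0).le_of_ge h7
      have h9 : s * m ≤ B5.zi g := by
        unfold B5.zi; omega
      simp only [List.mem_cons, List.not_mem_nil, or_false] at hg
      rcases hg with rfl | rfl | rfl | rfl <;> omega
  -- summing up
  have hz_bound : ∀ z : RatFunc k, (z = z1 ∨ z = z2) →
      s * ht z ≤ 3 * (ht z1 + ht z2) + 4 * s * p ^ D * ht v := by
    intro z hzz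
    have h1 := hfin z hzz
    have h2 := hinf z hzz
    have h3 := natDegree_le_of_dvd h1 (mul_ne_zero (mul_ne_zero (mul_ne_zero (mul_ne_zero
      (B5.nn_ne _) (B5.nn_ne _)) (B5.nn_ne _)) (B5.nn_ne _)) (pow_ne_zero _ v.denom_ne_zero))
    rw [natDegree_pow, natDegree_mul (mul_ne_zero (mul_ne_zero (mul_ne_zero
      (B5.nn_ne _) (B5.nn_ne _)) (B5.nn_ne _)) (B5.nn_ne _)) (pow_ne_zero _ v.denom_ne_zero),
      natDegree_mul (mul_ne_zero (mul_ne_zero (B5.nn_ne _) (B5.nn_ne _)) (B5.nn_ne _))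
        (B5.nn_ne _), natDegree_mul (mul_ne_zero (B5.nn_ne _) (B5.nn_ne _)) (B5.nn_ne _),
      natDegree_mul (B5.nn_ne _) (B5.nn_ne _), natDegree_pow] at h3
    have a1 := B5.nn_natDegree z1
    have a2 := B5.nn_natDegree z2
    have a3 := B5.nn_natDegree (DD z1)
    have a4 := B5.nn_natDegree (DD z2)
    have b1 := B5.deg_add z1
    have b2 := B5.deg_add z2
    have b3 := B5.deg_add (DD z1)
    have b4 := B5.deg_add (DD z2)
    have c1 := ht_deriv_le z1
    have c2 := ht_deriv_le z2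
    have d1 : ht z = z.denom.natDegree + (z.num.natDegree - z.denom.natDegree) := by
      unfold ht; omega
    have d2 : ht v = v.denom.natDegree + (v.num.natDegree - v.denom.natDegree) := by
      unfold ht; omega
    have d3 : 4 * s * p ^ D * ht v = 4 * s * p ^ D * v.denom.natDegree +
        4 * s * p ^ D * (v.num.natDegree - v.denom.natDegree) := by
      conv_lhs => rw [d2]
      rw [mul_add]
    have d4 : s * ht z = s * z.denom.natDegree +
        s * (z.num.natDegree - z.denom.natDegree) := by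
      conv_lhs => rw [d1]
      rw [mul_add]
    rw [d3, d4]
    omega
  have e1 := hz_bound z1 (Or.inl rfl)
  have e2 := hz_bound z2 (Or.inr rfl)
  have e3 : s * (ht z1 + ht z2) ≤ 6 * (ht z1 + ht z2) + s * (8 * p ^ D * ht v) := by
    have : s * (8 * p ^ D * ht v) = 2 * (4 * s * p ^ D * ht v) := by ring
    rw [this, mul_add]; omega
  have e4 : s * (ht z1 + ht z2) ≤ s * (16 * p ^ D * ht v) := by
    have : 2 * (6 * (ht z1 + ht z2)) ≤ s * (ht z1 + ht z2) := by nlinarith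
    have h16 : s * (16 * p ^ D * ht v) = 2 * (s * (8 * p ^ D * ht v)) := by ring
    omega
  exact Nat.le_of_mul_le_mul_left e4 (by omega)

end Pool.Agent.H367R2.H10
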