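import Mathlib
import Pool.Agent.H367R2.H10.Defs2
import Pool.Agent.H367R2.H10.T1
import Pool.Agent.H367R2.H10.T2
import Pool.Agent.H367R2.H10.T3

set_option autoImplicit false

/-! B6: stages (helper273). -/

open Polynomial Finset

namespace Pool.Agent.H367R2.H10

universe u
variable {k : Type u} [Field k]

namespace B6

/-- the core of `stage_local` -/
theorem core (p : ℕ) [Fact p.Prime] [CharP k p] {v : RatFunc k}
    {V : Valuation (RatFunc k) (WithZero (Multiplicative ℤ))} (hV : Good v V)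
    (w Z0 T0 : RatFunc k) (ζ ω σ : ℤ)
    (hZ : EQ V (-ζ) (Z0 ^ p)) (hζ : 0 < ζ) (hw : GE V (-ω) w) (hω : 0 ≤ ω)
    (c1 : ω + ζ < p * (ζ + 2 - σ)) (h1 : AS p (w * Z0 ^ p - v * T0 ^ p)) :
    GE V σ (T0 ^ p / Z0 ^ p - DD w / DD v) := by
  have h2 := ptwo (p := p)
  obtain ⟨y, hy⟩ := h1
  have hwZ : GE V (-(ω + ζ)) (w * Z0 ^ p) := by
    refine (hw.mul hZ.ge).mono ?_
    omega
  have hvT : GE V (-(ω + ζ)) (v * T0 ^ p) := by
    by_contra hc
    obtain ⟨m, hm, hE⟩ := GE.lt_or hc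
    have hT0 : T0 ≠ 0 := by
      rintro rfl
      apply hE.ne_zero
      rw [zero_pow (Fact.out : p.Prime).ne_zero, mul_zero]
    obtain ⟨n, hn⟩ := exists_EQ (V := V) hT0
    have h3 := hV.pole.mul (hn.pow p)
    have h4 := hE.unique h3
    have h5 : EQ V m (w * Z0 ^ p - v * T0 ^ p) := by
      have := hE.sub_ge hwZ hm
      have h6 := this.neg
      rwa [neg_sub] at h6
    have h7 := AS_order hy h5 (by omega)
    rw [h4] at h7
    have h8 : (p : ℤ) ∣ -1 := by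
      have := dvd_sub h7 (dvd_mul_right (p : ℤ) n)
      have e : -1 + (p : ℤ) * n - p * n = -1 := by ring
      rwa [e] at this
    have h9 : (p : ℤ) ∣ 1 := by
      have := (dvd_neg (a := (p : ℤ)) (b := 1)).mp h8
      exact this
    have := Int.le_of_dvd one_pos h9
    omega
  have hpos : 0 < ζ + 2 - σ := by
    by_contra hc
    push Not at hc
    have : (p : ℤ) * (ζ + 2 - σ) ≤ 0 := mul_nonpos_of_nonneg_of_nonpos (by omega) hc
    omega
  have hyb : GE V (-(ζ + 1 - σ)) y := by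
    refine AS_bound (p := p) (n := ω + ζ) (by omega) ?_ ?_
    · have e : ζ + 1 - σ + 1 = ζ + 2 - σ := by ring
      rw [e]; exact c1
    · rw [hy]; exact hwZ.sub hvT
  have hdy : GE V (-(ζ + 2 - σ)) (DD y) := (hV.der _ _ hyb).mono (by omega)
  have hZ0 : Z0 ^ p ≠ 0 := hZ.ne_zero
  have hdv : DD v ≠ 0 := hV.dpole.ne_zero
  have hder : -DD y = Z0 ^ p * DD w - T0 ^ p * DD v := by
    have e1 : DD (y ^ p - y) = -DD y := by
      rw [map_sub, deriv_pow_char, zero_sub]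
    have e2 : DD (w * Z0 ^ p - v * T0 ^ p) = Z0 ^ p * DD w - T0 ^ p * DD v := by
      rw [map_sub, Derivation.leibniz, Derivation.leibniz, deriv_pow_char, deriv_pow_char]
      simp only [smul_eq_mul, mul_zero, zero_add]
    rw [← e1, hy, e2]
  have heq : T0 ^ p / Z0 ^ p - DD w / DD v = DD y / (Z0 ^ p * DD v) := by
    rw [div_sub_div _ _ hZ0 hdv]
    congr 1
    linear_combination hder
  rw [heq]
  have hden := hZ.mul hV.dpole
  refine (hdy.div_EQ hden).mono ?_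
  omega

end B6

open B6

theorem stage_local (p : ℕ) [Fact p.Prime] [CharP k p] {v : RatFunc k}
    {V : Valuation (RatFunc k) (WithZero (Multiplicative ℤ))} (hV : Good v V)
    (w Z0 T0 : RatFunc k) (ζ ω σ : ℤ)
    (hZ : EQ V (-ζ) (Z0 ^ p)) (hζ : 0 < ζ) (hw : GE V (-ω) w) (hω : 0 ≤ ω) (hσ : 1 ≤ σ)
    (c1 : ω + ζ < p * (ζ + 2 - σ)) (c2 : ω + p * ζ < p * (p * ζ + 2 - σ))
    (h1 : AS p (w * Z0 ^ p - v * T0 ^ p))
    (h2 : AS p (w * (Z0 ^ p) ^ p - v * (T0 ^ p) ^ p)) :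
    GE V σ ((DD w / DD v) ^ p - DD w / DD v) ∧
      GE V σ (T0 ^ p / Z0 ^ p - DD w / DD v) := by
  have h3 := ptwo (p := p)
  have g1 := core p hV w Z0 T0 ζ ω σ hZ hζ hw hω c1 h1
  have hZ2 : EQ V (-(p * ζ)) ((Z0 ^ p) ^ p) := by
    have := hZ.pow p
    rwa [mul_neg] at this
  have g2 := core p hV w (Z0 ^ p) (T0 ^ p) (p * ζ) ω σ hZ2 (by positivity) hw hω c2 h2
  refine ⟨?_, g1⟩
  have g3 : GE V σ ((T0 ^ p / Z0 ^ p - DD w / DD v) ^ p) := (g1.pow p).mono (by nlinarith)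
  have heq : (DD w / DD v) ^ p - DD w / DD v =
      ((T0 ^ p) ^ p / (Z0 ^ p) ^ p - DD w / DD v) - (T0 ^ p / Z0 ^ p - DD w / DD v) ^ p := by
    rw [sub_pow_char, div_pow]
    ring
  rw [heq]
  exact g2.sub g3

namespace B6

/-- exact order of `ev` at a simple pole -/
theorem ev_EQ (p : ℕ) [Fact p.Prime] [CharP k p] {v : RatFunc k}
    {V : Valuation (RatFunc k) (WithZero (Multiplicative ℤ))} (hv : EQ V (-1) v)
    (u : (ZMod p)[X]) (hu0 : u ≠ 0) : EQ V (-(p ^ u.natDegree : ℤ)) (ev p u v) := by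
  have h2 := ptwo (p := p)
  rw [ev_range u v (Nat.lt_succ_self _), Finset.sum_range_succ]
  have hlead : EQ V (-(p ^ u.natDegree : ℤ))
      (cc p (RatFunc k) (u.coeff u.natDegree) * v ^ p ^ u.natDegree) := by
    have hc : u.coeff u.natDegree ≠ 0 := by
      rw [Polynomial.coeff_natDegree]
      exact Polynomial.leadingCoeff_ne_zero.mpr hu0
    have h3 := (cc_EQ (K := RatFunc k) (V := V) hc).mul (hv.pow (p ^ u.natDegree))
    have e : (0 : ℤ) + ((p ^ u.natDegree : ℕ) : ℤ) * -1 = -(p ^ u.natDegree : ℤ) := by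
      push_cast; ring
    rwa [e] at h3
  rcases Nat.eq_zero_or_pos u.natDegree with h0 | h0
  · rw [h0] at hlead ⊢
    simpa using hlead
  · have hrest : GE V (-(p ^ (u.natDegree - 1) : ℤ))
        (∑ x ∈ range u.natDegree, cc p (RatFunc k) (u.coeff x) * v ^ p ^ x) := by
      refine GE.sum _ fun i hi => ?_
      rw [Finset.mem_range] at hi
      have h4 := (cc_GE (K := RatFunc k) (V := V) (u.coeff i)).mul (hv.ge.pow (p ^ i))
      refine h4.mono ?_
      have h5 : (p : ℤ) ^ i ≤ (p : ℤ) ^ (u.natDegree - 1) :=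
        pow_le_pow_right₀ (by omega) (by omega)
      push_cast
      linarith
    rw [add_comm]
    refine hlead.add_ge hrest ?_
    have h6 : (p : ℤ) ^ u.natDegree = (p : ℤ) ^ (u.natDegree - 1) * p := by
      rw [← pow_succ]
      congr 1
      omega
    have h7 : (0 : ℤ) < (p : ℤ) ^ (u.natDegree - 1) := by positivity
    rw [h6]
    nlinarith

/-- lower bound for the pole order of `z1 z2 ^ p ^ κ` -/
theorem pole_low (p : ℕ) [Fact p.Prime] [CharP k p] {v : RatFunc k}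
    {V : Valuation (RatFunc k) (WithZero (Multiplicative ℤ))} (hV : Good v V)
    (D κ : ℕ) (hκ : D < κ) (z1 z2 : RatFunc k) (u : (ZMod p)[X]) (hu : u.natDegree = 2 * D)
    (hu0 : u ≠ 0)
    (H12 : AS p (z1 * z2 ^ p ^ κ - v * ev p u v ^ p ^ (κ - D))) :
    z1 ≠ 0 ∧ z2 ≠ 0 ∧ ∀ M1 M2 : ℤ, EQ V (-M1) z1 → EQ V (-M2) z2 →
      1 + p ^ (κ + D) ≤ M1 + p ^ κ * M2 := by
  have h2 := ptwo (p := p)
  obtain ⟨y, hy⟩ := H12
  have h3 := (ev_EQ p hV.pole u hu0).pow (p ^ (κ - D))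
  have h4 := hV.pole.mul h3
  have e : -1 + ((p ^ (κ - D) : ℕ) : ℤ) * -(p ^ u.natDegree : ℤ) = -(1 + (p : ℤ) ^ (κ + D)) := by
    rw [hu]
    push_cast
    have : (p : ℤ) ^ (κ + D) = (p : ℤ) ^ (κ - D) * (p : ℤ) ^ (2 * D) := by
      rw [← pow_add]
      congr 1
      omega
    rw [this]; ring
  rw [e] at h4
  have hpp : (0 : ℤ) < (p : ℤ) ^ (κ + D) := by positivity
  have hnot : ¬ GE V (-(p : ℤ) ^ (κ + D)) (z1 * z2 ^ p ^ κ) := by
    intro hG
    have h5 : EQ V (-(1 + (p : ℤ) ^ (κ + D))) (z1 * z2 ^ p ^ κ - v * ev p u v ^ p ^ (κ - D)) := by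
      have := (h4.sub_ge hG (by omega)).neg
      rwa [neg_sub] at this
    have h6 := AS_order hy h5 (by omega)
    have h7 : (p : ℤ) ∣ (p : ℤ) ^ (κ + D) := dvd_pow_self _ (by omega)
    have h8 : (p : ℤ) ∣ 1 := by
      have h9 := (dvd_neg (a := (p : ℤ)) (b := 1 + (p : ℤ) ^ (κ + D))).mp h6
      have := dvd_sub h9 h7
      simpa using this
    have := Int.le_of_dvd one_pos h8
    omega
  have hz1 : z1 ≠ 0 := by
    rintro rfl
    apply hnot
    rw [zero_mul]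
    exact GE.zero _
  have hz2 : z2 ≠ 0 := by
    rintro rfl
    apply hnot
    rw [zero_pow (pow_ne_zero _ (Fact.out : p.Prime).ne_zero), mul_zero]
    exact GE.zero _
  refine ⟨hz1, hz2, ?_⟩
  intro M1 M2 hM1 hM2
  obtain ⟨m, hm, hE⟩ := GE.lt_or hnot
  have h5 := hM1.mul (hM2.pow (p ^ κ))
  have h6 := hE.unique h5
  push_cast at h6
  have h7 : (p : ℤ) ^ κ * -M2 = -((p : ℤ) ^ κ * M2) := by ring
  rw [h7] at h6
  omega

end B6

theorem poles (p : ℕ) [Fact p.Prime] [CharP k p] {v : RatFunc k}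
    {V : Valuation (RatFunc k) (WithZero (Multiplicative ℤ))} (hV : Good v V)
    (D κ ν : ℕ) (hκ : 2 * D + 9 ≤ κ) (hν : ν ≤ D + 4) (z1 z2 : RatFunc k)
    (hz : z2 = z1 + v ^ p ^ ν) (u : (ZMod p)[X]) (hu : u.natDegree = 2 * D) (hu0 : u ≠ 0)
    (H12 : AS p (z1 * z2 ^ p ^ κ - v * ev p u v ^ p ^ (κ - D)))
    (H21 : AS p (z2 * z1 ^ p ^ κ - v * ev p u v ^ p ^ (κ - D))) :
    ∃ M1 M2 : ℤ, 1 ≤ M1 ∧ 1 ≤ M2 ∧ EQ V (-M1) z1 ∧ EQ V (-M2) z2 ∧
      M1 ≤ max M2 (p ^ (D + 4)) ∧ M2 ≤ max M1 (p ^ (D + 4)) := by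
  have h2 := ptwo (p := p)
  obtain ⟨hz1, hz2, hlow⟩ := pole_low p hV D κ (by omega) z1 z2 u hu hu0 H12
  obtain ⟨-, -, hlow'⟩ := pole_low p hV D κ (by omega) z2 z1 u hu hu0 H21
  obtain ⟨n1, hn1⟩ := exists_EQ (V := V) hz1
  obtain ⟨n2, hn2⟩ := exists_EQ (V := V) hz2
  have hM1 : EQ V (-(-n1)) z1 := by rwa [neg_neg]
  have hM2 : EQ V (-(-n2)) z2 := by rwa [neg_neg]
  have L1 := hlow (-n1) (-n2) hM1 hM2
  have L2 := hlow' (-n2) (-n1) hM2 hM1
  set M1 := -n1 with hM1def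
  set M2 := -n2 with hM2def
  have hpκ : (1 : ℤ) ≤ (p : ℤ) ^ κ := one_le_pow₀ (by omega)
  have hνD : (p : ℤ) ^ ν ≤ (p : ℤ) ^ (D + 4) := pow_le_pow_right₀ (by omega) hν
  have hνκ : (p : ℤ) ^ ν ≤ (p : ℤ) ^ (κ + D) := pow_le_pow_right₀ (by omega) (by omega)
  have hvν : EQ V (-(p : ℤ) ^ ν) (v ^ p ^ ν) := by
    have := hV.pole.pow (p ^ ν)
    have e : ((p ^ ν : ℕ) : ℤ) * -1 = -(p : ℤ) ^ ν := by push_cast; ring
    rwa [e] at this
  have hd1 : z2 - z1 = v ^ p ^ ν := by rw [hz]; ring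
  have hd2 : z1 - z2 = -v ^ p ^ ν := by rw [hz]; ring
  have g2 : 1 ≤ M2 := by
    by_contra hc
    push Not at hc
    have h3 : (p : ℤ) ^ κ * M2 ≤ 0 := mul_nonpos_of_nonneg_of_nonpos (by omega) (by omega)
    have h5 : (1 : ℤ) ≤ (p : ℤ) ^ (κ + D) := one_le_pow₀ (by omega)
    have h6 : M2 < M1 := by linarith [L1, L2, h3, h5, hc]
    have h4 : EQ V (-M1) (z1 - z2) := hM1.sub_ge hM2.ge (neg_lt_neg h6)
    rw [hd2] at h4
    have := h4.unique hvν.neg
    omega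
  have g1 : 1 ≤ M1 := by
    by_contra hc
    push Not at hc
    have h3 : (p : ℤ) ^ κ * M1 ≤ 0 := mul_nonpos_of_nonneg_of_nonpos (by omega) (by omega)
    have h5 : (1 : ℤ) ≤ (p : ℤ) ^ (κ + D) := one_le_pow₀ (by omega)
    have h6 : M1 < M2 := by linarith [L1, L2, h3, h5, hc]
    have h4 : EQ V (-M2) (z2 - z1) := hM2.sub_ge hM1.ge (neg_lt_neg h6)
    rw [hd1] at h4
    have := h4.unique hvν
    omega
  refine ⟨M1, M2, g1, g2, hM1, hM2, ?_, ?_⟩
  · have h3 : GE V (-(max M2 ((p : ℤ) ^ (D + 4)))) z1 := by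
      have e : z1 = z2 - v ^ p ^ ν := by rw [hz]; ring
      rw [e]
      refine GE.sub (hM2.ge.mono ?_) (hvν.ge.mono ?_)
      · have := le_max_left M2 ((p : ℤ) ^ (D + 4)); omega
      · have := le_max_right M2 ((p : ℤ) ^ (D + 4)); omega
    have := hM1.le_of_ge h3
    omega
  · have h3 : GE V (-(max M1 ((p : ℤ) ^ (D + 4)))) z2 := by
      rw [hz]
      refine GE.add (hM1.ge.mono ?_) (hvν.ge.mono ?_)
      · have := le_max_left M1 ((p : ℤ) ^ (D + 4)); omega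
      · have := le_max_right M1 ((p : ℤ) ^ (D + 4)); omega
    have := hM2.le_of_ge h3
    omega

namespace B6

theorem cc_C (p : ℕ) [Fact p.Prime] [CharP k p] (a : ZMod p) :
    cc p (RatFunc k) a = RatFunc.C (cc p k a) := by
  have : (cc p (RatFunc k)) = (RatFunc.C (K := k)).comp (cc p k) := Subsingleton.elim _ _
  rw [this]
  rfl

theorem DD_cc (p : ℕ) [Fact p.Prime] [CharP k p] (a : ZMod p) :
    DD (cc p (RatFunc k) a) = 0 := by
  have h := cc_pow (K := RatFunc k) (p := p) a 1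
  rw [pow_one] at h
  rw [← h]
  exact deriv_pow_char p _

theorem DD_cc_mul (p : ℕ) [Fact p.Prime] [CharP k p] (a : ZMod p) (f : RatFunc k) :
    DD (cc p (RatFunc k) a * f) = cc p (RatFunc k) a * DD f := by
  rw [Derivation.leibniz, DD_cc]
  simp only [smul_eq_mul, mul_zero, add_zero]

theorem DD_pow_succ (p : ℕ) [Fact p.Prime] [CharP k p] (f : RatFunc k) (n : ℕ) :
    DD (f ^ p ^ (n + 1)) = 0 := by
  rw [pow_succ, pow_mul]
  exact deriv_pow_char p _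

theorem DD_ev (p : ℕ) [Fact p.Prime] [CharP k p] (A : (ZMod p)[X]) (v : RatFunc k) :
    DD (ev p A v) = cc p (RatFunc k) (A.coeff 0) * DD v := by
  rw [ev_range A v (Nat.lt_succ_self _), Finset.sum_range_succ', map_add, map_sum]
  rw [Finset.sum_eq_zero, zero_add, pow_zero, pow_one, DD_cc_mul]
  intro i _
  rw [DD_cc_mul, DD_pow_succ, mul_zero]

theorem ht_zero : ht (0 : RatFunc k) = 0 := by
  unfold ht
  simp

theorem ht_sum {ι : Type*} (s : Finset ι) (f : ι → RatFunc k) :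
    ht (∑ i ∈ s, f i) ≤ ∑ i ∈ s, ht (f i) := by
  classical
  induction s using Finset.induction_on with
  | empty => simp [ht_zero]
  | insert a s ha ih =>
    rw [Finset.sum_insert ha, Finset.sum_insert ha]
    exact (ht_add_le _ _).trans (Nat.add_le_add_left ih _)

theorem ht_ev (p : ℕ) [Fact p.Prime] [CharP k p] (A : (ZMod p)[X]) (v : RatFunc k) (n : ℕ)
    (hA : A.degree < n) : ht (ev p A v) ≤ p ^ n * ht v := by
  by_cases h0 : A = 0
  · rw [h0, ev_zero, ht_zero]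
    exact Nat.zero_le _
  · have hn : A.natDegree < n := (Polynomial.natDegree_lt_iff_degree_lt h0).mpr hA
    rw [ev_range A v hn]
    refine (ht_sum _ _).trans ?_
    have h1 : ∀ i ∈ range n, ht (cc p (RatFunc k) (A.coeff i) * v ^ p ^ i) ≤ p ^ i * ht v := by
      intro i _
      rw [cc_C]
      refine (ht_const_mul_le _ _).trans ?_
      rw [ht_pow]
    refine (Finset.sum_le_sum h1).trans ?_
    rw [← Finset.sum_mul]
    apply Nat.mul_le_mul_right
    exact (Nat.geomSum_lt (Fact.out : p.Prime).two_le (fun j hj => Finset.mem_range.mp hj)).le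

/-- numerical conditions -/
theorem conds (P M2 : ℤ) (hP : 2 ≤ P) (D κ i : ℕ) (hκ : 2 * D + 9 ≤ κ) (hi : i ≤ D)
    (hM : 1 ≤ M2) :
    max M2 (P ^ (D + 4)) + P ^ (κ - i) * M2 < P * (P ^ (κ - i) * M2 + 2 - P ^ (κ - D - 2)) ∧
    max M2 (P ^ (D + 4)) + P * (P ^ (κ - i) * M2) <
      P * (P * (P ^ (κ - i) * M2) + 2 - P ^ (κ - D - 2)) := by
  set X : ℤ := P ^ (κ - D - 1) with hX
  have hX1 : 1 ≤ X := one_le_pow₀ (by omega)
  have h1 : P * P ^ (κ - D - 2) = X := by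
    rw [hX, ← pow_succ']
    congr 1
    omega
  have h2 : P * X ≤ P ^ (κ - i) := by
    rw [hX, ← pow_succ']
    exact pow_le_pow_right₀ (by omega) (by omega)
  have h3 : P ^ (D + 4) ≤ X := pow_le_pow_right₀ (by omega) (by omega)
  set Y : ℤ := P ^ (κ - i) * M2 with hY
  have h4 : 2 * (X * M2) ≤ Y := by
    calc 2 * (X * M2) ≤ P * (X * M2) := mul_le_mul_of_nonneg_right hP (by positivity)
      _ = P * X * M2 := by ring
      _ ≤ Y := mul_le_mul_of_nonneg_right h2 (by omega)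
  have h5 : X ≤ X * M2 := by nlinarith
  have h6 : M2 ≤ X * M2 := by nlinarith
  have h7 : max M2 (P ^ (D + 4)) ≤ X * M2 := max_le h6 (h3.trans h5)
  have hY0 : 0 ≤ Y := by nlinarith
  have h8 : 2 * Y ≤ P * Y := mul_le_mul_of_nonneg_right hP hY0
  have h9 : 2 * (P * Y) ≤ P * (P * Y) := mul_le_mul_of_nonneg_right hP (by nlinarith)
  constructor
  · have : P * (Y + 2 - P ^ (κ - D - 2)) = P * Y + 2 * P - X := by rw [← h1]; ring
    rw [this]
    omega
  · have : P * (P * Y + 2 - P ^ (κ - D - 2)) = P * (P * Y) + 2 * P - X := by rw [← h1]; ring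
    rw [this]
    omega

/-- the situation at stage `i` -/
structure St (p : ℕ) [Fact p.Prime] [CharP k p] (v z1 z2 : RatFunc k) (κ i : ℕ)
    (A : (ZMod p)[X]) (w T0 : RatFunc k) : Prop where
  deg : A.degree < i
  eq : z1 = ev p A v + w ^ p ^ i
  c : AS p (w * z2 ^ p ^ (κ - i) - v * T0 ^ p)
  d : AS p (w * (z2 ^ p ^ (κ - i)) ^ p - v * (T0 ^ p) ^ p)

/-- the local consequences of stage `i` -/
theorem St.loc {p : ℕ} [Fact p.Prime] [CharP k p] {v z1 z2 : RatFunc k} {D κ i : ℕ}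
    {A : (ZMod p)[X]} {w T0 : RatFunc k} (h : St p v z1 z2 κ i A w T0) (hκ : 2 * D + 9 ≤ κ)
    (hi : i ≤ D)
    {V : Valuation (RatFunc k) (WithZero (Multiplicative ℤ))} (hV : Good v V)
    (hM : ∃ M1 M2 : ℤ, 1 ≤ M1 ∧ 1 ≤ M2 ∧ EQ V (-M1) z1 ∧ EQ V (-M2) z2 ∧
        M1 ≤ max M2 (p ^ (D + 4))) :
    GE V ((p ^ (κ - D - 2) : ℕ) : ℤ) ((DD w / DD v) ^ p - DD w / DD v) ∧
      GE V ((p ^ (κ - D - 2) : ℕ) : ℤ) (T0 ^ p / z2 ^ p ^ (κ - i) - DD w / DD v) := by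
  have h2 := ptwo (p := p)
  obtain ⟨M1, M2, hM1, hM2, e1, e2, hmax⟩ := hM
  have hZ0 : (z2 ^ p ^ (κ - i - 1)) ^ p = z2 ^ p ^ (κ - i) := by
    rw [← pow_mul, ← pow_succ]
    congr 2
    omega
  set ω : ℤ := max M2 ((p : ℤ) ^ (D + 4)) with hω
  have hω0 : 0 ≤ ω := le_trans (by omega) (le_max_left M2 _)
  have hw : GE V (-ω) w := by
    have h3 : w ^ p ^ i = z1 - ev p A v := by rw [h.eq]; ring
    have h4 : GE V (-ω) (w ^ p ^ i) := by
      rw [h3]
      refine GE.sub (e1.ge.mono (by omega)) ?_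
      have h5 : A.natDegree ≤ i := Polynomial.natDegree_le_of_degree_le h.deg.le
      have h6 := ev_GE A (V := V) (v := v) (e := 1) (by norm_num) hV.pole.ge h5
      refine h6.mono ?_
      have h7 : (p : ℤ) ^ i ≤ (p : ℤ) ^ (D + 4) := pow_le_pow_right₀ (by omega) (by omega)
      have := le_max_right M2 ((p : ℤ) ^ (D + 4))
      omega
    have hpi : (1 : ℤ) ≤ ((p ^ i : ℕ) : ℤ) := by
      have : 1 ≤ p ^ i := Nat.one_le_pow _ _ (Fact.out : p.Prime).pos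
      exact_mod_cast this
    refine GE.of_pow (k := p ^ i) (Nat.pow_pos (Fact.out : p.Prime).pos) (h4.mono ?_)
    nlinarith
  obtain ⟨k1, k2⟩ := conds (p : ℤ) M2 h2 D κ i hκ hi hM2
  have hZ : EQ V (-((p : ℤ) ^ (κ - i) * M2)) ((z2 ^ p ^ (κ - i - 1)) ^ p) := by
    rw [hZ0]
    have := e2.pow (p ^ (κ - i))
    have e : ((p ^ (κ - i) : ℕ) : ℤ) * -M2 = -((p : ℤ) ^ (κ - i) * M2) := by push_cast; ring
    rwa [e] at this
  have key := stage_local p hV w (z2 ^ p ^ (κ - i - 1)) T0 ((p : ℤ) ^ (κ - i) * M2) ω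
    ((p : ℤ) ^ (κ - D - 2)) hZ (by positivity) hw hω0 (one_le_pow₀ (by omega)) k1 k2
    (by rw [hZ0]; exact h.c) (by rw [hZ0]; exact h.d)
  rw [hZ0] at key
  push_cast
  exact key

/-- heights at stage `i` -/
theorem St.ht_w {p : ℕ} [Fact p.Prime] [CharP k p] {v z1 z2 : RatFunc k} {κ i : ℕ}
    {A : (ZMod p)[X]} {w T0 : RatFunc k} (h : St p v z1 z2 κ i A w T0) :
    ht w ≤ ht z1 + ht v := by
  have hp1 : 1 ≤ p ^ i := Nat.one_le_pow _ _ (Fact.out : p.Prime).pos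
  have h1 : p ^ i * ht w ≤ ht z1 + p ^ i * ht v := by
    rw [← ht_pow]
    have h3 : w ^ p ^ i = z1 + -ev p A v := by rw [h.eq]; ring
    rw [h3]
    refine (ht_add_le _ _).trans ?_
    rw [ht_neg]
    exact Nat.add_le_add_left (ht_ev p A v i h.deg) _
  have h2 : p ^ i * ht w ≤ p ^ i * (ht z1 + ht v) := by
    refine h1.trans ?_
    rw [mul_add]
    exact Nat.add_le_add_right (Nat.le_mul_of_pos_left _ (by omega)) _
  exact Nat.le_of_mul_le_mul_left h2 (by omega)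

/-- the global consequence of stage `i` -/
theorem St.glob {p : ℕ} [Fact p.Prime] [CharP k p] {v z1 z2 : RatFunc k}
    (hv : Nice v) {D κ i : ℕ}
    {A : (ZMod p)[X]} {w T0 : RatFunc k} (h : St p v z1 z2 κ i A w T0) (hκ : 2 * D + 9 ≤ κ)
    (hi : i ≤ D) (hht : ht z1 + ht z2 ≤ 16 * p ^ D * ht v)
    (hM : ∀ V : Valuation (RatFunc k) (WithZero (Multiplicative ℤ)), Good v V →
      ∃ M1 M2 : ℤ, 1 ≤ M1 ∧ 1 ≤ M2 ∧ EQ V (-M1) z1 ∧ EQ V (-M2) z2 ∧
        M1 ≤ max M2 (p ^ (D + 4))) :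
    ∃ a : ZMod p, DD w = cc p (RatFunc k) a * DD v := by
  have hp2 := (Fact.out : p.Prime).two_le
  set Θ := DD w / DD v with hΘ
  have hfix : Θ ^ p = Θ := by
    by_contra hne
    have hΦ : Θ ^ p - Θ ≠ 0 := sub_ne_zero.mpr hne
    have h1 := hv.count (Θ ^ p - Θ) (p ^ (κ - D - 2)) hΦ
      (fun V hV => (h.loc hκ hi hV (hM V hV)).1)
    have h2 : ht (Θ ^ p - Θ) ≤ p * ht Θ := ht_AS_le p hp2 Θ
    have h3 : ht Θ ≤ 2 * ht w + 2 * ht v := by
      rw [hΘ, div_eq_mul_inv]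
      refine (ht_mul_le _ _).trans ?_
      rw [ht_inv]
      exact add_le_add (ht_deriv_le w) (ht_deriv_le v)
    have h4 := h.ht_w
    have hpD : 1 ≤ p ^ D := Nat.one_le_pow _ _ (by omega)
    have h5 : ht v ≤ p ^ D * ht v := Nat.le_mul_of_pos_left _ (by omega)
    have h6 : ht Θ ≤ 36 * (p ^ D * ht v) := by
      have e : 16 * p ^ D * ht v = 16 * (p ^ D * ht v) := by ring
      rw [e] at hht
      omega
    have h7 : 11 * p ^ (κ - D - 2) * ht v ≤ 576 * p ^ (D + 1) * ht v := by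
      calc 11 * p ^ (κ - D - 2) * ht v ≤ 16 * ht (Θ ^ p - Θ) := h1
        _ ≤ 16 * (p * ht Θ) := Nat.mul_le_mul_left _ h2
        _ ≤ 16 * (p * (36 * (p ^ D * ht v))) := by gcongr
        _ = 576 * p ^ (D + 1) * ht v := by ring
    have h8 := Nat.le_of_mul_le_mul_right h7 hv.hpos
    have h9 : p ^ (D + 1) * p ^ 6 ≤ p ^ (κ - D - 2) := by
      rw [← pow_add]
      exact Nat.pow_le_pow_right (by omega) (by omega)
    have h10 : 64 ≤ p ^ 6 := by
      calc 64 = 2 ^ 6 := by norm_num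
        _ ≤ p ^ 6 := Nat.pow_le_pow_left hp2 6
    have h11 : p ^ (D + 1) * 64 ≤ p ^ (D + 1) * p ^ 6 := Nat.mul_le_mul_left _ h10
    have h12 : 1 ≤ p ^ (D + 1) := Nat.one_le_pow _ _ (by omega)
    omega
  obtain ⟨a, ha⟩ := exists_zmod_of_pow_eq (p := p) hfix
  refine ⟨a, ?_⟩
  have : cc p (RatFunc k) a = DD w / DD v := ha
  rw [this, div_mul_cancel₀ _ hv.dv]

/-- from stage `i` to stage `i + 1` -/
theorem St.step {p : ℕ} [Fact p.Prime] [CharP k p] [PerfectField k] {v z1 z2 : RatFunc k}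
    {κ i : ℕ} {A : (ZMod p)[X]} {w T0 : RatFunc k} (h : St p v z1 z2 κ i A w T0) (hi : i < κ)
    (a : ZMod p) (ha : DD w = cc p (RatFunc k) a * DD v) :
    ∃ (A' : (ZMod p)[X]) (w' T0' : RatFunc k), St p v z1 z2 κ (i + 1) A' w' T0' := by
  have hd : DD (w - cc p (RatFunc k) a * v) = 0 := by
    rw [map_sub, DD_cc_mul, ha, sub_self]
  obtain ⟨w', hw'⟩ := exists_pow_of_deriv_eq_zero p _ hd
  have hw : w = w' ^ p + cc p (RatFunc k) a * v := by rw [hw']; ring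
  have hcp : (cc p (RatFunc k) a) ^ p = cc p (RatFunc k) a := by
    have := cc_pow (K := RatFunc k) (p := p) a 1
    rwa [pow_one] at this
  have hzz : z2 ^ p ^ (κ - i) = (z2 ^ p ^ (κ - (i + 1))) ^ p := by
    rw [← pow_mul, ← pow_succ]
    congr 2
    omega
  set Z := z2 ^ p ^ (κ - (i + 1)) with hZ
  have hT : (T0 - cc p (RatFunc k) a * Z) ^ p = T0 ^ p - cc p (RatFunc k) a * Z ^ p := by
    rw [sub_pow_char, mul_pow, hcp]
  have hT2 : ((T0 - cc p (RatFunc k) a * Z) ^ p) ^ p =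
      (T0 ^ p) ^ p - cc p (RatFunc k) a * (Z ^ p) ^ p := by
    rw [hT, sub_pow_char, mul_pow, hcp]
  refine ⟨A + monomial i a, w', T0 - cc p (RatFunc k) a * Z, ?_, ?_, ?_, ?_⟩
  · refine lt_of_le_of_lt (Polynomial.degree_add_le _ _) (max_lt ?_ ?_)
    · refine h.deg.trans ?_
      exact_mod_cast Nat.lt_succ_self i
    · refine lt_of_le_of_lt (Polynomial.degree_monomial_le _ _) ?_
      exact_mod_cast Nat.lt_succ_self i
  · have e1 : w ^ p ^ i = w' ^ p ^ (i + 1) + cc p (RatFunc k) a * v ^ p ^ i := by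
      rw [hw, add_pow_char_pow, mul_pow, cc_pow, ← pow_mul, ← pow_succ']
    rw [ev_add, ev_monomial]
    conv_lhs => rw [h.eq, e1]
    ring
  · rw [← hZ]
    have h1 := h.c
    rw [hzz] at h1
    have e : w * Z ^ p - v * T0 ^ p = (w' * Z) ^ p ^ 1 -
        v * (T0 - cc p (RatFunc k) a * Z) ^ p := by
      rw [hT, hw, pow_one, mul_pow]
      ring
    rw [e] at h1
    exact AS.of_frob h1
  · rw [← hZ]
    have h1 := h.d
    rw [hzz] at h1
    have e : w * (Z ^ p) ^ p - v * (T0 ^ p) ^ p = (w' * Z ^ p) ^ p ^ 1 -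
        v * ((T0 - cc p (RatFunc k) a * Z) ^ p) ^ p := by
      rw [hT2, hw, pow_one, mul_pow]
      ring
    rw [e] at h1
    exact AS.of_frob h1

end B6

theorem stages (p : ℕ) [Fact p.Prime] [CharP k p] [PerfectField k] {v : RatFunc k}
    (hv : Nice v) (D κ : ℕ) (hκ : 2 * D + 9 ≤ κ)
    (z1 z2 : RatFunc k) (u : (ZMod p)[X]) (hu : u.natDegree ≤ 2 * D)
    (hht : ht z1 + ht z2 ≤ 16 * p ^ D * ht v)
    (hM : ∀ V : Valuation (RatFunc k) (WithZero (Multiplicative ℤ)), Good v V →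
      ∃ M1 M2 : ℤ, 1 ≤ M1 ∧ 1 ≤ M2 ∧ EQ V (-M1) z1 ∧ EQ V (-M2) z2 ∧
        M1 ≤ max M2 (p ^ (D + 4)))
    (h1 : AS p (z1 * z2 ^ p ^ κ - v * ev p u v ^ p ^ (κ - D)))
    (h2 : AS p (z1 * z2 ^ p ^ (κ + 1) - v * ev p u v ^ p ^ (κ + 1 - D))) :
    ∃ (A : (ZMod p)[X]) (w : RatFunc k), A.natDegree ≤ D ∧
      z1 = ev p A v + w ^ p ^ (D + 1) ∧ DD z1 = cc p (RatFunc k) (A.coeff 0) * DD v ∧
      ∀ V : Valuation (RatFunc k) (WithZero (Multiplicative ℤ)), Good v V →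
        GE V 1 (ev p u v ^ p ^ (κ - D) / z2 ^ p ^ κ - cc p (RatFunc k) (A.coeff 0)) := by
  have hT : (ev p u v ^ p ^ (κ - D - 1)) ^ p = ev p u v ^ p ^ (κ - D) := by
    rw [← pow_mul, ← pow_succ]
    congr 2
    omega
  have hS0 : St p v z1 z2 κ 0 0 z1 (ev p u v ^ p ^ (κ - D - 1)) := by
    refine ⟨?_, ?_, ?_, ?_⟩
    · rw [Polynomial.degree_zero]
      exact WithBot.bot_lt_coe _
    · rw [ev_zero, zero_add, pow_zero, pow_one]
    · rw [hT]; exact h1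
    · rw [hT]
      have e1 : (z2 ^ p ^ (κ - 0)) ^ p = z2 ^ p ^ (κ + 1) := by
        rw [← pow_mul, ← pow_succ]
        rfl
      have e2 : (ev p u v ^ p ^ (κ - D)) ^ p = ev p u v ^ p ^ (κ + 1 - D) := by
        rw [← pow_mul, ← pow_succ]
        congr 2
        omega
      rw [e1, e2]
      exact h2
  have hall : ∀ i, i ≤ D + 1 → ∃ (A : (ZMod p)[X]) (w T0 : RatFunc k),
      St p v z1 z2 κ i A w T0 := by
    intro i
    induction i with
    | zero => exact fun _ => ⟨_, _, _, hS0⟩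
    | succ i ih =>
      intro hi
      obtain ⟨A, w, T0, hS⟩ := ih (by omega)
      obtain ⟨a, ha⟩ := hS.glob hv hκ (by omega) hht hM
      exact hS.step (by omega) a ha
  obtain ⟨A, w, T0, hS⟩ := hall (D + 1) le_rfl
  have hDz : DD z1 = cc p (RatFunc k) (A.coeff 0) * DD v := by
    rw [hS.eq, map_add, DD_pow_succ, add_zero, DD_ev]
  refine ⟨A, w, ?_, hS.eq, hDz, ?_⟩
  · have h3 : A.degree < ((D + 1 : ℕ) : WithBot ℕ) := hS.deg
    by_cases h0 : A = 0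
    · rw [h0]; simp
    · have := (Polynomial.natDegree_lt_iff_degree_lt h0).mpr h3
      omega
  · intro V hV
    have h3 := (hS0.loc hκ (Nat.zero_le D) hV (hM V hV)).2
    rw [hT] at h3
    have h4 : DD z1 / DD v = cc p (RatFunc k) (A.coeff 0) := by
      rw [hDz, mul_div_assoc, div_self hv.dv, mul_one]
    rw [h4] at h3
    refine h3.mono ?_
    have : 1 ≤ p ^ (κ - D - 2) := Nat.one_le_pow _ _ (Fact.out : p.Prime).pos
    exact_mod_cast this

end Pool.Agent.H367R2.H10
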