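import Mathlib
import Pool.Agent.H534R2.H10B4

set_option autoImplicit false

/-! Task B7: extraction of the coefficients. -/

open Polynomial Finset

namespace Pool.Agent.H367R2.H10.B7

open Pool.Agent.H367R2.H10

universe u

variable {p : ℕ} [hp : Fact p.Prime] {K : Type u} [Field K] [CharP K p]
  {V : Valuation K (WithZero (Multiplicative ℤ))} {v : K}

/-- the expressions `v F^n v`, `n ≥ 1`, are independent modulo Artin-Schreier -/
theorem coeff_zero (hv : EQ V (-1) v) {R : K} (hR : GE V (-1) R) (c : ℕ → ZMod p) (N : ℕ)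
    (h : AS p (∑ n ∈ range N, cc p K (c n) * (v * v ^ p ^ n) + R)) :
    ∀ n, 1 ≤ n → n < N → c n = 0 := by
  induction N with
  | zero => intro n _ h; omega
  | succ N ih =>
    intro n hn hnN
    have hterm : ∀ m : ℕ, EQ V (-(1 + (p : ℤ) ^ m)) (v * v ^ p ^ m) := by
      intro m
      have h1 := hv.mul (hv.pow (p ^ m))
      have e : (-1 : ℤ) + ((p ^ m : ℕ) : ℤ) * -1 = -(1 + (p : ℤ) ^ m) := by push_cast; ring
      rwa [e] at h1
    have hN : 1 ≤ N := by omega
    have hcN : c N = 0 := by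
      by_contra hne
      obtain ⟨y, hy⟩ := h
      rw [sum_range_succ] at hy
      have h1 : GE V (-(1 + (p : ℤ) ^ (N - 1)))
          (∑ n ∈ range N, cc p K (c n) * (v * v ^ p ^ n)) := by
        refine GE.sum _ fun i hi => ?_
        have hi' := mem_range.1 hi
        refine ((cc_GE (c i)).mul (hterm i).ge).mono ?_
        have : (p : ℤ) ^ i ≤ (p : ℤ) ^ (N - 1) :=
          pow_le_pow_right₀ (by have := ptwo (p := p); omega) (by omega)
        omega
      have h2 : EQ V (-(1 + (p : ℤ) ^ N)) (cc p K (c N) * (v * v ^ p ^ N)) := by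
        have := (cc_EQ (V := V) hne).mul (hterm N)
        rwa [zero_add] at this
      have hlt : (p : ℤ) ^ (N - 1) < (p : ℤ) ^ N := by
        refine pow_lt_pow_right₀ ?_ (by omega)
        have := ptwo (p := p); omega
      have hpos : (0 : ℤ) < (p : ℤ) ^ (N - 1) := by
        have := ptwo (p := p); positivity
      have h3 : EQ V (-(1 + (p : ℤ) ^ N)) (∑ n ∈ range N, cc p K (c n) * (v * v ^ p ^ n) +
          cc p K (c N) * (v * v ^ p ^ N) + R) := by
        have e : ∑ n ∈ range N, cc p K (c n) * (v * v ^ p ^ n) + cc p K (c N) * (v * v ^ p ^ N) + R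
          = cc p K (c N) * (v * v ^ p ^ N) +
            (∑ n ∈ range N, cc p K (c n) * (v * v ^ p ^ n) + R) := by ring
        rw [e]
        refine h2.add_ge (h1.add (hR.mono ?_)) ?_
        · omega
        · omega
      have h4 := AS_order hy h3 (by omega)
      have h5 : (p : ℤ) ∣ (p : ℤ) ^ N := dvd_pow_self _ (by omega)
      rw [dvd_neg] at h4
      have h6 : (p : ℤ) ∣ 1 := by
        have := dvd_sub h4 h5
        simpa using this
      have h7 := Int.le_of_dvd one_pos h6
      have := ptwo (p := p)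
      omega
    rcases Nat.lt_succ_iff_lt_or_eq.1 hnN with h1 | h1
    · refine ih ?_ n hn h1
      rw [sum_range_succ, hcN, map_zero, zero_mul, add_zero] at h
      exact h
    · rw [h1]; exact hcN

/-- the coefficients as a function on the integers, shifted by `D` -/
def del (D : ℕ) (e : ℕ → ZMod p) (j : ℤ) : ZMod p :=
  if -(D : ℤ) ≤ j ∧ j ≤ D then e (j + D).toNat else 0

theorem sum_single (N : ℕ) (a : ℤ) (x : ZMod p) (hx : ¬ (0 ≤ a ∧ a < N) → x = 0) :
    ∑ i ∈ range N, (if (i : ℤ) = a then x else 0) = x := by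
  by_cases h : 0 ≤ a ∧ a < N
  · rw [Finset.sum_eq_single a.toNat]
    · rw [if_pos (by omega)]
    · intro i _ hi
      rw [if_neg (by omega)]
    · intro hi
      exfalso
      apply hi
      rw [mem_range]
      omega
  · rw [hx h]
    simp

theorem coeff_eq (D : ℕ) (e : ℕ → ZMod p) (n : ℕ) (hn : 1 ≤ n) :
    ∑ i ∈ (range (2 * D + 1)).filter (fun i : ℕ => (1 + (i : ℤ) - D).natAbs = n), e i =
      del D e ((n : ℤ) - 1) + del D e (-(n : ℤ) - 1) := by
  rw [sum_filter]
  have h1 := sum_single (p := p) (2 * D + 1) ((n : ℤ) - 1 + D) (del D e ((n : ℤ) - 1)) (by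
    intro h
    unfold del
    rw [if_neg (by push_cast at h; omega)])
  have h2 := sum_single (p := p) (2 * D + 1) (-(n : ℤ) - 1 + D) (del D e (-(n : ℤ) - 1)) (by
    intro h
    unfold del
    rw [if_neg (by push_cast at h; omega)])
  rw [← h1, ← h2, ← sum_add_distrib]
  refine sum_congr rfl fun i hi => ?_
  have hi' := mem_range.1 hi
  by_cases c1 : (i : ℤ) = (n : ℤ) - 1 + D
  · rw [if_pos (by omega), if_pos c1, if_neg (by omega), add_zero]
    unfold del
    rw [if_pos (by omega)]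
    congr 1
    omega
  · by_cases c2 : (i : ℤ) = -(n : ℤ) - 1 + D
    · rw [if_pos (by omega), if_neg c1, if_pos c2, zero_add]
      unfold del
      rw [if_pos (by omega)]
      congr 1
      omega
    · rw [if_neg (by omega), if_neg c1, if_neg c2, add_zero]

theorem brackets (hv : EQ V (-1) v) {R : K} (hR : GE V (-1) R) (D : ℕ) (e : ℕ → ZMod p)
    (h : AS p (∑ i ∈ range (2 * D + 1), cc p K (e i) * br p v (1 + (i : ℤ) - D) + R))
    (d : ℕ) (hd : 1 ≤ d) : del D e ((d : ℤ) - 1) + del D e (-(d : ℤ) - 1) = 0 := by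
  by_cases hdN : d < D + 2
  · rw [← coeff_eq D e d hd]
    refine coeff_zero hv hR (fun n => ∑ i ∈ (range (2 * D + 1)).filter
      (fun i : ℕ => (1 + (i : ℤ) - D).natAbs = n), e i) (D + 2) ?_ d hd hdN
    have hs : ∑ i ∈ range (2 * D + 1), cc p K (e i) * br p v (1 + (i : ℤ) - D) =
        ∑ n ∈ range (D + 2), cc p K (∑ i ∈ (range (2 * D + 1)).filter
          (fun i : ℕ => (1 + (i : ℤ) - D).natAbs = n), e i) * (v * v ^ p ^ n) := by
      rw [← sum_fiberwise_of_maps_to (t := range (D + 2))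
        (g := fun i : ℕ => (1 + (i : ℤ) - D).natAbs)]
      · refine sum_congr rfl fun n _ => ?_
        rw [map_sum, sum_mul]
        refine sum_congr rfl fun i hi => ?_
        rw [mem_filter] at hi
        unfold br
        rw [hi.2]
      · intro i hi
        have := mem_range.1 hi
        rw [mem_range]
        omega
    rw [← hs]
    exact h
  · unfold del
    rw [if_neg (by omega), if_neg (by omega), add_zero]

/-- the combinatorial part -/
theorem del_zero (D : ℕ) (e : ℕ → ZMod p)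
    (h1 : ∀ d : ℕ, 1 ≤ d → del D e ((d : ℤ) - 1) + del D e (-(d : ℤ) - 1) = 0)
    (h2 : ∀ d : ℕ, 1 ≤ d → del D e (1 - (d : ℤ)) + del D e ((d : ℤ) + 1) = 0) :
    ∀ i ≤ 2 * D, e i = 0 := by
  have h3 : ∀ j : ℕ, del D e j = del D e (j + 4 : ℕ) := by
    intro j
    have a1 := h1 (j + 1) (by omega)
    have a2 := h2 (j + 3) (by omega)
    have e1 : (((j + 1 : ℕ) : ℤ) - 1) = (j : ℤ) := by push_cast; ring
    have e2 : (-((j + 1 : ℕ) : ℤ) - 1) = -(j : ℤ) - 2 := by push_cast; ring
    have e3 : (1 - ((j + 3 : ℕ) : ℤ)) = -(j : ℤ) - 2 := by push_cast; ring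
    have e4 : (((j + 3 : ℕ) : ℤ) + 1) = ((j + 4 : ℕ) : ℤ) := by push_cast; ring
    rw [e1, e2] at a1
    rw [e3, e4] at a2
    linear_combination a1 - a2
  have h4 : ∀ m j : ℕ, del D e (j : ℤ) = del D e ((j + 4 * m : ℕ) : ℤ) := by
    intro m
    induction m with
    | zero => intro j; simp
    | succ m ih =>
      intro j
      rw [ih j, h3 (j + 4 * m)]
      congr 2
  have h5 : ∀ j : ℕ, del D e (j : ℤ) = 0 := by
    intro j
    rw [h4 (D + 1) j]
    unfold del
    rw [if_neg (by push_cast; omega)]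
  have h6 : ∀ j : ℤ, del D e j = 0 := by
    intro j
    rcases le_or_gt 0 j with hj | hj
    · obtain ⟨m, rfl⟩ := Int.eq_ofNat_of_zero_le hj
      exact h5 m
    · rcases eq_or_ne j (-1) with hj1 | hj1
      · have a := h2 2 (by norm_num)
        have b := h5 3
        have e1 : (1 - ((2 : ℕ) : ℤ)) = -1 := by norm_num
        have e2 : (((2 : ℕ) : ℤ) + 1) = ((3 : ℕ) : ℤ) := by norm_num
        rw [e1, e2, b, add_zero] at a
        rw [hj1]; exact a
      · obtain ⟨m, hm⟩ := Int.eq_ofNat_of_zero_le (show 0 ≤ -j - 1 by omega)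
        have a := h1 m (by omega)
        have b := h5 (m - 1)
        have e1 : ((m : ℤ) - 1) = ((m - 1 : ℕ) : ℤ) := by
          push_cast [Nat.cast_sub (show 1 ≤ m by omega)]; ring
        have e2 : (-(m : ℤ) - 1) = j := by
          have : (m : ℤ) = -j - 1 := hm.symm
          omega
        rw [e1, b, e2, zero_add] at a
        exact a
  intro i hi
  have := h6 ((i : ℤ) - D)
  unfold del at this
  rw [if_pos (by omega)] at this
  rw [show ((i : ℤ) - D + D).toNat = i by omega] at this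
  exact this

/-- the product `z1 z2 ^ p` up to regular terms -/
theorem product (hv : EQ V (-1) v) (D : ℕ) (A B : (ZMod p)[X]) (hA : A.natDegree ≤ D)
    (hB : B.natDegree ≤ D) (w1 w2 z1 z2 : K) (hw1 : GE V 0 w1) (hw2 : GE V 0 w2)
    (h1 : z1 = ev p A v + w1 ^ p ^ (D + 1)) (h2 : z2 = ev p B v + w2 ^ p ^ (D + 1)) :
    ∃ R, GE V (-1) R ∧ AS p (z1 * z2 ^ p -
      (∑ i ∈ range (2 * D + 1), cc p K ((reflect D A * B).coeff i) *
        br p v (1 + (i : ℤ) - D) + R)) := by
  have hreg : ∀ (w : K) (_ : GE V 0 w) (m : ℕ), GE V 0 (w ^ m) := by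
    intro w hw m
    exact (hw.pow m).mono (by simp)
  refine ⟨(∑ l ∈ range (D + 1), cc p K (A.coeff l) * (v * w2 ^ p ^ (D + 2 - l))) +
    (∑ l ∈ range (D + 1), cc p K (B.coeff l) * (w1 ^ p ^ (D - l) * v)) +
    w1 ^ p ^ (D + 1) * w2 ^ p ^ (D + 2), ?_, ?_⟩
  · refine GE.add (GE.add ?_ ?_) ?_
    · refine GE.sum _ fun i _ => ?_
      exact ((cc_GE (A.coeff i)).mul (hv.ge.mul (hreg w2 hw2 _))).mono (by norm_num)
    · refine GE.sum _ fun i _ => ?_
      exact ((cc_GE (B.coeff i)).mul ((hreg w1 hw1 _).mul hv.ge)).mono (by norm_num)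
    · exact ((hreg w1 hw1 _).mul (hreg w2 hw2 _)).mono (by norm_num)
  · have hz : z1 * z2 ^ p = ev p A v * ev p B v ^ p ^ 1 +
        ev p A v * w2 ^ p ^ (D + 2) + w1 ^ p ^ (D + 1) * ev p B v ^ p ^ 1 +
        w1 ^ p ^ (D + 1) * w2 ^ p ^ (D + 2) := by
      rw [h1, h2, add_pow_char, pow_one, ← pow_mul w2, ← pow_succ]
      ring
    have a1 := bilin p A B (reflect D A * B) D 1 hA hB rfl v
    have a2 : AS p (ev p A v * w2 ^ p ^ (D + 2) -
        ∑ l ∈ range (D + 1), cc p K (A.coeff l) * (v * w2 ^ p ^ (D + 2 - l))) := by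
      rw [ev_range A v (Nat.lt_succ_of_le hA), sum_mul, ← sum_sub_distrib]
      refine AS.sum _ _ fun l hl => ?_
      have hl' : l ≤ D := by
        have := mem_range.1 hl
        omega
      have e : cc p K (A.coeff l) * v ^ p ^ l * w2 ^ p ^ (D + 2) -
          cc p K (A.coeff l) * (v * w2 ^ p ^ (D + 2 - l)) =
          cc p K (A.coeff l) * ((v * w2 ^ p ^ (D + 2 - l)) ^ p ^ l -
            v * w2 ^ p ^ (D + 2 - l)) := by
        rw [mul_pow, ← pow_mul w2, ← pow_add, show D + 2 - l + l = D + 2 by omega]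
        ring
      rw [e]
      exact AS.smul _ (AS.frob_iter _ _)
    have a3 : AS p (w1 ^ p ^ (D + 1) * ev p B v ^ p ^ 1 -
        ∑ l ∈ range (D + 1), cc p K (B.coeff l) * (w1 ^ p ^ (D - l) * v)) := by
      rw [ev_pow B v 1 (Nat.lt_succ_of_le hB), mul_sum, ← sum_sub_distrib]
      refine AS.sum _ _ fun l hl => ?_
      have hl' : l ≤ D := by
        have := mem_range.1 hl
        omega
      have e : w1 ^ p ^ (D + 1) * (cc p K (B.coeff l) * v ^ p ^ (l + 1)) -
          cc p K (B.coeff l) * (w1 ^ p ^ (D - l) * v) =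
          cc p K (B.coeff l) * ((w1 ^ p ^ (D - l) * v) ^ p ^ (l + 1) -
            w1 ^ p ^ (D - l) * v) := by
        rw [mul_pow, ← pow_mul w1, ← pow_add, show D - l + (l + 1) = D + 1 by omega]
        ring
      rw [e]
      exact AS.smul _ (AS.frob_iter _ _)
    have := (a1.add a2).add a3
    have key : z1 * z2 ^ p -
      (∑ i ∈ range (2 * D + 1), cc p K ((reflect D A * B).coeff i) *
        br p v (1 + (i : ℤ) - D) +
        ((∑ l ∈ range (D + 1), cc p K (A.coeff l) * (v * w2 ^ p ^ (D + 2 - l))) +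
    (∑ l ∈ range (D + 1), cc p K (B.coeff l) * (w1 ^ p ^ (D - l) * v)) +
    w1 ^ p ^ (D + 1) * w2 ^ p ^ (D + 2))) =
      ev p A v * ev p B v ^ p ^ 1 -
          ∑ i ∈ range (2 * D + 1), cc p K ((reflect D A * B).coeff i) *
            br p v (((1 : ℕ) : ℤ) + i - D) +
        (ev p A v * w2 ^ p ^ (D + 2) -
          ∑ l ∈ range (D + 1), cc p K (A.coeff l) * (v * w2 ^ p ^ (D + 2 - l))) +
        (w1 ^ p ^ (D + 1) * ev p B v ^ p ^ 1 -
          ∑ l ∈ range (D + 1), cc p K (B.coeff l) * (w1 ^ p ^ (D - l) * v)) := by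
      rw [hz, Nat.cast_one]
      ring
    rw [key]
    exact this

theorem half (hv : EQ V (-1) v) (D : ℕ) (A B u : (ZMod p)[X]) (hA : A.natDegree ≤ D)
    (hB : B.natDegree ≤ D) (w1 w2 z1 z2 : K) (hw1 : GE V 0 w1) (hw2 : GE V 0 w2)
    (h1 : z1 = ev p A v + w1 ^ p ^ (D + 1)) (h2 : z2 = ev p B v + w2 ^ p ^ (D + 1))
    (H12 : AS p (z1 * z2 ^ p -
      ∑ i ∈ range (2 * D + 1), cc p K (u.coeff i) * br p v (1 + (i : ℤ) - D))) :
    ∀ d : ℕ, 1 ≤ d → del D (fun i => (reflect D A * B - u).coeff i) ((d : ℤ) - 1) +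
      del D (fun i => (reflect D A * B - u).coeff i) (-(d : ℤ) - 1) = 0 := by
  obtain ⟨R, hR, hAS⟩ := product hv D A B hA hB w1 w2 z1 z2 hw1 hw2 h1 h2
  intro d hd
  refine brackets hv hR D _ ?_ d hd
  have := H12.sub hAS
  have e : ∑ i ∈ range (2 * D + 1), cc p K ((reflect D A * B - u).coeff i) *
      br p v (1 + (i : ℤ) - D) + R = z1 * z2 ^ p -
      ∑ i ∈ range (2 * D + 1), cc p K (u.coeff i) * br p v (1 + (i : ℤ) - D) -
      (z1 * z2 ^ p -
      (∑ i ∈ range (2 * D + 1), cc p K ((reflect D A * B).coeff i) *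
        br p v (1 + (i : ℤ) - D) + R)) := by
    have : ∑ i ∈ range (2 * D + 1), cc p K ((reflect D A * B - u).coeff i) *
      br p v (1 + (i : ℤ) - D) = ∑ i ∈ range (2 * D + 1), cc p K ((reflect D A * B).coeff i) *
        br p v (1 + (i : ℤ) - D) -
        ∑ i ∈ range (2 * D + 1), cc p K (u.coeff i) * br p v (1 + (i : ℤ) - D) := by
      rw [← sum_sub_distrib]
      refine sum_congr rfl fun i _ => ?_
      rw [coeff_sub, map_sub]
      ring
    rw [this]
    ring
  rw [e]
  exact this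

theorem extract {K : Type u} [Field K] [CharP K p]
    {V : Valuation K (WithZero (Multiplicative ℤ))} {v : K} (hv : EQ V (-1) v)
    (D : ℕ) (A B u : (ZMod p)[X]) (hA : A.natDegree ≤ D) (hB : B.natDegree ≤ D)
    (hu : u.natDegree ≤ 2 * D) (hsym : ∀ i ≤ 2 * D, u.coeff i = u.coeff (2 * D - i))
    (w1 w2 z1 z2 : K) (hw1 : GE V 0 w1) (hw2 : GE V 0 w2)
    (h1 : z1 = ev p A v + w1 ^ p ^ (D + 1)) (h2 : z2 = ev p B v + w2 ^ p ^ (D + 1))
    (H12 : AS p (z1 * z2 ^ p -
      ∑ i ∈ range (2 * D + 1), cc p K (u.coeff i) * br p v (1 + (i : ℤ) - D)))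
    (H21 : AS p (z2 * z1 ^ p -
      ∑ i ∈ range (2 * D + 1), cc p K (u.coeff i) * br p v (1 + (i : ℤ) - D))) :
    reflect D A * B = u ∧ reflect D B * A = u := by
  have g1 := half hv D A B u hA hB w1 w2 z1 z2 hw1 hw2 h1 h2 H12
  have g2 := half hv D B A u hB hA w2 w1 z2 z1 hw2 hw1 h2 h1 H21
  have hrA : (reflect D A).natDegree ≤ D := by
    refine (natDegree_reflect_le).trans ?_
    exact max_le le_rfl hA
  have hrB : (reflect D B).natDegree ≤ D := by
    refine (natDegree_reflect_le).trans ?_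
    exact max_le le_rfl hB
  have hUdeg : (reflect D A * B).natDegree ≤ 2 * D := by
    refine natDegree_mul_le.trans ?_
    omega
  have hUdeg' : (reflect D B * A).natDegree ≤ 2 * D := by
    refine natDegree_mul_le.trans ?_
    omega
  have hrefl : reflect (2 * D) (reflect D A * B) = reflect D B * A := by
    have hrr : reflect D (reflect D A) = A := by
      ext i
      rw [coeff_reflect, coeff_reflect, revAt_invol]
    rw [two_mul, reflect_mul _ _ hrA hB, hrr, mul_comm]
  have hco : ∀ i ≤ 2 * D, (reflect D B * A).coeff i = (reflect D A * B).coeff (2 * D - i) := by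
    intro i hi
    rw [← hrefl, coeff_reflect, revAt_le hi]
  set e : ℕ → ZMod p := fun i => (reflect D A * B - u).coeff i with he
  have hdel : ∀ j : ℤ, del D (fun i => (reflect D B * A - u).coeff i) j = del D e (-j) := by
    intro j
    unfold del
    by_cases hj : -(D : ℤ) ≤ j ∧ j ≤ D
    · rw [if_pos hj, if_pos (by omega)]
      simp only [he, coeff_sub]
      rw [hco _ (by omega), hsym _ (by omega)]
      congr 2 <;> omega
    · rw [if_neg hj, if_neg (by omega)]
  have hz := del_zero D e g1 (by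
    intro d hd
    have := g2 d hd
    rw [hdel, hdel] at this
    have e1 : -((d : ℤ) - 1) = 1 - (d : ℤ) := by ring
    have e2 : -(-(d : ℤ) - 1) = (d : ℤ) + 1 := by ring
    rw [e1, e2] at this
    exact this)
  have hfin : reflect D A * B = u := by
    ext i
    by_cases hi : i ≤ 2 * D
    · have := hz i hi
      simp only [he, coeff_sub] at this
      exact sub_eq_zero.1 this
    · rw [coeff_eq_zero_of_natDegree_lt (by omega), coeff_eq_zero_of_natDegree_lt (by omega)]
  refine ⟨hfin, ?_⟩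
  ext i
  by_cases hi : i ≤ 2 * D
  · rw [hco i hi, hfin, ← hsym i hi]
  · rw [coeff_eq_zero_of_natDegree_lt (by omega), coeff_eq_zero_of_natDegree_lt (by omega)]

end Pool.Agent.H367R2.H10.B7

namespace Pool.Agent.H367R2.H10

universe u

/-- exact statement of task B7 -/
theorem extract (p : ℕ) [Fact p.Prime] {K : Type u} [Field K] [CharP K p]
    {V : Valuation K (WithZero (Multiplicative ℤ))} {v : K} (hv : EQ V (-1) v)
    (D : ℕ) (A B u : (ZMod p)[X]) (hA : A.natDegree ≤ D) (hB : B.natDegree ≤ D)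
    (hu : u.natDegree ≤ 2 * D) (hsym : ∀ i ≤ 2 * D, u.coeff i = u.coeff (2 * D - i))
    (w1 w2 z1 z2 : K) (hw1 : GE V 0 w1) (hw2 : GE V 0 w2)
    (h1 : z1 = ev p A v + w1 ^ p ^ (D + 1)) (h2 : z2 = ev p B v + w2 ^ p ^ (D + 1))
    (H12 : AS p (z1 * z2 ^ p -
      ∑ i ∈ range (2 * D + 1), cc p K (u.coeff i) * br p v (1 + (i : ℤ) - D)))
    (H21 : AS p (z2 * z1 ^ p -
      ∑ i ∈ range (2 * D + 1), cc p K (u.coeff i) * br p v (1 + (i : ℤ) - D))) :
    reflect D A * B = u ∧ reflect D B * A = u :=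
  B7.extract hv D A B u hA hB hu hsym w1 w2 z1 z2 hw1 hw2 h1 h2 H12 H21

end Pool.Agent.H367R2.H10
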