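import Mathlib
import Pool.Agent.H367R2.H10.Defs2
import Pool.Agent.H367R2.H10.T1
import Pool.Agent.H367R2.H10.T2

set_option autoImplicit false

/-! Integer powers of the Frobenius map as a relation. -/

open Polynomial Finset

namespace Pool.Agent.H367R2.H10.Gad

universe u

section gen

variable {K : Type u} [Field K] {p : ℕ} [hp : Fact p.Prime] [CharP K p]

omit hp in
theorem pow_inj [Fact p.Prime] {x y : K} (n : ℕ) (h : x ^ p ^ n = y ^ p ^ n) : x = y := by
  have h1 : (x - y) ^ p ^ n = 0 := by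
    rw [sub_pow_char_pow, h, sub_self]
  have h2 := eq_zero_of_pow_eq_zero h1
  exact sub_eq_zero.1 h2

theorem Fz_iff {n : ℤ} {x y : K} (a b : ℕ) (h : (a : ℤ) - b = n) :
    Fz p n x y ↔ x ^ p ^ a = y ^ p ^ b := by
  unfold Fz
  obtain ⟨c, ha, hb⟩ : ∃ c : ℕ, a = n.toNat + c ∧ b = (-n).toNat + c := by
    refine ⟨a - n.toNat, by omega, by omega⟩
  rw [ha, hb, pow_add, pow_add, pow_mul, pow_mul]
  constructor
  · intro h1; rw [h1]
  · intro h1; exact pow_inj c h1

theorem Fz_exists (n : ℤ) : ∃ a b : ℕ, (a : ℤ) - b = n := ⟨n.toNat, (-n).toNat, by omega⟩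

omit hp in
theorem Fz_refl (x : K) : Fz p 0 x x := by
  simp [Fz]

omit hp [CharP K p] in
theorem Fz_nat (x : K) (n : ℕ) : Fz p n x (x ^ p ^ n) := by
  simp [Fz]

theorem Fz_trans {m n : ℤ} {x y z : K} (h1 : Fz p m x y) (h2 : Fz p n y z) :
    Fz p (m + n) x z := by
  obtain ⟨a, b, h⟩ := Fz_exists m
  obtain ⟨c, d, h'⟩ := Fz_exists n
  rw [Fz_iff a b h] at h1
  rw [Fz_iff c d h'] at h2
  rw [Fz_iff (a + c) (b + d) (by push_cast; omega), pow_add, pow_mul, h1, ← pow_mul,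
    mul_comm, pow_mul, h2, ← pow_mul, ← pow_add, add_comm d b]

theorem Fz_symm {n : ℤ} {x y : K} (h : Fz p n x y) : Fz p (-n) y x := by
  obtain ⟨a, b, h'⟩ := Fz_exists n
  rw [Fz_iff a b h'] at h
  rw [Fz_iff b a (by omega), h]

theorem Fz_mul {n : ℤ} {x y x' y' : K} (h : Fz p n x y) (h' : Fz p n x' y') :
    Fz p n (x * x') (y * y') := by
  unfold Fz at *
  rw [mul_pow, mul_pow, h, h']

theorem Fz_add {n : ℤ} {x y x' y' : K} (h : Fz p n x y) (h' : Fz p n x' y') :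
    Fz p n (x + x') (y + y') := by
  unfold Fz at *
  rw [add_pow_char_pow, add_pow_char_pow, h, h']

theorem Fz_sub {n : ℤ} {x y x' y' : K} (h : Fz p n x y) (h' : Fz p n x' y') :
    Fz p n (x - x') (y - y') := by
  unfold Fz at *
  rw [sub_pow_char_pow, sub_pow_char_pow, h, h']

theorem Fz_one (n : ℤ) : Fz p n (1 : K) 1 := by
  unfold Fz; rw [one_pow, one_pow]

theorem Fz_inv {n : ℤ} {x y : K} (h : Fz p n x y) : Fz p n x⁻¹ y⁻¹ := by
  unfold Fz at *
  rw [inv_pow, inv_pow, h]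

theorem Fz_pow {n : ℤ} {x y : K} (h : Fz p n x y) (m : ℕ) : Fz p n (x ^ m) (y ^ m) := by
  unfold Fz at *
  rw [← pow_mul, mul_comm, pow_mul, h, ← pow_mul, mul_comm, pow_mul]

theorem Fz_unique {n : ℤ} {x y y' : K} (h : Fz p n x y) (h' : Fz p n x y') : y = y' := by
  unfold Fz at *
  rw [h] at h'
  exact pow_inj _ h'

theorem Fz_inj {n : ℤ} {x x' y : K} (h : Fz p n x y) (h' : Fz p n x' y) : x = x' := by
  unfold Fz at *
  rw [← h'] at h
  exact pow_inj _ h

theorem Fz_zero_iff {x y : K} (h : Fz p 0 x y) : x = y := by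
  unfold Fz at h
  simpa using h

end gen

section rat

variable {k : Type u} [Field k] {p : ℕ} [hp : Fact p.Prime] [CharP k p]

theorem ht_pos_of_nonconst {x : RatFunc k} (hx : ∀ c : k, x ≠ RatFunc.C c) : 0 < ht x := by
  by_contra h
  obtain ⟨c, hc⟩ := ht_eq_zero x (by omega)
  exact hx c hc

theorem Fz_exp_unique {m n : ℤ} {x y : RatFunc k} (hx : 0 < ht x) (h1 : Fz p m x y)
    (h2 : Fz p n x y) : m = n := by
  obtain ⟨a, b, h⟩ := Fz_exists m
  obtain ⟨c, d, h'⟩ := Fz_exists n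
  rw [Fz_iff a b h] at h1
  rw [Fz_iff c d h'] at h2
  have e1 := congrArg ht h1
  have e2 := congrArg ht h2
  rw [ht_pow, ht_pow] at e1 e2
  -- p^a X = p^b Y, p^c X = p^d Y
  have e3 : p ^ (a + d) * ht x = p ^ (b + c) * ht x := by
    have h3 : p ^ d * (p ^ a * ht x) = p ^ b * (p ^ c * ht x) := by
      rw [e1, e2]; ring
    rw [pow_add, pow_add]
    linarith [h3, mul_comm (p ^ a) (p ^ d)]
  have e4 := Nat.eq_of_mul_eq_mul_right hx e3
  have e5 := Nat.pow_right_injective hp.out.two_le e4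
  omega

/-- integer Frobenius powers of `x1 ^ p ^ e` with `DD x1 ≠ 0` -/
theorem Fz_root {n : ℤ} {x1 b : RatFunc k} (h1 : DD x1 ≠ 0) (e : ℕ)
    (h : Fz p n (x1 ^ p ^ e) b) : 0 ≤ n + e ∧ b = x1 ^ p ^ (n + e).toNat := by
  have hroot : Fz p (n + e) x1 b := by
    have := Fz_trans (Fz_nat (p := p) x1 e) h
    rwa [add_comm] at this
  by_cases hn : 0 ≤ n + e
  · refine ⟨hn, ?_⟩
    rw [Fz_iff (n + e).toNat 0 (by omega)] at hroot
    rw [pow_zero, pow_one] at hroot
    exact hroot.symm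
  · exfalso
    rw [Fz_iff 0 (-(n + e)).toNat (by omega), pow_zero, pow_one] at hroot
    obtain ⟨j, hj⟩ : ∃ j, (-(n + e)).toNat = j + 1 := ⟨(-(n + e)).toNat - 1, by omega⟩
    rw [hj, pow_succ, pow_mul] at hroot
    rw [hroot] at h1
    exact h1 (deriv_pow_char p _)

/-- the constants have Frobenius powers constants -/
theorem Fz_nonconst {n : ℤ} {x b : RatFunc k} (hx : 0 < ht x) (h : Fz p n x b) : 0 < ht b := by
  unfold Fz at h
  have := congrArg ht h
  rw [ht_pow, ht_pow] at this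
  by_contra hb
  have hb0 : ht b = 0 := by omega
  rw [hb0, mul_zero] at this
  have h2 : 0 < p ^ n.toNat := Nat.pow_pos hp.out.pos
  have := Nat.mul_pos h2 hx
  omega

end rat

end Pool.Agent.H367R2.H10.Gad
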