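import Mathlib
import Pool.Agent.H367R2.H10.B1
import Pool.Agent.H367R2.H10.B5
import Pool.Agent.H367R2.H10.B6
import Pool.Agent.H367R2.H10.B7
import Pool.Agent.H367R2.H10.T1

set_option autoImplicit false

/-! The structure theorem. -/

open Polynomial Finset

namespace Pool.Agent.H367R2.H10

universe u
variable {k : Type u} [Field k]

/-- at a good place `B - a` small means that `B` is a unit or small -/
theorem order_of_quot {K : Type u} [Field K] (p : ℕ) [Fact p.Prime] [CharP K p]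
    {V : Valuation K (WithZero (Multiplicative ℤ))} {f g : K} {m n : ℤ}
    (hf : EQ V m f) (hg : EQ V n g) (c : ZMod p) (h : GE V 1 (f / g - cc p K c)) :
    (c ≠ 0 → m = n) ∧ (c = 0 → n < m) := by
  have hq : EQ V (m - n) (f / g) := by
    rw [div_eq_mul_inv, sub_eq_add_neg]; exact hf.mul hg.inv
  constructor
  · intro hc
    have h1 : EQ V 0 (cc p K c) := cc_EQ hc
    have h2 := h1.add_ge h (by norm_num)
    rw [show cc p K c + (f / g - cc p K c) = f / g by ring] at h2
    have := hq.unique h2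
    omega
  · intro hc
    rw [hc, map_zero, sub_zero] at h
    have := hq.le_of_ge h
    omega

/-- exact order of an additive polynomial at a simple pole -/
theorem ev_EQ {K : Type u} [Field K] (p : ℕ) [hp : Fact p.Prime] [CharP K p]
    {V : Valuation K (WithZero (Multiplicative ℤ))} {v : K} (hv : EQ V (-1) v)
    (A : (ZMod p)[X]) (hA : A ≠ 0) : EQ V (-(p ^ A.natDegree : ℤ)) (ev p A v) := by
  rw [ev_range A v (Nat.lt_succ_self _), Finset.sum_range_succ, add_comm]
  have h1 : EQ V (-(p ^ A.natDegree : ℤ))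
      (cc p K (A.coeff A.natDegree) * v ^ p ^ A.natDegree) := by
    have := (cc_EQ (K := K) (V := V) (c := A.coeff A.natDegree)
      (by simpa using hA)).mul (hv.pow (p ^ A.natDegree))
    convert this using 1
    push_cast; ring
  refine h1.add_ge (m := -(p ^ A.natDegree : ℤ) + 1) ?_ (by omega)
  refine GE.sum _ fun i hi => ?_
  have hi' : i < A.natDegree := Finset.mem_range.1 hi
  have h2 := (cc_GE (K := K) (V := V) (A.coeff i)).mul (hv.pow (p ^ i)).ge
  refine h2.mono ?_
  push_cast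
  have h3 : (p : ℤ) ^ i < (p : ℤ) ^ A.natDegree := by
    have := Nat.pow_lt_pow_right hp.out.one_lt hi'
    exact_mod_cast this
  omega

theorem structure_thm' (p : ℕ) [hp : Fact p.Prime] [CharP k p] [PerfectField k] {v : RatFunc k}
    (hv : Nice v) (D κ ν : ℕ) (hκ : 2 * D + 9 ≤ κ) (z1 z2 : RatFunc k)
    (hz : z2 = z1 + v ^ p ^ ν) (hd : DD z1 ≠ 0 ∨ DD z2 ≠ 0)
    (u : (ZMod p)[X]) (hu : u.natDegree = 2 * D) (hu0 : u ≠ 0)
    (hsym : ∀ i ≤ 2 * D, u.coeff i = u.coeff (2 * D - i))
    (H12 : ∀ j : ℕ, (j = 1 ∨ j = κ ∨ j = κ + 1) → AS p (z1 * z2 ^ p ^ j -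
      ∑ i ∈ range (2 * D + 1), cc p (RatFunc k) (u.coeff i) * br p v ((j : ℤ) + i - D)))
    (H21 : ∀ j : ℕ, (j = 1 ∨ j = κ ∨ j = κ + 1) → AS p (z2 * z1 ^ p ^ j -
      ∑ i ∈ range (2 * D + 1), cc p (RatFunc k) (u.coeff i) * br p v ((j : ℤ) + i - D))) :
    ν ≤ D ∧ ∃ A : (ZMod p)[X], A.natDegree ≤ D ∧ reflect D A * (A + X ^ ν) = u ∧
      reflect D (A + X ^ ν) * A = u := by
  have hpr := hp.out
  have h2p := hpr.two_le
  have conv : ∀ j : ℕ, D ≤ j →
      ∑ i ∈ range (2 * D + 1), cc p (RatFunc k) (u.coeff i) * br p v ((j : ℤ) + i - D) =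
      v * ev p u v ^ p ^ (j - D) := fun j hj => sum_br_large p u D j hu.le hj v
  have K12 : AS p (z1 * z2 ^ p ^ κ - v * ev p u v ^ p ^ (κ - D)) := by
    rw [← conv κ (by omega)]; exact H12 κ (Or.inr (Or.inl rfl))
  have K12' : AS p (z1 * z2 ^ p ^ (κ + 1) - v * ev p u v ^ p ^ (κ + 1 - D)) := by
    rw [← conv (κ + 1) (by omega)]; exact H12 (κ + 1) (Or.inr (Or.inr rfl))
  have K21 : AS p (z2 * z1 ^ p ^ κ - v * ev p u v ^ p ^ (κ - D)) := by
    rw [← conv κ (by omega)]; exact H21 κ (Or.inr (Or.inl rfl))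
  have K21' : AS p (z2 * z1 ^ p ^ (κ + 1) - v * ev p u v ^ p ^ (κ + 1 - D)) := by
    rw [← conv (κ + 1) (by omega)]; exact H21 (κ + 1) (Or.inr (Or.inr rfl))
  have hb := height_bound p v D κ ν hκ z1 z2 hz hd u hu.le K12 K21
  have hdiff : v ^ p ^ ν = z2 - z1 := by rw [hz]; ring
  have hν4 : ν ≤ D + 4 := by
    have h1 : ht (v ^ p ^ ν) = p ^ ν * ht v := ht_pow v (p ^ ν)
    have h3 : ht (v ^ p ^ ν) ≤ ht z2 + ht z1 := by
      rw [hdiff, sub_eq_add_neg]
      exact (ht_add_le _ _).trans (by rw [ht_neg])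
    have h4 : p ^ ν * ht v ≤ 16 * p ^ D * ht v := by
      rw [← h1]; omega
    have h5 : p ^ ν ≤ 16 * p ^ D := Nat.le_of_mul_le_mul_right h4 hv.hpos
    by_contra hcon
    have h6 : p ^ (D + 5) ≤ p ^ ν := Nat.pow_le_pow_right hpr.pos (by omega)
    have h7 : p ^ (D + 5) = p ^ D * p ^ 5 := pow_add p D 5
    have h8 : 2 ^ 5 ≤ p ^ 5 := Nat.pow_le_pow_left h2p 5
    have h9 : 0 < p ^ D := Nat.pow_pos hpr.pos
    nlinarith
  have hP : ∀ V : Valuation (RatFunc k) (WithZero (Multiplicative ℤ)), Good v V →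
      ∃ M1 M2 : ℤ, 1 ≤ M1 ∧ 1 ≤ M2 ∧ EQ V (-M1) z1 ∧ EQ V (-M2) z2 ∧
      M1 ≤ max M2 (p ^ (D + 4)) ∧ M2 ≤ max M1 (p ^ (D + 4)) := fun V hV =>
    poles p hV D κ ν hκ hν4 z1 z2 hz u hu hu0 K12 K21
  obtain ⟨A, w, hA, hzA, hdA, hlA⟩ := stages p hv D κ hκ z1 z2 u hu.le hb
    (fun V hV => by
      obtain ⟨M1, M2, a, b, c, d, e, -⟩ := hP V hV
      exact ⟨M1, M2, a, b, c, d, e⟩) K12 K12'
  obtain ⟨B, w', hB, hzB, hdB, hlB⟩ := stages p hv D κ hκ z2 z1 u hu.le
    (by rw [add_comm]; exact hb)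
    (fun V hV => by
      obtain ⟨M1, M2, a, b, c, d, e, f⟩ := hP V hV
      exact ⟨M2, M1, b, a, d, c, f⟩) K21 K21'
  obtain ⟨V, hV⟩ := hv.exists_good
  obtain ⟨M1, M2, hM1, hM2, hE1, hE2, -, -⟩ := hP V hV
  -- order of `T`
  have hT : EQ V (-(p : ℤ) ^ (κ + D)) (ev p u v ^ p ^ (κ - D)) := by
    have h1 := (ev_EQ p hV.pole u hu0).pow (p ^ (κ - D))
    convert h1 using 1
    rw [hu]
    push_cast
    rw [mul_neg, ← pow_add]
    congr 2
    omega
  have hpp : ∀ n : ℕ, (0 : ℤ) < (p : ℤ) ^ n := fun n => by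
    have : (0 : ℤ) < p := by exact_mod_cast hpr.pos
    positivity
  have hκD : (p : ℤ) ^ (κ + D) = p ^ κ * p ^ D := pow_add _ _ _
  have q1 := order_of_quot p hT (hE2.pow (p ^ κ)) _ (hlA V hV)
  have q2 := order_of_quot p hT (hE1.pow (p ^ κ)) _ (hlB V hV)
  -- difference of the constant terms
  have hdz : DD z2 - DD z1 = DD (v ^ p ^ ν) := by rw [hdiff, map_sub]
  have hdiffE : EQ V (-(p ^ ν : ℤ)) (z2 - z1) := by
    rw [← hdiff]
    have := hV.pole.pow (p ^ ν)
    convert this using 1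
    push_cast; ring
  -- the case analysis
  have hne : A.coeff 0 ≠ 0 ∧ B.coeff 0 ≠ 0 := by
    rcases Nat.eq_zero_or_pos ν with hν0 | hνpos
    · -- ν = 0
      have hBA : cc p (RatFunc k) (B.coeff 0) = cc p (RatFunc k) (A.coeff 0) + 1 := by
        have h1 : DD (v ^ p ^ ν) = DD v := by rw [hν0, pow_zero, pow_one]
        rw [h1, hdB, hdA] at hdz
        have h2 : (cc p (RatFunc k) (B.coeff 0) - cc p (RatFunc k) (A.coeff 0) - 1) * DD v = 0 := by
          linear_combination hdz
        rcases mul_eq_zero.1 h2 with h3 | h3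
        · linear_combination h3
        · exact absurd h3 hv.dv
      rw [hν0, pow_zero] at hdiffE
      have key : M1 = M2 ∨ (M1 ≤ 1 ∧ M2 ≤ 1) := by
        rcases lt_trichotomy M1 M2 with h | h | h
        · right
          have h2 : EQ V (-M2) (z2 - z1) := hE2.sub_ge hE1.ge (by omega)
          have := h2.unique hdiffE
          omega
        · left; exact h
        · right
          have h2 : EQ V (-M1) (z1 - z2) := hE1.sub_ge hE2.ge (by omega)
          have h3 := h2.neg
          rw [neg_sub] at h3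
          have := h3.unique hdiffE
          omega
      have hM12 : M1 = M2 := by
        rcases key with h | ⟨h, h'⟩
        · exact h
        · omega
      constructor
      · intro h0
        have hb0 : B.coeff 0 ≠ 0 := by
          intro hb0
          rw [h0, hb0, map_zero, zero_add] at hBA
          exact zero_ne_one hBA
        have e1 := q1.2 h0
        have e2 := q2.1 hb0
        rw [hM12] at e2
        push_cast at e1 e2
        omega
      · intro h0
        have ha0 : A.coeff 0 ≠ 0 := by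
          intro ha0
          rw [h0, ha0, map_zero, zero_add] at hBA
          exact zero_ne_one hBA
        have e1 := q2.2 h0
        have e2 := q1.1 ha0
        rw [← hM12] at e2
        push_cast at e1 e2
        omega
    · have h0 : DD (v ^ p ^ ν) = 0 := by
        obtain ⟨n, rfl⟩ : ∃ n, ν = n + 1 := ⟨ν - 1, by omega⟩
        rw [Derivation.leibniz_pow, nsmul_eq_mul, Nat.cast_pow, CharP.cast_eq_zero,
          zero_pow (by omega), zero_mul]
      rw [h0] at hdz
      have hdd : DD z2 = DD z1 := by linear_combination hdz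
      have hd1 : DD z1 ≠ 0 := by
        rcases hd with h | h
        · exact h
        · rwa [hdd] at h
      have hd2 : DD z2 ≠ 0 := by rwa [hdd]
      constructor
      · intro h
        rw [h, map_zero, zero_mul] at hdA
        exact hd1 hdA
      · intro h
        rw [h, map_zero, zero_mul] at hdB
        exact hd2 hdB
  have eM2 : M2 = p ^ D := by
    have e1 := q1.1 hne.1
    push_cast at e1
    rw [hκD] at e1
    have h1 := hpp κ
    have : (p : ℤ) ^ κ * (M2 - p ^ D) = 0 := by linear_combination e1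
    rcases mul_eq_zero.1 this with h | h
    · omega
    · omega
  have eM1 : M1 = p ^ D := by
    have e1 := q2.1 hne.2
    push_cast at e1
    rw [hκD] at e1
    have h1 := hpp κ
    have : (p : ℤ) ^ κ * (M1 - p ^ D) = 0 := by linear_combination e1
    rcases mul_eq_zero.1 this with h | h
    · omega
    · omega
  have hνD : ν ≤ D := by
    have h1 : GE V (-(p : ℤ) ^ D) (z2 - z1) := by
      rw [eM1] at hE1
      rw [eM2] at hE2
      exact hE2.ge.sub hE1.ge
    have h2 := hdiffE.le_of_ge h1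
    by_contra hcon
    have h3 : p ^ D < p ^ ν := Nat.pow_lt_pow_right hpr.one_lt (by omega)
    have h4 : (p : ℤ) ^ D < (p : ℤ) ^ ν := by exact_mod_cast h3
    omega
  have hwreg : GE V 0 w := by
    have h1 : GE V (-(p : ℤ) ^ D) (w ^ p ^ (D + 1)) := by
      have h2 : w ^ p ^ (D + 1) = z1 - ev p A v := by rw [hzA]; ring
      rw [h2]
      rw [eM1] at hE1
      refine hE1.ge.sub ?_
      have := ev_GE A (e := 1) (by norm_num) hV.pole.ge hA
      simpa using this
    by_contra hcon
    obtain ⟨m, hm, hE⟩ := GE.lt_or hcon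
    have h2 := (hE.pow (p ^ (D + 1))).le_of_ge h1
    push_cast at h2
    have h3 := hpp D
    have h4 : (p : ℤ) ^ (D + 1) = p ^ D * p := pow_succ _ _
    have h5 := ptwo (p := p)
    rw [h4] at h2
    have h6 : (p : ℤ) ^ D * p * m ≤ (p : ℤ) ^ D * p * (-1) := by
      apply mul_le_mul_of_nonneg_left (by omega)
      positivity
    nlinarith
  refine ⟨hνD, A, hA, ?_⟩
  have hB' : (A + X ^ ν).natDegree ≤ D := by
    refine (natDegree_add_le _ _).trans (max_le hA ?_)
    rw [natDegree_X_pow]; exact hνD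
  refine extract p hV.pole D A (A + X ^ ν) u hA hB' hu.le hsym w w z1 z2 hwreg hwreg hzA ?_ ?_ ?_
  · rw [hz, hzA, ev_add, ev_X_pow]; ring
  · have := H12 1 (Or.inl rfl)
    rw [pow_one] at this
    simpa using this
  · have := H21 1 (Or.inl rfl)
    rw [pow_one] at this
    simpa using this

end Pool.Agent.H367R2.H10
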