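import Mathlib
import Pool.Agent.H367R2.H10.Struct
import Pool.Agent.H367R2.H10.FzApi

set_option autoImplicit false

/-! From the relations of the gadget to the structure theorem. -/

open Polynomial Finset

namespace Pool.Agent.H367R2.H10.Gad

universe u

theorem normalise {k : Type u} [Field k] (p : ℕ) [hp : Fact p.Prime] [CharP k p] [PerfectField k]
    (v1 : RatFunc k) (hv : DD v1 ≠ 0) : ∀ (ν0 : ℕ) (z1 z2 : RatFunc k),
    z2 = z1 + v1 ^ p ^ ν0 → ∃ (l ν : ℕ) (w1 w2 : RatFunc k), z1 = w1 ^ p ^ l ∧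
      z2 = w2 ^ p ^ l ∧ w2 = w1 + v1 ^ p ^ ν ∧ (DD w1 ≠ 0 ∨ DD w2 ≠ 0) := by
  intro ν0
  induction ν0 with
  | zero =>
    intro z1 z2 h
    refine ⟨0, 0, z1, z2, by simp, by simp, h, ?_⟩
    by_contra hcon
    push Not at hcon
    rw [h, map_add, hcon.1, zero_add, pow_zero, pow_one] at hcon
    exact hv hcon.2
  | succ ν0 ih =>
    intro z1 z2 h
    by_cases hd : DD z1 ≠ 0 ∨ DD z2 ≠ 0
    · exact ⟨0, ν0 + 1, z1, z2, by simp, by simp, h, hd⟩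
    · push Not at hd
      obtain ⟨y1, hy1⟩ := exists_pow_of_deriv_eq_zero p z1 hd.1
      obtain ⟨y2, hy2⟩ := exists_pow_of_deriv_eq_zero p z2 hd.2
      have hy : y2 = y1 + v1 ^ p ^ ν0 := by
        refine pow_inj (p := p) 1 ?_
        rw [pow_one, add_pow_char, ← pow_mul, ← pow_succ, hy1, hy2, h]
      obtain ⟨l, ν, w1, w2, h1, h2, h3, h4⟩ := ih y1 y2 hy
      refine ⟨l + 1, ν, w1, w2, ?_, ?_, h3, h4⟩
      · rw [← hy1, h1, ← pow_mul, ← pow_succ]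
      · rw [← hy2, h2, ← pow_mul, ← pow_succ]

section gen

variable {K : Type u} [Field K] {p : ℕ} [hp : Fact p.Prime] [CharP K p]

omit hp [CharP K p] in
theorem br_neg (v : K) (j : ℤ) : br p v (-j) = br p v j := by
  unfold br; rw [Int.natAbs_neg]

variable {ι : Type} [Fintype ι]

theorem rhs_equiv (v1 : K) (c : ι → ZMod p) (A0 j : ℕ) (E : ι → ℕ) :
    AS p (v1 ^ p ^ A0 * (∑ i, cc p K (c i) * v1 ^ p ^ (E i)) ^ p ^ j -
      ∑ i, cc p K (c i) * br p v1 (((E i + j : ℕ) : ℤ) - A0)) := by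
  have h1 : v1 ^ p ^ A0 * (∑ i, cc p K (c i) * v1 ^ p ^ (E i)) ^ p ^ j -
      ∑ i, cc p K (c i) * br p v1 (((E i + j : ℕ) : ℤ) - A0) =
      ∑ i, cc p K (c i) * (v1 ^ p ^ A0 * v1 ^ p ^ (E i + j) -
        br p v1 (((E i + j : ℕ) : ℤ) - A0)) := by
    rw [sum_pow_char_pow, Finset.mul_sum, ← Finset.sum_sub_distrib]
    refine Finset.sum_congr rfl fun i _ => ?_
    rw [mul_pow, cc_pow, ← pow_mul, ← pow_add]
    ring
  rw [h1]
  exact AS.sum _ _ fun i _ => AS.smul _ (br_equiv p v1 A0 (E i + j))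

theorem AS.cc_frob {f g : K} (c : ZMod p) (n : ℕ) (h : AS p (cc p K c * f ^ p ^ n - g)) :
    AS p (cc p K c * f - g) := by
  have : cc p K c * f ^ p ^ n = (cc p K c * f) ^ p ^ n := by rw [mul_pow, cc_pow]
  rw [this] at h
  exact AS.of_frob h

theorem AS.cc_frob' {f g : K} (n : ℕ) (h : AS p (f - g)) : AS p (f ^ p ^ n - g ^ p ^ n) := by
  exact (AS.to_frob n h).trans ((AS.frob_iter g n).symm.trans (by
    have := AS.zero (K := K) (p := p); simpa using this))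

/-- normal form of a relation of the gadget -/
theorem rel_norm (v1 : K) (c : ι → ZMod p) (e : ι → ℤ) (A0 : ℕ) (E : ι → ℕ)
    (hE : ∀ i, (E i : ℤ) = A0 + e i)
    (hs : ∀ f : ℤ → K, ∑ i, cc p K (c i) * f (e i) = ∑ i, cc p K (c i) * f (-e i))
    (c4 : ZMod p) (κ : ℤ) (l : ℕ) (w1 w2 Z1 Z2 W : K)
    (hZ1 : Fz p κ (w1 ^ p ^ l) Z1) (hZ2 : Fz p κ (w2 ^ p ^ l) Z2)
    (hW : Fz p κ (∑ i, cc p K (c i) * v1 ^ p ^ (E i)) W)
    (h12 : AS p (cc p K c4 * (w1 ^ p ^ l * Z2) - v1 ^ p ^ A0 * W))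
    (h21 : AS p (cc p K c4 * (w2 ^ p ^ l * Z1) - v1 ^ p ^ A0 * W)) :
    AS p (cc p K c4 * (w1 * w2 ^ p ^ κ.natAbs) -
      ∑ i, cc p K (c i) * br p v1 (κ.natAbs + e i)) := by
  by_cases hκ : 0 ≤ κ
  · obtain ⟨j, rfl⟩ := Int.eq_ofNat_of_zero_le hκ
    rw [Int.natAbs_natCast]
    rw [Fz_iff j 0 (by simp), pow_zero, pow_one] at hZ2 hW
    rw [← hZ2, ← hW] at h12
    have h1 : w1 ^ p ^ l * (w2 ^ p ^ l) ^ p ^ j = (w1 * w2 ^ p ^ j) ^ p ^ l := by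
      rw [mul_pow, ← pow_mul, ← pow_mul, mul_comm (p ^ l)]
    rw [h1] at h12
    have h2 := AS.cc_frob c4 l h12
    have h3 := h2.trans (rhs_equiv v1 c A0 j E)
    have h4 : ∑ i, cc p K (c i) * br p v1 (((E i + j : ℕ) : ℤ) - (A0 : ℤ)) =
        ∑ i, cc p K (c i) * br p v1 ((j : ℤ) + e i) := by
      refine Finset.sum_congr rfl fun i _ => ?_
      have := hE i
      congr 2
      push_cast
      omega
    rw [h4] at h3
    exact h3
  · obtain ⟨j, hj⟩ : ∃ j : ℕ, κ = -(j : ℤ) := ⟨κ.natAbs, by omega⟩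
    subst hj
    rw [Int.natAbs_neg, Int.natAbs_natCast]
    rw [Fz_iff 0 j (by simp), pow_zero, pow_one] at hZ1 hW
    have h3 := AS.cc_frob' j h21
    rw [mul_pow, mul_pow, mul_pow, cc_pow, ← hZ1, ← hW] at h3
    have h1 : (w2 ^ p ^ l) ^ p ^ j * w1 ^ p ^ l = (w1 * w2 ^ p ^ j) ^ p ^ l := by
      rw [mul_pow, ← pow_mul, ← pow_mul, mul_comm (p ^ l), mul_comm]
    rw [h1] at h3
    have h2 := AS.cc_frob c4 l h3
    have h5 := rhs_equiv v1 c (A0 + j) 0 E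
    rw [pow_zero, pow_one] at h5
    have h6 : (v1 ^ p ^ A0) ^ p ^ j = v1 ^ p ^ (A0 + j) := by
      rw [← pow_mul, ← pow_add]
    rw [h6] at h2
    have h7 := h2.trans h5
    have h8 : ∑ i, cc p K (c i) * br p v1 (((E i + 0 : ℕ) : ℤ) - ((A0 + j : ℕ) : ℤ)) =
        ∑ i, cc p K (c i) * br p v1 ((j : ℤ) + e i) := by
      have h9 := hs fun t => br p v1 ((j : ℤ) + t)
      rw [h9]
      refine Finset.sum_congr rfl fun i _ => ?_
      rw [← br_neg]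
      have := hE i
      congr 2
      push_cast
      omega
    rw [h8] at h7
    exact h7

end gen

/-- soundness of the gadget: the polynomial identities -/
theorem pd_core {k : Type u} [Field k] (p : ℕ) [hp : Fact p.Prime] [CharP k p] [PerfectField k]
    {v1 : RatFunc k} (hv : Nice v1) {ι : Type} [Fintype ι] (c : ι → ZMod p) (e : ι → ℤ)
    (A0 : ℕ) (E : ι → ℕ) (hE : ∀ i, (E i : ℤ) = A0 + e i)
    (hs : ∀ f : ℤ → RatFunc k, ∑ i, cc p (RatFunc k) (c i) * f (e i) =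
      ∑ i, cc p (RatFunc k) (c i) * f (-e i))
    (c4 : ZMod p) (hc4 : c4 ≠ 0) (D : ℕ) (u : (ZMod p)[X]) (hu : u.natDegree = 2 * D)
    (hu0 : u ≠ 0) (hsym : ∀ i ≤ 2 * D, u.coeff i = u.coeff (2 * D - i))
    (huc : ∀ f : ℤ → RatFunc k,
      cc p (RatFunc k) c4 * ∑ i ∈ range (2 * D + 1), cc p (RatFunc k) (u.coeff i) * f (i - D) =
        ∑ i, cc p (RatFunc k) (c i) * f (e i))
    (K : ℤ) (hK : 2 * D + 10 ≤ K.natAbs) (ν0 : ℕ) (z1 z2 : RatFunc k)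
    (hz : z2 = z1 + v1 ^ p ^ ν0)
    (hrel : ∀ κ : ℤ, (κ = K ∨ κ = K + 1 ∨ κ = 1) → ∃ Z1 Z2 W : RatFunc k,
      Fz p κ z1 Z1 ∧ Fz p κ z2 Z2 ∧
      Fz p κ (∑ i, cc p (RatFunc k) (c i) * v1 ^ p ^ (E i)) W ∧
      AS p (cc p (RatFunc k) c4 * (z1 * Z2) - v1 ^ p ^ A0 * W) ∧
      AS p (cc p (RatFunc k) c4 * (z2 * Z1) - v1 ^ p ^ A0 * W)) :
    ∃ ν ≤ D, ∃ A : (ZMod p)[X], A.natDegree ≤ D ∧ reflect D A * (A + X ^ ν) = u ∧
      reflect D (A + X ^ ν) * A = u := by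
  obtain ⟨l, ν, w1, w2, h1, h2, h3, h4⟩ := normalise p v1 hv.dv ν0 z1 z2 hz
  subst h1
  subst h2
  have hinv : ∀ f g : RatFunc k, AS p (cc p (RatFunc k) c4 * f - cc p (RatFunc k) c4 * g) →
      AS p (f - g) := by
    intro f g h
    have h5 := AS.smul c4⁻¹ h
    have h6 : cc p (RatFunc k) c4⁻¹ * (cc p (RatFunc k) c4 * f - cc p (RatFunc k) c4 * g) =
        f - g := by
      have h7 : cc p (RatFunc k) c4⁻¹ * cc p (RatFunc k) c4 = 1 := by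
        rw [← map_mul, inv_mul_cancel₀ hc4, map_one]
      linear_combination (f - g) * h7
    rw [← h6]
    exact h5
  have hall : ∀ κ : ℤ, (κ = K ∨ κ = K + 1 ∨ κ = 1) →
      AS p (w1 * w2 ^ p ^ κ.natAbs - ∑ i ∈ range (2 * D + 1),
        cc p (RatFunc k) (u.coeff i) * br p v1 ((κ.natAbs : ℤ) + i - D)) ∧
      AS p (w2 * w1 ^ p ^ κ.natAbs - ∑ i ∈ range (2 * D + 1),
        cc p (RatFunc k) (u.coeff i) * br p v1 ((κ.natAbs : ℤ) + i - D)) := by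
    intro κ hκ
    obtain ⟨Z1, Z2, W, g1, g2, g3, g4, g5⟩ := hrel κ hκ
    have e1 := rel_norm v1 c e A0 E hE hs c4 κ l w1 w2 Z1 Z2 W g1 g2 g3 g4 g5
    have e2 := rel_norm v1 c e A0 E hE hs c4 κ l w2 w1 Z2 Z1 W g2 g1 g3 g5 g4
    have e3 := huc fun t => br p v1 ((κ.natAbs : ℤ) + t)
    rw [← e3] at e1 e2
    have e4 : ∑ i ∈ range (2 * D + 1), cc p (RatFunc k) (u.coeff i) *
        br p v1 ((κ.natAbs : ℤ) + ((i : ℤ) - D)) = ∑ i ∈ range (2 * D + 1),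
        cc p (RatFunc k) (u.coeff i) * br p v1 ((κ.natAbs : ℤ) + i - D) :=
      Finset.sum_congr rfl fun i _ => by rw [add_sub_assoc]
    rw [e4] at e1 e2
    exact ⟨hinv _ _ e1, hinv _ _ e2⟩
  -- the natural number κ0
  obtain ⟨κ0, hκ0, ha, hb⟩ : ∃ κ0 : ℕ, 2 * D + 9 ≤ κ0 ∧
      (κ0 = K.natAbs ∨ κ0 = (K + 1).natAbs) ∧
      (κ0 + 1 = K.natAbs ∨ κ0 + 1 = (K + 1).natAbs) := by
    by_cases h0 : 0 ≤ K
    · exact ⟨K.natAbs, by omega, by omega, by omega⟩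
    · exact ⟨(K + 1).natAbs, by omega, by omega, by omega⟩
  have hj : ∀ j : ℕ, (j = 1 ∨ j = κ0 ∨ j = κ0 + 1) →
      ∃ κ : ℤ, (κ = K ∨ κ = K + 1 ∨ κ = 1) ∧ κ.natAbs = j := by
    intro j hj
    rcases hj with rfl | rfl | rfl
    · exact ⟨1, Or.inr (Or.inr rfl), rfl⟩
    · rcases ha with h | h
      · exact ⟨K, Or.inl rfl, h.symm⟩
      · exact ⟨K + 1, Or.inr (Or.inl rfl), h.symm⟩
    · rcases hb with h | h
      · exact ⟨K, Or.inl rfl, h.symm⟩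
      · exact ⟨K + 1, Or.inr (Or.inl rfl), h.symm⟩
  obtain ⟨h5, A, h6, h7, h8⟩ := structure_thm' p hv D κ0 ν hκ0 w1 w2 h3 h4 u hu hu0 hsym
    (fun j hjj => by
      obtain ⟨κ, hκ, rfl⟩ := hj j hjj
      exact (hall κ hκ).1)
    (fun j hjj => by
      obtain ⟨κ, hκ, rfl⟩ := hj j hjj
      exact (hall κ hκ).2)
  exact ⟨ν, h5, A, h6, h7, h8⟩

end Pool.Agent.H367R2.H10.Gad
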