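import Mathlib
import Pool.Agent.H367R2.H10.FzApi

set_option autoImplicit false

/-! The existential formulas (gadgets). `a` codes the integer `m` (with respect to `x`) if
`Fz p m x a`, that is `a = F ^ m x`. -/

open Polynomial Finset

namespace Pool.Agent.H367R2.H10

universe u

section gen

variable {K : Type u} [Field K]

/-- the basic element with simple poles -/
def vx (p : ℕ) (x : K) : K := (x ^ p ^ 4 - x)⁻¹

/-- `b` codes `c * m` if `a` codes `m`; note that `Fr p x a b c` says that `c` codes the sum of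
the numbers coded by `a` and `b` -/
def MulC (p : ℕ) (x : K) : ℕ → K → K → Prop
  | 0, _, b => b = x
  | c + 1, a, b => ∃ b' : K, MulC p x c a b' ∧ Fr p x a b' b

/-- divisibility of the coded numbers -/
def DivR (p : ℕ) (x a b : K) : Prop :=
  ∃ y Y W : K, Fr p x a y Y ∧ Fr p x b (vx p x) W ∧ Y - y = W - vx p x

/-- one relation of the gadget for ratios that are powers of `p` -/
def RelK (p : ℕ) (x κ c4 vA z1 z2 U : K) : Prop :=
  ∃ Z1 Z2 W : K, Fr p x κ z1 Z1 ∧ Fr p x κ z2 Z2 ∧ Fr p x κ U W ∧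
    AS p (c4 * (z1 * Z2) - vA * W) ∧ AS p (c4 * (z2 * Z1) - vA * W)

/-- all relations of the gadget -/
def RelAll (p : ℕ) (x a b c4 vN vA U : K) : Prop :=
  ∃ z1 κ a' b' : K, a ≠ x ∧ b ≠ x ∧ κ ≠ x ∧ MulC p x 32 a a' ∧ MulC p x 32 b b' ∧
    DivR p x a' κ ∧ DivR p x b' κ ∧ RelK p x κ c4 vA z1 (z1 + vN) U ∧
    RelK p x (κ ^ p) c4 vA z1 (z1 + vN) U ∧ RelK p x (x ^ p) c4 vA z1 (z1 + vN) U

/-- the gadget for odd `p`: `m = p ^ s n` -/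
def PDodd (p : ℕ) (x a b : K) : Prop :=
  ∃ cN cA a4 b4 cS vN vA va vb vS : K, Fr p x a b cN ∧ Fr p x cN cN cA ∧
    MulC p x 4 a a4 ∧ MulC p x 4 b b4 ∧ Fr p x cA cA cS ∧
    Fr p x cN (vx p x) vN ∧ Fr p x cA (vx p x) vA ∧ Fr p x a4 (vx p x) va ∧
    Fr p x b4 (vx p x) vb ∧ Fr p x cS (vx p x) vS ∧
    RelAll p x a b 4 vN vA (vS + va + vb + vx p x - vA)

/-- the gadget for `p = 2` -/
def PDtwo (p : ℕ) (x a b : K) : Prop :=
  ∃ cN cA c1 c2 vN vA va vb v1 v2 : K, Fr p x cN cN a ∧ Fr p x a b cA ∧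
    Fr p x a cA c1 ∧ Fr p x cA b c2 ∧
    Fr p x cN (vx p x) vN ∧ Fr p x cA (vx p x) vA ∧ Fr p x a (vx p x) va ∧
    Fr p x b (vx p x) vb ∧ Fr p x c1 (vx p x) v1 ∧ Fr p x c2 (vx p x) v2 ∧
    RelAll p x a b 1 vN vA (v1 + vb + v2 + va)

/-- the gadget -/
def PDR (p : ℕ) (x a b : K) : Prop := (p ≠ 2 ∧ PDodd p x a b) ∨ (p = 2 ∧ PDtwo p x a b)

/-- `b` codes the square of the number coded by `a` (see `sq_sound`, `sq_complete`) -/
def SqR (p : ℕ) (x a b : K) : Prop :=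
  ∃ u0 u u2 h0 h d one p1 p3 a1 a2 b1 b2 s1 s2 s3 s4 s5 : K, one = x ^ p ∧
    MulC p x p one p1 ∧ MulC p x (p ^ 3) one p3 ∧
    PDR p x u0 one ∧ DivR p x p3 u0 ∧
    PDR p x u one ∧ DivR p x p1 u ∧
    Fr p x u u0 s1 ∧ Fr p x u0 one s2 ∧ PDR p x s1 s2 ∧
    PDR p x u2 one ∧ DivR p x p1 u2 ∧
    Fr p x u2 u s3 ∧ Fr p x u one s4 ∧ PDR p x s3 s4 ∧
    Fr p x h0 one u0 ∧ MulC p x (2 * p) a a1 ∧ Fr p x a1 one a2 ∧ DivR p x a2 h0 ∧
    Fr p x h one u ∧ MulC p x (2 * p) b b1 ∧ Fr p x b1 one b2 ∧ DivR p x b2 h ∧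
    Fr p x b d u2 ∧ Fr p x a u s5 ∧ DivR p x s5 d

/-- `c` codes the product of the numbers coded by `a` and `b` -/
def MulR (p : ℕ) (x a b c : K) : Prop :=
  ∃ s s2 a2 b2 c2 e1 : K, Fr p x a b s ∧ SqR p x s s2 ∧ SqR p x a a2 ∧ SqR p x b b2 ∧
    Fr p x c c c2 ∧ Fr p x a2 b2 e1 ∧ Fr p x e1 c2 s2

end gen

end Pool.Agent.H367R2.H10
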