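import Mathlib
import Pool.Agent.H367R2.H10.Defs

set_option autoImplicit false

/-! T4 : combinatorics of polynomials over `F_p` (helper541) -/

open Polynomial

namespace Pool.Agent.H367R2.H10

namespace T4

theorem reflect_Xpow {R : Type*} [Semiring R] (N n : ℕ) (h : n ≤ N) :
    reflect N ((X : R[X]) ^ n) = X ^ (N - n) := by
  rw [reflect_monomial, revAt_le h]

/-- the basic relation -/
theorem rel {p : ℕ} [Fact p.Prime] (D ν : ℕ) (A G : (ZMod p)[X]) (hν : ν ≤ D) (u : (ZMod p)[X])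
    (hu : u ≠ 0) (h1 : u * (reflect D A * (A + X ^ ν)) = G)
    (h2 : u * (reflect D (A + X ^ ν) * A) = G) :
    reflect D A * X ^ ν = X ^ (D - ν) * A := by
  rw [reflect_add, reflect_Xpow D ν hν] at h2
  have h3 : u * (reflect D A * X ^ ν - X ^ (D - ν) * A) = 0 := by
    linear_combination h1 - h2
  rcases mul_eq_zero.1 h3 with h | h
  · exact absurd h hu
  · exact sub_eq_zero.1 h

theorem four_ne {p : ℕ} [Fact p.Prime] (hp2 : p ≠ 2) : (4 : ZMod p) ≠ 0 := by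
  have hp : p.Prime := Fact.out
  have h2 : (2 : ZMod p) ≠ 0 := by
    intro h
    have h' : ((2 : ℕ) : ZMod p) = 0 := by exact_mod_cast h
    rw [ZMod.natCast_eq_zero_iff] at h'
    exact hp2 ((Nat.prime_dvd_prime_iff_eq hp Nat.prime_two).1 h')
  have : (4 : ZMod p) = 2 * 2 := by norm_num
  rw [this]
  exact mul_ne_zero h2 h2

theorem four_ne' {p : ℕ} [Fact p.Prime] (hp2 : p ≠ 2) : (4 : (ZMod p)[X]) ≠ 0 := by
  have h := four_ne hp2
  intro h'
  apply h
  have h4 : (C (4 : ZMod p) : (ZMod p)[X]) = 4 := rfl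
  exact C_eq_zero.1 (h4.trans h')

theorem sqfree {p : ℕ} [Fact p.Prime] (m : ℕ) (hm : ¬ p ∣ m) (hp2 : p ≠ 2) :
    Squarefree (1 + X ^ (4 * m) : (ZMod p)[X]) := by
  have h : (1 + X ^ (4 * m) : (ZMod p)[X]) = X ^ (4 * m) - C (-1) := by
    simp [sub_neg_eq_add, add_comm]
  rw [h]
  apply Separable.squarefree
  apply separable_X_pow_sub_C
  · push_cast
    refine mul_ne_zero (four_ne hp2) ?_
    rwa [Ne, ZMod.natCast_eq_zero_iff]
  · simp

theorem degU {p : ℕ} [Fact p.Prime] (m : ℕ) :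
    (1 + X ^ (4 * m) : (ZMod p)[X]).natDegree = 4 * m := by
  have h : (1 + X ^ (4 * m) : (ZMod p)[X]) = X ^ (4 * m) + C 1 := by
    simp [add_comm]
  rw [h]
  exact natDegree_X_pow_add_C

theorem sq_dvd {K : Type*} [Field K] (U V E : K[X]) (hU : Squarefree U) (hUV : U * V = E ^ 2) :
    U ∣ V := by
  have hU0 : U ≠ 0 := hU.ne_zero
  have h1 : U ∣ E := by
    rw [← hU.dvd_pow_iff_dvd (two_ne_zero)]
    exact ⟨V, hUV.symm⟩
  obtain ⟨F, rfl⟩ := h1
  refine ⟨F ^ 2, ?_⟩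
  have : U * V = U * (U * F ^ 2) := by rw [hUV]; ring
  exact mul_left_cancel₀ hU0 this

theorem dvd_of_sq_dvd_sq {K : Type*} [Field K] (a b : K[X]) (h : a ^ 2 ∣ b ^ 2) : a ∣ b :=
  (UniqueFactorizationMonoid.pow_dvd_pow_iff_dvd two_ne_zero).1 h

end T4

open T4

/-- T4a -/
theorem comb_odd (p : ℕ) [Fact p.Prime] (hp2 : p ≠ 2) (m n D ν : ℕ) (hm : 0 < m) (hn : 0 < n)
    (hD : D = 2 * (m + n)) (A : (ZMod p)[X]) (hA : A.natDegree ≤ D) (hν : ν ≤ D)
    (h1 : 4 * (reflect D A * (A + X ^ ν)) = (1 + X ^ (4 * m)) * (1 + X ^ (4 * n)) - X ^ D)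
    (h2 : 4 * (reflect D (A + X ^ ν) * A) = (1 + X ^ (4 * m)) * (1 + X ^ (4 * n)) - X ^ D) :
    ∃ a b : ℕ, m * p ^ a = n * p ^ b := by
  have hp : p.Prime := Fact.out
  have hR := rel D ν A _ hν 4 (four_ne' hp2) h1 h2
  set P : (ZMod p)[X] := (1 + X ^ (4 * m)) * (1 + X ^ (4 * n)) with hP
  -- `X^(2ν) P = (X^(m+n) B)^2`
  have hX : (X : (ZMod p)[X]) ^ (D - ν) * X ^ ν = X ^ (m + n) * X ^ (m + n) := by
    rw [← pow_add, ← pow_add]; congr 1; omega
  have hXD : (X : (ZMod p)[X]) ^ D = X ^ (m + n) * X ^ (m + n) := by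
    rw [← pow_add]; congr 1; omega
  have e1 : (X ^ ν) ^ 2 * P = (X ^ (m + n) * (2 * A + X ^ ν)) ^ 2 := by
    have e0 : X ^ ν * P = X ^ ν * (4 * (reflect D A * (A + X ^ ν))) + X ^ ν * X ^ D := by
      rw [h1]; ring
    have e2 : (X ^ ν) ^ 2 * P = X ^ ν * (X ^ ν * P) := by ring
    rw [e2, e0]
    have e3 : X ^ ν * (4 * (reflect D A * (A + X ^ ν)))
        = 4 * (X ^ (D - ν) * A) * (A + X ^ ν) := by
      rw [← hR]; ring
    rw [e3, hXD]
    linear_combination (4 * A * (A + X ^ ν)) * hX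
  have e4 : X ^ ν ∣ X ^ (m + n) * (2 * A + X ^ ν) :=
    dvd_of_sq_dvd_sq _ _ ⟨P, e1.symm⟩
  obtain ⟨Cc, hC⟩ := e4
  have hXν : ((X : (ZMod p)[X]) ^ ν) ^ 2 ≠ 0 := pow_ne_zero _ (pow_ne_zero _ X_ne_zero)
  have e5 : P = Cc ^ 2 := by
    rw [hC] at e1
    have : (X ^ ν) ^ 2 * P = (X ^ ν) ^ 2 * Cc ^ 2 := by rw [e1]; ring
    exact mul_left_cancel₀ hXν this
  -- factor out the powers of `p`
  obtain ⟨a, m', hm', hma⟩ := Nat.exists_eq_pow_mul_and_not_dvd hm.ne' p hp.ne_one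
  obtain ⟨b, n', hn', hnb⟩ := Nat.exists_eq_pow_mul_and_not_dvd hn.ne' p hp.ne_one
  have hm'0 : 0 < m' := Nat.pos_of_ne_zero (by rintro rfl; exact hm' (dvd_zero _))
  have hn'0 : 0 < n' := Nat.pos_of_ne_zero (by rintro rfl; exact hn' (dvd_zero _))
  set U : (ZMod p)[X] := 1 + X ^ (4 * m') with hU
  set V : (ZMod p)[X] := 1 + X ^ (4 * n') with hV
  have hUp : (1 + X ^ (4 * m) : (ZMod p)[X]) = U ^ (p ^ a) := by
    rw [hU, add_pow_char_pow, one_pow, ← pow_mul, hma]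
    congr 2; ring
  have hVp : (1 + X ^ (4 * n) : (ZMod p)[X]) = V ^ (p ^ b) := by
    rw [hV, add_pow_char_pow, one_pow, ← pow_mul, hnb]
    congr 2; ring
  have hodd : Odd p := hp.odd_of_ne_two hp2
  obtain ⟨k, hk⟩ := hodd.pow (n := a)
  obtain ⟨l, hl⟩ := hodd.pow (n := b)
  have e6 : (U ^ k * V ^ l) ^ 2 * (U * V) = Cc ^ 2 := by
    rw [← e5, hP, hUp, hVp, hk, hl]; ring
  have sU : Squarefree U := sqfree m' hm' hp2
  have sV : Squarefree V := sqfree n' hn' hp2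
  have hE0 : (U ^ k * V ^ l) ^ 2 ≠ 0 :=
    pow_ne_zero _ (mul_ne_zero (pow_ne_zero _ sU.ne_zero) (pow_ne_zero _ sV.ne_zero))
  obtain ⟨E, hE⟩ := dvd_of_sq_dvd_sq _ _ ⟨U * V, e6.symm⟩
  have e7 : U * V = E ^ 2 := by
    rw [hE] at e6
    have : (U ^ k * V ^ l) ^ 2 * (U * V) = (U ^ k * V ^ l) ^ 2 * E ^ 2 := by rw [e6]; ring
    exact mul_left_cancel₀ hE0 this
  have d1 : U ∣ V := sq_dvd U V E sU e7
  have d2 : V ∣ U := sq_dvd V U E sV (by rw [mul_comm, e7])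
  have l1 := natDegree_le_of_dvd d1 sV.ne_zero
  have l2 := natDegree_le_of_dvd d2 sU.ne_zero
  rw [hU, hV, degU m', degU n'] at l1 l2
  have hmn : m' = n' := by omega
  refine ⟨b, a, ?_⟩
  rw [hma, hnb, hmn]; ring

/-- T4b -/
theorem comb_two (m n D ν : ℕ) (hm : 0 < m) (hn : 0 < n) (hmD : m ≤ D) (hnD : n ≤ D)
    (A : (ZMod 2)[X]) (hA : A.natDegree ≤ D) (hν : ν ≤ D)
    (h1 : reflect D A * (A + X ^ ν) =
      X ^ (D + m) + X ^ (D - m) + X ^ (D + n) + X ^ (D - n))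
    (h2 : reflect D (A + X ^ ν) * A =
      X ^ (D + m) + X ^ (D - m) + X ^ (D + n) + X ^ (D - n)) :
    ∃ a b : ℕ, m * 2 ^ a = n * 2 ^ b := by
  have hR := rel D ν A _ hν 1 one_ne_zero ((one_mul _).trans h1) ((one_mul _).trans h2)
  set G : (ZMod 2)[X] := X ^ (D + m) + X ^ (D - m) + X ^ (D + n) + X ^ (D - n) with hG
  have e1 : X ^ ν * G = X ^ (D - ν) * (A ^ 2 + X ^ ν * A) := by
    rw [← h1]
    linear_combination (A + X ^ ν) * hR
  -- coefficients
  have hAexp : A ^ 2 = expand (ZMod 2) 2 A := (ZMod.expand_card A).symm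
  have key : ∀ j : ℕ, 0 < j → ((if j = m then 1 else 0) + (if j = n then 1 else 0) : ZMod 2) =
      (A ^ 2).coeff (2 * ν + j) + A.coeff (ν + j) := by
    intro j hj
    have h3 : (X ^ ν * G).coeff (D + ν + j) =
        (X ^ (D - ν) * (A ^ 2 + X ^ ν * A)).coeff (D + ν + j) := by rw [e1]
    have c1 : (X ^ ν * G).coeff (D + ν + j) = G.coeff (D + j) := by
      have : D + ν + j = (D + j) + ν := by ring
      rw [this, coeff_X_pow_mul]
    have c2 : (X ^ (D - ν) * (A ^ 2 + X ^ ν * A)).coeff (D + ν + j) =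
        (A ^ 2).coeff (2 * ν + j) + A.coeff (ν + j) := by
      have : D + ν + j = (2 * ν + j) + (D - ν) := by omega
      rw [this, coeff_X_pow_mul, coeff_add]
      congr 1
      have : 2 * ν + j = (ν + j) + ν := by ring
      rw [this, coeff_X_pow_mul]
    rw [c1, c2] at h3
    rw [← h3, hG]
    simp only [coeff_add, coeff_X_pow]
    have i1 : (D + j = D + m) ↔ (j = m) := by omega
    have i2 : ¬ (D + j = D - m) := by omega
    have i3 : (D + j = D + n) ↔ (j = n) := by omega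
    have i4 : ¬ (D + j = D - n) := by omega
    simp only [i1, i2, i3, i4, if_false, add_zero]
  obtain ⟨a, i, hi, hma⟩ := Nat.exists_eq_pow_mul_and_not_dvd hm.ne' 2 (by norm_num)
  have hi0 : 0 < i := Nat.pos_of_ne_zero (by rintro rfl; exact hi (dvd_zero _))
  have sum : ∀ k : ℕ, A.coeff (ν + i * 2 ^ k) = ∑ l ∈ Finset.range (k + 1),
      ((if i * 2 ^ l = m then 1 else 0) + (if i * 2 ^ l = n then 1 else 0) : ZMod 2) := by
    intro k
    induction k with
    | zero =>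
      have h := key i hi0
      have h0 : (A ^ 2).coeff (2 * ν + i) = 0 := by
        rw [hAexp, coeff_expand (by norm_num), if_neg]
        intro hd
        exact hi ((Nat.dvd_add_right (dvd_mul_right 2 ν)).1 hd)
      rw [h0, zero_add] at h
      simp [← h]
    | succ k ih =>
      have h := key (i * 2 ^ (k + 1)) (by positivity)
      have h0 : (A ^ 2).coeff (2 * ν + i * 2 ^ (k + 1)) = A.coeff (ν + i * 2 ^ k) := by
        have : 2 * ν + i * 2 ^ (k + 1) = (ν + i * 2 ^ k) * 2 := by ring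
        rw [hAexp, this, coeff_expand_mul (by norm_num)]
      rw [h0, ih] at h
      rw [Finset.sum_range_succ _ (k + 1), h, ← add_assoc, CharTwo.add_self_eq_zero, zero_add]
  by_contra hcon
  push Not at hcon
  have hno : ∀ l : ℕ, i * 2 ^ l ≠ n := by
    intro l hl
    apply hcon l a
    rw [hma, ← hl]; ring
  set k : ℕ := a + A.natDegree with hk
  have h := sum k
  have hz : A.coeff (ν + i * 2 ^ k) = 0 := by
    apply coeff_eq_zero_of_natDegree_lt
    have h3 : k < 2 ^ k := Nat.lt_two_pow_self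
    have h4 : 2 ^ k ≤ i * 2 ^ k := Nat.le_mul_of_pos_left _ hi0
    omega
  rw [hz] at h
  have h5 : ∑ l ∈ Finset.range (k + 1),
      ((if i * 2 ^ l = m then 1 else 0) + (if i * 2 ^ l = n then 1 else 0) : ZMod 2) = 1 := by
    rw [Finset.sum_eq_single a]
    · rw [if_pos (by rw [hma]; ring), if_neg (hno a), add_zero]
    · intro l _ hla
      rw [if_neg, if_neg (hno l), add_zero]
      intro h6
      apply hla
      have h7 : i * 2 ^ l = i * 2 ^ a := by rw [h6, hma]; ring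
      exact Nat.pow_right_injective (le_refl 2) (Nat.eq_of_mul_eq_mul_left hi0 h7)
    · intro h6
      exact absurd (Finset.mem_range.2 (by omega)) h6
  rw [h5] at h
  exact zero_ne_one h

namespace T4

theorem reflect_pow {R : Type*} [CommSemiring R] (N : ℕ) (f : R[X]) (hf : f.natDegree ≤ N)
    (hr : reflect N f = f) (c : ℕ) :
    (f ^ c).natDegree ≤ c * N ∧ reflect (c * N) (f ^ c) = f ^ c := by
  have hd : ∀ c : ℕ, (f ^ c).natDegree ≤ c * N := fun c =>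
    (natDegree_pow_le).trans (Nat.mul_le_mul_left _ hf)
  refine ⟨hd c, ?_⟩
  induction c with
  | zero => simp
  | succ c ih =>
    rw [pow_succ, Nat.succ_mul, reflect_mul _ _ (hd c) hf, ih, hr]

end T4

/-- T4c -/
theorem comb_odd_exists (p : ℕ) [Fact p.Prime] (hp2 : p ≠ 2) (m n s D : ℕ) (hn : 0 < n)
    (hs : 0 < s) (hm : m = p ^ s * n) (hD : D = 2 * (m + n)) :
    ∃ A : (ZMod p)[X], A.natDegree ≤ D ∧ (A + X ^ (m + n)).natDegree ≤ D ∧
      4 * (reflect D A * (A + X ^ (m + n))) = (1 + X ^ (4 * m)) * (1 + X ^ (4 * n)) - X ^ D ∧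
      4 * (reflect D (A + X ^ (m + n)) * A) =
        (1 + X ^ (4 * m)) * (1 + X ^ (4 * n)) - X ^ D := by
  have hp : p.Prime := Fact.out
  have hodd : Odd p := hp.odd_of_ne_two hp2
  obtain ⟨k, hk⟩ := hodd.pow (n := s)
  have h2 : (2 : ZMod p) ≠ 0 := by
    intro h
    apply four_ne hp2
    have : (4 : ZMod p) = 2 * 2 := by norm_num
    rw [this, h, mul_zero]
  have hC : (2 : (ZMod p)[X]) * C (2⁻¹ : ZMod p) = 1 := by
    have : (2 : (ZMod p)[X]) = C (2 : ZMod p) := rfl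
    rw [this, ← C_mul, mul_inv_cancel₀ h2, C_1]
  set W : (ZMod p)[X] := 1 + X ^ (4 * n) with hW
  have hWd : W.natDegree ≤ 4 * n := by
    rw [hW, degU n]
  have hWr : reflect (4 * n) W = W := by
    rw [hW, reflect_add, reflect_Xpow _ _ le_rfl, Nat.sub_self, pow_zero]
    have : (1 : (ZMod p)[X]) = X ^ 0 := by simp
    rw [this, reflect_Xpow _ _ (Nat.zero_le _), Nat.sub_zero, pow_zero, add_comm]
  obtain ⟨hQd, hQr⟩ := reflect_pow (4 * n) W hWd hWr (k + 1)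
  have hDk : (k + 1) * (4 * n) = D := by
    rw [hD, hm, hk]; ring
  rw [hDk] at hQd hQr
  set Q : (ZMod p)[X] := W ^ (k + 1) with hQ
  have hmn : m + n ≤ D := by omega
  have hXr : reflect D ((X : (ZMod p)[X]) ^ (m + n)) = X ^ (m + n) := by
    rw [reflect_Xpow _ _ hmn]; congr 1; omega
  have hXd : ((X : (ZMod p)[X]) ^ (m + n)).natDegree ≤ D := (natDegree_X_pow_le _).trans hmn
  set A : (ZMod p)[X] := C 2⁻¹ * (Q - X ^ (m + n)) with hA
  have hAr : reflect D A = A := by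
    have : reflect D (Q - X ^ (m + n)) = Q - X ^ (m + n) := by
      rw [reflect_sub, hQr, hXr]
    rw [hA, reflect_C_mul, this]
  have hAd : A.natDegree ≤ D := by
    refine (natDegree_C_mul_le _ _).trans ?_
    exact (natDegree_sub_le _ _).trans (max_le hQd hXd)
  have hBr : reflect D (A + X ^ (m + n)) = A + X ^ (m + n) := by
    rw [reflect_add, hAr, hXr]
  have hBd : (A + X ^ (m + n)).natDegree ≤ D :=
    (natDegree_add_le _ _).trans (max_le hAd hXd)
  have h2A : 2 * A = Q - X ^ (m + n) := by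
    rw [hA, ← mul_assoc, hC, one_mul]
  have hfin : 4 * (A * (A + X ^ (m + n))) =
      (1 + X ^ (4 * m)) * (1 + X ^ (4 * n)) - X ^ D := by
    have e1 : 4 * (A * (A + X ^ (m + n))) = Q ^ 2 - X ^ (m + n) * X ^ (m + n) := by
      linear_combination (2 * A + 2 * X ^ (m + n) + Q - X ^ (m + n)) * h2A
    have e2 : Q ^ 2 = W ^ (p ^ s) * W := by
      rw [hQ, hk]; ring
    have e3 : W ^ (p ^ s) = 1 + X ^ (4 * m) := by
      rw [hW, add_pow_char_pow, one_pow, ← pow_mul, hm]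
      congr 2; ring
    have e4 : (X : (ZMod p)[X]) ^ D = X ^ (m + n) * X ^ (m + n) := by
      rw [← pow_add]; congr 1; omega
    rw [e1, e2, e3, e4]
  refine ⟨A, hAd, hBd, ?_, ?_⟩
  · rw [hAr]; exact hfin
  · rw [hBr, mul_comm (A + X ^ (m + n)) A]; exact hfin

namespace T4

theorem tele (n ν : ℕ) (e : ℕ → (ZMod 2)[X])
    (he : ∀ i, e i = X ^ (ν + n * 2 ^ i) + X ^ (ν - n * 2 ^ i)) (s : ℕ)
    (hs : ∀ i < s, n * 2 ^ i ≤ ν) :
    (∑ i ∈ Finset.range s, e i) ^ 2 + X ^ ν * (∑ i ∈ Finset.range s, e i) =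
      (X ^ (2 * ν + n * 2 ^ s) + X ^ (2 * ν - n * 2 ^ s)) +
        (X ^ (2 * ν + n) + X ^ (2 * ν - n)) := by
  induction s with
  | zero =>
    simp only [Finset.range_zero, Finset.sum_empty, pow_zero, mul_one]
    rw [CharTwo.add_self_eq_zero]
    simp
  | succ s ih =>
    have ih' := ih (fun i hi => hs i (by omega))
    have hle : n * 2 ^ s ≤ ν := hs s (by omega)
    rw [Finset.sum_range_succ, he s]
    set S : (ZMod 2)[X] := ∑ i ∈ Finset.range s, e i with hS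
    have a1 : (X : (ZMod 2)[X]) ^ ν * X ^ (ν + n * 2 ^ s) = X ^ (2 * ν + n * 2 ^ s) := by
      rw [← pow_add]; congr 1; ring
    have a2 : (X : (ZMod 2)[X]) ^ ν * X ^ (ν - n * 2 ^ s) = X ^ (2 * ν - n * 2 ^ s) := by
      rw [← pow_add]; congr 1; omega
    have a3 : ((X : (ZMod 2)[X]) ^ (ν + n * 2 ^ s)) ^ 2 = X ^ (2 * ν + n * 2 ^ (s + 1)) := by
      rw [← pow_mul]; congr 1; ring
    have a4 : ((X : (ZMod 2)[X]) ^ (ν - n * 2 ^ s)) ^ 2 = X ^ (2 * ν - n * 2 ^ (s + 1)) := by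
      rw [← pow_mul]; congr 1
      have : n * 2 ^ (s + 1) = 2 * (n * 2 ^ s) := by ring
      rw [this]; omega
    have s1 : (S + (X ^ (ν + n * 2 ^ s) + X ^ (ν - n * 2 ^ s))) ^ 2 =
        S ^ 2 + (X ^ (2 * ν + n * 2 ^ (s + 1)) + X ^ (2 * ν - n * 2 ^ (s + 1))) := by
      rw [CharTwo.add_sq, CharTwo.add_sq, a3, a4]
    have s2 : X ^ ν * (S + (X ^ (ν + n * 2 ^ s) + X ^ (ν - n * 2 ^ s))) =
        X ^ ν * S + (X ^ (2 * ν + n * 2 ^ s) + X ^ (2 * ν - n * 2 ^ s)) := by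
      rw [mul_add, mul_add, a1, a2]
    rw [s1, s2]
    have c : ∀ f : (ZMod 2)[X], f + f = 0 := fun f => CharTwo.add_self_eq_zero f
    linear_combination ih' + c (X ^ (2 * ν + n * 2 ^ s) + X ^ (2 * ν - n * 2 ^ s))

theorem refl_tele (n ν : ℕ) (e : ℕ → (ZMod 2)[X])
    (he : ∀ i, e i = X ^ (ν + n * 2 ^ i) + X ^ (ν - n * 2 ^ i)) (s : ℕ)
    (hs : ∀ i < s, n * 2 ^ i ≤ ν) :
    reflect (2 * ν) (∑ i ∈ Finset.range s, e i) = ∑ i ∈ Finset.range s, e i ∧
      (∑ i ∈ Finset.range s, e i).natDegree ≤ 2 * ν := by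
  induction s with
  | zero => simp
  | succ s ih =>
    obtain ⟨ih1, ih2⟩ := ih (fun i hi => hs i (by omega))
    have hle : n * 2 ^ s ≤ ν := hs s (by omega)
    rw [Finset.sum_range_succ, he s]
    constructor
    · rw [reflect_add, reflect_add, ih1, reflect_Xpow _ _ (by omega), reflect_Xpow _ _ (by omega)]
      have b1 : 2 * ν - (ν + n * 2 ^ s) = ν - n * 2 ^ s := by omega
      have b2 : 2 * ν - (ν - n * 2 ^ s) = ν + n * 2 ^ s := by omega
      rw [b1, b2]; ring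
    · refine (natDegree_add_le _ _).trans (max_le ih2 ?_)
      refine (natDegree_add_le _ _).trans (max_le ?_ ?_)
      · exact (natDegree_X_pow_le _).trans (by omega)
      · exact (natDegree_X_pow_le _).trans (by omega)

end T4

/-- T4d -/
theorem comb_two_exists (n s ν : ℕ) (hn : 0 < n) (hν : 2 ^ s * n = ν) :
    ∃ A : (ZMod 2)[X], A.natDegree ≤ 2 * ν ∧ (A + X ^ ν).natDegree ≤ 2 * ν ∧
      reflect (2 * ν) A * (A + X ^ ν) =
        X ^ (2 * ν + 2 * ν) + X ^ (2 * ν - 2 * ν) + X ^ (2 * ν + n) + X ^ (2 * ν - n) ∧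
      reflect (2 * ν) (A + X ^ ν) * A =
        X ^ (2 * ν + 2 * ν) + X ^ (2 * ν - 2 * ν) + X ^ (2 * ν + n) + X ^ (2 * ν - n) := by
  set e : ℕ → (ZMod 2)[X] := fun i => X ^ (ν + n * 2 ^ i) + X ^ (ν - n * 2 ^ i) with he
  have hs : ∀ i < s + 1, n * 2 ^ i ≤ ν := by
    intro i hi
    rw [← hν, mul_comm]
    exact Nat.mul_le_mul_right _ (Nat.pow_le_pow_right (by norm_num) (by omega))
  have ht := tele n ν e (fun i => rfl) (s + 1) hs
  obtain ⟨hr, hd⟩ := refl_tele n ν e (fun i => rfl) (s + 1) hs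
  set A : (ZMod 2)[X] := ∑ i ∈ Finset.range (s + 1), e i with hA
  have h2 : n * 2 ^ (s + 1) = 2 * ν := by
    rw [← hν, pow_succ]; ring
  rw [h2] at ht
  have hXr : reflect (2 * ν) ((X : (ZMod 2)[X]) ^ ν) = X ^ ν := by
    rw [reflect_Xpow _ _ (by omega)]; congr 1; omega
  have hBr : reflect (2 * ν) (A + X ^ ν) = A + X ^ ν := by
    rw [reflect_add, hr, hXr]
  have hfin : A * (A + X ^ ν) =
      X ^ (2 * ν + 2 * ν) + X ^ (2 * ν - 2 * ν) + X ^ (2 * ν + n) + X ^ (2 * ν - n) := by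
    linear_combination ht
  refine ⟨A, hd, ?_, ?_, ?_⟩
  · exact (natDegree_add_le _ _).trans (max_le hd ((natDegree_X_pow_le _).trans (by omega)))
  · rw [hr]; exact hfin
  · rw [hBr, mul_comm (A + X ^ ν) A]; exact hfin

end Pool.Agent.H367R2.H10
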