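import Mathlib
import Pool.Agent.H367R2.H10.Defs

set_option autoImplicit false

namespace Pool.Agent.H367R2.H10

/-! ### T5 : arithmetic -/

/-- `a` and `b` are nonzero and `a = ± p ^ s b`, `s` an integer -/
def PDz (p : ℕ) (a b : ℤ) : Prop :=
  a ≠ 0 ∧ b ≠ 0 ∧ ∃ s t : ℕ, a * p ^ s = b * p ^ t ∨ a * p ^ s = -(b * p ^ t)

theorem t5_unique {p : ℕ} (hp : p.Prime) {a k : ℕ} {x y : ℤ} (hx : ¬ (p : ℤ) ∣ x)
    (hy : ¬ (p : ℤ) ∣ y) (h : (p : ℤ) ^ a * x = (p : ℤ) ^ k * y) : a = k ∧ x = y := by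
  have hp0 : (p : ℤ) ≠ 0 := by exact_mod_cast hp.ne_zero
  rcases lt_trichotomy a k with hl | hl | hl
  · exfalso
    obtain ⟨c, rfl⟩ := Nat.exists_eq_add_of_lt hl
    have h2 : x = (p : ℤ) ^ (c + 1) * y := by
      have : (p : ℤ) ^ a * x = (p : ℤ) ^ a * ((p : ℤ) ^ (c + 1) * y) := by
        rw [h]; ring
      exact mul_left_cancel₀ (pow_ne_zero _ hp0) this
    exact hx ⟨(p : ℤ) ^ c * y, by rw [h2]; ring⟩
  · subst hl
    exact ⟨rfl, mul_left_cancel₀ (pow_ne_zero _ hp0) h⟩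
  · exfalso
    obtain ⟨c, rfl⟩ := Nat.exists_eq_add_of_lt hl
    have h2 : y = (p : ℤ) ^ (c + 1) * x := by
      have : (p : ℤ) ^ k * y = (p : ℤ) ^ k * ((p : ℤ) ^ (c + 1) * x) := by
        rw [← h]; ring
      exact mul_left_cancel₀ (pow_ne_zero _ hp0) this
    exact hy ⟨(p : ℤ) ^ c * x, by rw [h2]; ring⟩

theorem t5_PDz {p : ℕ} (hp : p.Prime) {a b : ℤ} (h : PDz p a b) (hb : ¬ (p : ℤ) ∣ b) :
    ∃ (k : ℕ) (σ : ℤ), (σ = 1 ∨ σ = -1) ∧ a = σ * ((p : ℤ) ^ k * b) := by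
  have hp0 : (p : ℤ) ≠ 0 := by exact_mod_cast hp.ne_zero
  obtain ⟨_, hb0, s, t, hst⟩ := h
  have h1 : ∃ σ : ℤ, (σ = 1 ∨ σ = -1) ∧ a * p ^ s = σ * (b * p ^ t) := by
    rcases hst with hst | hst
    · exact ⟨1, Or.inl rfl, by rw [hst]; ring⟩
    · exact ⟨-1, Or.inr rfl, by rw [hst]; ring⟩
  obtain ⟨σ, hσ, h2⟩ := h1
  have hle : s ≤ t := by
    by_contra hlt
    push Not at hlt
    obtain ⟨c, rfl⟩ := Nat.exists_eq_add_of_lt hlt
    have h3 : (p : ℤ) ^ t * (a * (p : ℤ) ^ (c + 1)) = (p : ℤ) ^ t * (σ * b) := by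
      have : (p : ℤ) ^ t * (a * (p : ℤ) ^ (c + 1)) = a * p ^ (t + c + 1) := by ring
      rw [this, h2]; ring
    have h4 := mul_left_cancel₀ (pow_ne_zero _ hp0) h3
    have h5 : (p : ℤ) ∣ σ * b := ⟨a * (p : ℤ) ^ c, by rw [← h4]; ring⟩
    rcases hσ with rfl | rfl
    · rw [one_mul] at h5; exact hb h5
    · rw [neg_one_mul, dvd_neg] at h5; exact hb h5
  obtain ⟨c, rfl⟩ := Nat.exists_eq_add_of_le hle
  refine ⟨c, σ, hσ, ?_⟩
  have h3 : (p : ℤ) ^ s * a = (p : ℤ) ^ s * (σ * ((p : ℤ) ^ c * b)) := by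
    rw [mul_comm, h2]; ring
  exact mul_left_cancel₀ (pow_ne_zero _ hp0) h3

theorem t5_pow {p : ℕ} (hp : p.Prime) {a : ℤ} (h : PDz p a 1) :
    ∃ (k : ℕ) (σ : ℤ), (σ = 1 ∨ σ = -1) ∧ a = σ * (p : ℤ) ^ k := by
  have h1 : ¬ (p : ℤ) ∣ 1 := by
    intro h2
    have := Int.le_of_dvd one_pos h2
    have h3 := hp.two_le
    omega
  obtain ⟨k, σ, hσ, h2⟩ := t5_PDz hp h h1
  exact ⟨k, σ, hσ, by rw [h2, mul_one]⟩

theorem t5_not_dvd {p : ℕ} (hp : p.Prime) {x y : ℤ} (hx : (p : ℤ) ∣ x) (hy : y = 1 ∨ y = -1) :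
    ¬ (p : ℤ) ∣ x + y := by
  intro h
  have h2 : (p : ℤ) ∣ y := (dvd_add_right hx).1 h
  have h3 : (p : ℤ) ∣ 1 := by
    rcases hy with rfl | rfl
    · exact h2
    · exact (dvd_neg.1 h2)
  have := Int.le_of_dvd one_pos h3
  have h4 := hp.two_le
  omega

theorem t5_two {p : ℕ} (hp : p.Prime) {a c : ℕ} (ha : 2 ≤ a) (hc : 0 < c)
    (hX : 3 ≤ (p : ℤ) ^ c) (h : (p : ℤ) ^ c = (p : ℤ) ^ a + 2 ∨ (p : ℤ) ^ a = (p : ℤ) ^ c + 2) :
    False := by
  have h1 : (p : ℤ) ∣ (p : ℤ) ^ c := dvd_pow_self _ hc.ne'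
  have h2 : (p : ℤ) ∣ (p : ℤ) ^ a := dvd_pow_self _ (by omega)
  have h3 : (p : ℤ) ∣ 2 := by
    rcases h with h | h
    · rw [h] at h1
      exact (dvd_add_right h2).1 h1
    · rw [h] at h2
      exact (dvd_add_right h1).1 h2
  have h4 : p = 2 := by
    have h5 := Int.le_of_dvd two_pos h3
    have h6 := hp.two_le
    omega
  subst h4
  have hc2 : 2 ≤ c := by
    by_contra hlt
    have : c = 1 := by omega
    subst this
    norm_num at hX
  obtain ⟨a', rfl⟩ := Nat.exists_eq_add_of_le ha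
  obtain ⟨c', rfl⟩ := Nat.exists_eq_add_of_le hc2
  push_cast at h
  rw [pow_add, pow_add] at h
  omega

theorem t5_core {p : ℕ} (hp : p.Prime) {a b : ℕ} {e f : ℤ} (he : e = 1 ∨ e = -1)
    (hf : f = 1 ∨ f = -1) (ha : 3 ≤ a) (hb : 1 ≤ b)
    (h : PDz p (f * (p : ℤ) ^ b + e * (p : ℤ) ^ a) (e * (p : ℤ) ^ a + 1)) :
    f = 1 ∧ b = 2 * a := by
  have hp2 : (2 : ℤ) ≤ p := by exact_mod_cast hp.two_le
  have hY : (8 : ℤ) ≤ (p : ℤ) ^ a := by
    calc (8 : ℤ) = 2 ^ 3 := by norm_num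
      _ ≤ (p : ℤ) ^ 3 := pow_le_pow_left₀ (by norm_num) hp2 3
      _ ≤ (p : ℤ) ^ a := pow_le_pow_right₀ (by linarith) ha
  have hpa : (p : ℤ) ∣ (p : ℤ) ^ a := dvd_pow_self _ (by omega)
  have hnd : ¬ (p : ℤ) ∣ e * (p : ℤ) ^ a + 1 := t5_not_dvd hp (hpa.mul_left e) (Or.inl rfl)
  obtain ⟨k, σ, hσ, hk⟩ := t5_PDz hp h hnd
  have hne := h.1
  rcases lt_trichotomy a b with hl | hl | hl
  · -- `a < b`
    obtain ⟨c, rfl⟩ := Nat.exists_eq_add_of_lt hl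
    have hX : (2 : ℤ) ≤ (p : ℤ) ^ (c + 1) := by
      calc (2 : ℤ) ≤ p := hp2
        _ = (p : ℤ) ^ 1 := (pow_one _).symm
        _ ≤ (p : ℤ) ^ (c + 1) := pow_le_pow_right₀ (by linarith) (by omega)
    have h1 : (p : ℤ) ^ a * (f * (p : ℤ) ^ (c + 1) + e) =
        (p : ℤ) ^ k * (σ * (e * (p : ℤ) ^ a + 1)) := by
      have : (p : ℤ) ^ a * (f * (p : ℤ) ^ (c + 1) + e) =
          f * (p : ℤ) ^ (a + c + 1) + e * (p : ℤ) ^ a := by ring
      rw [this, hk]; ring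
    have h2 : ¬ (p : ℤ) ∣ f * (p : ℤ) ^ (c + 1) + e :=
      t5_not_dvd hp ((dvd_pow_self _ (by omega)).mul_left f) he
    have h3 : ¬ (p : ℤ) ∣ σ * (e * (p : ℤ) ^ a + 1) := by
      rcases hσ with rfl | rfl
      · rwa [one_mul]
      · rwa [neg_one_mul, dvd_neg]
    obtain ⟨_, h4⟩ := t5_unique hp h2 h3 h1
    have hinj : (p : ℤ) ^ (c + 1) = (p : ℤ) ^ a → c + 1 = a := by
      intro h5
      have h6 : p ^ (c + 1) = p ^ a := by exact_mod_cast h5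
      exact Nat.pow_right_injective hp.two_le h6
    rcases he with rfl | rfl <;> rcases hf with rfl | rfl <;> rcases hσ with rfl | rfl
    · have := hinj (by linarith)
      exact ⟨rfl, by omega⟩
    · exfalso; linarith
    · exfalso; linarith
    · exfalso
      exact t5_two (a := a) (c := c + 1) hp (by omega) (Nat.succ_pos c) (by linarith) (Or.inl (by linarith))
    · exfalso; linarith
    · have := hinj (by linarith)
      exact ⟨rfl, by omega⟩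
    · exfalso
      exact t5_two (a := a) (c := c + 1) hp (by omega) (Nat.succ_pos c) (by linarith) (Or.inr (by linarith))
    · exfalso; linarith
  · -- `a = b`
    exfalso
    subst hl
    have h5 : (e * (p : ℤ) ^ a + 1) ∣ (f * (p : ℤ) ^ a + e * (p : ℤ) ^ a) :=
      ⟨σ * (p : ℤ) ^ k, by rw [hk]; ring⟩
    have h6 : (e * (p : ℤ) ^ a + 1) ∣ 2 := by
      have hfe : f = e := by
        rcases he with rfl | rfl <;> rcases hf with rfl | rfl
        · rfl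
        · exfalso; apply hne; ring
        · exfalso; apply hne; ring
        · rfl
      rw [hfe] at h5
      have h7 : (2 : ℤ) = 2 * (e * (p : ℤ) ^ a + 1) - (e * (p : ℤ) ^ a + e * (p : ℤ) ^ a) := by ring
      rw [h7]
      exact dvd_sub (dvd_mul_left _ _) h5
    have h8 := Int.le_of_dvd two_pos h6
    have h9 := Int.le_of_dvd two_pos ((neg_dvd).2 h6)
    rcases he with rfl | rfl <;> linarith
  · -- `b < a`
    exfalso
    obtain ⟨c, rfl⟩ := Nat.exists_eq_add_of_lt hl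
    have h1 : (p : ℤ) ^ b * (e * (p : ℤ) ^ (c + 1) + f) =
        (p : ℤ) ^ k * (σ * (e * (p : ℤ) ^ (b + c + 1) + 1)) := by
      have : (p : ℤ) ^ b * (e * (p : ℤ) ^ (c + 1) + f) =
          f * (p : ℤ) ^ b + e * (p : ℤ) ^ (b + c + 1) := by ring
      rw [this, hk]; ring
    have h2 : ¬ (p : ℤ) ∣ e * (p : ℤ) ^ (c + 1) + f :=
      t5_not_dvd hp ((dvd_pow_self _ (by omega)).mul_left e) hf
    have h3 : ¬ (p : ℤ) ∣ σ * (e * (p : ℤ) ^ (b + c + 1) + 1) := by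
      rcases hσ with rfl | rfl
      · rwa [one_mul]
      · rwa [neg_one_mul, dvd_neg]
    obtain ⟨_, h4⟩ := t5_unique hp h2 h3 h1
    have hX : 0 < (p : ℤ) ^ (c + 1) := pow_pos (by linarith) _
    have h5 : 2 * (p : ℤ) ^ (c + 1) ≤ (p : ℤ) ^ (b + c + 1) := by
      have h6 : (p : ℤ) ^ (b + c + 1) = (p : ℤ) ^ b * (p : ℤ) ^ (c + 1) := by ring
      have h7 : (2 : ℤ) ≤ (p : ℤ) ^ b := by
        calc (2 : ℤ) ≤ p := hp2
          _ = (p : ℤ) ^ 1 := (pow_one _).symm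
          _ ≤ (p : ℤ) ^ b := pow_le_pow_right₀ (by linarith) hb
      rw [h6]
      exact mul_le_mul_of_nonneg_right h7 hX.le
    rcases he with rfl | rfl <;> rcases hf with rfl | rfl <;> rcases hσ with rfl | rfl <;> linarith

theorem sq_sound (p : ℕ) (hp : p.Prime) (m w u0 u u2 h0 h d : ℤ)
    (a1 : PDz p u0 1) (a2 : (p : ℤ) ^ 3 ∣ u0)
    (a3 : PDz p u 1) (a4 : (p : ℤ) ∣ u) (a5 : PDz p (u + u0) (u0 + 1))
    (a6 : PDz p u2 1) (a7 : (p : ℤ) ∣ u2) (a8 : PDz p (u2 + u) (u + 1))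
    (a9 : h0 + 1 = u0) (a10 : (2 * p * m + 1) ∣ h0)
    (a11 : h + 1 = u) (a12 : (2 * p * w + 1) ∣ h)
    (a13 : w + d = u2) (a14 : (m + u) ∣ d) : w = m ^ 2 := by
  have hp2 : (2 : ℤ) ≤ p := by exact_mod_cast hp.two_le
  have hp0 : (p : ℤ) ≠ 0 := by linarith
  obtain ⟨a, e, he, hu0⟩ := t5_pow hp a1
  obtain ⟨b, f, hf, hu⟩ := t5_pow hp a3
  obtain ⟨c, g, hg, hu2⟩ := t5_pow hp a6
  have hnot1 : ¬ (p : ℤ) ∣ 1 := by
    intro h2
    have := Int.le_of_dvd one_pos h2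
    omega
  have hunit : ∀ (k : ℕ) (σ : ℤ), (σ = 1 ∨ σ = -1) → (p : ℤ) ∣ σ * (p : ℤ) ^ k → 1 ≤ k := by
    intro k σ hσ hd
    by_contra hk
    have hk0 : k = 0 := by omega
    subst hk0
    rw [pow_zero, mul_one] at hd
    rcases hσ with rfl | rfl
    · exact hnot1 hd
    · exact hnot1 (dvd_neg.1 hd)
  have ha : 3 ≤ a := by
    by_contra hlt
    push Not at hlt
    obtain ⟨c', hc'⟩ := Nat.exists_eq_add_of_lt hlt
    rw [hu0, hc'] at a2
    obtain ⟨q, hq⟩ := a2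
    have h1 : (p : ℤ) ^ a * e = (p : ℤ) ^ a * ((p : ℤ) ^ (c' + 1) * q) := by
      have : (p : ℤ) ^ (a + c' + 1) * q = (p : ℤ) ^ a * ((p : ℤ) ^ (c' + 1) * q) := by ring
      rw [← this, ← hq]; ring
    have h2 := mul_left_cancel₀ (pow_ne_zero a hp0) h1
    have h3 : (p : ℤ) ∣ e := ⟨(p : ℤ) ^ c' * q, by rw [h2]; ring⟩
    rcases he with rfl | rfl
    · exact hnot1 h3
    · exact hnot1 (dvd_neg.1 h3)
  have hb : 1 ≤ b := hunit b f hf (by rw [← hu]; exact a4)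
  have hc : 1 ≤ c := hunit c g hg (by rw [← hu2]; exact a7)
  rw [hu, hu0] at a5
  obtain ⟨hf1, hb2⟩ := t5_core hp he hf ha hb a5
  subst hf1
  rw [hu2, hu] at a8
  obtain ⟨hg1, hc2⟩ := t5_core hp (Or.inl rfl) hg (by omega) hc a8
  subst hg1
  -- `u = u0 ^ 2`, `u2 = u ^ 2`
  have hee : e ^ 2 = 1 := by rcases he with rfl | rfl <;> norm_num
  set s : ℤ := (p : ℤ) ^ a with hs
  have hus : u = s ^ 2 := by
    rw [hu, hb2, hs, one_mul, ← pow_mul, mul_comm a 2]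
  have hu2s : u2 = u ^ 2 := by
    rw [hu2, hc2, hu, one_mul, one_mul, ← pow_mul, mul_comm b 2]
  have hs8 : (8 : ℤ) ≤ s := by
    calc (8 : ℤ) = 2 ^ 3 := by norm_num
      _ ≤ (p : ℤ) ^ 3 := pow_le_pow_left₀ (by norm_num) hp2 3
      _ ≤ (p : ℤ) ^ a := pow_le_pow_right₀ (by linarith) ha
  have hu0abs : |u0| = s := by
    rw [hu0]
    rcases he with rfl | rfl
    · rw [one_mul, abs_of_pos (by linarith)]
    · rw [neg_one_mul, abs_neg, abs_of_pos (by linarith)]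
  -- bound for `m`
  have hm : 4 * |m| ≤ s + 2 := by
    have h1 : h0 ≠ 0 := by
      intro h2
      rw [h2, zero_add] at a9
      rw [← a9] at hu0abs
      simp at hu0abs
      linarith
    have h2 : |2 * p * m + 1| ≤ |h0| := Int.natAbs_le_of_dvd_ne_zero a10 h1 |> fun h => by
      rw [Int.abs_eq_natAbs, Int.abs_eq_natAbs]; exact_mod_cast h
    have h3 : |h0| ≤ s + 1 := by
      have : h0 = u0 - 1 := by linarith
      rw [this]
      calc |u0 - 1| ≤ |u0| + |1| := abs_sub _ _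
        _ = s + 1 := by rw [hu0abs]; simp
    have h4 : |2 * (p : ℤ) * m| ≤ |2 * p * m + 1| + 1 := by
      have : 2 * (p : ℤ) * m = (2 * p * m + 1) - 1 := by ring
      calc |2 * (p : ℤ) * m| = |(2 * p * m + 1) - 1| := by rw [← this]
        _ ≤ |2 * p * m + 1| + |1| := abs_sub _ _
        _ = |2 * p * m + 1| + 1 := by simp
    have h5 : |2 * (p : ℤ) * m| = 2 * p * |m| := by
      rw [abs_mul, abs_of_pos (by linarith : (0:ℤ) < 2 * p)]
    have h6 : 4 * |m| ≤ 2 * p * |m| := by nlinarith [abs_nonneg m]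
    linarith
  have hw : 4 * |w| ≤ s ^ 2 := by
    have h1 : h ≠ 0 := by
      intro h2
      rw [h2, zero_add] at a11
      rw [hus] at a11
      nlinarith
    have h2 : |2 * p * w + 1| ≤ |h| := Int.natAbs_le_of_dvd_ne_zero a12 h1 |> fun h => by
      rw [Int.abs_eq_natAbs, Int.abs_eq_natAbs]; exact_mod_cast h
    have h3 : |h| = s ^ 2 - 1 := by
      have : h = s ^ 2 - 1 := by linarith
      rw [this, abs_of_pos (by nlinarith)]
    have h4 : |2 * (p : ℤ) * w| ≤ |2 * p * w + 1| + 1 := by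
      have : 2 * (p : ℤ) * w = (2 * p * w + 1) - 1 := by ring
      calc |2 * (p : ℤ) * w| = |(2 * p * w + 1) - 1| := by rw [← this]
        _ ≤ |2 * p * w + 1| + |1| := abs_sub _ _
        _ = |2 * p * w + 1| + 1 := by simp
    have h5 : |2 * (p : ℤ) * w| = 2 * p * |w| := by
      rw [abs_mul, abs_of_pos (by linarith : (0:ℤ) < 2 * p)]
    have h6 : 4 * |w| ≤ 2 * p * |w| := by nlinarith [abs_nonneg w]
    linarith
  have hdiv : (m + u) ∣ (m ^ 2 - w) := by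
    have h1 : m ^ 2 - w = d - (m + u) * (u - m) := by
      have : d = u ^ 2 - w := by linarith
      rw [this]; ring
    rw [h1]
    exact dvd_sub a14 (dvd_mul_right _ _)
  have hlt : |m ^ 2 - w| < |m + u| := by
    have h1 : |m ^ 2 - w| ≤ |m| ^ 2 + |w| := by
      calc |m ^ 2 - w| ≤ |m ^ 2| + |w| := abs_sub _ _
        _ = |m| ^ 2 + |w| := by rw [abs_pow]
    have h2 : s ^ 2 - |m| ≤ |m + u| := by
      rw [hus]
      have h3 : s ^ 2 + m ≤ |m + s ^ 2| := by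
        rw [add_comm m]; exact le_abs_self _
      linarith [neg_abs_le m]
    nlinarith [abs_nonneg m, abs_nonneg w]
  have hz := Int.eq_zero_of_abs_lt_dvd ((abs_dvd _ _).2 hdiv) hlt
  linarith

theorem sq_complete (p : ℕ) (hp : p.Prime) (m : ℕ) (hm : 1 ≤ m) :
    ∃ (u0 u u2 h0 h d s : ℕ), 3 ≤ s ∧ u0 = p ^ s ∧ u = p ^ (2 * s) ∧ u2 = p ^ (4 * s) ∧
      1 ≤ h0 ∧ 1 ≤ h ∧ 1 ≤ d ∧
      u + u0 = p ^ s * (u0 + 1) ∧ u2 + u = p ^ (2 * s) * (u + 1) ∧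
      h0 + 1 = u0 ∧ (2 * p * m + 1) ∣ h0 ∧
      h + 1 = u ∧ (2 * p * m ^ 2 + 1) ∣ h ∧
      m ^ 2 + d = u2 ∧ (m + u) ∣ d := by
  set N := 2 * p * m + 1 with hN
  set N' := 2 * p * m ^ 2 + 1 with hN'
  set s := 3 * Nat.totient N * Nat.totient N' with hs
  have hφ1 : 0 < Nat.totient N := Nat.totient_pos.2 (by omega)
  have hφ2 : 0 < Nat.totient N' := Nat.totient_pos.2 (by omega)
  have hs3 : 3 ≤ s := by
    rw [hs]
    nlinarith
  have hcop : ∀ k : ℕ, Nat.Coprime p (2 * p * k + 1) := by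
    intro k
    rw [show 2 * p * k + 1 = p * (2 * k) + 1 by ring]
    simp
  have hdvd : ∀ (M : ℕ), Nat.Coprime p M → Nat.totient M ∣ s → ∀ r, M ∣ p ^ (r * s) - 1 := by
    intro M hM ht r
    obtain ⟨q, hq⟩ := ht
    have h1 : p ^ (r * s) ≡ 1 [MOD M] := by
      rw [hq, show r * (M.totient * q) = M.totient * (q * r) by ring, pow_mul]
      have := (Nat.ModEq.pow_totient hM).pow (q * r)
      rwa [one_pow] at this
    exact (Nat.modEq_iff_dvd' (Nat.one_le_pow _ _ hp.pos)).1 h1.symm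
  have hd1 : N ∣ p ^ s - 1 := by
    have := hdvd N (hcop m) ⟨3 * Nat.totient N', by rw [hs]; ring⟩ 1
    rwa [one_mul] at this
  have hd2 : N' ∣ p ^ (2 * s) - 1 :=
    hdvd N' (hcop (m ^ 2)) ⟨3 * Nat.totient N, by rw [hs]; ring⟩ 2
  have hps : 2 ≤ p ^ s := by
    calc 2 ≤ p := hp.two_le
      _ = p ^ 1 := (pow_one p).symm
      _ ≤ p ^ s := Nat.pow_le_pow_right hp.pos (by omega)
  have hp2s : p ^ (2 * s) = p ^ s * p ^ s := by rw [two_mul, pow_add]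
  have hp4s : p ^ (4 * s) = p ^ (2 * s) * p ^ (2 * s) := by
    rw [← pow_add]; congr 1; ring
  have hmlt : m < p ^ s := by
    have h1 := Nat.le_of_dvd (by omega) hd1
    have h2 : m ≤ 2 * p * m := by
      have := hp.pos
      nlinarith
    omega
  have hmlt2 : m < p ^ (2 * s) := by
    rw [hp2s]; nlinarith
  refine ⟨p ^ s, p ^ (2 * s), p ^ (4 * s), p ^ s - 1, p ^ (2 * s) - 1,
    (p ^ (2 * s)) ^ 2 - m ^ 2, s, hs3, rfl, rfl, rfl, by omega, ?_, ?_, ?_, ?_, by omega, hd1, ?_,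
    hd2, ?_, ?_⟩
  · have : 2 ≤ p ^ (2 * s) := by rw [hp2s]; nlinarith
    omega
  · have : m ^ 2 < (p ^ (2 * s)) ^ 2 := Nat.pow_lt_pow_left hmlt2 two_ne_zero
    omega
  · rw [hp2s]; ring
  · rw [hp4s]; ring
  · have : 1 ≤ p ^ (2 * s) := Nat.one_le_pow _ _ hp.pos
    omega
  · have : m ^ 2 < (p ^ (2 * s)) ^ 2 := Nat.pow_lt_pow_left hmlt2 two_ne_zero
    rw [hp4s, ← pow_two]
    omega
  · rw [Nat.sq_sub_sq]
    exact ⟨p ^ (2 * s) - m, by rw [add_comm m]⟩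

end Pool.Agent.H367R2.H10
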