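import Mathlib
import Pool.Agent.H367R2.H10.Defs3
import Pool.Agent.H367R2.H10.Conv
import Pool.Agent.H367R2.H10.B2
import Pool.Agent.H367R2.H10.B3f

set_option autoImplicit false

/-! Task C1: soundness of addition, multiplication by constants and divisibility (helper989). -/

open Polynomial Finset

namespace Pool.Agent.H367R2.H10

universe u

section sound

variable {k : Type u} [Field k] (p : ℕ) [Fact p.Prime] [CharP k p] [PerfectField k]

theorem add_sound {x : RatFunc k} (hx : ∀ c : k, x ≠ RatFunc.C c) {m n : ℤ} {a b c : RatFunc k}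
    (ha : Fz p m x a) (hb : Fz p n x b) (h : Fr p x a b c) : Fz p (m + n) x c := by
  obtain ⟨n', h1, h2⟩ := Fr.sound p x a b c hx h
  have h3 : n' = m := Gad.Fz_exp_unique (Gad.ht_pos_of_nonconst hx) h1 ha
  subst h3
  rw [add_comm]
  exact Gad.Fz_trans hb h2

theorem mulC_sound {x : RatFunc k} (hx : ∀ c : k, x ≠ RatFunc.C c) {m : ℤ} (c : ℕ)
    {a b : RatFunc k} (ha : Fz p m x a) (h : MulC p x c a b) : Fz p (c * m) x b := by
  induction c generalizing b with
  | zero =>
    have h' : b = x := h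
    subst h'
    simpa using Gad.Fz_refl (p := p) b
  | succ c ih =>
    obtain ⟨b', h1, h2⟩ := h
    have h3 := add_sound p hx ha (ih h1) h2
    have e : ((c + 1 : ℕ) : ℤ) * m = m + c * m := by push_cast; ring
    rw [e]
    exact h3

theorem C1_vx_frob (x1 : RatFunc k) (e : ℕ) : vx p (x1 ^ p ^ e) = vx p x1 ^ p ^ e := by
  unfold vx
  rw [inv_pow, sub_pow_char_pow, ← pow_mul, ← pow_mul, mul_comm]

theorem div_sound {x : RatFunc k} (hx : ∀ c : k, x ≠ RatFunc.C c) {m n : ℤ} {a b : RatFunc k}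
    (ha : Fz p m x a) (hb : Fz p n x b) (h : DivR p x a b) : m ∣ n := by
  obtain ⟨y, Y, W, h1, h2, h3⟩ := h
  have hpos := Gad.ht_pos_of_nonconst hx
  obtain ⟨m', h4, h5⟩ := Fr.sound p x a y Y hx h1
  obtain rfl : m' = m := Gad.Fz_exp_unique hpos h4 ha
  obtain ⟨n', h6, h7⟩ := Fr.sound p x b (vx p x) W hx h2
  obtain rfl : n' = n := Gad.Fz_exp_unique hpos h6 hb
  obtain ⟨x1, e, rfl, hx1⟩ := exists_root_deriv_ne_zero p x hx
  rw [C1_vx_frob] at h3 h7
  have hnice : Nice (vx p x1) := nice_of p x1 hx1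
  obtain ⟨V, hV⟩ := hnice.exists_good
  obtain ⟨h8, h9⟩ := Gad.Fz_root hnice.dv e h7
  rcases lt_trichotomy m' 0 with hm | hm | hm
  · -- `y = Y ^ p ^ j`
    obtain ⟨j, hj⟩ : ∃ j : ℕ, m' = -(j : ℤ) := ⟨m'.natAbs, by omega⟩
    have h10 : y = Y ^ p ^ j := by
      have := (Gad.Fz_iff (p := p) (n := m') (x := y) (y := Y) 0 j (by omega)).1 h5
      simpa using this
    have h11 : Y ^ p ^ j - Y = vx p x1 ^ p ^ e - vx p x1 ^ p ^ (n' + e).toNat := by
      rw [← h10, ← h9]
      linear_combination -h3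
    have h12 := div_core p hV.pole j (by omega) e (n' + e).toNat Y h11
    have e1 : ((e : ℕ) : ℤ) - ((n' + e).toNat : ℤ) = -n' := by omega
    rw [e1] at h12
    rw [hj, neg_dvd]
    exact (dvd_neg).1 h12
  · have h10 : y = Y := Gad.Fz_zero_iff (by rw [hm] at h5; exact h5)
    have h11 : W = vx p x1 ^ p ^ e := by
      rw [h10, sub_self] at h3
      linear_combination -h3
    rw [h11] at h7
    have h12 : 0 < ht (vx p x1 ^ p ^ e) := by
      rw [ht_pow]
      exact Nat.mul_pos (Nat.pow_pos (Fact.out : p.Prime).pos) hnice.hpos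
    have h13 : n' = 0 := Gad.Fz_exp_unique h12 h7 (Gad.Fz_refl _)
    rw [h13]
    exact dvd_zero _
  · obtain ⟨j, hj⟩ : ∃ j : ℕ, m' = (j : ℤ) := ⟨m'.toNat, by omega⟩
    have h10 : y ^ p ^ j = Y := by
      have := (Gad.Fz_iff (p := p) (n := m') (x := y) (y := Y) j 0 (by omega)).1 h5
      simpa using this
    have h11 : y ^ p ^ j - y = vx p x1 ^ p ^ (n' + e).toNat - vx p x1 ^ p ^ e := by
      rw [h10, ← h9]
      exact h3
    have h12 := div_core p hV.pole j (by omega) (n' + e).toNat e y h11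
    have e1 : ((n' + e).toNat : ℤ) - ((e : ℕ) : ℤ) = n' := by omega
    rw [e1] at h12
    rw [hj]
    exact h12

end sound

end Pool.Agent.H367R2.H10
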