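import Mathlib
import Pool.Agent.H367R2.H10.Defs3
import Pool.Agent.H367R2.H10.Conv
import Pool.Agent.H367R2.H10.B1
import Pool.Agent.H367R2.H10.B2
import Pool.Agent.H367R2.H10.B3f
import Pool.Agent.H367R2.H10.T4

set_option autoImplicit false

/-! C2: soundness of the gadget. -/

open Polynomial Finset

namespace Pool.Agent.H367R2.H10

universe u

namespace C2

section coeff

variable {k : Type u} [Field k] {p : ℕ} [Fact p.Prime] [CharP k p] {ι : Type} [Fintype ι]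

/-- a sum of monomials -/
noncomputable def mono (a : ι → ZMod p) (g : ι → ℕ) : (ZMod p)[X] := ∑ j, C (a j) * X ^ (g j)

theorem coeff_mono (a : ι → ZMod p) (g : ι → ℕ) (i : ℕ) :
    (mono a g).coeff i = ∑ j, if i = g j then a j else 0 := by
  unfold mono
  rw [finsetSum_coeff]
  refine Finset.sum_congr rfl fun j _ => ?_
  rw [coeff_C_mul, coeff_X_pow]
  split_ifs <;> simp

theorem sum_coeff (a : ι → ZMod p) (g : ι → ℕ) (N : ℕ) (hg : ∀ j, g j ≤ N) (F : ℕ → k) :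
    ∑ i ∈ range (N + 1), cc p k ((mono a g).coeff i) * F i = ∑ j, cc p k (a j) * F (g j) := by
  have h1 : ∀ i ∈ range (N + 1), cc p k ((mono a g).coeff i) * F i =
      ∑ j, (if i = g j then cc p k (a j) * F i else 0) := by
    intro i _
    rw [coeff_mono, map_sum, Finset.sum_mul]
    refine Finset.sum_congr rfl fun j _ => ?_
    split_ifs <;> simp
  rw [Finset.sum_congr rfl h1, Finset.sum_comm]
  refine Finset.sum_congr rfl fun j _ => ?_
  rw [Finset.sum_ite_eq', if_pos]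
  have := hg j
  simp only [Finset.mem_range]
  omega

end coeff

section rel

variable {k : Type u} [Field k] (p : ℕ) [Fact p.Prime] [CharP k p] [PerfectField k]

theorem relK_sound {x : RatFunc k} (hx : ∀ c : k, x ≠ RatFunc.C c) {n : ℤ}
    {κ c4 vA z1 z2 U : RatFunc k} (hκ : Fz p n x κ) (h : RelK p x κ c4 vA z1 z2 U) :
    ∃ Z1 Z2 W : RatFunc k, Fz p n z1 Z1 ∧ Fz p n z2 Z2 ∧ Fz p n U W ∧
      AS p (c4 * (z1 * Z2) - vA * W) ∧ AS p (c4 * (z2 * Z1) - vA * W) := by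
  obtain ⟨Z1, Z2, W, h1, h2, h3, h4, h5⟩ := h
  have hht := Gad.ht_pos_of_nonconst hx
  obtain ⟨n1, a1, b1⟩ := Fr.sound p x κ z1 Z1 hx h1
  obtain ⟨n2, a2, b2⟩ := Fr.sound p x κ z2 Z2 hx h2
  obtain ⟨n3, a3, b3⟩ := Fr.sound p x κ U W hx h3
  have e1 := Gad.Fz_exp_unique hht a1 hκ
  have e2 := Gad.Fz_exp_unique hht a2 hκ
  have e3 := Gad.Fz_exp_unique hht a3 hκ
  rw [e1] at b1
  rw [e2] at b2
  rw [e3] at b3
  exact ⟨Z1, Z2, W, b1, b2, b3, h4, h5⟩

omit [PerfectField k] in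
theorem vx_pow (x1 : RatFunc k) (e : ℕ) : vx p (x1 ^ p ^ e) = (vx p x1) ^ p ^ e := by
  unfold vx
  rw [inv_pow, sub_pow_char_pow]
  congr 2
  rw [← pow_mul, ← pow_mul, mul_comm]

theorem addS {x : RatFunc k} (hx : ∀ c : k, x ≠ RatFunc.C c) {m n : ℤ} {a b c : RatFunc k}
    (ha : Fz p m x a) (hb : Fz p n x b) (h : Fr p x a b c) : Fz p (m + n) x c := by
  obtain ⟨n0, a1, b1⟩ := Fr.sound p x a b c hx h
  have e := Gad.Fz_exp_unique (Gad.ht_pos_of_nonconst hx) a1 ha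
  rw [e] at b1
  have := Gad.Fz_trans hb b1
  rwa [add_comm] at this

theorem mulS {x : RatFunc k} (hx : ∀ c : k, x ≠ RatFunc.C c) {m : ℤ} (c : ℕ) :
    ∀ {a b : RatFunc k}, Fz p m x a → MulC p x c a b → Fz p (c * m) x b := by
  induction c with
  | zero =>
    intro a b ha h
    have h : b = x := h
    rw [h]
    simpa using Gad.Fz_refl (p := p) x
  | succ c ih =>
    intro a b ha h
    obtain ⟨b', h1, h2⟩ := h
    have := addS p hx ha (ih ha h1) h2
    have e : m + (c : ℤ) * m = ((c + 1 : ℕ) : ℤ) * m := by push_cast; ring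
    rwa [e] at this

theorem relall_sound {x : RatFunc k} (hx : ∀ c : k, x ≠ RatFunc.C c)
    (hdiv : ∀ (m n : ℤ) (a b : RatFunc k), Fz p m x a → Fz p n x b → DivR p x a b → m ∣ n)
    {m n : ℤ} {a b c4 vN vA U : RatFunc k} (ha : Fz p m x a) (hb : Fz p n x b)
    (h : RelAll p x a b c4 vN vA U) : m ≠ 0 ∧ n ≠ 0 ∧ ∃ (K : ℤ) (z1 : RatFunc k),
      32 * m.natAbs ≤ K.natAbs ∧ 32 * n.natAbs ≤ K.natAbs ∧
      ∀ κ : ℤ, (κ = K ∨ κ = K + 1 ∨ κ = 1) → ∃ Z1 Z2 W : RatFunc k, Fz p κ z1 Z1 ∧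
        Fz p κ (z1 + vN) Z2 ∧ Fz p κ U W ∧
        AS p (c4 * (z1 * Z2) - vA * W) ∧ AS p (c4 * ((z1 + vN) * Z1) - vA * W) := by
  obtain ⟨z1, κ, a', b', hax, hbx, hκx, ma, mb, da, db, r1, r2, r3⟩ := h
  have hm : m ≠ 0 := by
    rintro rfl
    exact hax (Gad.Fz_zero_iff ha).symm
  have hn : n ≠ 0 := by
    rintro rfl
    exact hbx (Gad.Fz_zero_iff hb).symm
  obtain ⟨K, hK⟩ : ∃ K : ℤ, Fz p K x κ := by
    obtain ⟨y, Y, W, -, h2, -⟩ := da
    obtain ⟨K, h3, -⟩ := Fr.sound p x κ _ _ hx h2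
    exact ⟨K, h3⟩
  have hK0 : K ≠ 0 := by
    rintro rfl
    exact hκx (Gad.Fz_zero_iff hK).symm
  have ha' := mulS p hx 32 ha ma
  have hb' := mulS p hx 32 hb mb
  have d1 := hdiv _ _ _ _ ha' hK da
  have d2 := hdiv _ _ _ _ hb' hK db
  have l1 : 32 * m.natAbs ≤ K.natAbs := by
    have := Int.natAbs_dvd_natAbs.2 d1
    rw [Int.natAbs_mul] at this
    exact Nat.le_of_dvd (by omega) this
  have l2 : 32 * n.natAbs ≤ K.natAbs := by
    have := Int.natAbs_dvd_natAbs.2 d2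
    rw [Int.natAbs_mul] at this
    exact Nat.le_of_dvd (by omega) this
  have k1 : Fz p 1 x (x ^ p) := by
    have := Gad.Fz_nat (p := p) x 1
    rwa [pow_one] at this
  have k2 : Fz p (K + 1) x (κ ^ p) := by
    have := Gad.Fz_nat (p := p) κ 1
    rw [pow_one] at this
    exact Gad.Fz_trans hK this
  refine ⟨hm, hn, K, z1, l1, l2, ?_⟩
  rintro κ' (rfl | rfl | rfl)
  · exact relK_sound p hx hK r1
  · exact relK_sound p hx k2 r2
  · exact relK_sound p hx k1 r3

end rel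

section core

variable {k : Type u} [Field k] (p : ℕ) [Fact p.Prime] [CharP k p] [PerfectField k]
  {ι : Type} [Fintype ι]

theorem core2 {v1 : RatFunc k} (hv : Nice v1) (c : ι → ZMod p) (e : ι → ℤ)
    (A0 : ℕ) (E : ι → ℕ) (hE : ∀ i, (E i : ℤ) = A0 + e i) (σ : Equiv.Perm ι)
    (hσ : ∀ i, c (σ i) = c i ∧ e (σ i) = -e i) (c4 : ZMod p) (hc4 : c4 ≠ 0) (D : ℕ)
    (hD : ∀ i, (e i).natAbs ≤ D) (hne : ∃ i, e i = D ∧ c i ≠ 0 ∧ ∀ j, e j = D → j = i)
    (K : ℤ) (hK : 2 * D + 10 ≤ K.natAbs) (ν0 : ℕ) (z1 : RatFunc k)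
    (hrel : ∀ κ : ℤ, (κ = K ∨ κ = K + 1 ∨ κ = 1) → ∃ Z1 Z2 W : RatFunc k,
      Fz p κ z1 Z1 ∧ Fz p κ (z1 + v1 ^ p ^ ν0) Z2 ∧
      Fz p κ (∑ i, cc p (RatFunc k) (c i) * v1 ^ p ^ (E i)) W ∧
      AS p (cc p (RatFunc k) c4 * (z1 * Z2) - v1 ^ p ^ A0 * W) ∧
      AS p (cc p (RatFunc k) c4 * ((z1 + v1 ^ p ^ ν0) * Z1) - v1 ^ p ^ A0 * W)) :
    ∃ ν ≤ D, ∃ A : (ZMod p)[X], A.natDegree ≤ D ∧
      reflect D A * (A + X ^ ν) =
        mono (fun i => c4⁻¹ * c i) (fun i => ((D : ℤ) + e i).toNat) ∧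
      reflect D (A + X ^ ν) * A =
        mono (fun i => c4⁻¹ * c i) (fun i => ((D : ℤ) + e i).toNat) := by
  have hg : ∀ i, (((D : ℤ) + e i).toNat : ℤ) = D + e i := by
    intro i
    have := hD i
    omega
  have hle : ∀ i, ((D : ℤ) + e i).toNat ≤ 2 * D := by
    intro i
    have := hD i
    omega
  have top : (mono (fun i => c4⁻¹ * c i) (fun i => ((D : ℤ) + e i).toNat)).coeff (2 * D) ≠ 0 := by
    rw [coeff_mono]
    have h1 : ∀ j, (if 2 * D = ((D : ℤ) + e j).toNat then c4⁻¹ * c j else 0) =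
        c4⁻¹ * (if e j = D then c j else 0) := by
      intro j
      have := hg j
      by_cases h : e j = D
      · rw [if_pos h, if_pos (by omega)]
      · rw [if_neg h, if_neg (by omega), mul_zero]
    rw [Finset.sum_congr rfl fun j _ => h1 j, ← Finset.mul_sum]
    obtain ⟨i0, q1, q2, q3⟩ := hne
    rw [Finset.sum_eq_single i0]
    · rw [if_pos q1]
      exact mul_ne_zero (inv_ne_zero hc4) q2
    · intro j _ hj
      rw [if_neg fun h => hj (q3 j h)]
    · intro h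
      exact absurd (Finset.mem_univ _) h
  refine Gad.pd_core p hv c e A0 E hE ?_ c4 hc4 D _ ?_ ?_ ?_ ?_ K hK ν0 z1 _ rfl hrel
  · intro f
    rw [← Equiv.sum_comp σ]
    refine Finset.sum_congr rfl fun i _ => ?_
    rw [(hσ i).1, (hσ i).2]
  · apply natDegree_eq_of_le_of_coeff_ne_zero _ top
    rw [natDegree_le_iff_coeff_eq_zero]
    intro N hN
    rw [coeff_mono]
    apply Finset.sum_eq_zero
    intro j _
    have := hle j
    rw [if_neg (by omega)]
  · intro h0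
    rw [h0, coeff_zero] at top
    exact top rfl
  · intro i hi
    rw [coeff_mono, coeff_mono]
    rw [← Equiv.sum_comp σ (fun j => if 2 * D - i = ((D : ℤ) + e j).toNat then c4⁻¹ * c j else 0)]
    refine Finset.sum_congr rfl fun j _ => ?_
    rw [(hσ j).1, (hσ j).2]
    have := hD j
    by_cases h : i = ((D : ℤ) + e j).toNat
    · rw [if_pos h, if_pos (by omega)]
    · rw [if_neg h, if_neg (by omega)]
  · intro f
    have h1 := sum_coeff (k := RatFunc k) (fun i => c4⁻¹ * c i)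
      (fun i => ((D : ℤ) + e i).toNat) (2 * D) hle (fun i => f ((i : ℤ) - D))
    rw [h1, Finset.mul_sum]
    refine Finset.sum_congr rfl fun i _ => ?_
    have h2 : cc p (RatFunc k) c4 * cc p (RatFunc k) (c4⁻¹ * c i) = cc p (RatFunc k) (c i) := by
      rw [← map_mul, ← mul_assoc, mul_inv_cancel₀ hc4, one_mul]
    rw [← mul_assoc, h2, hg i]
    congr 2
    ring

end core

section odd

variable {k : Type u} [Field k] (p : ℕ) [Fact p.Prime] [CharP k p] [PerfectField k]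

theorem pdOdd {x : RatFunc k} (hx : ∀ c : k, x ≠ RatFunc.C c)
    (hdiv : ∀ (m n : ℤ) (a b : RatFunc k), Fz p m x a → Fz p n x b → DivR p x a b → m ∣ n)
    (hp2 : p ≠ 2) {m n : ℤ}
    {a b : RatFunc k} (ha : Fz p m x a) (hb : Fz p n x b) (h : PDodd p x a b) :
    m ≠ 0 ∧ n ≠ 0 ∧ ∃ s t : ℕ, m.natAbs * p ^ s = n.natAbs * p ^ t := by
  obtain ⟨cN, cA, a4, b4, cS, vN, vA, va, vb, vS, h1, h2, h3, h4, h5, h6, h7, h8, h9, h10, hr⟩ := h
  have hht := Gad.ht_pos_of_nonconst hx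
  obtain ⟨hm, hn, K, z1, l1, l2, hrel⟩ := relall_sound p hx hdiv ha hb hr
  have fN := addS p hx ha hb h1
  have fA := addS p hx fN fN h2
  have f4 := mulS p hx 4 ha h3
  have g4 := mulS p hx 4 hb h4
  have fS := addS p hx fA fA h5
  obtain ⟨x1, e, hx1, hd⟩ := exists_root_deriv_ne_zero p x hx
  have hv := nice_of p x1 hd
  have hvx : vx p x = (vx p x1) ^ p ^ e := by rw [← hx1, vx_pow]
  have hv1 : (vx p x1) = (x1 ^ p ^ 4 - x1)⁻¹ := rfl
  rw [← hv1] at hv
  have key : ∀ (c w : RatFunc k) (r : ℤ), Fz p r x c → Fr p x c (vx p x) w →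
      0 ≤ r + e ∧ w = vx p x1 ^ p ^ (r + e).toNat := by
    intro c w r hc hw
    obtain ⟨n0, a1, b1⟩ := Fr.sound p x c _ _ hx hw
    have e1 := Gad.Fz_exp_unique hht a1 hc
    rw [e1, hvx] at b1
    exact Gad.Fz_root hv.dv e b1
  obtain ⟨pN, eN⟩ := key cN vN _ fN h6
  obtain ⟨pA, eA⟩ := key cA vA _ fA h7
  obtain ⟨pa, ea⟩ := key a4 va _ f4 h8
  obtain ⟨pb, eb⟩ := key b4 vb _ g4 h9
  obtain ⟨pS, eS⟩ := key cS vS _ fS h10
  push_cast at pa pb ea eb
  have h4' : (4 : ZMod p) ≠ 0 := T4.four_ne hp2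
  have hcore := core2 (k := k) p hv (ι := Fin 5) ![1, 1, 1, 1, -1]
    ![2 * m + 2 * n, 2 * m - 2 * n, 2 * n - 2 * m, -2 * m - 2 * n, 0]
    (m + n + (m + n) + e).toNat
    ![(m + n + (m + n) + (m + n + (m + n)) + e).toNat, (4 * m + e).toNat, (4 * n + e).toNat, e,
      (m + n + (m + n) + e).toNat] ?_ ⟨![3, 2, 1, 0, 4], ![3, 2, 1, 0, 4], by decide, by decide⟩ ?_
    4 h4' (2 * (m.natAbs + n.natAbs)) ?_ ?_ K ?_ (m + n + e).toNat z1 ?_
  · obtain ⟨ν, hν, A, hA, g1, g2⟩ := hcore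
    refine ⟨hm, hn, ?_⟩
    have hmm : 0 < m.natAbs := by omega
    have hnn : 0 < n.natAbs := by omega
    have hu : 4 * mono (fun i => (4 : ZMod p)⁻¹ * (![1, 1, 1, 1, -1] : Fin 5 → ZMod p) i)
        (fun i => (((2 * (m.natAbs + n.natAbs) : ℕ) : ℤ) +
          ![2 * m + 2 * n, 2 * m - 2 * n, 2 * n - 2 * m, -2 * m - 2 * n, 0] i).toNat) =
        (1 + X ^ (4 * m.natAbs)) * (1 + X ^ (4 * n.natAbs)) - X ^ (2 * (m.natAbs + n.natAbs)) := by
      have hC : (4 : (ZMod p)[X]) * C (4 : ZMod p)⁻¹ = 1 := by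
        have : (4 : (ZMod p)[X]) = C 4 := (map_ofNat C 4).symm
        rw [this, ← C_mul, mul_inv_cancel₀ h4', C_1]
      have hexp : ∀ q0 q1 q2 q3 q4 : ℕ,
          (((2 * (m.natAbs + n.natAbs) : ℕ) : ℤ) + (2 * m + 2 * n)).toNat = q0 →
          (((2 * (m.natAbs + n.natAbs) : ℕ) : ℤ) + (2 * m - 2 * n)).toNat = q1 →
          (((2 * (m.natAbs + n.natAbs) : ℕ) : ℤ) + (2 * n - 2 * m)).toNat = q2 →
          (((2 * (m.natAbs + n.natAbs) : ℕ) : ℤ) + (-2 * m - 2 * n)).toNat = q3 →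
          (((2 * (m.natAbs + n.natAbs) : ℕ) : ℤ) + 0).toNat = q4 →
          4 * mono (fun i => (4 : ZMod p)⁻¹ * (![1, 1, 1, 1, -1] : Fin 5 → ZMod p) i)
          (fun i => (((2 * (m.natAbs + n.natAbs) : ℕ) : ℤ) +
            ![2 * m + 2 * n, 2 * m - 2 * n, 2 * n - 2 * m, -2 * m - 2 * n, 0] i).toNat) =
            X ^ q0 + X ^ q1 + X ^ q2 + X ^ q3 - X ^ q4 := by
        intro q0 q1 q2 q3 q4 e0 e1 e2 e3 e4
        unfold mono
        rw [Fin.sum_univ_five]
        simp only [Matrix.cons_val_zero, Matrix.cons_val_one, Matrix.cons_val, mul_one, mul_neg,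
          C_neg]
        rw [e0, e1, e2, e3, e4]
        linear_combination (X ^ q0 + X ^ q1 + X ^ q2 + X ^ q3 - X ^ q4) * hC
      obtain ⟨m', hm'⟩ := Int.eq_nat_or_neg m
      obtain ⟨n', hn'⟩ := Int.eq_nat_or_neg n
      rcases hm' with hm' | hm' <;> rcases hn' with hn' | hn'
      · rw [hexp (4 * m' + 4 * n') (4 * m') (4 * n') 0 (2 * (m.natAbs + n.natAbs)) (by omega)
          (by omega) (by omega) (by omega) (by omega)]
        have e1 : m.natAbs = m' := by omega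
        have e2 : n.natAbs = n' := by omega
        rw [e1, e2]
        ring
      · rw [hexp (4 * m') (4 * m' + 4 * n') 0 (4 * n') (2 * (m.natAbs + n.natAbs)) (by omega)
          (by omega) (by omega) (by omega) (by omega)]
        have e1 : m.natAbs = m' := by omega
        have e2 : n.natAbs = n' := by omega
        rw [e1, e2]
        ring
      · rw [hexp (4 * n') 0 (4 * m' + 4 * n') (4 * m') (2 * (m.natAbs + n.natAbs)) (by omega)
          (by omega) (by omega) (by omega) (by omega)]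
        have e1 : m.natAbs = m' := by omega
        have e2 : n.natAbs = n' := by omega
        rw [e1, e2]
        ring
      · rw [hexp 0 (4 * n') (4 * m') (4 * m' + 4 * n') (2 * (m.natAbs + n.natAbs)) (by omega)
          (by omega) (by omega) (by omega) (by omega)]
        have e1 : m.natAbs = m' := by omega
        have e2 : n.natAbs = n' := by omega
        rw [e1, e2]
        ring
    refine comb_odd p hp2 m.natAbs n.natAbs _ ν hmm hnn rfl A hA hν ?_ ?_
    · rw [g1, hu]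
    · rw [g2, hu]
  · intro i
    fin_cases i <;> simp <;> omega
  · intro i
    fin_cases i <;> simp <;> ring
  · intro i
    fin_cases i <;> simp <;> omega
  · have h1 : (1 : ZMod p) ≠ 0 := one_ne_zero
    rcases lt_or_gt_of_ne hm with hm' | hm' <;> rcases lt_or_gt_of_ne hn with hn' | hn'
    · refine ⟨3, by simp [-Nat.cast_natAbs]; omega, by simp, ?_⟩
      intro j hj
      fin_cases j <;> simp [-Nat.cast_natAbs] at hj ⊢ <;> omega
    · refine ⟨2, by simp [-Nat.cast_natAbs]; omega, by simp, ?_⟩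
      intro j hj
      fin_cases j <;> simp [-Nat.cast_natAbs] at hj ⊢ <;> omega
    · refine ⟨1, by simp [-Nat.cast_natAbs]; omega, by simp, ?_⟩
      intro j hj
      fin_cases j <;> simp [-Nat.cast_natAbs] at hj ⊢ <;> omega
    · refine ⟨0, by simp [-Nat.cast_natAbs]; omega, by simp, ?_⟩
      intro j hj
      fin_cases j <;> simp [-Nat.cast_natAbs] at hj ⊢ <;> omega
  · omega
  · intro κ hκ
    obtain ⟨Z1, Z2, W, r1, r2, r3, r4, r5⟩ := hrel κ hκ
    have hcc4 : cc p (RatFunc k) 4 = 4 := map_ofNat _ 4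
    have hU : ∑ i : Fin 5, cc p (RatFunc k) ((![1, 1, 1, 1, -1] : Fin 5 → ZMod p) i) *
        vx p x1 ^ p ^ ((![(m + n + (m + n) + (m + n + (m + n)) + e).toNat, (4 * m + e).toNat,
        (4 * n + e).toNat, e, (m + n + (m + n) + e).toNat] : Fin 5 → ℕ) i) =
        vS + va + vb + vx p x - vA := by
      rw [Fin.sum_univ_five]
      simp only [Matrix.cons_val_zero, Matrix.cons_val_one, Matrix.cons_val, map_one, map_neg,
        one_mul, neg_mul]
      rw [hvx, eS, ea, eb, eA]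
      ring
    rw [hU, hcc4, ← eA, ← eN]
    exact ⟨Z1, Z2, W, r1, r2, r3, r4, r5⟩

end odd

section two

variable {k : Type u} [Field k] (p : ℕ) [Fact p.Prime] [CharP k p] [PerfectField k]

theorem pdTwo {x : RatFunc k} (hx : ∀ c : k, x ≠ RatFunc.C c)
    (hdiv : ∀ (m n : ℤ) (a b : RatFunc k), Fz p m x a → Fz p n x b → DivR p x a b → m ∣ n)
    (hp2 : p = 2) {m n : ℤ}
    {a b : RatFunc k} (ha : Fz p m x a) (hb : Fz p n x b) (h : PDtwo p x a b) :
    m ≠ 0 ∧ n ≠ 0 ∧ ∃ s t : ℕ, m.natAbs * p ^ s = n.natAbs * p ^ t := by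
  obtain ⟨cN, cA, c1, c2, vN, vA, va, vb, v1, v2, h1, h2, h3, h4, h5, h6, h7, h8, h9, h10, hr⟩ := h
  have hht := Gad.ht_pos_of_nonconst hx
  obtain ⟨hm, hn, K, z1, l1, l2, hrel⟩ := relall_sound p hx hdiv ha hb hr
  refine ⟨hm, hn, ?_⟩
  by_cases hmn : m.natAbs = n.natAbs
  · exact ⟨0, 0, by rw [hmn]⟩
  obtain ⟨N, fN, -⟩ := Fr.sound p x cN cN a hx h1
  have fA := addS p hx ha hb h2
  have f1 := addS p hx ha fA h3
  have f2 := addS p hx fA hb h4
  obtain ⟨x1, e, hx1, hd⟩ := exists_root_deriv_ne_zero p x hx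
  have hv := nice_of p x1 hd
  have hvx : vx p x = (vx p x1) ^ p ^ e := by rw [← hx1, vx_pow]
  have hv1 : (vx p x1) = (x1 ^ p ^ 4 - x1)⁻¹ := rfl
  rw [← hv1] at hv
  have key : ∀ (c w : RatFunc k) (r : ℤ), Fz p r x c → Fr p x c (vx p x) w →
      0 ≤ r + e ∧ w = vx p x1 ^ p ^ (r + e).toNat := by
    intro c w r hc hw
    obtain ⟨n0, a1, b1⟩ := Fr.sound p x c _ _ hx hw
    have e1 := Gad.Fz_exp_unique hht a1 hc
    rw [e1, hvx] at b1
    exact Gad.Fz_root hv.dv e b1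
  obtain ⟨pN, eN⟩ := key cN vN _ fN h5
  obtain ⟨pA, eA⟩ := key cA vA _ fA h6
  obtain ⟨pa, ea⟩ := key a va _ ha h7
  obtain ⟨pb, eb⟩ := key b vb _ hb h8
  obtain ⟨p1, e1⟩ := key c1 v1 _ f1 h9
  obtain ⟨p2, e2⟩ := key c2 v2 _ f2 h10
  have hcore := core2 (k := k) p hv (ι := Fin 4) ![1, 1, 1, 1] ![m, -m, n, -n]
    (m + n + e).toNat
    ![(m + (m + n) + e).toNat, (n + e).toNat, (m + n + n + e).toNat, (m + e).toNat]
    ?_ ⟨![1, 0, 3, 2], ![1, 0, 3, 2], by decide, by decide⟩ ?_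
    1 one_ne_zero (max m.natAbs n.natAbs) ?_ ?_ K ?_ (N + e).toNat z1 ?_
  · obtain ⟨ν, hν, A, hA, g1, g2⟩ := hcore
    subst hp2
    have hmm : 0 < m.natAbs := by omega
    have hnn : 0 < n.natAbs := by omega
    have hu : mono (fun i => (1 : ZMod 2)⁻¹ * (![1, 1, 1, 1] : Fin 4 → ZMod 2) i)
        (fun i => (((max m.natAbs n.natAbs : ℕ) : ℤ) + ![m, -m, n, -n] i).toNat) =
        X ^ (max m.natAbs n.natAbs + m.natAbs) + X ^ (max m.natAbs n.natAbs - m.natAbs) +
        X ^ (max m.natAbs n.natAbs + n.natAbs) + X ^ (max m.natAbs n.natAbs - n.natAbs) := by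
      have hexp : ∀ q0 q1 q2 q3 : ℕ,
          (((max m.natAbs n.natAbs : ℕ) : ℤ) + m).toNat = q0 →
          (((max m.natAbs n.natAbs : ℕ) : ℤ) + -m).toNat = q1 →
          (((max m.natAbs n.natAbs : ℕ) : ℤ) + n).toNat = q2 →
          (((max m.natAbs n.natAbs : ℕ) : ℤ) + -n).toNat = q3 →
          mono (fun i => (1 : ZMod 2)⁻¹ * (![1, 1, 1, 1] : Fin 4 → ZMod 2) i)
          (fun i => (((max m.natAbs n.natAbs : ℕ) : ℤ) + ![m, -m, n, -n] i).toNat) =
            X ^ q0 + X ^ q1 + X ^ q2 + X ^ q3 := by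
        intro q0 q1 q2 q3 e0 e1 e2 e3
        unfold mono
        rw [Fin.sum_univ_four]
        simp only [Matrix.cons_val_zero, Matrix.cons_val_one, Matrix.cons_val, mul_one, inv_one,
          C_1, one_mul]
        rw [e0, e1, e2, e3]
      rcases lt_or_gt_of_ne hm with hm' | hm' <;> rcases lt_or_gt_of_ne hn with hn' | hn'
      · rw [hexp (max m.natAbs n.natAbs - m.natAbs) (max m.natAbs n.natAbs + m.natAbs)
          (max m.natAbs n.natAbs - n.natAbs) (max m.natAbs n.natAbs + n.natAbs) (by omega)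
          (by omega) (by omega) (by omega)]
        ring
      · rw [hexp (max m.natAbs n.natAbs - m.natAbs) (max m.natAbs n.natAbs + m.natAbs)
          (max m.natAbs n.natAbs + n.natAbs) (max m.natAbs n.natAbs - n.natAbs) (by omega)
          (by omega) (by omega) (by omega)]
        ring
      · rw [hexp (max m.natAbs n.natAbs + m.natAbs) (max m.natAbs n.natAbs - m.natAbs)
          (max m.natAbs n.natAbs - n.natAbs) (max m.natAbs n.natAbs + n.natAbs) (by omega)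
          (by omega) (by omega) (by omega)]
        ring
      · rw [hexp (max m.natAbs n.natAbs + m.natAbs) (max m.natAbs n.natAbs - m.natAbs)
          (max m.natAbs n.natAbs + n.natAbs) (max m.natAbs n.natAbs - n.natAbs) (by omega)
          (by omega) (by omega) (by omega)]
    refine comb_two m.natAbs n.natAbs _ ν hmm hnn (le_max_left _ _) (le_max_right _ _) A hA hν
      ?_ ?_
    · rw [g1, hu]
    · rw [g2, hu]
  · intro i
    fin_cases i <;> simp <;> omega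
  · intro i
    fin_cases i <;> simp
  · intro i
    fin_cases i <;> simp
  · rcases lt_or_gt_of_ne hmn with hmn' | hmn'
    · rcases lt_or_gt_of_ne hn with hn' | hn'
      · refine ⟨3, by simp [-Nat.cast_natAbs]; omega, by simp, ?_⟩
        intro j hj
        fin_cases j <;> simp [-Nat.cast_natAbs] at hj ⊢ <;> omega
      · refine ⟨2, by simp [-Nat.cast_natAbs]; omega, by simp, ?_⟩
        intro j hj
        fin_cases j <;> simp [-Nat.cast_natAbs] at hj ⊢ <;> omega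
    · rcases lt_or_gt_of_ne hm with hm' | hm'
      · refine ⟨1, by simp [-Nat.cast_natAbs]; omega, by simp, ?_⟩
        intro j hj
        fin_cases j <;> simp [-Nat.cast_natAbs] at hj ⊢ <;> omega
      · refine ⟨0, by simp [-Nat.cast_natAbs]; omega, by simp, ?_⟩
        intro j hj
        fin_cases j <;> simp [-Nat.cast_natAbs] at hj ⊢ <;> omega
  · omega
  · intro κ hκ
    obtain ⟨Z1, Z2, W, r1, r2, r3, r4, r5⟩ := hrel κ hκ
    have hU : ∑ i : Fin 4, cc p (RatFunc k) ((![1, 1, 1, 1] : Fin 4 → ZMod p) i) *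
        vx p x1 ^ p ^ ((![(m + (m + n) + e).toNat, (n + e).toNat, (m + n + n + e).toNat,
        (m + e).toNat] : Fin 4 → ℕ) i) = v1 + vb + v2 + va := by
      rw [Fin.sum_univ_four]
      simp only [Matrix.cons_val_zero, Matrix.cons_val_one, Matrix.cons_val, map_one, one_mul]
      rw [e1, eb, e2, ea]
    rw [hU, map_one, ← eA, ← eN]
    exact ⟨Z1, Z2, W, r1, r2, r3, r4, r5⟩

end two

end C2

end Pool.Agent.H367R2.H10
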