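import Mathlib
import Pool.Agent.H367R2.H10.C1
import Pool.Agent.H367R2.H10.C2

set_option autoImplicit false

/-! C2: soundness of the gadget, final form. -/

open Polynomial Finset

namespace Pool.Agent.H367R2.H10

universe u

variable {k : Type u} [Field k] (p : ℕ) [Fact p.Prime] [CharP k p] [PerfectField k]

theorem pdOdd_sound {x : RatFunc k} (hx : ∀ c : k, x ≠ RatFunc.C c) (hp2 : p ≠ 2) {m n : ℤ}
    {a b : RatFunc k} (ha : Fz p m x a) (hb : Fz p n x b) (h : PDodd p x a b) :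
    m ≠ 0 ∧ n ≠ 0 ∧ ∃ s t : ℕ, m.natAbs * p ^ s = n.natAbs * p ^ t :=
  C2.pdOdd p hx (fun _ _ _ _ h1 h2 h3 => div_sound p hx h1 h2 h3) hp2 ha hb h

theorem pdTwo_sound {x : RatFunc k} (hx : ∀ c : k, x ≠ RatFunc.C c) (hp2 : p = 2) {m n : ℤ}
    {a b : RatFunc k} (ha : Fz p m x a) (hb : Fz p n x b) (h : PDtwo p x a b) :
    m ≠ 0 ∧ n ≠ 0 ∧ ∃ s t : ℕ, m.natAbs * p ^ s = n.natAbs * p ^ t :=
  C2.pdTwo p hx (fun _ _ _ _ h1 h2 h3 => div_sound p hx h1 h2 h3) hp2 ha hb h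

end Pool.Agent.H367R2.H10
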