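import Mathlib
import Pool.Agent.H367R2.H10.Defs3
import Pool.Agent.H367R2.H10.B3
import Pool.Agent.H367R2.H10.Struct

set_option autoImplicit false

/-! C3: completeness of the basic relations at `x = t`. -/

open Polynomial Finset

namespace Pool.Agent.H367R2.H10

universe u

namespace C3

variable {k : Type u} [Field k] (p : ℕ) [hp : Fact p.Prime] [CharP k p]

omit [CharP k p] in
theorem one_lt_q : (1 : ℤ) < ((p ^ 4 : ℕ) : ℤ) := by
  have h := Nat.one_lt_pow (n := 4) (by norm_num) hp.out.one_lt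
  exact_mod_cast h

omit [CharP k p] in
theorem ne_frob {V : Valuation (RatFunc k) (WithZero (Multiplicative ℤ))} {n : ℤ} {f : RatFunc k}
    (hf : EQ V n f) (hn : n ≠ 0) : f ^ p ^ 4 ≠ f := by
  intro h
  have h1 := hf.pow (p ^ 4)
  rw [h] at h1
  have h2 := h1.unique hf
  have h3 := one_lt_q p
  have h4 : (((p ^ 4 : ℕ) : ℤ) - 1) * n = 0 := by linear_combination h2
  rcases mul_eq_zero.1 h4 with h5 | h5
  · omega
  · exact hn h5

omit [CharP k p] in
theorem frob_sub_EQ {V : Valuation (RatFunc k) (WithZero (Multiplicative ℤ))} {s : RatFunc k}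
    (hs : EQ V 1 s) : EQ V 1 (s ^ p ^ 4 - s) := by
  have h1 := (hs.pow (p ^ 4)).ge
  have h3 := one_lt_q p
  have h2 := (hs.sub_ge h1 (by rw [mul_one]; exact h3)).neg
  rwa [neg_sub] at h2

theorem irr0 : Irreducible (X : k[X]) := irreducible_X

theorem irr1 : Irreducible (X + C 1 : k[X]) := by
  have := irreducible_X_sub_C (-1 : k)
  rwa [map_neg, sub_neg_eq_add] at this

theorem am_X : algebraMap k[X] (RatFunc k) X = RatFunc.X := RatFunc.algebraMap_X

theorem am_X1 : algebraMap k[X] (RatFunc k) (X + C 1) = RatFunc.X + 1 := by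
  rw [map_add, am_X, map_one, map_one]

theorem EQ_t0 : EQ (plv (X : k[X]) irr0) 1 (RatFunc.X : RatFunc k) := by
  have := T3.plv_self (k := k) irr0
  rwa [am_X] at this

theorem EQ_t1_1 : EQ (plv (X + C 1 : k[X]) irr1) 1 (RatFunc.X + 1 : RatFunc k) := by
  have := T3.plv_self (k := k) irr1
  rwa [am_X1] at this

theorem EQ_t1_0 : EQ (plv (X : k[X]) irr0) 0 (RatFunc.X + 1 : RatFunc k) := by
  have h : ¬ (X : k[X]) ∣ X + C 1 := by
    rw [X_dvd_iff]
    simp
  have := T3.plv_unit (k := k) irr0 _ h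
  rw [am_X1] at this
  unfold EQ
  rw [this, neg_zero, WithZero.exp_zero]

theorem EQ_t0_1 : EQ (plv (X + C 1 : k[X]) irr1) 0 (RatFunc.X : RatFunc k) := by
  have h : ¬ (X + C 1 : k[X]) ∣ X := by
    intro h
    have h1 : (X + C 1 : k[X]) = X - C (-1) := by rw [map_neg, sub_neg_eq_add]
    rw [h1, dvd_iff_isRoot, IsRoot, eval_X] at h
    exact neg_ne_zero.2 one_ne_zero h
  have := T3.plv_unit (k := k) irr1 _ h
  rw [am_X] at this
  unfold EQ
  rw [this, neg_zero, WithZero.exp_zero]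

omit [CharP k p] in
theorem EQ_v0 : EQ (plv (X : k[X]) irr0) (-1) (vx p (RatFunc.X : RatFunc k)) := by
  unfold vx
  exact (frob_sub_EQ p EQ_t0).inv

theorem EQ_v1 : EQ (plv (X + C 1 : k[X]) irr1) (-1) (vx p (RatFunc.X : RatFunc k)) := by
  unfold vx
  have h : (RatFunc.X : RatFunc k) ^ p ^ 4 - RatFunc.X =
      (RatFunc.X + 1) ^ p ^ 4 - (RatFunc.X + 1) := by
    rw [add_pow_char_pow, one_pow]
    ring
  rw [h]
  exact (frob_sub_EQ p EQ_t1_1).inv

theorem ev_sum (m c : ℕ) (v : RatFunc k) :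
    ev p (∑ j ∈ range c, (X : (ZMod p)[X]) ^ (m * j)) v = ∑ j ∈ range c, v ^ p ^ (m * j) := by
  induction c with
  | zero => rw [range_zero, sum_empty, sum_empty, ev_zero]
  | succ c ih => rw [sum_range_succ, sum_range_succ, ev_add, ih, ev_X_pow]

theorem ev_one (v : RatFunc k) : ev p (1 : (ZMod p)[X]) v = v := by
  have := ev_X_pow (p := p) 0 v
  rwa [pow_zero, pow_zero, pow_one] at this

theorem telescope (m c : ℕ) (v : RatFunc k) :
    (∑ j ∈ range c, v ^ p ^ (m * j)) ^ p ^ m - ∑ j ∈ range c, v ^ p ^ (m * j) =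
      v ^ p ^ (m * c) - v := by
  induction c with
  | zero =>
    rw [range_zero, sum_empty, mul_zero, pow_zero, pow_one, sub_self,
      zero_pow (pow_ne_zero _ hp.out.ne_zero), sub_zero]
  | succ c ih =>
    rw [sum_range_succ, add_pow_char_pow, ← pow_mul, ← pow_add]
    have h1 : m * c + m = m * (c + 1) := by ring
    rw [h1]
    linear_combination ih

theorem sum_ne_zero {m c : ℕ} (hm : 1 ≤ m) (hc : 1 ≤ c) :
    (∑ j ∈ range c, (X : (ZMod p)[X]) ^ (m * j)) ≠ 0 := by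
  intro h
  have h1 := congrArg (Polynomial.eval 0) h
  rw [eval_finsetSum, eval_zero] at h1
  have h2 : ∀ j ∈ range c, eval (0 : ZMod p) ((X : (ZMod p)[X]) ^ (m * j)) =
      if j = 0 then 1 else 0 := by
    intro j _
    rw [eval_pow, eval_X]
    by_cases hj : j = 0
    · rw [hj, mul_zero, pow_zero, if_pos rfl]
    · rw [if_neg hj, zero_pow]
      exact Nat.mul_ne_zero (by omega) hj
  rw [sum_congr rfl h2, sum_ite_eq' (range c) 0, if_pos (mem_range.2 (by omega))] at h1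
  exact one_ne_zero h1

end C3

open C3

variable {k : Type u} [Field k] (p : ℕ) [Fact p.Prime] [CharP k p]

theorem Fr_tt (m n : ℕ) :
    Fr p (RatFunc.X : RatFunc k) (RatFunc.X ^ p ^ m) (RatFunc.X ^ p ^ n)
      (RatFunc.X ^ p ^ (m + n)) := by
  have hpos : (0 : ℤ) < ((p ^ n : ℕ) : ℤ) := by
    exact_mod_cast Nat.pow_pos (Fact.out : p.Prime).pos
  have h0 : EQ (plv (X : k[X]) irr0) ((p ^ n : ℕ) * 1) ((RatFunc.X : RatFunc k) ^ p ^ n) :=
    EQ_t0.pow (p ^ n)
  rw [mul_one] at h0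
  have h := Fr.pow p (RatFunc.X : RatFunc k) (RatFunc.X ^ p ^ n) m
    (ne_frob p EQ_t0 one_ne_zero) (ne_frob p h0 hpos.ne')
    (ne_frob p (EQ_t0.mul h0) (by omega)) (ne_frob p (EQ_t1_0.mul h0) (by omega))
  rwa [← pow_mul, ← pow_add, add_comm n m] at h

theorem Fr_ev (m : ℕ) (B : (ZMod p)[X]) (hB : B ≠ 0) :
    Fr p (RatFunc.X : RatFunc k) (RatFunc.X ^ p ^ m) (ev p B (vx p RatFunc.X))
      (ev p B (vx p RatFunc.X) ^ p ^ m) := by
  have hpos : (0 : ℤ) < (p ^ B.natDegree : ℤ) := by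
    exact_mod_cast Nat.pow_pos (Fact.out : p.Prime).pos
  have h0 := ev_EQ p (EQ_v0 (k := k) p) B hB
  have h1 := ev_EQ p (EQ_v1 (k := k) p) B hB
  exact Fr.pow p (RatFunc.X : RatFunc k) _ m
    (ne_frob p EQ_t0 one_ne_zero) (ne_frob p h0 (by omega))
    (ne_frob p (EQ_t0_1.mul h1) (by omega)) (ne_frob p (EQ_t1_0.mul h0) (by omega))

theorem mulC_complete (c m : ℕ) :
    MulC p (RatFunc.X : RatFunc k) c (RatFunc.X ^ p ^ m) (RatFunc.X ^ p ^ (c * m)) := by
  induction c with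
  | zero =>
    rw [MulC, zero_mul, pow_zero, pow_one]
  | succ c ih =>
    rw [MulC]
    refine ⟨_, ih, ?_⟩
    have h1 : (c + 1) * m = m + c * m := by ring
    rw [h1]
    exact Fr_tt p m (c * m)

theorem div_complete (m n : ℕ) (hm : 1 ≤ m) (hn : 1 ≤ n) (h : m ∣ n) :
    DivR p (RatFunc.X : RatFunc k) (RatFunc.X ^ p ^ m) (RatFunc.X ^ p ^ n) := by
  obtain ⟨c, rfl⟩ := h
  have hc : 1 ≤ c := by
    rcases Nat.eq_zero_or_pos c with h | h
    · rw [h, mul_zero] at hn; omega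
    · exact h
  have hB := sum_ne_zero p hm hc
  refine ⟨ev p (∑ j ∈ range c, (X : (ZMod p)[X]) ^ (m * j)) (vx p RatFunc.X), _,
    (vx p RatFunc.X) ^ p ^ (m * c), Fr_ev p m _ hB, ?_, ?_⟩
  · have h1 := Fr_ev (k := k) p (m * c) 1 one_ne_zero
    rwa [ev_one] at h1
  · rw [ev_sum]
    exact telescope p m c _

end Pool.Agent.H367R2.H10
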