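import Mathlib
import Pool.Agent.H367R2.H10.Defs3
import Pool.Agent.H367R2.H10.Conv
import Pool.Agent.H367R2.H10.C3
import Pool.Agent.H367R2.H10.T4
import Pool.Agent.H534R2.H10B4

set_option autoImplicit false

/-! Task C4: completeness of the gadget (helper804). -/

open Polynomial Finset

namespace Pool.Agent.H367R2.H10

universe u

namespace C4

section gen

variable {K : Type u} [Field K] (p : ℕ) [hp : Fact p.Prime] [CharP K p]

theorem ev_shift (G : (ZMod p)[X]) (s : ℕ) (v : K) :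
    ev p (X ^ s * G) v = ev p G v ^ p ^ s := by
  induction G using Polynomial.induction_on' with
  | add P Q hP hQ => rw [mul_add, ev_add, ev_add, hP, hQ, add_pow_char_pow]
  | monomial n a =>
    rw [X_pow_mul_monomial, ev_monomial, ev_monomial, mul_pow, cc_pow, ← pow_mul, ← pow_add]

theorem core (v : K) (A B G : (ZMod p)[X]) (c4 : ZMod p) (D s κ : ℕ) (hA : A.natDegree ≤ D)
    (hB : B.natDegree ≤ D) (h : C c4 * (reflect D A * B) = G) :
    AS p (cc p K c4 * (ev p A v * ev p B v ^ p ^ κ) -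
      v ^ p ^ (D + s) * ev p (X ^ s * G) v ^ p ^ κ) := by
  have h1 := (bilin p A B (reflect D A * B) D κ hA hB rfl v).smul c4
  have hR : (reflect D A).natDegree ≤ D := by
    rw [natDegree_le_iff_coeff_eq_zero]
    intro N hN
    rw [coeff_reflect, revAt_eq_self_of_lt hN]
    exact coeff_eq_zero_of_natDegree_lt (by omega)
  have hG : G.natDegree ≤ 2 * D := by
    rw [← h]
    refine (natDegree_C_mul_le _ _).trans ((natDegree_mul_le).trans ?_)
    omega
  have h3 : AS p (v ^ p ^ D * ev p G v ^ p ^ κ -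
      ∑ i ∈ range (2 * D + 1), cc p K (G.coeff i) * br p v ((κ : ℤ) + i - D)) := by
    rw [ev_pow G v κ (Nat.lt_succ_of_le hG), Finset.mul_sum, ← Finset.sum_sub_distrib]
    refine AS.sum _ _ fun i _ => ?_
    have h4 := (br_equiv p v D (i + κ)).smul (G.coeff i)
    have h5 : (((i + κ : ℕ) : ℤ) - D) = (κ : ℤ) + i - D := by push_cast; ring
    rw [h5] at h4
    convert h4 using 1
    ring
  have h6 : cc p K c4 * ∑ i ∈ range (2 * D + 1),
      cc p K ((reflect D A * B).coeff i) * br p v ((κ : ℤ) + i - D) =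
      ∑ i ∈ range (2 * D + 1), cc p K (G.coeff i) * br p v ((κ : ℤ) + i - D) := by
    rw [Finset.mul_sum]
    refine Finset.sum_congr rfl fun i _ => ?_
    rw [← h, coeff_C_mul, map_mul, mul_assoc]
  rw [mul_sub, h6] at h1
  have h7 := h1.trans h3.symm
  have h8 : v ^ p ^ (D + s) * ev p (X ^ s * G) v ^ p ^ κ =
      (v ^ p ^ D * ev p G v ^ p ^ κ) ^ p ^ s := by
    rw [ev_shift, mul_pow, ← pow_mul, ← pow_mul, ← pow_mul]
    congr 1
    · congr 1; ring
    · congr 1; ring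
  rw [h8]
  exact h7.trans (AS.frob_iter _ s).symm

end gen

section spec

variable {k : Type u} [Field k] (p : ℕ) [hp : Fact p.Prime] [CharP k p]

theorem Fr_v (m : ℕ) : Fr p (RatFunc.X : RatFunc k) (RatFunc.X ^ p ^ m) (vx p RatFunc.X)
    (vx p RatFunc.X ^ p ^ m) := by
  have h := Fr_ev (k := k) p m (X ^ 0) (by simp)
  rw [ev_X_pow, pow_zero, pow_one] at h
  exact h

theorem relK (A B G : (ZMod p)[X]) (c4 : ZMod p) (D s κ N : ℕ) (hA : A.natDegree ≤ D)
    (hB : B.natDegree ≤ D) (h1 : C c4 * (reflect D A * B) = G)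
    (h2 : C c4 * (reflect D B * A) = G) (hG : G ≠ 0) (hBA : B = A + X ^ N)
    (U c4' vA vN : RatFunc k) (hc : cc p (RatFunc k) c4 = c4')
    (hU : ev p (X ^ s * G) (vx p RatFunc.X) = U)
    (hvA : vA = vx p RatFunc.X ^ p ^ (D + s)) (hvN : vN = vx p RatFunc.X ^ p ^ N) :
    RelK p (RatFunc.X : RatFunc k) (RatFunc.X ^ p ^ κ) c4' vA
      (ev p A (vx p RatFunc.X)) (ev p A (vx p RatFunc.X) + vN) U := by
  have hA0 : A ≠ 0 := by
    rintro rfl
    apply hG
    rw [← h2, mul_zero, mul_zero]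
  have hB0 : B ≠ 0 := by
    intro hB0
    apply hG
    rw [← h1, hB0, mul_zero, mul_zero]
  have hz2 : ev p A (vx p (RatFunc.X : RatFunc k)) + vN = ev p B (vx p RatFunc.X) := by
    rw [hBA, ev_add, ev_X_pow, hvN]
  have hXG : X ^ s * G ≠ 0 := mul_ne_zero (pow_ne_zero _ X_ne_zero) hG
  rw [hz2]
  subst hc
  subst hU
  subst hvA
  refine ⟨_, _, _, Fr_ev p κ A hA0, Fr_ev p κ B hB0, Fr_ev p κ _ hXG, ?_, ?_⟩
  · exact core p _ A B G c4 D s κ hA hB h1
  · exact core p _ B A G c4 D s κ hB hA h2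

theorem X_pow_ne (j : ℕ) (hj : 1 ≤ j) : (RatFunc.X : RatFunc k) ^ p ^ j ≠ RatFunc.X := by
  intro h
  have h1 : (algebraMap k[X] (RatFunc k)) (X ^ p ^ j) = (algebraMap k[X] (RatFunc k)) X := by
    rw [map_pow, RatFunc.algebraMap_X]
    exact h
  have h2 : (X : k[X]) ^ p ^ j = X := RatFunc.algebraMap_injective k h1
  have h3 := congrArg natDegree h2
  rw [natDegree_X_pow, natDegree_X] at h3
  have h4 : 1 < p ^ j := Nat.one_lt_pow (by omega) hp.out.one_lt
  omega

theorem relAll (A G : (ZMod p)[X]) (c4 : ZMod p) (m n D s N : ℕ) (hm : 1 ≤ m) (hn : 1 ≤ n)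
    (hA : A.natDegree ≤ D) (hB : (A + X ^ N).natDegree ≤ D)
    (h1 : C c4 * (reflect D A * (A + X ^ N)) = G)
    (h2 : C c4 * (reflect D (A + X ^ N) * A) = G) (hG : G ≠ 0)
    (U c4' vA vN : RatFunc k) (hc : cc p (RatFunc k) c4 = c4')
    (hU : ev p (X ^ s * G) (vx p RatFunc.X) = U)
    (hvA : vA = vx p RatFunc.X ^ p ^ (D + s)) (hvN : vN = vx p RatFunc.X ^ p ^ N) :
    RelAll p (RatFunc.X : RatFunc k) (RatFunc.X ^ p ^ m) (RatFunc.X ^ p ^ n) c4' vN vA U := by
  have hmn : 1 ≤ m * n := Nat.mul_pos hm hn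
  have hrel : ∀ κ : ℕ, RelK p (RatFunc.X : RatFunc k) (RatFunc.X ^ p ^ κ) c4' vA
      (ev p A (vx p RatFunc.X)) (ev p A (vx p RatFunc.X) + vN) U := fun κ =>
    relK p A (A + X ^ N) G c4 D s κ N hA hB h1 h2 hG rfl U c4' vA vN hc hU hvA hvN
  refine ⟨ev p A (vx p RatFunc.X), RatFunc.X ^ p ^ (32 * (m * n)), RatFunc.X ^ p ^ (32 * m),
    RatFunc.X ^ p ^ (32 * n), X_pow_ne p m hm, X_pow_ne p n hn, X_pow_ne p _ (by omega),
    mulC_complete p 32 m, mulC_complete p 32 n, ?_, ?_, hrel _, ?_, ?_⟩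
  · exact div_complete p _ _ (by omega) (by omega) ⟨n, by ring⟩
  · exact div_complete p _ _ (by omega) (by omega) ⟨m, by ring⟩
  · have h3 := hrel (32 * (m * n) + 1)
    rw [pow_succ, pow_mul] at h3
    exact h3
  · have h3 := hrel 1
    rw [pow_one] at h3
    exact h3

end spec

end C4

open C4

theorem pd_complete {k : Type u} [Field k] (p : ℕ) [Fact p.Prime] [CharP k p]
    (m n s : ℕ) (hn : 1 ≤ n) (hs : 1 ≤ s) (h : m = p ^ s * n) :
    PDR p (RatFunc.X : RatFunc k) (RatFunc.X ^ p ^ m) (RatFunc.X ^ p ^ n) := by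
  have hp : p.Prime := Fact.out
  have hm : 1 ≤ m := by
    rw [h]
    exact Nat.mul_pos (pow_pos hp.pos _) hn
  by_cases hp2 : p = 2
  · refine Or.inr ⟨hp2, ?_⟩
    subst hp2
    obtain ⟨s', rfl⟩ : ∃ s', s = s' + 1 := ⟨s - 1, by omega⟩
    obtain ⟨A, hA, hB, h1, h2⟩ := comb_two_exists n s' (2 ^ s' * n) hn rfl
    set ν := 2 ^ s' * n with hν
    have hmν : m = 2 * ν := by rw [h, hν, pow_succ]; ring
    have hnν : n ≤ ν := by
      rw [hν]
      exact Nat.le_mul_of_pos_left n (by positivity)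
    have hG0 : (X ^ (2 * ν + 2 * ν) + X ^ (2 * ν - 2 * ν) + X ^ (2 * ν + n) + X ^ (2 * ν - n) :
        (ZMod 2)[X]) ≠ 0 := by
      intro h0
      have h3 := congrArg (eval 0) h0
      have e1 : 2 * ν + 2 * ν ≠ 0 := by omega
      have e2 : 2 * ν + n ≠ 0 := by omega
      have e3 : 2 * ν - n ≠ 0 := by omega
      simp [zero_pow e1, zero_pow e2, zero_pow e3] at h3
    have hcA := Fr_tt (k := k) 2 m n
    have hc1 := Fr_tt (k := k) 2 m (m + n)
    have hc2 := Fr_tt (k := k) 2 (m + n) n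
    have hcN := Fr_tt (k := k) 2 ν ν
    rw [show ν + ν = m by omega] at hcN
    refine ⟨_, _, _, _, _, _, _, _, _, _, hcN, hcA, hc1, hc2, Fr_v 2 ν, Fr_v 2 (m + n),
      Fr_v 2 m, Fr_v 2 n, Fr_v 2 (m + (m + n)), Fr_v 2 (m + n + n), ?_⟩
    refine relAll 2 A _ 1 m n (2 * ν) n ν hm hn hA hB ?_ ?_ hG0 _ _ _ _ (map_one _) ?_ ?_ rfl
    · rw [C_1, one_mul, h1]
    · rw [C_1, one_mul, h2]
    · have e4 : (X ^ n * (X ^ (2 * ν + 2 * ν) + X ^ (2 * ν - 2 * ν) + X ^ (2 * ν + n) +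
          X ^ (2 * ν - n)) : (ZMod 2)[X]) =
          X ^ (m + (m + n)) + X ^ n + X ^ (m + n + n) + X ^ m := by
        rw [mul_add, mul_add, mul_add, ← pow_add, ← pow_add, ← pow_add, ← pow_add]
        congr 1
        · congr 1
          · congr 1
            · congr 1; omega
            · congr 1; omega
          · congr 1; omega
        · congr 1; omega
      rw [e4, ev_add, ev_add, ev_add, ev_X_pow, ev_X_pow, ev_X_pow, ev_X_pow]
    · rw [hmν]
  · refine Or.inl ⟨hp2, ?_⟩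
    obtain ⟨A, hA, hB, h1, h2⟩ := comb_odd_exists p hp2 m n s (2 * (m + n)) hn hs h rfl
    have hG0 : ((1 + X ^ (4 * m)) * (1 + X ^ (4 * n)) - X ^ (2 * (m + n)) :
        (ZMod p)[X]) ≠ 0 := by
      intro h0
      have h3 := congrArg (eval 0) h0
      have e1 : m ≠ 0 := by omega
      have e2 : n ≠ 0 := by omega
      simp [e1, e2] at h3
    have hcN := Fr_tt (k := k) p m n
    have hcA := Fr_tt (k := k) p (m + n) (m + n)
    have hcS := Fr_tt (k := k) p (m + n + (m + n)) (m + n + (m + n))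
    refine ⟨_, _, _, _, _, _, _, _, _, _, hcN, hcA, mulC_complete p 4 m, mulC_complete p 4 n, hcS,
      Fr_v p (m + n), Fr_v p (m + n + (m + n)), Fr_v p (4 * m), Fr_v p (4 * n),
      Fr_v p (m + n + (m + n) + (m + n + (m + n))), ?_⟩
    have hC4 : (C (4 : ZMod p) : (ZMod p)[X]) = 4 := rfl
    refine relAll p A _ 4 m n (2 * (m + n)) 0 (m + n) hm hn hA hB ?_ ?_ hG0 _ _ _ _
      (map_ofNat _ 4) ?_ ?_ rfl
    · rw [hC4, h1]
    · rw [hC4, h2]
    · rw [pow_zero, one_mul]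
      have e4 : ((1 + X ^ (4 * m)) * (1 + X ^ (4 * n)) - X ^ (2 * (m + n)) :
          (ZMod p)[X]) + X ^ (m + n + (m + n)) =
          X ^ (m + n + (m + n) + (m + n + (m + n))) + X ^ (4 * m) + X ^ (4 * n) + X ^ 0 := by
        rw [pow_zero, show m + n + (m + n) = 2 * (m + n) by ring,
          show 2 * (m + n) + 2 * (m + n) = 4 * m + 4 * n by ring, pow_add]
        ring
      have e5 := congrArg (fun P => ev p P (vx p (RatFunc.X : RatFunc k))) e4
      simp only [ev_add, ev_X_pow] at e5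
      have e6 : (vx p (RatFunc.X : RatFunc k)) ^ p ^ 0 = vx p RatFunc.X := by
        rw [pow_zero, pow_one]
      rw [e6] at e5
      rw [← e5]
      ring
    · rw [show m + n + (m + n) = 2 * (m + n) + 0 by ring]

end Pool.Agent.H367R2.H10
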