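import Mathlib
import Pool.Agent.H367R2.H10.Defs3
import Pool.Agent.H367R2.H10.T5

set_option autoImplicit false

/-! The interface to the arithmetic layer. -/

namespace Pool.Agent.H367R2.H10

universe u

/-- the sound facts for one `x`, the interface to the arithmetic layer -/
structure Snd {K : Type u} [Field K] (p : ℕ) (x : K) : Prop where
  code : ∀ b : K, PP p x b → ∃ n : ℤ, Fz p n x b
  uniq : ∀ (b : K) (m n : ℤ), Fz p m x b → Fz p n x b → m = n
  shift : ∀ a y Y : K, Fr p x a y Y → ∃ n : ℤ, Fz p n x a ∧ Fz p n y Y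
  div : ∀ (a b : K) (m n : ℤ), Fz p m x a → Fz p n x b → DivR p x a b → m ∣ n
  pd : ∀ (a b : K) (m n : ℤ), Fz p m x a → Fz p n x b → PDR p x a b → PDz p m n

end Pool.Agent.H367R2.H10
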