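import Mathlib
import Pool.Agent.H367R2.H10.C1
import Pool.Agent.H367R2.H10.T5
import Pool.Agent.H367R2.H10.SndDef

set_option autoImplicit false

/-! Task C5: transport along embeddings of fields, abstract soundness (helper989). -/

open Polynomial Finset

namespace Pool.Agent.H367R2.H10

universe u

section map

variable {K L : Type u} [Field K] [Field L] (φ : K →+* L) (p : ℕ) [Fact p.Prime] [CharP K p]
  [CharP L p]

omit [Fact p.Prime] [CharP K p] [CharP L p] in
theorem C5_AS_map {f : K} (h : AS p f) : AS p (φ f) := by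
  obtain ⟨y, rfl⟩ := h
  exact ⟨φ y, by rw [map_sub, map_pow]⟩

omit [Fact p.Prime] [CharP K p] [CharP L p] in
theorem C5_vx_map (x : K) : φ (vx p x) = vx p (φ x) := by
  unfold vx
  rw [map_inv₀, map_sub, map_pow]

theorem PP.map {x b : K} (h : PP p x b) : PP p (φ x) (φ b) := by
  obtain ⟨h1, h2, h3, h4⟩ := h
  refine ⟨?_, ?_, ?_, ?_⟩
  · intro h; exact h1 (φ.injective (by rw [map_pow]; exact h))
  · intro h; exact h2 (φ.injective (by rw [map_pow]; exact h))
  · have := C5_AS_map φ p h3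
    simpa only [map_sub, map_inv₀, map_pow] using this
  · have := C5_AS_map φ p h4
    simpa only [map_sub, map_inv₀, map_pow, map_mul] using this

theorem Fr.map {x b y Y : K} (h : Fr p x b y Y) : Fr p (φ x) (φ b) (φ y) (φ Y) := by
  obtain ⟨h1, h2, h3, h4⟩ := h
  refine ⟨PP.map φ p h1, PP.map φ p h2, ?_, ?_⟩
  · have := PP.map φ p h3
    simpa only [map_mul] using this
  · have := PP.map φ p h4
    simpa only [map_mul, map_add, map_one] using this

theorem MulC.map (c : ℕ) {x a b : K} (h : MulC p x c a b) : MulC p (φ x) c (φ a) (φ b) := by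
  induction c generalizing b with
  | zero =>
    have h' : b = x := h
    subst h'
    rfl
  | succ c ih =>
    obtain ⟨b', h1, h2⟩ := h
    exact ⟨φ b', ih h1, Fr.map φ p h2⟩

theorem DivR.map {x a b : K} (h : DivR p x a b) : DivR p (φ x) (φ a) (φ b) := by
  obtain ⟨y, Y, W, h1, h2, h3⟩ := h
  refine ⟨φ y, φ Y, φ W, Fr.map φ p h1, ?_, ?_⟩
  · rw [← C5_vx_map]; exact Fr.map φ p h2
  · rw [← C5_vx_map, ← map_sub, ← map_sub, h3]

theorem RelK.map {x κ c4 vA z1 z2 U : K} (h : RelK p x κ c4 vA z1 z2 U) :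
    RelK p (φ x) (φ κ) (φ c4) (φ vA) (φ z1) (φ z2) (φ U) := by
  obtain ⟨Z1, Z2, W, h1, h2, h3, h4, h5⟩ := h
  refine ⟨φ Z1, φ Z2, φ W, Fr.map φ p h1, Fr.map φ p h2, Fr.map φ p h3, ?_, ?_⟩
  · have := C5_AS_map φ p h4
    simpa only [map_sub, map_mul] using this
  · have := C5_AS_map φ p h5
    simpa only [map_sub, map_mul] using this

theorem RelAll.map {x a b c4 vN vA U : K} (h : RelAll p x a b c4 vN vA U) :
    RelAll p (φ x) (φ a) (φ b) (φ c4) (φ vN) (φ vA) (φ U) := by
  obtain ⟨z1, κ, a', b', h1, h2, h3, h4, h5, h6, h7, h8, h9, h10⟩ := h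
  have hinj := φ.injective
  refine ⟨φ z1, φ κ, φ a', φ b', fun h => h1 (hinj h), fun h => h2 (hinj h),
    fun h => h3 (hinj h), MulC.map φ p 32 h4, MulC.map φ p 32 h5, DivR.map φ p h6,
    DivR.map φ p h7, ?_, ?_, ?_⟩
  · have := RelK.map φ p h8
    simpa only [map_add] using this
  · have := RelK.map φ p h9
    simpa only [map_add, map_pow] using this
  · have := RelK.map φ p h10
    simpa only [map_add, map_pow] using this

theorem PDodd.map {x a b : K} (h : PDodd p x a b) : PDodd p (φ x) (φ a) (φ b) := by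
  obtain ⟨cN, cA, a4, b4, cS, vN, vA, va, vb, vS, h1, h2, h3, h4, h5, h6, h7, h8, h9, h10, h11⟩ := h
  refine ⟨φ cN, φ cA, φ a4, φ b4, φ cS, φ vN, φ vA, φ va, φ vb, φ vS, Fr.map φ p h1,
    Fr.map φ p h2, MulC.map φ p 4 h3, MulC.map φ p 4 h4, Fr.map φ p h5, ?_, ?_, ?_, ?_, ?_, ?_⟩
  · rw [← C5_vx_map]; exact Fr.map φ p h6
  · rw [← C5_vx_map]; exact Fr.map φ p h7
  · rw [← C5_vx_map]; exact Fr.map φ p h8
  · rw [← C5_vx_map]; exact Fr.map φ p h9
  · rw [← C5_vx_map]; exact Fr.map φ p h10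
  · have := RelAll.map φ p h11
    rw [← C5_vx_map]
    simpa only [map_sub, map_add, map_ofNat] using this

theorem PDtwo.map {x a b : K} (h : PDtwo p x a b) : PDtwo p (φ x) (φ a) (φ b) := by
  obtain ⟨cN, cA, c1, c2, vN, vA, va, vb, v1, v2, h1, h2, h3, h4, h5, h6, h7, h8, h9, h10, h11⟩ := h
  refine ⟨φ cN, φ cA, φ c1, φ c2, φ vN, φ vA, φ va, φ vb, φ v1, φ v2, Fr.map φ p h1,
    Fr.map φ p h2, Fr.map φ p h3, Fr.map φ p h4, ?_, ?_, ?_, ?_, ?_, ?_, ?_⟩
  · rw [← C5_vx_map]; exact Fr.map φ p h5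
  · rw [← C5_vx_map]; exact Fr.map φ p h6
  · rw [← C5_vx_map]; exact Fr.map φ p h7
  · rw [← C5_vx_map]; exact Fr.map φ p h8
  · rw [← C5_vx_map]; exact Fr.map φ p h9
  · rw [← C5_vx_map]; exact Fr.map φ p h10
  · have := RelAll.map φ p h11
    simpa only [map_add, map_one] using this

theorem PDR.map {x a b : K} (h : PDR p x a b) : PDR p (φ x) (φ a) (φ b) := by
  rcases h with ⟨h1, h2⟩ | ⟨h1, h2⟩
  · exact Or.inl ⟨h1, PDodd.map φ p h2⟩
  · exact Or.inr ⟨h1, PDtwo.map φ p h2⟩

theorem Fz.of_map {n : ℤ} {x b : K} (h : Fz p n (φ x) (φ b)) : Fz p n x b := by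
  unfold Fz at *
  rw [← map_pow, ← map_pow] at h
  exact φ.injective h

end map

section ext

variable (k : Type u) [Field k]

/-- the embedding of `k(t)` into the rational functions over the algebraic closure -/
noncomputable def C5_emb : RatFunc k →+* RatFunc (AlgebraicClosure k) :=
  IsFractionRing.lift (A := k[X]) (K := RatFunc k)
    (g := (algebraMap (AlgebraicClosure k)[X] (RatFunc (AlgebraicClosure k))).comp
      (Polynomial.mapRingHom (algebraMap k (AlgebraicClosure k))))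
    ((RatFunc.algebraMap_injective _).comp
      (Polynomial.map_injective _ (algebraMap k (AlgebraicClosure k)).injective))

theorem C5_emb_poly (f : k[X]) : C5_emb k (algebraMap k[X] (RatFunc k) f) =
    algebraMap (AlgebraicClosure k)[X] (RatFunc (AlgebraicClosure k))
      (f.map (algebraMap k (AlgebraicClosure k))) := by
  unfold C5_emb
  rw [IsFractionRing.lift_algebraMap]
  rfl

theorem C5_nonconst {x : RatFunc k} (hx : ∀ c : k, x ≠ RatFunc.C c) (c : AlgebraicClosure k) :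
    C5_emb k x ≠ RatFunc.C c := by
  intro h
  have hd : x.denom ≠ 0 := RatFunc.denom_ne_zero x
  have hxe : x * algebraMap k[X] (RatFunc k) x.denom = algebraMap k[X] (RatFunc k) x.num := by
    have h1 := RatFunc.num_div_denom x
    have h2 : algebraMap k[X] (RatFunc k) x.denom ≠ 0 :=
      (map_ne_zero_iff _ (RatFunc.algebraMap_injective k)).2 hd
    rw [div_eq_iff h2] at h1
    exact h1.symm
  have h3 := congrArg (C5_emb k) hxe
  rw [map_mul, C5_emb_poly, C5_emb_poly, h, ← RatFunc.algebraMap_C, ← map_mul] at h3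
  have h4 := RatFunc.algebraMap_injective _ h3
  -- compare the coefficients at the degree of the denominator
  have h5 := congrArg (fun f => f.coeff x.denom.natDegree) h4
  simp only [coeff_C_mul, coeff_map] at h5
  have h6 : x.denom.coeff x.denom.natDegree = 1 := RatFunc.monic_denom x
  rw [h6, map_one, mul_one] at h5
  rw [h5] at h4
  have h7 : (C (x.num.coeff x.denom.natDegree) * x.denom).map (algebraMap k (AlgebraicClosure k)) =
      x.num.map (algebraMap k (AlgebraicClosure k)) := by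
    rw [Polynomial.map_mul, Polynomial.map_C]
    exact h4
  have h8 := Polynomial.map_injective _ (algebraMap k (AlgebraicClosure k)).injective h7
  apply hx (x.num.coeff x.denom.natDegree)
  have h2 : algebraMap k[X] (RatFunc k) x.denom ≠ 0 :=
    (map_ne_zero_iff _ (RatFunc.algebraMap_injective k)).2 hd
  have h9 : x * algebraMap k[X] (RatFunc k) x.denom =
      RatFunc.C (x.num.coeff x.denom.natDegree) * algebraMap k[X] (RatFunc k) x.denom := by
    rw [hxe, ← RatFunc.algebraMap_C, ← map_mul, h8]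
  exact mul_right_cancel₀ h2 h9

end ext

/-- the soundness of the gadget for perfect fields -/
def C5_pd (p : ℕ) : Prop := ∀ (k : Type u) [Field k] [Fact p.Prime] [CharP k p] [PerfectField k]
  (x : RatFunc k), (∀ c : k, x ≠ RatFunc.C c) → ∀ (m n : ℤ) (a b : RatFunc k), Fz p m x a →
    Fz p n x b → PDR p x a b →
      m ≠ 0 ∧ n ≠ 0 ∧ ∃ s t : ℕ, m.natAbs * p ^ s = n.natAbs * p ^ t

theorem C5_PDz {p : ℕ} {m n : ℤ}
    (h : m ≠ 0 ∧ n ≠ 0 ∧ ∃ s t : ℕ, m.natAbs * p ^ s = n.natAbs * p ^ t) : PDz p m n := by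
  obtain ⟨h1, h2, s, t, h3⟩ := h
  refine ⟨h1, h2, s, t, ?_⟩
  have h4 : (m * p ^ s).natAbs = (n * p ^ t).natAbs := by
    rw [Int.natAbs_mul, Int.natAbs_mul, Int.natAbs_pow, Int.natAbs_pow, Int.natAbs_natCast]
    exact h3
  exact Int.natAbs_eq_natAbs_iff.1 h4

theorem snd_of_nonconst_aux (k : Type u) [Field k] (p : ℕ) [Fact p.Prime] [CharP k p]
    (hpd : C5_pd.{u} p) (x : RatFunc k) (hx : ∀ c : k, x ≠ RatFunc.C c) : Snd p x := by
  have hx' := C5_nonconst k hx
  refine ⟨?_, ?_, ?_, ?_, ?_⟩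
  · intro b hb
    obtain ⟨n, hn⟩ := PP.sound p _ _ hx' (PP.map (C5_emb k) p hb)
    exact ⟨n, Fz.of_map (C5_emb k) p hn⟩
  · intro b m n h1 h2
    exact Gad.Fz_exp_unique (Gad.ht_pos_of_nonconst hx) h1 h2
  · intro a y Y h
    obtain ⟨n, h1, h2⟩ := Fr.sound p _ _ _ _ hx' (Fr.map (C5_emb k) p h)
    exact ⟨n, Fz.of_map (C5_emb k) p h1, Fz.of_map (C5_emb k) p h2⟩
  · intro a b m n h1 h2 h
    have h1' : Fz p m (C5_emb k x) (C5_emb k a) := by
      unfold Fz at *
      rw [← map_pow, ← map_pow, h1]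
    have h2' : Fz p n (C5_emb k x) (C5_emb k b) := by
      unfold Fz at *
      rw [← map_pow, ← map_pow, h2]
    exact div_sound p hx' h1' h2' (DivR.map (C5_emb k) p h)
  · intro a b m n h1 h2 h
    have h1' : Fz p m (C5_emb k x) (C5_emb k a) := by
      unfold Fz at *
      rw [← map_pow, ← map_pow, h1]
    have h2' : Fz p n (C5_emb k x) (C5_emb k b) := by
      unfold Fz at *
      rw [← map_pow, ← map_pow, h2]
    exact C5_PDz (hpd _ _ hx' m n _ _ h1' h2' (PDR.map (C5_emb k) p h))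

end Pool.Agent.H367R2.H10
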