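import Mathlib
import Pool.Agent.H367R2.H10.SndDef

set_option autoImplicit false

/-! C6 : arithmetic with the codes. -/

open Polynomial Finset

namespace Pool.Agent.H367R2.H10

universe u

theorem Snd.add {K : Type u} [Field K] {p : ℕ} [Fact p.Prime] [CharP K p] {x : K} (hx : Snd p x)
    {m n : ℤ} {a b c : K} (ha : Fz p m x a) (hb : Fz p n x b) (h : Fr p x a b c) :
    Fz p (m + n) x c := by
  obtain ⟨j, h1, h2⟩ := hx.shift a b c h
  have hj : j = m := hx.uniq a j m h1 ha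
  subst hj
  have h3 := Gad.Fz_trans hb h2
  rwa [add_comm] at h3

theorem Snd.mulC {K : Type u} [Field K] {p : ℕ} [Fact p.Prime] [CharP K p] {x : K}
    (hx : Snd p x) {m : ℤ} (c : ℕ) {a b : K} (ha : Fz p m x a) (h : MulC p x c a b) :
    Fz p (c * m) x b := by
  induction c generalizing b with
  | zero =>
    have h1 : b = x := h
    subst h1
    have h2 : ((0 : ℕ) : ℤ) * m = 0 := by simp
    rw [h2]
    exact Gad.Fz_refl _
  | succ c ih =>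
    obtain ⟨b', h1, h2⟩ := h
    have h3 := hx.add ha (ih h1) h2
    have h4 : ((c + 1 : ℕ) : ℤ) * m = m + (c : ℤ) * m := by push_cast; ring
    rwa [h4]

theorem Snd.add_uniq {K : Type u} [Field K] {p : ℕ} [Fact p.Prime] [CharP K p] {x : K}
    (hx : Snd p x) {m n l : ℤ} {a b c : K} (ha : Fz p m x a) (hb : Fz p n x b)
    (hc : Fz p l x c) (h : Fr p x a b c) : m + n = l :=
  hx.uniq c _ _ (hx.add ha hb h) hc

theorem Snd.codeL {K : Type u} [Field K] {p : ℕ} {x : K}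
    (hx : Snd p x) {a b c : K} (h : Fr p x a b c) : ∃ n : ℤ, Fz p n x a := by
  obtain ⟨n, h1, _⟩ := hx.shift a b c h
  exact ⟨n, h1⟩

theorem Snd.sq_code {K : Type u} [Field K] {p : ℕ} {x : K}
    (hx : Snd p x) {a b : K} (h : SqR p x a b) : ∃ n : ℤ, Fz p n x b := by
  obtain ⟨u0, u, u2, h0, h1, d, one, p1, p3, a1, a2, b1, b2, s1, s2, s3, s4, s5, _, _, _, _, _, _,
    _, _, _, _, _, _, _, _, _, _, _, _, _, _, _, _, _, h3, _⟩ := h
  exact hx.codeL h3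

theorem Snd.sq {K : Type u} [Field K] {p : ℕ} [Fact p.Prime] [CharP K p] {x : K}
    (hx : Snd p x) {m n : ℤ} {a b : K} (ha : Fz p m x a) (hb : Fz p n x b) (h : SqR p x a b) :
    n = m ^ 2 := by
  obtain ⟨u0, u, u2, h0, h1, d, one, p1, p3, a1, a2, b1, b2, s1, s2, s3, s4, s5, hone, hp1, hp3,
    hu0, hu0d, hu, hud, hs1, hs2, hs12, hu2, hu2d, hs3, hs4, hs34, hh0, ha1, ha2, had, hh1,
    hb1, hb2, hbd, hd, hs5, hs5d⟩ := h
  have cone : Fz p 1 x one := by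
    rw [hone]
    have := Gad.Fz_nat (p := p) x 1
    rwa [pow_one] at this
  have cp1 := hx.mulC p cone hp1
  have cp3 := hx.mulC (p ^ 3) cone hp3
  obtain ⟨U0, cu0⟩ := hx.codeL hs2
  obtain ⟨U, cu⟩ := hx.codeL hs1
  obtain ⟨U2, cu2⟩ := hx.codeL hs3
  obtain ⟨H0, ch0⟩ := hx.codeL hh0
  obtain ⟨H, ch⟩ := hx.codeL hh1
  obtain ⟨n', cb', cdu⟩ := hx.shift b d u2 hd
  have cd : Fz p (U2 + -n') x d := Gad.Fz_trans cu2 (Gad.Fz_symm cdu)
  have hn' : n' = n := hx.uniq b _ _ cb' hb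
  subst hn'
  have cs1 := hx.add cu cu0 hs1
  have cs2 := hx.add cu0 cone hs2
  have cs3 := hx.add cu2 cu hs3
  have cs4 := hx.add cu cone hs4
  have ca1 := hx.mulC (2 * p) ha ha1
  have ca2 := hx.add ca1 cone ha2
  have cb1 := hx.mulC (2 * p) hb hb1
  have cb2 := hx.add cb1 cone hb2
  have cs5 := hx.add ha cu hs5
  refine sq_sound p Fact.out m n' U0 U U2 H0 H (U2 + -n') (hx.pd u0 one _ _ cu0 cone hu0) ?_
    (hx.pd u one _ _ cu cone hu) ?_ (hx.pd s1 s2 _ _ cs1 cs2 hs12)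
    (hx.pd u2 one _ _ cu2 cone hu2) ?_ (hx.pd s3 s4 _ _ cs3 cs4 hs34)
    (hx.add_uniq ch0 cone cu0 hh0) ?_ (hx.add_uniq ch cone cu hh1) ?_ (by ring)
    (hx.div s5 d _ _ cs5 cd hs5d)
  · have := hx.div p3 u0 _ _ cp3 cu0 hu0d
    rw [mul_one] at this
    exact_mod_cast this
  · have := hx.div p1 u _ _ cp1 cu hud
    rwa [mul_one] at this
  · have := hx.div p1 u2 _ _ cp1 cu2 hu2d
    rwa [mul_one] at this
  · have := hx.div a2 h0 _ _ ca2 ch0 had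
    push_cast at this
    exact this
  · have := hx.div b2 h1 _ _ cb2 ch hbd
    push_cast at this
    exact this

theorem Snd.mul {K : Type u} [Field K] {p : ℕ} [Fact p.Prime] [CharP K p] {x : K}
    (hx : Snd p x) {l m n : ℤ} {a b c : K} (ha : Fz p l x a) (hb : Fz p m x b)
    (hc : Fz p n x c) (h : MulR p x a b c) : n = l * m := by
  obtain ⟨s, s2, a2, b2, c2, e1, hs, hs2, ha2, hb2, hc2, he1, hf⟩ := h
  have cs := hx.add ha hb hs
  obtain ⟨A2, ca2⟩ := hx.sq_code ha2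
  obtain ⟨B2, cb2⟩ := hx.sq_code hb2
  obtain ⟨S2, cs2⟩ := hx.sq_code hs2
  have cc2 := hx.add hc hc hc2
  have ce1 := hx.add ca2 cb2 he1
  have h1 := hx.add_uniq ce1 cc2 cs2 hf
  have h2 := hx.sq ha ca2 ha2
  have h3 := hx.sq hb cb2 hb2
  have h4 := hx.sq cs cs2 hs2
  rw [h2, h3, h4] at h1
  nlinarith

section complete

variable {k : Type u} [Field k] (p : ℕ) [Fact p.Prime] [CharP k p]

theorem sqR_complete_aux
    (Fr_tt : ∀ m n : ℕ, Fr p (RatFunc.X : RatFunc k) (RatFunc.X ^ p ^ m) (RatFunc.X ^ p ^ n)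
      (RatFunc.X ^ p ^ (m + n)))
    (mulC_complete : ∀ c m : ℕ,
      MulC p (RatFunc.X : RatFunc k) c (RatFunc.X ^ p ^ m) (RatFunc.X ^ p ^ (c * m)))
    (div_complete : ∀ (m n : ℕ), 1 ≤ m → 1 ≤ n → m ∣ n →
      DivR p (RatFunc.X : RatFunc k) (RatFunc.X ^ p ^ m) (RatFunc.X ^ p ^ n))
    (pd_complete : ∀ (m n s : ℕ), 1 ≤ n → 1 ≤ s → m = p ^ s * n →
      PDR p (RatFunc.X : RatFunc k) (RatFunc.X ^ p ^ m) (RatFunc.X ^ p ^ n))
    (m : ℕ) (hm : 1 ≤ m) :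
    SqR p (RatFunc.X : RatFunc k) (RatFunc.X ^ p ^ m) (RatFunc.X ^ p ^ (m ^ 2)) := by
  have hp : p.Prime := Fact.out
  obtain ⟨u0, u, u2, h0, h, d, s, hs, hu0, hu, hu2, hh0, hh, hd, e1, e2, e3, e4, e5, e6, e7, e8⟩ :=
    sq_complete p hp m hm
  have hppos : 0 < p := hp.pos
  have hu0p : 1 ≤ u0 := by rw [hu0]; exact Nat.one_le_pow _ _ hppos
  have hup : 1 ≤ u := by rw [hu]; exact Nat.one_le_pow _ _ hppos
  have hu2p : 1 ≤ u2 := by rw [hu2]; exact Nat.one_le_pow _ _ hppos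
  have key : ∀ (M N L : ℕ), M + N = L → Fr p (RatFunc.X : RatFunc k) (RatFunc.X ^ p ^ M)
      (RatFunc.X ^ p ^ N) (RatFunc.X ^ p ^ L) := by
    intro M N L hL
    rw [← hL]
    exact Fr_tt M N
  have one1 : (RatFunc.X : RatFunc k) ^ p = RatFunc.X ^ p ^ 1 := by rw [pow_one]
  refine ⟨RatFunc.X ^ p ^ u0, RatFunc.X ^ p ^ u, RatFunc.X ^ p ^ u2, RatFunc.X ^ p ^ h0,
    RatFunc.X ^ p ^ h, RatFunc.X ^ p ^ d, RatFunc.X ^ p ^ 1, RatFunc.X ^ p ^ (p * 1),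
    RatFunc.X ^ p ^ (p ^ 3 * 1), RatFunc.X ^ p ^ (2 * p * m), RatFunc.X ^ p ^ (2 * p * m + 1),
    RatFunc.X ^ p ^ (2 * p * m ^ 2), RatFunc.X ^ p ^ (2 * p * m ^ 2 + 1),
    RatFunc.X ^ p ^ (u + u0), RatFunc.X ^ p ^ (u0 + 1), RatFunc.X ^ p ^ (u2 + u),
    RatFunc.X ^ p ^ (u + 1), RatFunc.X ^ p ^ (m + u), one1.symm, mulC_complete p 1,
    mulC_complete (p ^ 3) 1, pd_complete u0 1 s le_rfl (by omega) (by rw [hu0, mul_one]),
    div_complete _ _ ?_ hu0p ?_, pd_complete u 1 (2 * s) le_rfl (by omega) (by rw [hu, mul_one]),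
    div_complete _ _ ?_ hup ?_, key _ _ _ rfl, key _ _ _ rfl,
    pd_complete _ _ s (by omega) (by omega) e1,
    pd_complete u2 1 (4 * s) le_rfl (by omega) (by rw [hu2, mul_one]),
    div_complete _ _ ?_ hu2p ?_, key _ _ _ rfl, key _ _ _ rfl,
    pd_complete _ _ (2 * s) (by omega) (by omega) e2, key _ _ _ e3, mulC_complete _ _,
    key _ _ _ rfl, div_complete _ _ (by omega) hh0 e4, key _ _ _ e5, mulC_complete _ _,
    key _ _ _ rfl, div_complete _ _ (by omega) hh e6, key _ _ _ e7, key _ _ _ rfl,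
    div_complete _ _ (by omega) hd e8⟩
  · rw [mul_one]; exact Nat.one_le_pow _ _ hppos
  · rw [mul_one, hu0]; exact pow_dvd_pow p hs
  · omega
  · rw [mul_one, hu]; exact dvd_pow_self p (by omega)
  · omega
  · rw [mul_one, hu2]; exact dvd_pow_self p (by omega)

theorem mulR_complete_aux
    (Fr_tt : ∀ m n : ℕ, Fr p (RatFunc.X : RatFunc k) (RatFunc.X ^ p ^ m) (RatFunc.X ^ p ^ n)
      (RatFunc.X ^ p ^ (m + n)))
    (mulC_complete : ∀ c m : ℕ,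
      MulC p (RatFunc.X : RatFunc k) c (RatFunc.X ^ p ^ m) (RatFunc.X ^ p ^ (c * m)))
    (div_complete : ∀ (m n : ℕ), 1 ≤ m → 1 ≤ n → m ∣ n →
      DivR p (RatFunc.X : RatFunc k) (RatFunc.X ^ p ^ m) (RatFunc.X ^ p ^ n))
    (pd_complete : ∀ (m n s : ℕ), 1 ≤ n → 1 ≤ s → m = p ^ s * n →
      PDR p (RatFunc.X : RatFunc k) (RatFunc.X ^ p ^ m) (RatFunc.X ^ p ^ n))
    (m n : ℕ) (hm : 1 ≤ m) (hn : 1 ≤ n) :
    MulR p (RatFunc.X : RatFunc k) (RatFunc.X ^ p ^ m) (RatFunc.X ^ p ^ n)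
      (RatFunc.X ^ p ^ (m * n)) := by
  have sqc := sqR_complete_aux p Fr_tt mulC_complete div_complete pd_complete
  have key : ∀ (M N L : ℕ), M + N = L → Fr p (RatFunc.X : RatFunc k) (RatFunc.X ^ p ^ M)
      (RatFunc.X ^ p ^ N) (RatFunc.X ^ p ^ L) := by
    intro M N L hL
    rw [← hL]
    exact Fr_tt M N
  exact ⟨RatFunc.X ^ p ^ (m + n), RatFunc.X ^ p ^ ((m + n) ^ 2), RatFunc.X ^ p ^ (m ^ 2),
    RatFunc.X ^ p ^ (n ^ 2), RatFunc.X ^ p ^ (m * n + m * n), RatFunc.X ^ p ^ (m ^ 2 + n ^ 2),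
    key _ _ _ rfl, sqc (m + n) (by omega), sqc m hm, sqc n hn, key _ _ _ rfl, key _ _ _ rfl,
    key _ _ _ (by ring)⟩

end complete

end Pool.Agent.H367R2.H10
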