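import Mathlib
import Pool.Agent.H367R2.H10.Defs

set_option autoImplicit false

open Polynomial

namespace Pool.Agent.H367R2.H10

/-! ### T6 : positive existential definability -/

universe u
variable {K : Type u} [Field K]

/-- `S` is positive existentially definable (by finitely many polynomial equations with integer
coefficients, with existentially quantified variables) -/
def ED {α : Type} (S : (α → K) → Prop) : Prop :=
  ∃ (n : ℕ) (L : List (MvPolynomial (α ⊕ Fin n) ℤ)), ∀ v : α → K,
    S v ↔ ∃ w : Fin n → K, ∀ P ∈ L, MvPolynomial.aeval (Sum.elim v w) P = 0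

/-- polynomial functions with integer coefficients -/
def PF {α : Type} (f : (α → K) → K) : Prop :=
  ∃ P : MvPolynomial α ℤ, ∀ v : α → K, f v = MvPolynomial.aeval v P

theorem PF.var {α : Type} (i : α) : PF (K := K) fun v => v i :=
  ⟨MvPolynomial.X i, fun v => (MvPolynomial.aeval_X v i).symm⟩

theorem PF.int {α : Type} (n : ℤ) : PF (K := K) (α := α) fun _ => (n : K) :=
  ⟨MvPolynomial.C n, fun v => by rw [MvPolynomial.aeval_C]; simp⟩

theorem PF.add {α : Type} {f g : (α → K) → K} (hf : PF f) (hg : PF g) :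
    PF fun v => f v + g v := by
  obtain ⟨P, hP⟩ := hf
  obtain ⟨Q, hQ⟩ := hg
  exact ⟨P + Q, fun v => by rw [map_add, ← hP, ← hQ]⟩

theorem PF.sub {α : Type} {f g : (α → K) → K} (hf : PF f) (hg : PF g) :
    PF fun v => f v - g v := by
  obtain ⟨P, hP⟩ := hf
  obtain ⟨Q, hQ⟩ := hg
  exact ⟨P - Q, fun v => by rw [map_sub, ← hP, ← hQ]⟩

theorem PF.mul {α : Type} {f g : (α → K) → K} (hf : PF f) (hg : PF g) :
    PF fun v => f v * g v := by
  obtain ⟨P, hP⟩ := hf
  obtain ⟨Q, hQ⟩ := hg
  exact ⟨P * Q, fun v => by rw [map_mul, ← hP, ← hQ]⟩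

theorem PF.pow {α : Type} {f : (α → K) → K} (hf : PF f) (n : ℕ) : PF fun v => f v ^ n := by
  obtain ⟨P, hP⟩ := hf
  exact ⟨P ^ n, fun v => by rw [map_pow, ← hP]⟩

theorem PF.lift {α β : Type} {f : (α → K) → K} (hf : PF f) (r : α → β) :
    PF (α := β) fun v => f (fun i => v (r i)) := by
  obtain ⟨P, hP⟩ := hf
  exact ⟨MvPolynomial.rename r P, fun v => by rw [MvPolynomial.aeval_rename]; exact hP _⟩

theorem ED.congr {α : Type} {S T : (α → K) → Prop} (hS : ED S) (h : ∀ v, T v ↔ S v) : ED T := by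
  obtain ⟨n, L, hL⟩ := hS
  exact ⟨n, L, fun v => (h v).trans (hL v)⟩

theorem ED.eq {α : Type} {f g : (α → K) → K} (hf : PF f) (hg : PF g) :
    ED fun v => f v = g v := by
  obtain ⟨P, hP⟩ := hf
  obtain ⟨Q, hQ⟩ := hg
  refine ⟨0, [MvPolynomial.rename Sum.inl (P - Q)], fun v => ?_⟩
  have key : ∀ w : Fin 0 → K,
      MvPolynomial.aeval (Sum.elim v w) (MvPolynomial.rename Sum.inl (P - Q)) = f v - g v := by
    intro w
    rw [MvPolynomial.aeval_rename, map_sub, hP, hQ]
    rfl
  constructor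
  · intro h
    refine ⟨fun i => i.elim0, fun R hR => ?_⟩
    rw [List.mem_singleton] at hR
    rw [hR, key, sub_eq_zero]
    exact h
  · rintro ⟨w, hw⟩
    have := hw _ (List.mem_singleton.2 rfl)
    rw [key, sub_eq_zero] at this
    exact this

theorem ED.and {α : Type} {S T : (α → K) → Prop} (hS : ED S) (hT : ED T) :
    ED fun v => S v ∧ T v := by
  obtain ⟨n, L, hL⟩ := hS
  obtain ⟨m, M, hM⟩ := hT
  refine ⟨n + m, L.map (MvPolynomial.rename (Sum.map id (Fin.castAdd m))) ++
    M.map (MvPolynomial.rename (Sum.map id (Fin.natAdd n))), fun v => ?_⟩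
  have e1 : ∀ (w : Fin (n + m) → K),
      (Sum.elim v w) ∘ (Sum.map id (Fin.castAdd m)) = Sum.elim v (fun i => w (Fin.castAdd m i)) := by
    intro w; funext i; cases i <;> rfl
  have e2 : ∀ (w : Fin (n + m) → K),
      (Sum.elim v w) ∘ (Sum.map id (Fin.natAdd n)) = Sum.elim v (fun i => w (Fin.natAdd n i)) := by
    intro w; funext i; cases i <;> rfl
  constructor
  · rintro ⟨h1, h2⟩
    obtain ⟨w1, hw1⟩ := (hL v).1 h1
    obtain ⟨w2, hw2⟩ := (hM v).1 h2
    refine ⟨Fin.append w1 w2, fun P hP => ?_⟩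
    rcases List.mem_append.1 hP with hP | hP
    · obtain ⟨Q, hQ, rfl⟩ := List.mem_map.1 hP
      rw [MvPolynomial.aeval_rename, e1]
      simp only [Fin.append_left]
      exact hw1 Q hQ
    · obtain ⟨Q, hQ, rfl⟩ := List.mem_map.1 hP
      rw [MvPolynomial.aeval_rename, e2]
      simp only [Fin.append_right]
      exact hw2 Q hQ
  · rintro ⟨w, hw⟩
    refine ⟨(hL v).2 ⟨fun i => w (Fin.castAdd m i), fun P hP => ?_⟩,
      (hM v).2 ⟨fun i => w (Fin.natAdd n i), fun P hP => ?_⟩⟩
    · have := hw _ (List.mem_append_left _ (List.mem_map_of_mem hP))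
      rw [MvPolynomial.aeval_rename, e1] at this
      exact this
    · have := hw _ (List.mem_append_right _ (List.mem_map_of_mem hP))
      rw [MvPolynomial.aeval_rename, e2] at this
      exact this

theorem ED.ex {α : Type} {S : (Option α → K) → Prop} (hS : ED S) :
    ED fun v : α → K => ∃ y : K, S (fun i => Option.elim i y v) := by
  obtain ⟨n, L, hL⟩ := hS
  let r : Option α ⊕ Fin n → α ⊕ Fin (n + 1) :=
    Sum.elim (fun o => Option.elim o (Sum.inr 0) Sum.inl) (fun j => Sum.inr j.succ)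
  refine ⟨n + 1, L.map (MvPolynomial.rename r), fun v => ?_⟩
  have e : ∀ (w : Fin (n + 1) → K), (Sum.elim v w) ∘ r =
      Sum.elim (fun i => Option.elim i (w 0) v) (fun j => w j.succ) := by
    intro w
    funext i
    rcases i with (_ | i) | j <;> rfl
  constructor
  · rintro ⟨y, hy⟩
    obtain ⟨w, hw⟩ := (hL _).1 hy
    refine ⟨Fin.cons y w, fun P hP => ?_⟩
    obtain ⟨Q, hQ, rfl⟩ := List.mem_map.1 hP
    rw [MvPolynomial.aeval_rename, e]
    simp only [Fin.cons_zero, Fin.cons_succ]
    exact hw Q hQ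
  · rintro ⟨w, hw⟩
    refine ⟨w 0, (hL _).2 ⟨fun j => w j.succ, fun P hP => ?_⟩⟩
    have := hw _ (List.mem_map_of_mem hP)
    rw [MvPolynomial.aeval_rename, e] at this
    exact this

theorem ED.ne {α : Type} {f g : (α → K) → K} (hf : PF f) (hg : PF g) :
    ED fun v => f v ≠ g v := by
  have h1 : PF (α := Option α) fun v : Option α → K => f (fun i => v (some i)) := hf.lift some
  have h2 : PF (α := Option α) fun v : Option α → K => g (fun i => v (some i)) := hg.lift some
  have h3 : ED (α := Option α) fun v : Option α → K =>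
      (f (fun i => v (some i)) - g (fun i => v (some i))) * v none = ((1 : ℤ) : K) :=
    ED.eq ((h1.sub h2).mul (PF.var none)) (PF.int 1)
  refine h3.ex.congr fun v => ?_
  constructor
  · intro h
    refine ⟨(f v - g v)⁻¹, ?_⟩
    simp only [Option.elim, Int.cast_one]
    exact mul_inv_cancel₀ (sub_ne_zero.2 h)
  · rintro ⟨y, hy⟩ h
    simp only [Option.elim, Int.cast_one] at hy
    rw [h, sub_self, zero_mul] at hy
    exact zero_ne_one hy

theorem ED.lift {α β : Type} {S : (α → K) → Prop} (hS : ED S) (r : α → β) :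
    ED (α := β) fun v => S (fun i => v (r i)) := by
  obtain ⟨n, L, hL⟩ := hS
  refine ⟨n, L.map (MvPolynomial.rename (Sum.map r id)), fun v => ?_⟩
  have e : ∀ (w : Fin n → K), (Sum.elim v w) ∘ (Sum.map r id) =
      Sum.elim (fun i => v (r i)) w := by
    intro w
    funext i
    rcases i with i | j <;> rfl
  refine (hL _).trans ?_
  constructor
  · rintro ⟨w, hw⟩
    refine ⟨w, fun P hP => ?_⟩
    obtain ⟨Q, hQ, rfl⟩ := List.mem_map.1 hP
    rw [MvPolynomial.aeval_rename, e]
    exact hw Q hQ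
  · rintro ⟨w, hw⟩
    refine ⟨w, fun P hP => ?_⟩
    have := hw _ (List.mem_map_of_mem hP)
    rw [MvPolynomial.aeval_rename, e] at this
    exact this

theorem ED.true {α : Type} : ED (K := K) fun _ : α → K => True :=
  ⟨0, [], fun v => ⟨fun _ => ⟨fun i => i.elim0, fun P hP => by simp at hP⟩, fun _ => trivial⟩⟩

theorem ED.all_list {α β : Type} (L : List β) {S : β → (α → K) → Prop} (h : ∀ b ∈ L, ED (S b)) :
    ED fun v => ∀ b ∈ L, S b v := by
  induction L with
  | nil => exact ED.true.congr fun v => by simp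
  | cons a L ih =>
    have h1 := h a (List.mem_cons_self ..)
    have h2 := ih fun b hb => h b (List.mem_cons_of_mem a hb)
    exact (h1.and h2).congr fun v => by simp

end Pool.Agent.H367R2.H10
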