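import Mathlib
import Pool.Agent.H367R2.H10.Defs3
import Pool.Agent.H367R2.H10.T6

set_option autoImplicit false

/-! Existential definability of the gadgets. -/

open Polynomial Finset

namespace Pool.Agent.H367R2.H10

universe u
variable {K : Type u} [Field K]

theorem ED.ex' {α : Type} {S : (α → K) → K → Prop}
    (h : ED fun w : Option α → K => S (fun i => w (some i)) (w none)) :
    ED fun v => ∃ y, S v y := ED.ex h

theorem PF.nat {α : Type} (n : ℕ) : PF (K := K) (α := α) fun _ => (n : K) := by
  have := PF.int (K := K) (α := α) n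
  simpa using this

theorem PF.one {α : Type} : PF (K := K) (α := α) fun _ => (1 : K) := by
  have := PF.int (K := K) (α := α) 1
  simpa using this

theorem PF.four {α : Type} : PF (K := K) (α := α) fun _ => (4 : K) := by
  have := PF.int (K := K) (α := α) 4
  simpa using this

/-- existential quantification over finitely many variables -/
theorem ED.exFintype {α V : Type} [Fintype V] {S : (α → K) → (V → K) → Prop}
    (h : ED fun w : α ⊕ V → K => S (fun i => w (Sum.inl i)) (fun i => w (Sum.inr i))) :
    ED fun v => ∃ y : V → K, S v y := by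
  classical
  obtain ⟨n, L, hL⟩ := h
  let e : V ≃ Fin (Fintype.card V) := Fintype.equivFin V
  let r : (α ⊕ V) ⊕ Fin n → α ⊕ Fin (Fintype.card V + n) :=
    Sum.elim (Sum.elim Sum.inl (fun i => Sum.inr (Fin.castAdd n (e i))))
      (fun j => Sum.inr (Fin.natAdd _ j))
  refine ⟨Fintype.card V + n, L.map (MvPolynomial.rename r), fun v => ?_⟩
  have key : ∀ (w : Fin (Fintype.card V + n) → K), (Sum.elim v w) ∘ r =
      Sum.elim (Sum.elim v (fun i => w (Fin.castAdd n (e i)))) (fun j => w (Fin.natAdd _ j)) := by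
    intro w
    funext i
    rcases i with (i | i) | j <;> rfl
  constructor
  · rintro ⟨y, hy⟩
    have h1 := (hL (Sum.elim v y)).1 hy
    obtain ⟨w, hw⟩ := h1
    refine ⟨Fin.append (fun j => y (e.symm j)) w, fun P hP => ?_⟩
    obtain ⟨Q, hQ, rfl⟩ := List.mem_map.1 hP
    rw [MvPolynomial.aeval_rename, key]
    simp only [Fin.append_left, Fin.append_right, Equiv.symm_apply_apply]
    exact hw Q hQ
  · rintro ⟨w, hw⟩
    refine ⟨fun i => w (Fin.castAdd n (e i)), (hL (Sum.elim v _)).2
      ⟨fun j => w (Fin.natAdd _ j), fun P hP => ?_⟩⟩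
    have := hw _ (List.mem_map_of_mem hP)
    rw [MvPolynomial.aeval_rename, key] at this
    exact this

theorem ED_AS {α : Type} (p : ℕ) {f : (α → K) → K} (hf : PF f) : ED fun v => AS p (f v) := by
  unfold AS
  refine ED.ex' ?_
  exact ED.eq (((PF.var none).pow p).sub (PF.var none)) (hf.lift some)

theorem ED_PP {α : Type} (p : ℕ) {x b : (α → K) → K} (hx : PF x) (hb : PF b) :
    ED fun v => PP p (x v) (b v) := by
  have h : ED fun v => x v ^ p ^ 4 ≠ x v ∧ b v ^ p ^ 4 ≠ b v ∧
      ∃ u w : K, u * (x v ^ p ^ 4 - x v) = 1 ∧ w * (b v ^ p ^ 4 - b v) = 1 ∧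
        AS p (w - u) ∧ AS p (b v * w - x v * u) := by
    refine (ED.ne (hx.pow _) hx).and ((ED.ne (hb.pow _) hb).and ?_)
    refine ED.ex' (ED.ex' ?_)
    have hx' : PF (α := Option (Option α)) fun w : Option (Option α) → K =>
      x (fun i => w (some (some i))) := PF.lift hx _
    have hb' : PF (α := Option (Option α)) fun w : Option (Option α) → K =>
      b (fun i => w (some (some i))) := PF.lift hb _
    have hu : PF (α := Option (Option α)) fun w : Option (Option α) → K => w (some none) :=
      PF.var _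
    have hw : PF (α := Option (Option α)) fun w : Option (Option α) → K => w none :=
      PF.var _
    exact (ED.eq (hu.mul ((hx'.pow _).sub hx')) PF.one).and
      ((ED.eq (hw.mul ((hb'.pow _).sub hb')) PF.one).and
        ((ED_AS p (hw.sub hu)).and (ED_AS p ((hb'.mul hw).sub (hx'.mul hu)))))
  refine h.congr fun v => ?_
  unfold PP
  constructor
  · rintro ⟨h1, h2, h3, h4⟩
    refine ⟨h1, h2, (x v ^ p ^ 4 - x v)⁻¹, (b v ^ p ^ 4 - b v)⁻¹, ?_, ?_, h3, h4⟩
    · exact inv_mul_cancel₀ (sub_ne_zero.2 h1)
    · exact inv_mul_cancel₀ (sub_ne_zero.2 h2)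
  · rintro ⟨h1, h2, u, w, h3, h4, h5, h6⟩
    have e1 : u = (x v ^ p ^ 4 - x v)⁻¹ := eq_inv_of_mul_eq_one_left h3
    have e2 : w = (b v ^ p ^ 4 - b v)⁻¹ := eq_inv_of_mul_eq_one_left h4
    rw [← e1, ← e2]
    exact ⟨h1, h2, h5, h6⟩

theorem ED_Fr {α : Type} (p : ℕ) {x b y Y : (α → K) → K} (hx : PF x) (hb : PF b) (hy : PF y)
    (hY : PF Y) : ED fun v => Fr p (x v) (b v) (y v) (Y v) := by
  unfold Fr
  exact (ED_PP p hx hb).and ((ED_PP p hy hY).and ((ED_PP p (hx.mul hy) (hb.mul hY)).and
    (ED_PP p ((hx.add PF.one).mul hy) ((hb.add PF.one).mul hY))))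

/-- elimination of `vx` -/
theorem ED_vx {α : Type} (p : ℕ) {x : (α → K) → K} (hx : PF x) {S : (α → K) → K → Prop}
    (hS : ED fun w : Option α → K => S (fun i => w (some i)) (w none))
    (h : ∀ v, S v (vx p (x v)) → x v ^ p ^ 4 ≠ x v) : ED fun v => S v (vx p (x v)) := by
  have h1 : ED fun v => ∃ u : K, u * (x v ^ p ^ 4 - x v) = 1 ∧ S v u := by
    refine ED.ex' ?_
    have hx' : PF fun w : Option α → K => x (fun i => w (some i)) := PF.lift hx _
    exact (ED.eq ((PF.var none).mul ((hx'.pow _).sub hx')) PF.one).and hS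
  refine h1.congr fun v => ?_
  constructor
  · intro h2
    exact ⟨vx p (x v), inv_mul_cancel₀ (sub_ne_zero.2 (h v h2)), h2⟩
  · rintro ⟨u, h2, h3⟩
    have e1 : u = vx p (x v) := eq_inv_of_mul_eq_one_left h2
    rwa [← e1]

theorem ED_MulC (p : ℕ) (c : ℕ) : ∀ {α : Type} {x a b : (α → K) → K} (_ : PF x)
    (_ : PF a) (_ : PF b), ED fun v => MulC p (x v) c (a v) (b v) := by
  induction c with
  | zero => intro α x a b hx ha hb; exact ED.eq hb hx
  | succ c ih =>
    intro α x a b hx ha hb
    change ED fun v => ∃ b' : K, MulC p (x v) c (a v) b' ∧ Fr p (x v) (a v) b' (b v)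
    refine ED.ex' ?_
    have hx' := PF.lift hx (some : α → Option α)
    have ha' := PF.lift ha (some : α → Option α)
    have hb' := PF.lift hb (some : α → Option α)
    exact (ih hx' ha' (PF.var none)).and (ED_Fr p hx' ha' (PF.var none) hb')

theorem ED_DivR {α : Type} (p : ℕ) {x a b : (α → K) → K} (hx : PF x) (ha : PF a)
    (hb : PF b) : ED fun v => DivR p (x v) (a v) (b v) := by
  have h : ED fun w : Option α → K => ∃ y Y W : K,
      Fr p (x (fun i => w (some i))) (a (fun i => w (some i))) y Y ∧
      Fr p (x (fun i => w (some i))) (b (fun i => w (some i))) (w none) W ∧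
      Y - y = W - w none := by
    refine ED.ex' (ED.ex' (ED.ex' ?_))
    have hx' := PF.lift hx (fun i : α => (some (some (some (some i))) : Option (Option (Option (Option α)))))
    have ha' := PF.lift ha (fun i : α => (some (some (some (some i))) : Option (Option (Option (Option α)))))
    have hb' := PF.lift hb (fun i : α => (some (some (some (some i))) : Option (Option (Option (Option α)))))
    exact (ED_Fr p hx' ha' (PF.var (some (some none))) (PF.var (some none))).and
      ((ED_Fr p hx' hb' (PF.var (some (some (some none)))) (PF.var none)).and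
        (ED.eq ((PF.var (some none)).sub (PF.var (some (some none))))
          ((PF.var none).sub (PF.var (some (some (some none)))))))
  exact ED_vx (S := fun v t => ∃ y Y W : K, Fr p (x v) (a v) y Y ∧ Fr p (x v) (b v) t W ∧
    Y - y = W - t) p hx h (fun v ⟨y, Y, W, h1, _⟩ => h1.1.1)

end Pool.Agent.H367R2.H10
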