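import Mathlib
import Pool.Agent.H367R2.H10.EDs

set_option autoImplicit false

/-! Existential definability of the gadgets, second part. -/

open Polynomial Finset

namespace Pool.Agent.H367R2.H10

universe u
variable {K : Type u} [Field K]

theorem ED_RelK {α : Type} (p : ℕ) {x κ c4 vA z1 z2 U : (α → K) → K} (hx : PF x) (hκ : PF κ)
    (hc : PF c4) (hA : PF vA) (h1 : PF z1) (h2 : PF z2) (hU : PF U) :
    ED fun v => RelK p (x v) (κ v) (c4 v) (vA v) (z1 v) (z2 v) (U v) := by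
  unfold RelK
  refine ED.ex' (ED.ex' (ED.ex' ?_))
  refine ED.and (ED_Fr _ ?_ ?_ ?_ ?_) (ED.and (ED_Fr _ ?_ ?_ ?_ ?_)
    (ED.and (ED_Fr _ ?_ ?_ ?_ ?_) (ED.and (ED_AS _ ?_) (ED_AS _ ?_)))) <;>
  (repeat' first
    | assumption
    | exact PF.one
    | exact PF.four
    | exact PF.var _
    | refine PF.add ?_ ?_
    | refine PF.sub ?_ ?_
    | refine PF.mul ?_ ?_
    | refine PF.pow ?_ _
    | (refine PF.lift ?_ _; assumption))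

theorem ED_RelAll {α : Type} (p : ℕ) {x a b c4 vN vA U : (α → K) → K} (hx : PF x) (ha : PF a)
    (hb : PF b) (hc : PF c4) (hN : PF vN) (hA : PF vA) (hU : PF U) :
    ED fun v => RelAll p (x v) (a v) (b v) (c4 v) (vN v) (vA v) (U v) := by
  unfold RelAll
  refine ED.ex' (ED.ex' (ED.ex' (ED.ex' ?_)))
  refine ED.and (ED.ne ?_ ?_) (ED.and (ED.ne ?_ ?_) (ED.and (ED.ne ?_ ?_)
    (ED.and (ED_MulC _ _ ?_ ?_ ?_) (ED.and (ED_MulC _ _ ?_ ?_ ?_)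
    (ED.and (ED_DivR _ ?_ ?_ ?_) (ED.and (ED_DivR _ ?_ ?_ ?_)
    (ED.and (ED_RelK _ ?_ ?_ ?_ ?_ ?_ ?_ ?_) (ED.and (ED_RelK _ ?_ ?_ ?_ ?_ ?_ ?_ ?_)
      (ED_RelK _ ?_ ?_ ?_ ?_ ?_ ?_ ?_))))))))) <;>
  (repeat' first
    | assumption
    | exact PF.one
    | exact PF.four
    | exact PF.var _
    | refine PF.add ?_ ?_
    | refine PF.sub ?_ ?_
    | refine PF.mul ?_ ?_
    | refine PF.pow ?_ _
    | (refine PF.lift ?_ _; assumption))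

theorem ED_PDodd {α : Type} (p : ℕ) {x a b : (α → K) → K} (hx : PF x) (ha : PF a)
    (hb : PF b) : ED fun v => PDodd p (x v) (a v) (b v) := by
  refine ED_vx (S := fun v t => ∃ cN cA a4 b4 cS vN vA va vb vS : K,
    Fr p (x v) (a v) (b v) cN ∧ Fr p (x v) cN cN cA ∧
    MulC p (x v) 4 (a v) a4 ∧ MulC p (x v) 4 (b v) b4 ∧ Fr p (x v) cA cA cS ∧
    Fr p (x v) cN t vN ∧ Fr p (x v) cA t vA ∧ Fr p (x v) a4 t va ∧
    Fr p (x v) b4 t vb ∧ Fr p (x v) cS t vS ∧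
    RelAll p (x v) (a v) (b v) 4 vN vA (vS + va + vb + t - vA)) p hx ?_ ?_
  · refine ED.ex' (ED.ex' (ED.ex' (ED.ex' (ED.ex' (ED.ex' (ED.ex' (ED.ex' (ED.ex' (ED.ex' ?_)))))))))
    refine ED.and (ED_Fr _ ?_ ?_ ?_ ?_) (ED.and (ED_Fr _ ?_ ?_ ?_ ?_)
      (ED.and (ED_MulC _ _ ?_ ?_ ?_) (ED.and (ED_MulC _ _ ?_ ?_ ?_)
      (ED.and (ED_Fr _ ?_ ?_ ?_ ?_) (ED.and (ED_Fr _ ?_ ?_ ?_ ?_) (ED.and (ED_Fr _ ?_ ?_ ?_ ?_)
      (ED.and (ED_Fr _ ?_ ?_ ?_ ?_) (ED.and (ED_Fr _ ?_ ?_ ?_ ?_) (ED.and (ED_Fr _ ?_ ?_ ?_ ?_)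
        (ED_RelAll _ ?_ ?_ ?_ ?_ ?_ ?_ ?_)))))))))) <;>
  (repeat' first
    | assumption
    | exact PF.one
    | exact PF.four
    | exact PF.var _
    | refine PF.add ?_ ?_
    | refine PF.sub ?_ ?_
    | refine PF.mul ?_ ?_
    | refine PF.pow ?_ _
    | (refine PF.lift ?_ _; assumption))
  · rintro v ⟨_, _, _, _, _, _, _, _, _, _, h, _⟩
    exact h.1.1

theorem ED_PDtwo {α : Type} (p : ℕ) {x a b : (α → K) → K} (hx : PF x) (ha : PF a)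
    (hb : PF b) : ED fun v => PDtwo p (x v) (a v) (b v) := by
  refine ED_vx (S := fun v t => ∃ cN cA c1 c2 vN vA va vb v1 v2 : K,
    Fr p (x v) cN cN (a v) ∧ Fr p (x v) (a v) (b v) cA ∧
    Fr p (x v) (a v) cA c1 ∧ Fr p (x v) cA (b v) c2 ∧
    Fr p (x v) cN t vN ∧ Fr p (x v) cA t vA ∧ Fr p (x v) (a v) t va ∧
    Fr p (x v) (b v) t vb ∧ Fr p (x v) c1 t v1 ∧ Fr p (x v) c2 t v2 ∧
    RelAll p (x v) (a v) (b v) 1 vN vA (v1 + vb + v2 + va)) p hx ?_ ?_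
  · refine ED.ex' (ED.ex' (ED.ex' (ED.ex' (ED.ex' (ED.ex' (ED.ex' (ED.ex' (ED.ex' (ED.ex' ?_)))))))))
    refine ED.and (ED_Fr _ ?_ ?_ ?_ ?_) (ED.and (ED_Fr _ ?_ ?_ ?_ ?_)
      (ED.and (ED_Fr _ ?_ ?_ ?_ ?_) (ED.and (ED_Fr _ ?_ ?_ ?_ ?_)
      (ED.and (ED_Fr _ ?_ ?_ ?_ ?_) (ED.and (ED_Fr _ ?_ ?_ ?_ ?_) (ED.and (ED_Fr _ ?_ ?_ ?_ ?_)
      (ED.and (ED_Fr _ ?_ ?_ ?_ ?_) (ED.and (ED_Fr _ ?_ ?_ ?_ ?_) (ED.and (ED_Fr _ ?_ ?_ ?_ ?_)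
        (ED_RelAll _ ?_ ?_ ?_ ?_ ?_ ?_ ?_)))))))))) <;>
  (repeat' first
    | assumption
    | exact PF.one
    | exact PF.four
    | exact PF.var _
    | refine PF.add ?_ ?_
    | refine PF.sub ?_ ?_
    | refine PF.mul ?_ ?_
    | refine PF.pow ?_ _
    | (refine PF.lift ?_ _; assumption))
  · rintro v ⟨_, _, _, _, _, _, _, _, _, _, h, _⟩
    exact h.1.1

theorem ED_PDR {α : Type} (p : ℕ) {x a b : (α → K) → K} (hx : PF x) (ha : PF a)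
    (hb : PF b) : ED fun v => PDR p (x v) (a v) (b v) := by
  by_cases hp : p = 2
  · refine (ED_PDtwo p hx ha hb).congr fun v => ?_
    unfold PDR
    constructor
    · rintro (h | h)
      · exact absurd hp h.1
      · exact h.2
    · intro h; exact Or.inr ⟨hp, h⟩
  · refine (ED_PDodd p hx ha hb).congr fun v => ?_
    unfold PDR
    constructor
    · rintro (h | h)
      · exact h.2
      · exact absurd h.1 hp
    · intro h; exact Or.inl ⟨hp, h⟩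

theorem ED_SqR {α : Type} (p : ℕ) {x a b : (α → K) → K} (hx : PF x) (ha : PF a)
    (hb : PF b) : ED fun v => SqR p (x v) (a v) (b v) := by
  unfold SqR
  refine ED.ex' (ED.ex' (ED.ex' (ED.ex' (ED.ex' (ED.ex' (ED.ex' (ED.ex' (ED.ex' (ED.ex'
    (ED.ex' (ED.ex' (ED.ex' (ED.ex' (ED.ex' (ED.ex' (ED.ex' (ED.ex' ?_)))))))))))))))))
  refine ED.and (ED.eq ?_ ?_) (ED.and (ED_MulC _ _ ?_ ?_ ?_) (ED.and (ED_MulC _ _ ?_ ?_ ?_)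
    (ED.and (ED_PDR _ ?_ ?_ ?_) (ED.and (ED_DivR _ ?_ ?_ ?_)
    (ED.and (ED_PDR _ ?_ ?_ ?_) (ED.and (ED_DivR _ ?_ ?_ ?_)
    (ED.and (ED_Fr _ ?_ ?_ ?_ ?_) (ED.and (ED_Fr _ ?_ ?_ ?_ ?_) (ED.and (ED_PDR _ ?_ ?_ ?_)
    (ED.and (ED_PDR _ ?_ ?_ ?_) (ED.and (ED_DivR _ ?_ ?_ ?_)
    (ED.and (ED_Fr _ ?_ ?_ ?_ ?_) (ED.and (ED_Fr _ ?_ ?_ ?_ ?_) (ED.and (ED_PDR _ ?_ ?_ ?_)
    (ED.and (ED_Fr _ ?_ ?_ ?_ ?_) (ED.and (ED_MulC _ _ ?_ ?_ ?_) (ED.and (ED_Fr _ ?_ ?_ ?_ ?_)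
    (ED.and (ED_DivR _ ?_ ?_ ?_)
    (ED.and (ED_Fr _ ?_ ?_ ?_ ?_) (ED.and (ED_MulC _ _ ?_ ?_ ?_) (ED.and (ED_Fr _ ?_ ?_ ?_ ?_)
    (ED.and (ED_DivR _ ?_ ?_ ?_)
    (ED.and (ED_Fr _ ?_ ?_ ?_ ?_) (ED.and (ED_Fr _ ?_ ?_ ?_ ?_)
      (ED_DivR _ ?_ ?_ ?_))))))))))))))))))))))))) <;>
  (repeat' first
    | assumption
    | exact PF.one
    | exact PF.four
    | exact PF.var _
    | refine PF.add ?_ ?_
    | refine PF.sub ?_ ?_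
    | refine PF.mul ?_ ?_
    | refine PF.pow ?_ _
    | (refine PF.lift ?_ _; assumption))

theorem ED_MulR {α : Type} (p : ℕ) {x a b c : (α → K) → K} (hx : PF x) (ha : PF a)
    (hb : PF b) (hc : PF c) : ED fun v => MulR p (x v) (a v) (b v) (c v) := by
  unfold MulR
  refine ED.ex' (ED.ex' (ED.ex' (ED.ex' (ED.ex' (ED.ex' ?_)))))
  refine ED.and (ED_Fr _ ?_ ?_ ?_ ?_) (ED.and (ED_SqR _ ?_ ?_ ?_) (ED.and (ED_SqR _ ?_ ?_ ?_)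
    (ED.and (ED_SqR _ ?_ ?_ ?_) (ED.and (ED_Fr _ ?_ ?_ ?_ ?_) (ED.and (ED_Fr _ ?_ ?_ ?_ ?_)
      (ED_Fr _ ?_ ?_ ?_ ?_)))))) <;>
  (repeat' first
    | assumption
    | exact PF.one
    | exact PF.four
    | exact PF.var _
    | refine PF.add ?_ ?_
    | refine PF.sub ?_ ?_
    | refine PF.mul ?_ ?_
    | refine PF.pow ?_ _
    | (refine PF.lift ?_ _; assumption))

end Pool.Agent.H367R2.H10
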