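import Mathlib
import Pool.Agent.H367R2.H10.C2f
import Pool.Agent.H367R2.H10.C4
import Pool.Agent.H367R2.H10.C5
import Pool.Agent.H367R2.H10.C6

set_option autoImplicit false

/-! Collection of the facts about the gadgets. -/

namespace Pool.Agent.H367R2.H10

universe u

/-- soundness facts for every nonconstant `x` in `k(t)`, `k` any field of characteristic `p` -/
theorem snd_of_nonconst (k : Type u) [Field k] (p : ℕ) [Fact p.Prime] [CharP k p]
    (x : RatFunc k) (hx : ∀ c : k, x ≠ RatFunc.C c) : Snd p x :=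
  snd_of_nonconst_aux k p (fun k _ _ _ _ x hx m n a b ha hb h => by
    rcases h with ⟨h1, h2⟩ | ⟨h1, h2⟩
    · exact pdOdd_sound p hx h1 ha hb h2
    · exact pdTwo_sound p hx h1 ha hb h2) x hx

variable {k : Type u} [Field k] (p : ℕ) [Fact p.Prime] [CharP k p]

theorem mulR_complete (m n : ℕ) (hm : 1 ≤ m) (hn : 1 ≤ n) :
    MulR p (RatFunc.X : RatFunc k) (RatFunc.X ^ p ^ m) (RatFunc.X ^ p ^ n)
      (RatFunc.X ^ p ^ (m * n)) :=
  mulR_complete_aux p (Fr_tt p) (mulC_complete p) (div_complete p) (pd_complete p) m n hm hn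

end Pool.Agent.H367R2.H10
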