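import Mathlib
import Pool.Agent.H367R2.H10.EDs2
import Pool.Agent.H367R2.H10.Fin0
import Pool.Agent.Helper844.Sys

set_option autoImplicit false

/-! The final formula: systems of quadratic equations over `ℤ`. -/

open Polynomial Finset

namespace Pool.Agent.H367R2.H10

open Pool.Agent.Helper844.Sys

universe u

section defs

variable {K : Type u} [Field K]

/-- `b` codes the linear combination of the list (natural coefficients, codes) -/
def LinR (p : ℕ) (x : K) : List (ℕ × K) → K → Prop
  | [], b => b = x
  | ca :: l, b => ∃ a' b' : K, MulC p x ca.1 ca.2 a' ∧ LinR p x l b' ∧ Fr p x a' b' b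

variable {V : Type}

/-- the left side of an equation -/
def lhsL (q : Eqn V) {M : Type u} (q1 q2 q3 q4 one : M) (P N : V → M) : List (ℕ × M) :=
  [(q.e.toNat, q1), (q.e.toNat, q2), ((-q.e).toNat, q3), ((-q.e).toNat, q4),
    (q.a.toNat, P q.k), ((-q.a).toNat, N q.k), (q.b.toNat, P q.l), ((-q.b).toNat, N q.l),
    (q.c.toNat, P q.m), ((-q.c).toNat, N q.m), (q.d.toNat, one)]

/-- the right side of an equation -/
def rhsL (q : Eqn V) {M : Type u} (q1 q2 q3 q4 one : M) (P N : V → M) : List (ℕ × M) :=
  [((-q.e).toNat, q1), ((-q.e).toNat, q2), (q.e.toNat, q3), (q.e.toNat, q4),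
    ((-q.a).toNat, P q.k), (q.a.toNat, N q.k), ((-q.b).toNat, P q.l), (q.b.toNat, N q.l),
    ((-q.c).toNat, P q.m), (q.c.toNat, N q.m), ((-q.d).toNat, one)]

/-- a quadratic equation, the variables are differences of coded numbers -/
def EqR (p : ℕ) (x : K) (P N : V → K) (q : Eqn V) : Prop :=
  ∃ q1 q2 q3 q4 s : K, MulR p x (P q.i) (P q.j) q1 ∧ MulR p x (N q.i) (N q.j) q2 ∧
    MulR p x (P q.i) (N q.j) q3 ∧ MulR p x (N q.i) (P q.j) q4 ∧
    LinR p x (lhsL q q1 q2 q3 q4 (x ^ p) P N) s ∧ LinR p x (rhsL q q1 q2 q3 q4 (x ^ p) P N) s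

/-- the final formula -/
def FinR [Fintype V] (p : ℕ) (f : V) (L : List (Eqn V)) (x b0 : K) : Prop :=
  PP p x b0 ∧ ∃ P N : V → K, (∀ i ∈ (Finset.univ : Finset V).toList, PP p x (P i)) ∧
    (∀ i ∈ (Finset.univ : Finset V).toList, PP p x (N i)) ∧
    (∃ s b4 : K, MulC p x 4 b0 b4 ∧ Fr p x (P f) b4 s ∧ Fr p x (N f) (x ^ p) s) ∧
    ∀ q ∈ L, EqR p x P N q

end defs

section ED

variable {K : Type u} [Field K]

theorem ED_LinR {β : Type u} (p : ℕ) (l : List (ℕ × β)) : ∀ {α : Type} {x : (α → K) → K}
    (_ : PF x) (g : β → (α → K) → K) (_ : ∀ ca ∈ l, PF (g ca.2)) {b : (α → K) → K} (_ : PF b),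
      ED fun v => LinR p (x v) (l.map fun ca => (ca.1, g ca.2 v)) (b v) := by
  induction l with
  | nil => intro α x hx g _ b hb; exact ED.eq hb hx
  | cons ca l ih =>
    intro α x hx g hl b hb
    change ED fun v => ∃ a' b' : K, MulC p (x v) ca.1 (g ca.2 v) a' ∧
      LinR p (x v) (l.map fun ca => (ca.1, g ca.2 v)) b' ∧ Fr p (x v) a' b' (b v)
    refine ED.ex' (ED.ex' ?_)
    have hca : PF (g ca.2) := hl ca (List.mem_cons_self ..)
    have h2 := @ih (Option (Option α)) (fun w => x (fun i => w (some (some i))))
      (PF.lift hx _) (fun c w => g c (fun i => w (some (some i))))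
      (fun cc hcc => PF.lift (hl cc (List.mem_cons_of_mem _ hcc)) _) (fun w => w none)
      (PF.var _)
    refine ED.and (ED_MulC _ _ ?_ ?_ ?_) (ED.and h2 (ED_Fr _ ?_ ?_ ?_ ?_)) <;>
  (repeat' first
    | assumption
    | exact PF.one
    | exact PF.four
    | exact PF.var _
    | refine PF.add ?_ ?_
    | refine PF.sub ?_ ?_
    | refine PF.mul ?_ ?_
    | refine PF.pow ?_ _
    | (refine PF.lift ?_ _; assumption))

theorem ED_EqR {α V : Type} (p : ℕ) {x : (α → K) → K} (hx : PF x) (P N : V → (α → K) → K)
    (hP : ∀ i, PF (P i)) (hN : ∀ i, PF (N i)) (q : Eqn V) :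
    ED fun v => EqR p (x v) (fun i => P i v) (fun i => N i v) q := by
  unfold EqR
  refine ED.ex' (ED.ex' (ED.ex' (ED.ex' (ED.ex' ?_))))
  have hP' : ∀ i, PF fun w : Option (Option (Option (Option (Option α)))) → K =>
    P i (fun i => w (some (some (some (some (some i)))))) := fun i => PF.lift (hP i) _
  have hN' : ∀ i, PF fun w : Option (Option (Option (Option (Option α)))) → K =>
    N i (fun i => w (some (some (some (some (some i)))))) := fun i => PF.lift (hN i) _
  have hx' : PF fun w : Option (Option (Option (Option (Option α)))) → K =>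
    x (fun i => w (some (some (some (some (some i)))))) := PF.lift hx _
  have hk : ∀ l : List (ℕ × ((Option (Option (Option (Option (Option α)))) → K) → K)),
      (∀ ca ∈ l, PF ca.2) → ED fun w : Option (Option (Option (Option (Option α)))) → K =>
      LinR p (x (fun i => w (some (some (some (some (some i)))))))
        (l.map fun ca => (ca.1, ca.2 w)) (w none) :=
    fun l hl => ED_LinR p l hx' (fun c w => c w) hl (PF.var _)
  have h1 := hk (lhsL q (fun w => w (some (some (some (some none)))))
    (fun w => w (some (some (some none)))) (fun w => w (some (some none)))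
    (fun w => w (some none)) (fun w => x (fun i => w (some (some (some (some (some i)))))) ^ p)
    (fun i w => P i (fun i => w (some (some (some (some (some i)))))))
    (fun i w => N i (fun i => w (some (some (some (some (some i)))))))) (by
      intro ca hca
      simp only [lhsL, List.mem_cons, List.not_mem_nil, or_false] at hca
      rcases hca with rfl | rfl | rfl | rfl | rfl | rfl | rfl | rfl | rfl | rfl | rfl
      · exact PF.var _
      · exact PF.var _
      · exact PF.var _
      · exact PF.var _
      · exact hP' _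
      · exact hN' _
      · exact hP' _
      · exact hN' _
      · exact hP' _
      · exact hN' _
      · exact hx'.pow _)
  have h2 := hk (rhsL q (fun w => w (some (some (some (some none)))))
    (fun w => w (some (some (some none)))) (fun w => w (some (some none)))
    (fun w => w (some none)) (fun w => x (fun i => w (some (some (some (some (some i)))))) ^ p)
    (fun i w => P i (fun i => w (some (some (some (some (some i)))))))
    (fun i w => N i (fun i => w (some (some (some (some (some i)))))))) (by
      intro ca hca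
      simp only [rhsL, List.mem_cons, List.not_mem_nil, or_false] at hca
      rcases hca with rfl | rfl | rfl | rfl | rfl | rfl | rfl | rfl | rfl | rfl | rfl
      · exact PF.var _
      · exact PF.var _
      · exact PF.var _
      · exact PF.var _
      · exact hP' _
      · exact hN' _
      · exact hP' _
      · exact hN' _
      · exact hP' _
      · exact hN' _
      · exact hx'.pow _)
  refine ED.and (ED_MulR _ hx' (hP' _) (hP' _) (PF.var _))
    (ED.and (ED_MulR _ hx' (hN' _) (hN' _) (PF.var _))
    (ED.and (ED_MulR _ hx' (hP' _) (hN' _) (PF.var _))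
    (ED.and (ED_MulR _ hx' (hN' _) (hP' _) (PF.var _)) (ED.and h1 h2))))

theorem ED_FinR {V : Type} [Fintype V] (p : ℕ) (f : V) (L : List (Eqn V)) :
    ED fun v : Fin 2 → K => FinR p f L (v 0) (v 1) := by
  unfold FinR
  refine ED.and (ED_PP _ (PF.var _) (PF.var _)) ?_
  refine ED.exFintype (ED.exFintype ?_)
  refine ED.and ?_ (ED.and ?_ (ED.and ?_ ?_))
  · exact ED.all_list _ fun i _ => ED_PP _ (PF.var _) (PF.var _)
  · exact ED.all_list _ fun i _ => ED_PP _ (PF.var _) (PF.var _)
  · refine ED.ex' (ED.ex' ?_)
    refine ED.and (ED_MulC _ _ ?_ ?_ ?_) (ED.and (ED_Fr _ ?_ ?_ ?_ ?_) (ED_Fr _ ?_ ?_ ?_ ?_)) <;>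
  (repeat' first
    | assumption
    | exact PF.one
    | exact PF.four
    | exact PF.var _
    | refine PF.add ?_ ?_
    | refine PF.sub ?_ ?_
    | refine PF.mul ?_ ?_
    | refine PF.pow ?_ _
    | (refine PF.lift ?_ _; assumption))
  · exact ED.all_list _ fun q _ => ED_EqR p (PF.var _) (fun i w => w (Sum.inl (Sum.inr i)))
      (fun i w => w (Sum.inr i)) (fun i => PF.var _) (fun i => PF.var _) q

end ED

end Pool.Agent.H367R2.H10
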