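import Mathlib
import Pool.Agent.H367R2.H10.Fin1

set_option autoImplicit false

/-! Soundness and completeness of the final formula. -/

open Polynomial Finset

namespace Pool.Agent.H367R2.H10

open Pool.Agent.Helper844.Sys

universe u

section sound

variable {K : Type u} [Field K] {p : ℕ} [hp : Fact p.Prime] [CharP K p]

/-- the coded number -/
noncomputable def dec (p : ℕ) (x b : K) : ℤ := by
  classical exact if h : ∃ n, Fz p n x b then h.choose else 0

omit hp [CharP K p] in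
theorem code_dec {x b : K} (h : ∃ n, Fz p n x b) : Fz p (dec p x b) x b := by
  unfold dec
  rw [dif_pos h]
  exact h.choose_spec

omit hp [CharP K p] in
theorem dec_eq {x b : K} (hx : Snd p x) {n : ℤ} (h : Fz p n x b) : dec p x b = n :=
  hx.uniq b _ _ (code_dec ⟨n, h⟩) h

theorem LinR_sound {x : K} (hx : Snd p x) (l : List (ℕ × K)) :
    ∀ b : K, (∀ ca ∈ l, ∃ n, Fz p n x ca.2) → LinR p x l b →
      Fz p ((l.map fun ca => (ca.1 : ℤ) * dec p x ca.2).sum) x b := by
  induction l with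
  | nil =>
    intro b _ h
    change b = x at h
    subst h
    exact Gad.Fz_refl b
  | cons ca l ih =>
    intro b hl h
    obtain ⟨a', b', h1, h2, h3⟩ := h
    have e1 := hx.mulC ca.1 (code_dec (hl ca (List.mem_cons_self ..))) h1
    have e2 := ih b' (fun cb hcb => hl cb (List.mem_cons_of_mem _ hcb)) h2
    rw [List.map_cons, List.sum_cons]
    exact hx.add e1 e2 h3

theorem MulR_sound {x : K} (hx : Snd p x) {a b c : K} (ha : ∃ n, Fz p n x a)
    (hb : ∃ n, Fz p n x b) (h : MulR p x a b c) :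
    (∃ n, Fz p n x c) ∧ dec p x c = dec p x a * dec p x b := by
  have h0 := h
  obtain ⟨s, s2, a2, b2, c2, e1, g1, g2, g3, g4, g5, g6, g7⟩ := h
  have hc : ∃ n, Fz p n x c := hx.code c g5.1
  exact ⟨hc, hx.mul (code_dec ha) (code_dec hb) (code_dec hc) h0⟩

variable {V : Type}

theorem EqR_sound {x : K} (hx : Snd p x) {P N : V → K} (hP : ∀ i, ∃ n, Fz p n x (P i))
    (hN : ∀ i, ∃ n, Fz p n x (N i)) (q : Eqn V) (h : EqR p x P N q) :
    q.Holds fun i => dec p x (P i) - dec p x (N i) := by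
  obtain ⟨q1, q2, q3, q4, s, g1, g2, g3, g4, g5, g6⟩ := h
  obtain ⟨c1, m1⟩ := MulR_sound hx (hP _) (hP _) g1
  obtain ⟨c2, m2⟩ := MulR_sound hx (hN _) (hN _) g2
  obtain ⟨c3, m3⟩ := MulR_sound hx (hP _) (hN _) g3
  obtain ⟨c4, m4⟩ := MulR_sound hx (hN _) (hP _) g4
  have hone : Fz p 1 x (x ^ p) := by
    have := Gad.Fz_nat (p := p) x 1
    simpa using this
  have honeE : ∃ n, Fz p n x (x ^ p) := ⟨1, hone⟩
  have hdone : dec p x (x ^ p) = 1 := dec_eq hx hone
  have s1 := LinR_sound hx _ _ (by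
    intro ca hca
    simp only [lhsL, List.mem_cons, List.not_mem_nil, or_false] at hca
    rcases hca with rfl | rfl | rfl | rfl | rfl | rfl | rfl | rfl | rfl | rfl | rfl
    · exact c1
    · exact c2
    · exact c3
    · exact c4
    · exact hP _
    · exact hN _
    · exact hP _
    · exact hN _
    · exact hP _
    · exact hN _
    · exact honeE) g5
  have s2 := LinR_sound hx _ _ (by
    intro ca hca
    simp only [rhsL, List.mem_cons, List.not_mem_nil, or_false] at hca
    rcases hca with rfl | rfl | rfl | rfl | rfl | rfl | rfl | rfl | rfl | rfl | rfl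
    · exact c1
    · exact c2
    · exact c3
    · exact c4
    · exact hP _
    · exact hN _
    · exact hP _
    · exact hN _
    · exact hP _
    · exact hN _
    · exact honeE) g6
  have heq := hx.uniq _ _ _ s1 s2
  simp only [lhsL, rhsL, List.map_cons, List.map_nil, List.sum_cons, List.sum_nil, m1, m2, m3, m4,
    hdone] at heq
  have te : (q.e.toNat : ℤ) - ((-q.e).toNat : ℤ) = q.e := by omega
  have ta : (q.a.toNat : ℤ) - ((-q.a).toNat : ℤ) = q.a := by omega
  have tb : (q.b.toNat : ℤ) - ((-q.b).toNat : ℤ) = q.b := by omega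
  have tc : (q.c.toNat : ℤ) - ((-q.c).toNat : ℤ) = q.c := by omega
  have td : (q.d.toNat : ℤ) - ((-q.d).toNat : ℤ) = q.d := by omega
  simp only [Eqn.Holds]
  rw [← te, ← ta, ← tb, ← tc, ← td]
  linear_combination heq

theorem FinR_sound [Fintype V] {x : K} (hx : Snd p x) (f : V) (L : List (Eqn V)) (n : ℕ)
    (h : FinR p f L x (x ^ p ^ n)) :
    ∃ y : V → ℤ, y f = 1 - 4 * n ∧ ∀ q ∈ L, q.Holds y := by
  obtain ⟨-, P, N, hP, hN, ⟨s, b4, h1, h2, h3⟩, hL⟩ := h
  have hP' : ∀ i, ∃ n, Fz p n x (P i) := fun i => hx.code _ (hP i (by simp))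
  have hN' : ∀ i, ∃ n, Fz p n x (N i) := fun i => hx.code _ (hN i (by simp))
  have hone : Fz p 1 x (x ^ p) := by
    have := Gad.Fz_nat (p := p) x 1
    simpa using this
  have e1 := hx.mulC 4 (Gad.Fz_nat (p := p) x n) h1
  have e2 := hx.add (code_dec (hP' f)) e1 h2
  have e3 := hx.add (code_dec (hN' f)) hone h3
  have e4 := hx.uniq _ _ _ e2 e3
  refine ⟨fun i => dec p x (P i) - dec p x (N i), ?_, fun q hq => EqR_sound hx hP' hN' q (hL q hq)⟩
  push_cast at e4
  change dec p x (P f) - dec p x (N f) = 1 - 4 * n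
  linarith

end sound

section complete

variable {k : Type u} [Field k] (p : ℕ) [Fact p.Prime] [CharP k p]

theorem LinR_complete (l : List (ℕ × ℕ)) :
    LinR p (RatFunc.X : RatFunc k) (l.map fun ca => (ca.1, RatFunc.X ^ p ^ ca.2))
      (RatFunc.X ^ p ^ (l.map fun ca => ca.1 * ca.2).sum) := by
  induction l with
  | nil => simp [LinR]
  | cons ca l ih =>
    refine ⟨_, _, mulC_complete p ca.1 ca.2, ih, ?_⟩
    rw [List.map_cons, List.sum_cons]
    exact Fr_tt p _ _

variable {V : Type}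

theorem EqR_complete (q : Eqn V) (y : V → ℤ) (hy : q.Holds y) :
    EqR p (RatFunc.X : RatFunc k) (fun i => RatFunc.X ^ p ^ ((y i).toNat + 1))
      (fun i => RatFunc.X ^ p ^ ((-y i).toNat + 1)) q := by
  let P : V → ℕ := fun i => (y i).toNat + 1
  let N : V → ℕ := fun i => (-y i).toNat + 1
  have hP : ∀ i, 1 ≤ P i := fun i => by simp [P]
  have hN : ∀ i, 1 ≤ N i := fun i => by simp [N]
  have hPN : ∀ i, (P i : ℤ) - N i = y i := fun i => by simp only [P, N]; push_cast; omega
  refine ⟨RatFunc.X ^ p ^ (P q.i * P q.j), RatFunc.X ^ p ^ (N q.i * N q.j),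
    RatFunc.X ^ p ^ (P q.i * N q.j), RatFunc.X ^ p ^ (N q.i * P q.j), RatFunc.X ^ p ^
      ((lhsL q (P q.i * P q.j) (N q.i * N q.j) (P q.i * N q.j) (N q.i * P q.j) 1 P N).map
        fun ca => ca.1 * ca.2).sum,
    mulR_complete p _ _ (hP _) (hP _), mulR_complete p _ _ (hN _) (hN _),
    mulR_complete p _ _ (hP _) (hN _), mulR_complete p _ _ (hN _) (hP _), ?_, ?_⟩
  · have := LinR_complete (k := k) p
      (lhsL q (P q.i * P q.j) (N q.i * N q.j) (P q.i * N q.j) (N q.i * P q.j) 1 P N)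
    simpa [lhsL, P, N] using this
  · have hsum : ((lhsL q (P q.i * P q.j) (N q.i * N q.j) (P q.i * N q.j) (N q.i * P q.j) 1
        P N).map fun ca => ca.1 * ca.2).sum =
        ((rhsL q (P q.i * P q.j) (N q.i * N q.j) (P q.i * N q.j) (N q.i * P q.j) 1
        P N).map fun ca => ca.1 * ca.2).sum := by
      have te : (q.e.toNat : ℤ) - ((-q.e).toNat : ℤ) = q.e := by omega
      have ta : (q.a.toNat : ℤ) - ((-q.a).toNat : ℤ) = q.a := by omega
      have tb : (q.b.toNat : ℤ) - ((-q.b).toNat : ℤ) = q.b := by omega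
      have tc : (q.c.toNat : ℤ) - ((-q.c).toNat : ℤ) = q.c := by omega
      have td : (q.d.toNat : ℤ) - ((-q.d).toNat : ℤ) = q.d := by omega
      simp only [Eqn.Holds] at hy
      rw [← te, ← ta, ← tb, ← tc, ← td, ← hPN, ← hPN, ← hPN, ← hPN, ← hPN] at hy
      have hz : ((((lhsL q (P q.i * P q.j) (N q.i * N q.j) (P q.i * N q.j) (N q.i * P q.j) 1
          P N).map fun ca => ca.1 * ca.2).sum : ℕ) : ℤ) =
          ((((rhsL q (P q.i * P q.j) (N q.i * N q.j) (P q.i * N q.j) (N q.i * P q.j) 1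
          P N).map fun ca => ca.1 * ca.2).sum : ℕ) : ℤ) := by
        simp only [lhsL, rhsL, List.map_cons, List.map_nil, List.sum_cons, List.sum_nil]
        push_cast
        linear_combination hy
      exact_mod_cast hz
    rw [hsum]
    have := LinR_complete (k := k) p
      (rhsL q (P q.i * P q.j) (N q.i * N q.j) (P q.i * N q.j) (N q.i * P q.j) 1 P N)
    simpa [rhsL, P, N] using this

theorem FinR_complete [Fintype V] (f : V) (L : List (Eqn V)) (n : ℕ) (y : V → ℤ)
    (hf : y f = 1 - 4 * n) (hL : ∀ q ∈ L, q.Holds y) :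
    FinR p f L (RatFunc.X : RatFunc k) (RatFunc.X ^ p ^ n) := by
  refine ⟨(Fr_tt p n 0).1, fun i => RatFunc.X ^ p ^ ((y i).toNat + 1),
    fun i => RatFunc.X ^ p ^ ((-y i).toNat + 1), fun i _ => (Fr_tt p _ 0).1,
    fun i _ => (Fr_tt p _ 0).1, ?_, fun q hq => EqR_complete p q y (hL q hq)⟩
  refine ⟨RatFunc.X ^ p ^ ((y f).toNat + 1 + 4 * n), RatFunc.X ^ p ^ (4 * n),
    mulC_complete p 4 n, Fr_tt p _ _, ?_⟩
  have h1 := Fr_tt (k := k) p ((-y f).toNat + 1) 1
  rw [pow_one] at h1
  have h2 : (y f).toNat + 1 + 4 * n = (-y f).toNat + 1 + 1 := by omega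
  rw [h2]
  exact h1

end complete

end Pool.Agent.H367R2.H10
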