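import Mathlib
import Pool.Agent.H367R2.H10.T6

set_option autoImplicit false

open Polynomial

namespace Pool.Agent.H367R2.H10

universe u
variable {K : Type u} [Field K]

/-- value of a list of monomials -/
def evL (x : ℕ → K) (l : List (ℤ × List ℕ)) : K :=
  (l.map (fun m => ((m.1 : ℤ) : K) * (m.2.map x).prod)).sum

theorem evL_nil (x : ℕ → K) : evL x [] = 0 := rfl

theorem evL_cons (x : ℕ → K) (m : ℤ × List ℕ) (l : List (ℤ × List ℕ)) :
    evL x (m :: l) = ((m.1 : ℤ) : K) * (m.2.map x).prod + evL x l := by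
  simp [evL]

theorem evL_append (x : ℕ → K) (l l' : List (ℤ × List ℕ)) :
    evL x (l ++ l') = evL x l + evL x l' := by
  simp [evL]

theorem evL_mulX (x : ℕ → K) (j : ℕ) (l : List (ℤ × List ℕ)) :
    evL x (l.map fun m => (m.1, j :: m.2)) = evL x l * x j := by
  induction l with
  | nil => simp [evL]
  | cons m l ih =>
    rw [List.map_cons, evL_cons, evL_cons, ih]
    simp only [List.map_cons, List.prod_cons]
    ring

/-- every integer polynomial is the value of a list of monomials (uniformly in the field) -/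
theorem exists_list {σ : Type} (idx : σ → ℕ) (P : MvPolynomial σ ℤ) :
    ∃ l : List (ℤ × List ℕ), (∀ m ∈ l, ∀ i ∈ m.2, ∃ j, i = idx j) ∧
      ∀ (x : ℕ → K), evL x l = MvPolynomial.aeval (fun i => x (idx i)) P := by
  induction P using MvPolynomial.induction_on with
  | C a =>
    refine ⟨[(a, [])], by simp, fun x => ?_⟩
    rw [MvPolynomial.aeval_C]
    simp [evL]
  | add p q hp hq =>
    obtain ⟨l, hl1, hl⟩ := hp
    obtain ⟨l', hl1', hl'⟩ := hq
    refine ⟨l ++ l', fun m hm => ?_, fun x => ?_⟩
    · rcases List.mem_append.1 hm with h | h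
      · exact hl1 m h
      · exact hl1' m h
    · rw [evL_append, hl, hl', map_add]
  | mul_X p i hp =>
    obtain ⟨l, hl1, hl⟩ := hp
    refine ⟨l.map fun m => (m.1, idx i :: m.2), fun m hm j hj => ?_, fun x => ?_⟩
    · obtain ⟨m', hm', rfl⟩ := List.mem_map.1 hm
      rcases List.mem_cons.1 hj with h | h
      · exact ⟨i, h⟩
      · exact hl1 m' hm' j h
    · rw [evL_mulX, hl, map_mul, MvPolynomial.aeval_X]

theorem exists_lists {σ : Type} (idx : σ → ℕ) (L : List (MvPolynomial σ ℤ)) :
    ∃ L0 : List (List (ℤ × List ℕ)), (∀ l ∈ L0, ∀ m ∈ l, ∀ i ∈ m.2, ∃ j, i = idx j) ∧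
      ∀ (x : ℕ → K), (∀ l ∈ L0, evL x l = 0) ↔
      ∀ P ∈ L, MvPolynomial.aeval (fun i => x (idx i)) P = 0 := by
  induction L with
  | nil => exact ⟨[], by simp, fun x => by simp⟩
  | cons P L ih =>
    obtain ⟨L0, h1, h2⟩ := ih
    obtain ⟨l, hl1, hl⟩ := exists_list (K := K) idx P
    refine ⟨l :: L0, fun l' hl' => ?_, fun x => ?_⟩
    · rcases List.mem_cons.1 hl' with h | h
      · rw [h]; exact hl1
      · exact h1 l' h
    · rw [List.forall_mem_cons, List.forall_mem_cons, h2, hl]

/-- the equation `x 1 = x 0 ^ e` -/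
def powEq (e : ℕ) : List (ℤ × List ℕ) := [(1, [1]), (-1, List.replicate e 0)]

theorem evL_powEq (x : ℕ → K) (e : ℕ) : evL x (powEq e) = x 1 - x 0 ^ e := by
  simp [evL, powEq, sub_eq_add_neg]

/-- a definable set of pairs `(x, x ^ e)`, as a list system; `N` bounds the variables used -/
theorem exists_system (S : (Fin 2 → K) → Prop) (hS : ED S) :
    ∃ (N : ℕ) (L0 : List (List (ℤ × List ℕ))), 2 ≤ N ∧
      (∀ l ∈ L0, ∀ m ∈ l, ∀ i ∈ m.2, i < N) ∧
      ∀ (e : ℕ) (T : K → Prop), (∃ x : K, T x ∧ S ![x, x ^ e]) ↔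
        ∃ z : ℕ → K, T (z 0) ∧ (∀ i, N ≤ i → z i = 0) ∧ evL z (powEq e) = 0 ∧
          ∀ l ∈ L0, evL z l = 0 := by
  obtain ⟨n, L, hL⟩ := hS
  let idx : Fin 2 ⊕ Fin n → ℕ := Sum.elim (fun i => i.val) (fun j => 2 + j.val)
  obtain ⟨L0, h1, h2⟩ := exists_lists (K := K) idx L
  have hidx : ∀ j, idx j < 2 + n := by
    rintro (j | j)
    · have := j.isLt
      show j.val < 2 + n
      omega
    · have := j.isLt
      show 2 + j.val < 2 + n
      omega
  refine ⟨2 + n, L0, by omega, ?_, fun e T => ?_⟩
  · intro l hl m hm i hi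
    obtain ⟨j, rfl⟩ := h1 l hl m hm i hi
    exact hidx j
  · constructor
    · rintro ⟨x, hT, hx⟩
      obtain ⟨w, hw⟩ := (hL _).1 hx
      let z : ℕ → K := fun i =>
        if i = 0 then x else if i = 1 then x ^ e else if h : i - 2 < n then w ⟨i - 2, h⟩ else 0
      have hz : (fun i => z (idx i)) = Sum.elim ![x, x ^ e] w := by
        funext i
        rcases i with i | j
        · fin_cases i <;> rfl
        · have h1 : 2 + j.val ≠ 0 := by omega
          have h2 : 2 + j.val ≠ 1 := by omega
          have h3 : 2 + j.val - 2 < n := by have := j.isLt; omega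
          show (if 2 + j.val = 0 then x else if 2 + j.val = 1 then x ^ e else
            if h : 2 + j.val - 2 < n then w ⟨2 + j.val - 2, h⟩ else 0) = w j
          rw [if_neg h1, if_neg h2, dif_pos h3]
          congr 1
          apply Fin.ext
          show 2 + j.val - 2 = j.val
          omega
      refine ⟨z, hT, fun i hi => ?_, ?_, ?_⟩
      · show (if i = 0 then x else if i = 1 then x ^ e else
            if h : i - 2 < n then w ⟨i - 2, h⟩ else 0) = 0
        rw [if_neg (by omega), if_neg (by omega), dif_neg (by omega)]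
      · rw [evL_powEq]
        show x ^ e - x ^ e = 0
        exact sub_self _
      · rw [h2, hz]
        exact hw
    · rintro ⟨z, hT, -, hp, hz⟩
      rw [evL_powEq, sub_eq_zero] at hp
      refine ⟨z 0, hT, (hL _).2 ⟨fun j => z (2 + j.val), ?_⟩⟩
      rw [h2] at hz
      have e1 : (fun i => z (idx i)) =
          Sum.elim ![z 0, z 0 ^ e] (fun j : Fin n => z (2 + j.val)) := by
        funext i
        rcases i with i | j
        · fin_cases i
          · rfl
          · exact hp
        · rfl
      rw [e1] at hz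
      exact hz

/-- computability -/
theorem computable_pow (p : ℕ) : Computable fun n : ℕ => p ^ n := by
  have h : Computable fun n : ℕ => Nat.rec (motive := fun _ => ℕ) 1 (fun _ IH => IH * p) n := by
    refine Computable.nat_rec (f := fun n : ℕ => n) (g := fun _ => 1)
      (h := fun (_ : ℕ) (q : ℕ × ℕ) => q.2 * p) Computable.id (Computable.const 1) ?_
    exact (Primrec.nat_mul.comp (Primrec.snd.comp Primrec.snd) (Primrec.const p)).to_comp
  refine h.of_eq fun n => ?_
  induction n with
  | zero => rfl
  | succ n ih => rw [pow_succ, ← ih]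

theorem computable_replicate {α : Type} [Primcodable α] (a : α) :
    Computable fun n : ℕ => List.replicate n a := by
  have h : Primrec fun n : ℕ => (List.range n).map fun _ => a :=
    Primrec.list_map Primrec.list_range (Primrec.const a).to₂
  refine h.to_comp.of_eq fun n => ?_
  simp

theorem not_computablePred_of_reduction {α : Type} [Primcodable α] (H : ℕ → Prop)
    (hH : ¬ ComputablePred H) (P : α → Prop) (enc : ℕ → α) (henc : Computable enc)
    (h : ∀ n, H n ↔ P (enc n)) : ¬ ComputablePred P := by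
  intro hP
  apply hH
  obtain ⟨f, hf, hf'⟩ := ComputablePred.computable_iff.1 hP
  rw [ComputablePred.computable_iff]
  refine ⟨fun n => f (enc n), hf.comp henc, ?_⟩
  funext n
  rw [h n, hf']

/-- T6f, final for `S10507`. -/
theorem undec_ratFunc (p : ℕ) [Fact p.Prime]
    (S : (Fin 2 → RatFunc (ZMod p)) → Prop) (hS : ED S) (H : ℕ → Prop)
    (hH : ¬ ComputablePred H)
    (h : ∀ n, H n ↔ ∃ x : RatFunc (ZMod p), S ![x, x ^ p ^ n]) :
    ¬ ComputablePred
        (fun L : List (List (ℤ × List ℕ)) =>
          ∃ x : ℕ → RatFunc (ZMod p),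
            ∀ f ∈ L,
              (f.map (fun m => ((m.1 : ℤ) : RatFunc (ZMod p)) * (m.2.map x).prod)).sum = 0) := by
  obtain ⟨N, L0, hN, hb, hL⟩ := exists_system S hS
  have henc : Computable fun n : ℕ => powEq (p ^ n) :: L0 := by
    have h1 : Computable fun n : ℕ => List.replicate (p ^ n) 0 :=
      (computable_replicate 0).comp (computable_pow p)
    have h2 : Computable fun n : ℕ => ((-1 : ℤ), List.replicate (p ^ n) 0) :=
      (Computable.const (-1 : ℤ)).pair h1
    have h3 : Computable fun n : ℕ => powEq (p ^ n) :=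
      Computable.list_cons.comp (Computable.const ((1 : ℤ), [1]))
        (Computable.list_cons.comp h2 (Computable.const []))
    exact Computable.list_cons.comp h3 (Computable.const L0)
  refine not_computablePred_of_reduction H hH _ _ henc fun n => ?_
  rw [h n]
  have h4 := hL (p ^ n) (fun _ => True)
  simp only [true_and] at h4
  rw [h4]
  constructor
  · rintro ⟨z, -, hz1, hz2⟩
    refine ⟨z, ?_⟩
    rw [List.forall_mem_cons]
    exact ⟨hz1, hz2⟩
  · rintro ⟨z, hz⟩
    rw [List.forall_mem_cons] at hz
    have hz1 : evL z (powEq (p ^ n)) = 0 := hz.1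
    have hz2 : ∀ l ∈ L0, evL z l = 0 := hz.2
    -- cut the variables off beyond `N`
    refine ⟨fun i => if i < N then z i else 0, fun i hi => if_neg (by omega), ?_, ?_⟩
    · rw [evL_powEq] at hz1 ⊢
      rw [if_pos (by omega), if_pos (by omega)]
      exact hz1
    · intro l hl
      rw [← hz2 l hl]
      unfold evL
      congr 1
      apply List.map_congr_left
      intro m hm
      congr 2
      apply List.map_congr_left
      intro i hi
      exact if_pos (hb l hl m hm i hi)

end Pool.Agent.H367R2.H10
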