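import Mathlib
import Pool.Agent.H367R2.H10.T6f

set_option autoImplicit false

open Polynomial

namespace Pool.Agent.H367R2.H10

/-- value of one side, natural coefficients -/
def evN {A : Type*} [CommRing A] (x : ℕ → A) (s : List (ℕ × List ℕ)) : A :=
  (s.map (fun m => m.1 • (m.2.map x).prod)).sum

theorem evN_map {A B : Type*} [CommRing A] [CommRing B] (φ : A →+* B) (x : ℕ → A)
    (s : List (ℕ × List ℕ)) : φ (evN x s) = evN (fun i => φ (x i)) s := by
  unfold evN
  rw [map_list_sum, List.map_map]
  congr 1
  apply List.map_congr_left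
  intro m _
  simp only [Function.comp]
  rw [map_nsmul, map_list_prod, List.map_map]
  rfl

universe u
variable {K : Type u} [Field K]

/-- homogenisation, variable `0` is the denominator -/
def hom (D : ℕ) (l : List (ℤ × List ℕ)) : List (ℕ × List ℕ) × List (ℕ × List ℕ) :=
  (l.map fun m => (m.1.toNat, m.2.map (fun i => i + 1) ++ List.replicate (D - m.2.length) 0),
   l.map fun m => ((-m.1).toNat, m.2.map (fun i => i + 1) ++ List.replicate (D - m.2.length) 0))

theorem prod_shift (y z : ℕ → K) (hyz : ∀ i, y (i + 1) = y 0 * z i) (l : List ℕ) :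
    ((l.map (fun i => i + 1)).map y).prod = y 0 ^ l.length * (l.map z).prod := by
  induction l with
  | nil => simp
  | cons a l ih =>
    simp only [List.map_cons, List.prod_cons, List.length_cons] at *
    rw [ih, hyz]
    ring

theorem evN_hom (y z : ℕ → K) (hyz : ∀ i, y (i + 1) = y 0 * z i) (D : ℕ)
    (l : List (ℤ × List ℕ)) (hD : ∀ m ∈ l, m.2.length ≤ D) :
    evN y (hom D l).1 - evN y (hom D l).2 = y 0 ^ D * evL z l := by
  induction l with
  | nil => simp [hom, evN, evL]
  | cons m l ih =>
    have ih' := ih fun m' hm' => hD m' (List.mem_cons_of_mem _ hm')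
    have hm := hD m (List.mem_cons_self ..)
    rw [evL_cons, mul_add, ← ih']
    simp only [hom, evN, List.map_cons, List.sum_cons]
    rw [List.map_append, List.prod_append, prod_shift y z hyz, List.map_replicate,
      List.prod_replicate]
    have h0 : y 0 ^ D = y 0 ^ m.2.length * y 0 ^ (D - m.2.length) := by
      rw [← pow_add]
      congr 1
      omega
    have h1 : ((m.1 : ℤ) : K) = ((m.1.toNat : ℕ) : K) - (((-m.1).toNat : ℕ) : K) := by
      have h2 : m.1 = (m.1.toNat : ℤ) - ((-m.1).toNat : ℤ) := by omega
      conv_lhs => rw [h2]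
      push_cast
      rfl
    rw [h0, h1, nsmul_eq_mul, nsmul_eq_mul]
    ring

theorem evN_hom_eq (y z : ℕ → K) (hyz : ∀ i, y (i + 1) = y 0 * z i) (hy : y 0 ≠ 0) (D : ℕ)
    (l : List (ℤ × List ℕ)) (hD : ∀ m ∈ l, m.2.length ≤ D) :
    evN y (hom D l).1 = evN y (hom D l).2 ↔ evL z l = 0 := by
  rw [← sub_eq_zero, evN_hom y z hyz D l hD, mul_eq_zero]
  constructor
  · rintro (h | h)
    · exact absurd h (pow_ne_zero _ hy)
    · exact h
  · exact Or.inr

/-- a bound for the degrees -/
def degB (l : List (ℤ × List ℕ)) : ℕ := (l.map fun m => m.2.length).sum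

theorem le_degB (l : List (ℤ × List ℕ)) : ∀ m ∈ l, m.2.length ≤ degB l := by
  intro m hm
  exact List.single_le_sum (fun _ _ => Nat.zero_le _) _ (List.mem_map_of_mem hm)

/-- the equation `x 2 * x 0 ^ (e - 1) = x 1 ^ e` -/
def powEq3 (e : ℕ) : List (ℕ × List ℕ) × List (ℕ × List ℕ) :=
  ([(1, 2 :: List.replicate (e - 1) 0)], [(1, List.replicate e 1)])

theorem evN_powEq3 (y z : ℕ → K) (hyz : ∀ i, y (i + 1) = y 0 * z i) (hy : y 0 ≠ 0) (e : ℕ)
    (he : 0 < e) :
    evN y (powEq3 e).1 = evN y (powEq3 e).2 ↔ evL z (powEq e) = 0 := by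
  rw [evL_powEq]
  have h1 : evN y (powEq3 e).1 = y 0 ^ e * z 1 := by
    have h2 : y 2 = y 0 * z 1 := hyz 1
    have h3 : y 0 ^ e = y 0 * y 0 ^ (e - 1) := by
      rw [← pow_succ']
      congr 1
      omega
    simp only [evN, powEq3, List.map_cons, List.map_nil, List.prod_cons, List.sum_cons,
      List.sum_nil, add_zero, one_smul, List.map_replicate, List.prod_replicate]
    rw [h2, h3]
    ring
  have h2 : evN y (powEq3 e).2 = y 0 ^ e * z 0 ^ e := by
    have h2 : y 1 = y 0 * z 0 := hyz 0
    simp only [evN, powEq3, List.map_cons, List.map_nil, List.sum_cons,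
      List.sum_nil, add_zero, one_smul, List.map_replicate, List.prod_replicate]
    rw [h2, mul_pow]
  rw [h1, h2, sub_eq_zero]
  exact mul_right_inj' (pow_ne_zero _ hy)

section
variable (p : ℕ) [Fact p.Prime]

noncomputable abbrev MM : Submonoid (ZMod p)[X] :=
  Submonoid.comap (Polynomial.constantCoeff (R := ZMod p)) (nonZeroDivisors (ZMod p))

theorem MM_ne_zero (y : (ZMod p)[X]) (hy : y ∈ MM p) : y ≠ 0 := by
  rintro rfl
  have h1 : Polynomial.constantCoeff (0 : (ZMod p)[X]) ∈ nonZeroDivisors (ZMod p) := hy
  rw [map_zero] at h1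
  exact zero_notMem_nonZeroDivisors h1

theorem MM_le : MM p ≤ nonZeroDivisors (ZMod p)[X] := fun y hy =>
  mem_nonZeroDivisors_of_ne_zero (MM_ne_zero p y hy)

theorem MM_unit (y : MM p) : IsUnit (algebraMap (ZMod p)[X] (RatFunc (ZMod p)) y) := by
  rw [isUnit_iff_ne_zero]
  intro h
  have := (map_eq_zero_iff _ (IsFractionRing.injective (ZMod p)[X] (RatFunc (ZMod p)))).1 h
  exact MM_ne_zero p y.1 y.2 this

/-- the embedding of the local ring into the rational functions -/
noncomputable def emb : Localization (MM p) →+* RatFunc (ZMod p) :=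
  IsLocalization.lift (M := MM p) (g := algebraMap (ZMod p)[X] (RatFunc (ZMod p))) (MM_unit p)

theorem emb_algebraMap (a : (ZMod p)[X]) :
    emb p (algebraMap (ZMod p)[X] (Localization (MM p)) a) =
      algebraMap (ZMod p)[X] (RatFunc (ZMod p)) a :=
  IsLocalization.lift_eq (MM_unit p) a

theorem emb_injective : Function.Injective (emb p) := by
  unfold emb
  rw [IsLocalization.lift_injective_iff]
  intro x y
  constructor
  · intro h
    exact congrArg _ (IsLocalization.injective (Localization (MM p)) (MM_le p) h)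
  · intro h
    exact congrArg _ (IsFractionRing.injective (ZMod p)[X] (RatFunc (ZMod p)) h)

end

/-- T6g, final for `S09892`. -/
theorem undec_local (p : ℕ) [Fact p.Prime]
    (S : (Fin 2 → RatFunc (ZMod p)) → Prop) (hS : ED S) (H : ℕ → Prop)
    (hH : ¬ ComputablePred H)
    (h : ∀ n, H n ↔ ∃ x : RatFunc (ZMod p), S ![x, x ^ p ^ n]) :
    ¬ ComputablePred
        (fun S : List (List (ℕ × List ℕ) × List (ℕ × List ℕ)) ×
                 List (List (ℕ × List ℕ) × List (ℕ × List ℕ)) =>
          ∃ x : ℕ → Localization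
              (Submonoid.comap (Polynomial.constantCoeff (R := ZMod p))
                (nonZeroDivisors (ZMod p))),
            (∀ e ∈ S.1,
                (e.1.map (fun m => m.1 • (m.2.map x).prod)).sum
                  = (e.2.map (fun m => m.1 • (m.2.map x).prod)).sum) ∧
            (∀ e ∈ S.2,
                (e.1.map (fun m => m.1 • (m.2.map x).prod)).sum
                  ≠ (e.2.map (fun m => m.1 • (m.2.map x).prod)).sum)) := by
  classical
  obtain ⟨N, L0, hN, hb, hL⟩ := exists_system S hS
  have hp : 0 < p := (Fact.out : p.Prime).pos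
  have henc : Computable fun n : ℕ =>
      ((powEq3 (p ^ n) :: L0.map (fun l => hom (degB l) l), [([(1, [0])], [])]) :
        List (List (ℕ × List ℕ) × List (ℕ × List ℕ)) ×
                 List (List (ℕ × List ℕ) × List (ℕ × List ℕ))) := by
    have h0 : Computable fun n : ℕ => p ^ n - 1 :=
      (Primrec.nat_sub.to_comp.comp (computable_pow p) (Computable.const 1))
    have h1 : Computable fun n : ℕ => List.replicate (p ^ n - 1) 0 :=
      (computable_replicate 0).comp h0
    have h2 : Computable fun n : ℕ => ([(1, 2 :: List.replicate (p ^ n - 1) 0)] :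
        List (ℕ × List ℕ)) :=
      Computable.list_cons.comp
        ((Computable.const 1).pair (Computable.list_cons.comp (Computable.const 2) h1))
        (Computable.const [])
    have h3 : Computable fun n : ℕ => ([(1, List.replicate (p ^ n) 1)] :
        List (ℕ × List ℕ)) :=
      Computable.list_cons.comp
        ((Computable.const 1).pair ((computable_replicate 1).comp (computable_pow p)))
        (Computable.const [])
    have h4 : Computable fun n : ℕ => powEq3 (p ^ n) := h2.pair h3
    exact (Computable.list_cons.comp h4 (Computable.const _)).pair (Computable.const _)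
  refine not_computablePred_of_reduction H hH _ _ henc fun n => ?_
  rw [h n]
  have h4 := hL (p ^ n) (fun _ => True)
  simp only [true_and] at h4
  rw [h4]
  constructor
  · rintro ⟨z, hz0, hz1, hz2⟩
    obtain ⟨b, hbz⟩ := IsLocalization.exist_integer_multiples_of_finset
      (nonZeroDivisors (ZMod p)[X]) ((Finset.range N).image z)
    have ha : ∀ i, ∃ a : (ZMod p)[X], algebraMap (ZMod p)[X] (RatFunc (ZMod p)) a =
        algebraMap (ZMod p)[X] (RatFunc (ZMod p)) b * z i := by
      intro i
      by_cases hi : i < N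
      · obtain ⟨a, ha⟩ := hbz (z i) (Finset.mem_image_of_mem z (Finset.mem_range.2 hi))
        refine ⟨a, ?_⟩
        rw [ha, Algebra.smul_def]
      · exact ⟨0, by rw [hz0 i (by omega), map_zero, mul_zero]⟩
    choose a ha using ha
    let x : ℕ → Localization (MM p) := fun i =>
      Nat.casesOn i (algebraMap (ZMod p)[X] _ (b : (ZMod p)[X])) fun j => algebraMap (ZMod p)[X] _ (a j)
    have hx0 : emb p (x 0) = algebraMap (ZMod p)[X] (RatFunc (ZMod p)) b := emb_algebraMap p _
    have hx1 : ∀ i, emb p (x (i + 1)) = emb p (x 0) * z i := by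
      intro i
      rw [hx0, ← ha]
      exact emb_algebraMap p _
    have hb0 : emb p (x 0) ≠ 0 := by
      rw [hx0]
      intro h0
      have := (map_eq_zero_iff _ (IsFractionRing.injective (ZMod p)[X] (RatFunc (ZMod p)))).1 h0
      exact nonZeroDivisors.ne_zero b.2 this
    refine ⟨x, ?_, ?_⟩
    · show ∀ e ∈ powEq3 (p ^ n) :: L0.map (fun l => hom (degB l) l), evN x e.1 = evN x e.2
      rw [List.forall_mem_cons]
      refine ⟨?_, fun e he => ?_⟩
      · apply emb_injective p
        rw [evN_map, evN_map]
        exact (evN_powEq3 (fun i => emb p (x i)) z hx1 hb0 _ (pow_pos hp n)).2 hz1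
      · obtain ⟨l, hl, rfl⟩ := List.mem_map.1 he
        apply emb_injective p
        rw [evN_map, evN_map]
        exact (evN_hom_eq (fun i => emb p (x i)) z hx1 hb0 _ l (le_degB l)).2 (hz2 l hl)
    · show ∀ e ∈ ([([(1, [0])], [])] : List (List (ℕ × List ℕ) × List (ℕ × List ℕ))),
        evN x e.1 ≠ evN x e.2
      intro e he
      rw [List.mem_singleton.1 he]
      simp only [evN, List.map_cons, List.map_nil, List.sum_cons, List.sum_nil, List.prod_cons,
        List.prod_nil, mul_one, one_smul, add_zero]
      intro h0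
      rw [h0, map_zero] at hb0
      exact hb0 rfl
  · rintro ⟨x, hx, hx0⟩
    have hx' : ∀ e ∈ powEq3 (p ^ n) :: L0.map (fun l => hom (degB l) l), evN x e.1 = evN x e.2 :=
      hx
    have hx0' : ∀ e ∈ ([([(1, [0])], [])] : List (List (ℕ × List ℕ) × List (ℕ × List ℕ))),
        evN x e.1 ≠ evN x e.2 := hx0
    have hd : x 0 ≠ 0 := by
      have := hx0' _ (List.mem_singleton.2 rfl)
      simpa only [evN, List.map_cons, List.map_nil, List.sum_cons, List.sum_nil, List.prod_cons,
        List.prod_nil, mul_one, one_smul, add_zero] using this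
    have hd' : emb p (x 0) ≠ 0 := by
      intro h0
      exact hd ((map_eq_zero_iff _ (emb_injective p)).1 h0)
    let z : ℕ → RatFunc (ZMod p) := fun i => emb p (x (i + 1)) / emb p (x 0)
    have hyz : ∀ i, emb p (x (i + 1)) = emb p (x 0) * z i := by
      intro i
      show _ = emb p (x 0) * (emb p (x (i + 1)) / emb p (x 0))
      rw [mul_div_cancel₀ _ hd']
    rw [List.forall_mem_cons] at hx'
    have hz1 : evL z (powEq (p ^ n)) = 0 := by
      rw [← evN_powEq3 (fun i => emb p (x i)) z hyz hd' _ (pow_pos hp n)]
      have := congrArg (emb p) hx'.1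
      rwa [evN_map, evN_map] at this
    have hz2 : ∀ l ∈ L0, evL z l = 0 := by
      intro l hl
      rw [← evN_hom_eq (fun i => emb p (x i)) z hyz hd' _ l (le_degB l)]
      have := congrArg (emb p) (hx'.2 _ (List.mem_map_of_mem hl))
      rwa [evN_map, evN_map] at this
    -- cut the variables off beyond `N`
    refine ⟨fun i => if i < N then z i else 0, fun i hi => if_neg (by omega), ?_, ?_⟩
    · rw [evL_powEq] at hz1 ⊢
      rw [if_pos (by omega), if_pos (by omega)]
      exact hz1
    · intro l hl
      rw [← hz2 l hl]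
      unfold evL
      congr 1
      apply List.map_congr_left
      intro m hm
      congr 2
      apply List.map_congr_left
      intro i hi
      exact if_pos (hb l hl m hm i hi)

end Pool.Agent.H367R2.H10
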