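import Mathlib
import Pool.Agent.H367R2.H10.T6f

set_option autoImplicit false

open Polynomial

namespace Pool.Agent.H367R2.H10

universe u
variable {K : Type u} [Field K]

/-- value of an exponent vector -/
def evE (x : ℕ → K) (e : List ℕ) : K :=
  ((List.range e.length).map (fun i => x i ^ e.getD i 0)).prod

theorem evE_count (x : ℕ → K) (N : ℕ) (l : List ℕ) (hl : ∀ i ∈ l, i < N) :
    evE x ((List.range N).map fun j => l.count j) = (l.map x).prod := by
  have h0 : evE x ((List.range N).map fun j => l.count j) =
      ((List.range N).map fun j => x j ^ l.count j).prod := by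
    unfold evE
    rw [List.length_map, List.length_range]
    congr 1
    apply List.map_congr_left
    intro i hi
    rw [List.mem_range] at hi
    congr 1
    rw [List.getD_eq_getElem _ _ (by simpa using hi)]
    simp
  rw [h0]
  have h1 : ((List.range N).map fun j => x j ^ l.count j).prod =
      ∏ j ∈ Finset.range N, x j ^ l.count j := by
    rw [Finset.prod_eq_multiset_prod]
    rfl
  rw [h1, Finset.prod_list_map_count]
  symm
  apply Finset.prod_subset
  · intro i hi
    rw [List.mem_toFinset] at hi
    exact Finset.mem_range.2 (hl i hi)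
  · intro i _ hi
    rw [List.mem_toFinset] at hi
    rw [List.count_eq_zero_of_not_mem hi, pow_zero]

/-- two-sided equations with natural coefficients -/
def two (N : ℕ) (l : List (ℤ × List ℕ)) : List (List ℕ × ℕ) × List (List ℕ × ℕ) :=
  (l.map fun m => ((List.range N).map fun j => m.2.count j, m.1.toNat),
   l.map fun m => ((List.range N).map fun j => m.2.count j, (-m.1).toNat))

/-- value of one side -/
def evS (x : ℕ → K) (s : List (List ℕ × ℕ)) : K :=
  (s.map (fun m => (m.2 : K) * evE x m.1)).sum

theorem evS_two (x : ℕ → K) (N : ℕ) (l : List (ℤ × List ℕ))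
    (hl : ∀ m ∈ l, ∀ i ∈ m.2, i < N) :
    evS x (two N l).1 - evS x (two N l).2 = evL x l := by
  induction l with
  | nil => simp [two, evS, evL]
  | cons m l ih =>
    have ih' := ih fun m' hm' => hl m' (List.mem_cons_of_mem _ hm')
    have hm := hl m (List.mem_cons_self ..)
    rw [evL_cons, ← ih']
    simp only [two, evS, List.map_cons, List.sum_cons]
    rw [evE_count x N m.2 hm]
    have h1 : ((m.1 : ℤ) : K) = ((m.1.toNat : ℕ) : K) - (((-m.1).toNat : ℕ) : K) := by
      have h2 : m.1 = (m.1.toNat : ℤ) - ((-m.1).toNat : ℤ) := by omega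
      conv_lhs => rw [h2]
      push_cast
      rfl
    rw [h1]
    ring

theorem evS_two_eq (x : ℕ → K) (N : ℕ) (l : List (ℤ × List ℕ))
    (hl : ∀ m ∈ l, ∀ i ∈ m.2, i < N) :
    evS x (two N l).1 = evS x (two N l).2 ↔ evL x l = 0 := by
  rw [← evS_two x N l hl, sub_eq_zero]

/-- the equation `x 1 = x 0 ^ e` -/
def powEq2 (e : ℕ) : List (List ℕ × ℕ) × List (List ℕ × ℕ) := ([([0, 1], 1)], [([e], 1)])

theorem evS_powEq2 (x : ℕ → K) (e : ℕ) :
    evS x (powEq2 e).1 = evS x (powEq2 e).2 ↔ evL x (powEq e) = 0 := by
  have h1 : evS x (powEq2 e).1 = x 1 := by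
    simp [evS, powEq2, evE, List.range_succ]
  have h2 : evS x (powEq2 e).2 = x 0 ^ e := by
    simp [evS, powEq2, evE, List.range_succ]
  rw [h1, h2, evL_powEq, sub_eq_zero]

/-- T6h, for every field of characteristic `p`, with a predicate for the non-constants. -/
theorem undec_pred (k : Type u) [Field k] (p : ℕ) [Fact p.Prime] [CharP k p]
    (S : (Fin 2 → RatFunc k) → Prop) (hS : ED S) (H : ℕ → Prop)
    (hH : ¬ ComputablePred H)
    (h : ∀ n, H n ↔ ∃ x : RatFunc k, x ∉ Set.range (algebraMap k (RatFunc k)) ∧
      S ![x, x ^ p ^ n]) :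
    ¬ ComputablePred
        (fun q : List (List (List ℕ × ℕ) × List (List ℕ × ℕ)) × List ℕ × List ℕ =>
          ∃ x : ℕ → RatFunc k,
            (∀ e ∈ q.1,
              (e.1.map (fun m => (m.2 : RatFunc k) *
                  ((List.range m.1.length).map (fun i => x i ^ m.1.getD i 0)).prod)).sum =
              (e.2.map (fun m => (m.2 : RatFunc k) *
                  ((List.range m.1.length).map (fun i => x i ^ m.1.getD i 0)).prod)).sum) ∧
            (∀ i ∈ q.2.1, x i ∉ Set.range (algebraMap k (RatFunc k))) ∧
            (∀ i ∈ q.2.2, x i ∈ Set.range (algebraMap k (RatFunc k)))) := by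
  obtain ⟨N, L0, hN, hb, hL⟩ := exists_system S hS
  have henc : Computable fun n : ℕ =>
      ((powEq2 (p ^ n) :: L0.map (two N), ([0], [])) :
        List (List (List ℕ × ℕ) × List (List ℕ × ℕ)) × List ℕ × List ℕ) := by
    have h1 : Computable fun n : ℕ => ([p ^ n] : List ℕ) :=
      Computable.list_cons.comp (computable_pow p) (Computable.const [])
    have h2 : Computable fun n : ℕ => (([p ^ n], 1) : List ℕ × ℕ) :=
      h1.pair (Computable.const 1)
    have h3 : Computable fun n : ℕ => ([([p ^ n], 1)] : List (List ℕ × ℕ)) :=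
      Computable.list_cons.comp h2 (Computable.const [])
    have h4 : Computable fun n : ℕ => powEq2 (p ^ n) :=
      (Computable.const ([([0, 1], 1)] : List (List ℕ × ℕ))).pair h3
    exact (Computable.list_cons.comp h4 (Computable.const (L0.map (two N)))).pair
      (Computable.const ([0], []))
  refine not_computablePred_of_reduction H hH _ _ henc fun n => ?_
  rw [h n, hL (p ^ n) (fun x => x ∉ Set.range (algebraMap k (RatFunc k)))]
  constructor
  · rintro ⟨z, hT, -, hz1, hz2⟩
    refine ⟨z, ?_, ?_, ?_⟩
    · show ∀ e ∈ powEq2 (p ^ n) :: L0.map (two N), evS z e.1 = evS z e.2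
      rw [List.forall_mem_cons]
      refine ⟨(evS_powEq2 z _).2 hz1, fun e he => ?_⟩
      obtain ⟨l, hl, rfl⟩ := List.mem_map.1 he
      exact (evS_two_eq z N l (hb l hl)).2 (hz2 l hl)
    · intro i hi
      rw [List.mem_singleton.1 hi]
      exact hT
    · intro i hi
      simp at hi
  · rintro ⟨z, hz, hT, -⟩
    have hz' : ∀ e ∈ powEq2 (p ^ n) :: L0.map (two N), evS z e.1 = evS z e.2 := hz
    rw [List.forall_mem_cons] at hz'
    have hz1 : evL z (powEq (p ^ n)) = 0 := (evS_powEq2 z _).1 hz'.1
    have hz2 : ∀ l ∈ L0, evL z l = 0 := fun l hl =>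
      (evS_two_eq z N l (hb l hl)).1 (hz'.2 _ (List.mem_map_of_mem hl))
    -- cut the variables off beyond `N`
    refine ⟨fun i => if i < N then z i else 0, ?_, fun i hi => if_neg (by omega), ?_, ?_⟩
    · show (if 0 < N then z 0 else 0) ∉ Set.range (algebraMap k (RatFunc k))
      rw [if_pos (by omega)]
      exact hT 0 (List.mem_singleton.2 rfl)
    · rw [evL_powEq] at hz1 ⊢
      rw [if_pos (by omega), if_pos (by omega)]
      exact hz1
    · intro l hl
      rw [← hz2 l hl]
      unfold evL
      congr 1
      apply List.map_congr_left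
      intro m hm
      congr 2
      apply List.map_congr_left
      intro i hi
      exact if_pos (hb l hl m hm i hi)

end Pool.Agent.H367R2.H10
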