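import Mathlib
import Pool.Agent.H367R2.H10.Fin2
import Pool.Agent.H367R2.H10.T6f
import Pool.Agent.H367R2.H10.T6g
import Pool.Agent.H367R2.H10.T6h

set_option autoImplicit false

/-! Undecidability of the existential theory of `k(t)`. -/

open Polynomial Finset

namespace Pool.Agent.H367R2.H10

open Pool.Agent.Helper844.Sys Pool.Agent.Helper844.Dio

universe u

/-- a recursively enumerable set of natural numbers that is not computable -/
theorem exists_re : ∃ S : ℕ → Prop, REPred S ∧ ¬ ComputablePred S := by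
  refine ⟨fun n => ∃ c : Nat.Partrec.Code, Encodable.decode (α := Nat.Partrec.Code) n = some c ∧
    (c.eval 0).Dom, ?_, ?_⟩
  · have h := ComputablePred.halting_problem_re 0
    have h2 : Partrec fun n : ℕ => (Part.ofOption (Encodable.decode (α := Nat.Partrec.Code) n)).bind
        (fun c => Part.assert (c.eval 0).Dom fun _ => Part.some ()) :=
      (Computable.decode.ofOption).bind (Partrec.comp h Computable.snd).to₂
    refine h2.of_eq fun n => ?_
    ext u
    simp
  · intro hc
    apply ComputablePred.halting_problem 0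
    obtain ⟨hd, hcomp⟩ := hc
    have h3 : ComputablePred fun c : Nat.Partrec.Code =>
        ∃ c' : Nat.Partrec.Code, Encodable.decode (α := Nat.Partrec.Code) (Encodable.encode c) =
          some c' ∧ (c'.eval 0).Dom := ⟨fun c => hd _, hcomp.comp Computable.encode⟩
    refine h3.of_eq fun c => ?_
    simp

theorem X_nonconst {k : Type u} [Field k] (c : k) : (RatFunc.X : RatFunc k) ≠ RatFunc.C c := by
  intro h
  rw [← RatFunc.algebraMap_X, ← RatFunc.algebraMap_C] at h
  exact Polynomial.X_ne_C c (RatFunc.algebraMap_injective k h)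

/-- the existential formula defining an undecidable set -/
theorem main_formula (k : Type u) [Field k] (p : ℕ) [Fact p.Prime] [CharP k p] :
    ∃ (S : (Fin 2 → RatFunc k) → Prop) (H : ℕ → Prop), ED S ∧ ¬ ComputablePred H ∧
      (∀ n (x : RatFunc k), (∀ c : k, x ≠ RatFunc.C c) → S ![x, x ^ p ^ n] → H n) ∧
      (∀ n, H n → S ![RatFunc.X, RatFunc.X ^ p ^ n]) ∧
      (∀ v, S v → v 0 ^ p ^ 4 ≠ v 0) := by
  obtain ⟨H, hre, hnc⟩ := exists_re
  obtain ⟨V, hV, f, L, hL⟩ :=
    Pool.Agent.Helper844.Sys.exists_system H (dprm hre)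
  refine ⟨fun v => FinR p f L (v 0) (v 1), H, ED_FinR p f L, hnc, ?_, ?_, ?_⟩
  · intro n x hx h
    have hs := snd_of_nonconst k p x hx
    obtain ⟨y, hy, hq⟩ := FinR_sound hs f L n (by simpa using h)
    obtain ⟨m, hm, hmn⟩ := (hL _).1 ⟨y, hy, hq⟩
    have : n = m := by omega
    rw [this]; exact hm
  · intro n hn
    obtain ⟨y, hy, hq⟩ := (hL (1 - 4 * (n : ℤ))).2 ⟨n, hn, rfl⟩
    have := FinR_complete (k := k) p f L n y hy hq
    simpa using this
  · intro v hv
    exact hv.1.1

/-- the constants of `F_p(t)` are fixed by the Frobenius map -/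
theorem nonconst_of_pow_ne (p : ℕ) [Fact p.Prime] (x : RatFunc (ZMod p)) (h : x ^ p ^ 4 ≠ x) :
    ∀ c : ZMod p, x ≠ RatFunc.C c := by
  rintro c rfl
  apply h
  rw [← map_pow, ZMod.pow_card_pow]

theorem main_Fp (p : ℕ) [Fact p.Prime] :
    ∃ (S : (Fin 2 → RatFunc (ZMod p)) → Prop) (H : ℕ → Prop), ED S ∧ ¬ ComputablePred H ∧
      ∀ n, H n ↔ ∃ x : RatFunc (ZMod p), S ![x, x ^ p ^ n] := by
  obtain ⟨S, H, h1, h2, h3, h4, h5⟩ := main_formula (ZMod p) p
  refine ⟨S, H, h1, h2, fun n => ⟨fun h => ⟨_, h4 n h⟩, ?_⟩⟩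
  rintro ⟨x, hx⟩
  refine h3 n x (nonconst_of_pow_ne p x ?_) hx
  simpa using h5 _ hx

theorem undecidable_Fp (p : ℕ) [Fact p.Prime] :
    ¬ ComputablePred
        (fun L : List (List (ℤ × List ℕ)) =>
          ∃ x : ℕ → RatFunc (ZMod p),
            ∀ f ∈ L,
              (f.map (fun m => ((m.1 : ℤ) : RatFunc (ZMod p)) * (m.2.map x).prod)).sum = 0) := by
  obtain ⟨S, H, h1, h2, h3⟩ := main_Fp p
  exact undec_ratFunc p S h1 H h2 h3

theorem undecidable_loc (p : ℕ) [Fact p.Prime] :
    ¬ ComputablePred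
        (fun S : List (List (ℕ × List ℕ) × List (ℕ × List ℕ)) ×
                 List (List (ℕ × List ℕ) × List (ℕ × List ℕ)) =>
          ∃ x : ℕ → Localization
              (Submonoid.comap (Polynomial.constantCoeff (R := ZMod p))
                (nonZeroDivisors (ZMod p))),
            (∀ e ∈ S.1,
                (e.1.map (fun m => m.1 • (m.2.map x).prod)).sum
                  = (e.2.map (fun m => m.1 • (m.2.map x).prod)).sum) ∧
            (∀ e ∈ S.2,
                (e.1.map (fun m => m.1 • (m.2.map x).prod)).sum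
                  ≠ (e.2.map (fun m => m.1 • (m.2.map x).prod)).sum)) := by
  obtain ⟨S, H, h1, h2, h3⟩ := main_Fp p
  exact undec_local p S h1 H h2 h3

theorem undecidable_pred (k : Type u) [Field k] (p : ℕ) [Fact p.Prime] [CharP k p] :
    ¬ ComputablePred
        (fun q : List (List (List ℕ × ℕ) × List (List ℕ × ℕ)) × List ℕ × List ℕ =>
          ∃ x : ℕ → RatFunc k,
            (∀ e ∈ q.1,
              (e.1.map (fun m => (m.2 : RatFunc k) *
                  ((List.range m.1.length).map (fun i => x i ^ m.1.getD i 0)).prod)).sum =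
              (e.2.map (fun m => (m.2 : RatFunc k) *
                  ((List.range m.1.length).map (fun i => x i ^ m.1.getD i 0)).prod)).sum) ∧
            (∀ i ∈ q.2.1, x i ∉ Set.range (algebraMap k (RatFunc k))) ∧
            (∀ i ∈ q.2.2, x i ∈ Set.range (algebraMap k (RatFunc k)))) := by
  obtain ⟨S, H, h1, h2, h3, h4, h5⟩ := main_formula k p
  refine undec_pred k p S h1 H h2 fun n => ⟨fun h => ⟨RatFunc.X, ?_, h4 n h⟩, ?_⟩
  · rintro ⟨c, hc⟩
    rw [RatFunc.algebraMap_eq_C] at hc
    exact X_nonconst c hc.symm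
  · rintro ⟨x, hx, hS⟩
    refine h3 n x ?_ hS
    rintro c rfl
    exact hx ⟨c, by rw [RatFunc.algebraMap_eq_C]⟩

end Pool.Agent.H367R2.H10
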